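import Pool.Agent.Lib.MP_b072d9_co.TDefs

/-!
`ds` is a tree metric: metric axioms, the step property, bipartiteness, sums and maxima.
-/

set_option autoImplicit false

namespace Pool.Agent.Lib.MP_b072d9_co
namespace BT

theorem ds_self (t : BT) (x : V t) : ds t x x = 0 := by
  induction t with
  | pt => rfl
  | jn a b iha ihb =>
    cases x with
    | inl x => exact iha x
    | inr x => exact ihb x

theorem ds_comm (t : BT) (x y : V t) : ds t x y = ds t y x := by
  induction t with
  | pt => rfl
  | jn a b iha ihb =>
    cases x with
    | inl x =>
      cases y with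
      | inl y => exact iha x y
      | inr y =>
        have h1 := iha x (root a)
        have h2 := ihb (root b) y
        simp only [ds_lr, ds_rl]
        omega
    | inr x =>
      cases y with
      | inl y =>
        have h1 := iha (root a) y
        have h2 := ihb x (root b)
        simp only [ds_lr, ds_rl]
        omega
      | inr y => exact ihb x y

theorem ds_eq_zero (t : BT) (x y : V t) (h : ds t x y = 0) : x = y := by
  induction t with
  | pt => exact Subsingleton.elim (α := Unit) x y
  | jn a b iha ihb =>
    cases x with
    | inl x =>
      cases y with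
      | inl y => rw [iha x y h]
      | inr y => simp only [ds_lr] at h; omega
    | inr x =>
      cases y with
      | inl y => simp only [ds_rl] at h; omega
      | inr y => rw [ihb x y h]

theorem ds_tri (t : BT) (x y z : V t) : ds t x z ≤ ds t x y + ds t y z := by
  induction t with
  | pt => simp
  | jn a b iha ihb =>
    cases x with
    | inl x =>
      cases y with
      | inl y =>
        cases z with
        | inl z => exact iha x y z
        | inr z =>
          have := iha x y (root a)
          simp only [ds_lr, ds_ll]; omega
      | inr y =>
        cases z with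
        | inl z =>
          have := iha x (root a) z
          simp only [ds_lr, ds_rl, ds_ll]; omega
        | inr z =>
          have := ihb (root b) y z
          simp only [ds_lr, ds_rr]; omega
    | inr x =>
      cases y with
      | inl y =>
        cases z with
        | inl z =>
          have := iha (root a) y z
          simp only [ds_rl, ds_ll]; omega
        | inr z =>
          have := ihb x (root b) z
          simp only [ds_rl, ds_lr, ds_rr]; omega
      | inr y =>
        cases z with
        | inl z =>
          have := ihb x y (root b)
          simp only [ds_rl, ds_rr]; omega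
        | inr z => exact ihb x y z

/-- a next vertex on the way from `x` to `y` -/
theorem ds_step (t : BT) (x y : V t) (h : x ≠ y) :
    ∃ z : V t, ds t x z = 1 ∧ ds t z y + 1 = ds t x y := by
  induction t with
  | pt => exact absurd (Subsingleton.elim (α := Unit) x y) h
  | jn a b iha ihb =>
    cases x with
    | inl x =>
      cases y with
      | inl y =>
        obtain ⟨z, hz1, hz2⟩ := iha x y (fun e => h (by rw [e]))
        exact ⟨Sum.inl z, hz1, hz2⟩
      | inr y =>
        by_cases hx : x = root a
        · refine ⟨Sum.inr (root b), ?_, ?_⟩
          · simp only [ds_lr]; rw [hx, ds_self, ds_self]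
          · simp only [ds_lr, ds_rr]; rw [hx, ds_self]; omega
        · obtain ⟨z, hz1, hz2⟩ := iha x (root a) hx
          refine ⟨Sum.inl z, hz1, ?_⟩
          simp only [ds_lr]; omega
    | inr x =>
      cases y with
      | inl y =>
        by_cases hx : x = root b
        · refine ⟨Sum.inl (root a), ?_, ?_⟩
          · simp only [ds_rl]; rw [hx, ds_self, ds_self]
          · simp only [ds_rl, ds_ll]; rw [hx, ds_self]; omega
        · obtain ⟨z, hz1, hz2⟩ := ihb x (root b) hx
          refine ⟨Sum.inr z, hz1, ?_⟩
          simp only [ds_rl]; omega
      | inr y =>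
        obtain ⟨z, hz1, hz2⟩ := ihb x y (fun e => h (by rw [e]))
        exact ⟨Sum.inr z, hz1, hz2⟩

/-- distances of neighbours differ by exactly one (bipartite) -/
theorem ds_adj (t : BT) (x u v : V t) (h : ds t u v = 1) :
    ds t x u = ds t x v + 1 ∨ ds t x v = ds t x u + 1 := by
  induction t with
  | pt => simp at h
  | jn a b iha ihb =>
    cases u with
    | inl u =>
      cases v with
      | inl v =>
        cases x with
        | inl x => exact iha x u v h
        | inr x =>
          have h1 := iha (root a) u v h
          simp only [ds_rl]; omega
      | inr v =>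
        simp only [ds_lr] at h
        have hu : u = root a := ds_eq_zero a _ _ (by omega)
        have hv : root b = v := ds_eq_zero b _ _ (by omega)
        cases x with
        | inl x =>
          simp only [ds_ll, ds_lr]
          rw [hu, hv, ds_self]; omega
        | inr x =>
          simp only [ds_rl, ds_rr]
          rw [hu, ← hv, ds_self]; omega
    | inr u =>
      cases v with
      | inl v =>
        simp only [ds_rl] at h
        have hu : u = root b := ds_eq_zero b _ _ (by omega)
        have hv : root a = v := ds_eq_zero a _ _ (by omega)
        cases x with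
        | inl x =>
          simp only [ds_ll, ds_lr]
          rw [hu, ← hv, ds_self]; omega
        | inr x =>
          simp only [ds_rl, ds_rr]
          rw [hu, ← hv, ds_self]; omega
      | inr v =>
        cases x with
        | inl x =>
          have h1 := ihb (root b) u v h
          simp only [ds_lr]; omega
        | inr x => exact ihb x u v h

theorem card_V (t : BT) : Fintype.card (V t) = sz t := by
  induction t with
  | pt => rfl
  | jn a b iha ihb =>
    have h : Fintype.card (V (jn a b)) = Fintype.card (V a ⊕ V b) := by
      apply Fintype.card_congr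
      exact Equiv.refl _
    rw [h, Fintype.card_sum, iha, ihb, sz_jn]

/-- sums over the vertices of `jn a b` -/
theorem sum_V {M : Type*} [AddCommMonoid M] (a b : BT) (f : V (jn a b) → M) :
    ∑ y, f y = ∑ y : V a, f (Sum.inl y) + ∑ y : V b, f (Sum.inr y) :=
  Fintype.sum_sum_type (f := (f : V a ⊕ V b → M))

theorem sum_root (t : BT) : ∑ y, ds t (root t) y = sig t := by
  induction t with
  | pt => simp
  | jn a b iha ihb =>
    rw [sum_V]
    simp only [root_jn, ds_ll, ds_lr, ds_self]
    rw [iha, Finset.sum_add_distrib, ihb]
    simp only [Finset.sum_const, Finset.card_univ, card_V, sig_jn]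
    simp
    ring

theorem sum_root' (t : BT) : ∑ y, ds t y (root t) = sig t := by
  rw [← sum_root t]
  exact Finset.sum_congr rfl (fun y _ => ds_comm t y (root t))

theorem sum_all (t : BT) : ∑ x, ∑ y, ds t x y = 2 * wi t := by
  induction t with
  | pt => simp
  | jn a b iha ihb =>
    rw [sum_V]
    have h1 : ∀ x : V a, ∑ y, ds (jn a b) (Sum.inl x) y =
        ∑ y, ds a x y + (sz b * (ds a x (root a) + 1) + sig b) := by
      intro x
      rw [sum_V]
      simp only [ds_ll, ds_lr]
      rw [Finset.sum_add_distrib, sum_root]
      simp only [Finset.sum_const, Finset.card_univ, card_V, smul_eq_mul]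
    have h2 : ∀ x : V b, ∑ y, ds (jn a b) (Sum.inr x) y =
        (sz a * (ds b x (root b) + 1) + sig a) + ∑ y, ds b x y := by
      intro x
      rw [sum_V]
      simp only [ds_rl, ds_rr]
      rw [Finset.sum_add_distrib, sum_root]
      simp only [Finset.sum_const, Finset.card_univ, card_V, smul_eq_mul]
    rw [Finset.sum_congr rfl (fun x _ => h1 x), Finset.sum_congr rfl (fun x _ => h2 x)]
    simp only [Finset.sum_add_distrib, ← Finset.mul_sum, iha, ihb, sum_root']
    simp only [Finset.sum_const, Finset.card_univ, card_V, smul_eq_mul, wi_jn]
    ring

theorem ds_root_le (t : BT) (y : V t) : ds t (root t) y ≤ ht t := by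
  induction t with
  | pt => simp
  | jn a b iha ihb =>
    cases y with
    | inl y =>
      have := iha y
      simp only [root_jn, ds_ll, ht_jn]; omega
    | inr y =>
      have := ihb y
      simp only [root_jn, ds_lr, ds_self, ht_jn]; omega

theorem exists_ht (t : BT) : ∃ y, ds t (root t) y = ht t := by
  induction t with
  | pt => exact ⟨root pt, rfl⟩
  | jn a b iha ihb =>
    rcases le_total (ht a) (ht b + 1) with h | h
    · obtain ⟨y, hy⟩ := ihb
      refine ⟨Sum.inr y, ?_⟩
      simp only [root_jn, ds_lr, ds_self, ht_jn]; omega
    · obtain ⟨y, hy⟩ := iha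
      refine ⟨Sum.inl y, ?_⟩
      simp only [root_jn, ds_ll, ht_jn]; omega

theorem ds_le_dm (t : BT) (x y : V t) : ds t x y ≤ dm t := by
  induction t with
  | pt => simp
  | jn a b iha ihb =>
    cases x with
    | inl x =>
      cases y with
      | inl y =>
        have := iha x y
        simp only [ds_ll, dm_jn]; omega
      | inr y =>
        have h1 := ds_root_le a x
        have h2 := ds_root_le b y
        rw [ds_comm a] at h1
        simp only [ds_lr, dm_jn]; omega
    | inr x =>
      cases y with
      | inl y =>
        have h1 := ds_root_le a y
        have h2 := ds_root_le b x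
        rw [ds_comm b] at h2
        simp only [ds_rl, dm_jn]; omega
      | inr y =>
        have := ihb x y
        simp only [ds_rr, dm_jn]; omega

theorem exists_dm (t : BT) : ∃ x y, ds t x y = dm t := by
  induction t with
  | pt => exact ⟨root pt, root pt, rfl⟩
  | jn a b iha ihb =>
    have hc : dm (jn a b) = dm a ∨ dm (jn a b) = dm b ∨ dm (jn a b) = ht a + 1 + ht b := by
      simp only [dm_jn]; omega
    rcases hc with h | h | h
    · obtain ⟨x, y, hxy⟩ := iha
      exact ⟨Sum.inl x, Sum.inl y, by rw [h, ds_ll, hxy]⟩
    · obtain ⟨x, y, hxy⟩ := ihb
      exact ⟨Sum.inr x, Sum.inr y, by rw [h, ds_rr, hxy]⟩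
    · obtain ⟨x, hx⟩ := exists_ht a
      obtain ⟨y, hy⟩ := exists_ht b
      refine ⟨Sum.inl x, Sum.inr y, ?_⟩
      rw [ds_lr, hy, ds_comm, hx, h]

/-- the degree sum, as a sum over ordered pairs -/
theorem sum_adj (t : BT) :
    ∑ x, ∑ y, (if ds t x y = 1 then 1 else 0) + 2 = 2 * sz t := by
  induction t with
  | pt => simp
  | jn a b iha ihb =>
    rw [sum_V]
    have e1 : ∀ x : V a, ∑ y : V b, (if ds (jn a b) (Sum.inl x) (Sum.inr y) = 1 then 1 else 0) =
        if x = root a then 1 else 0 := by
      intro x
      by_cases hx : x = root a
      · rw [if_pos hx, Finset.sum_eq_single (root b)]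
        · rw [if_pos]; rw [ds_lr, hx, ds_self, ds_self]
        · intro y _ hy
          rw [if_neg]
          rw [ds_lr, hx, ds_self]
          intro h
          exact hy (ds_eq_zero b _ _ (by omega : ds b (root b) y = 0)).symm
        · intro h; exact absurd (Finset.mem_univ _) h
      · rw [if_neg hx]
        apply Finset.sum_eq_zero
        intro y _
        rw [if_neg]
        rw [ds_lr]
        intro h
        exact hx (ds_eq_zero a _ _ (by omega : ds a x (root a) = 0))
    have e2 : ∀ x : V b, ∑ y : V a, (if ds (jn a b) (Sum.inr x) (Sum.inl y) = 1 then 1 else 0) =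
        if x = root b then 1 else 0 := by
      intro x
      by_cases hx : x = root b
      · rw [if_pos hx, Finset.sum_eq_single (root a)]
        · rw [if_pos]; rw [ds_rl, hx, ds_self, ds_self]
        · intro y _ hy
          rw [if_neg]
          rw [ds_rl, hx, ds_self]
          intro h
          exact hy (ds_eq_zero a _ _ (by omega : ds a (root a) y = 0)).symm
        · intro h; exact absurd (Finset.mem_univ _) h
      · rw [if_neg hx]
        apply Finset.sum_eq_zero
        intro y _
        rw [if_neg]
        rw [ds_rl]
        intro h
        exact hx (ds_eq_zero b _ _ (by omega : ds b x (root b) = 0))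
    have h1 : ∀ x : V a, ∑ y, (if ds (jn a b) (Sum.inl x) y = 1 then 1 else 0) =
        ∑ y, (if ds a x y = 1 then 1 else 0) + (if x = root a then 1 else 0) := by
      intro x
      rw [sum_V, e1]
      rfl
    have h2 : ∀ x : V b, ∑ y, (if ds (jn a b) (Sum.inr x) y = 1 then 1 else 0) =
        (if x = root b then 1 else 0) + ∑ y, (if ds b x y = 1 then 1 else 0) := by
      intro x
      rw [sum_V, e2]
      rfl
    rw [Finset.sum_congr rfl (fun x _ => h1 x), Finset.sum_congr rfl (fun x _ => h2 x)]
    simp only [Finset.sum_add_distrib]
    rw [Finset.sum_ite_eq' Finset.univ (root a) (fun _ => 1),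
      Finset.sum_ite_eq' Finset.univ (root b) (fun _ => 1)]
    simp only [Finset.mem_univ, if_true, sz_jn]
    omega

/-- number of ordered adjacent pairs -/
theorem card_adj (t : BT) :
    (Finset.univ.filter (fun p : V t × V t => ds t p.1 p.2 = 1)).card = 2 * (sz t - 1) := by
  rw [Finset.card_filter, Fintype.sum_prod_type]
  have h := sum_adj t
  have h2 := sz_pos t
  simp only at h ⊢
  omega

end BT
end Pool.Agent.Lib.MP_b072d9_co
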