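import Pool.Agent.Lib.MP_b072d9_co.TDefs
import Pool.Agent.Lib.MP_b072d9_co.GMetric

/-!
# MP_b072d9_co, piece G2: isometries of rooted trees (helper64)
-/

set_option autoImplicit false

namespace Pool.Agent.Lib.MP_b072d9_co
namespace BT

theorem Iso.refl (t : BT) : Iso t t := ⟨Equiv.refl _, rfl, fun _ _ => rfl⟩

theorem Iso.symm {t t' : BT} (h : Iso t t') : Iso t' t := by
  obtain ⟨e, h1, h2⟩ := h
  refine ⟨e.symm, by rw [← h1, Equiv.symm_apply_apply], fun x y => ?_⟩
  have := h2 (e.symm x) (e.symm y)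
  rw [Equiv.apply_symm_apply, Equiv.apply_symm_apply] at this
  exact this.symm

theorem Iso.trans {t t' t'' : BT} (h : Iso t t') (h' : Iso t' t'') : Iso t t'' := by
  obtain ⟨e, h1, h2⟩ := h
  obtain ⟨f, h3, h4⟩ := h'
  refine ⟨e.trans f, ?_, fun x y => ?_⟩
  · rw [Equiv.trans_apply, h1, h3]
  · rw [Equiv.trans_apply, Equiv.trans_apply, h4, h2]

theorem Iso.toU {t t' : BT} (h : Iso t t') : IsoU t t' := by
  obtain ⟨e, _, h2⟩ := h
  exact ⟨e, h2⟩

theorem IsoU.symm {t t' : BT} (h : IsoU t t') : IsoU t' t := by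
  obtain ⟨e, h2⟩ := h
  refine ⟨e.symm, fun x y => ?_⟩
  have := h2 (e.symm x) (e.symm y)
  rw [Equiv.apply_symm_apply, Equiv.apply_symm_apply] at this
  exact this.symm

theorem IsoU.trans {t t' t'' : BT} (h : IsoU t t') (h' : IsoU t' t'') : IsoU t t'' := by
  obtain ⟨e, h2⟩ := h
  obtain ⟨f, h4⟩ := h'
  refine ⟨e.trans f, fun x y => ?_⟩
  rw [Equiv.trans_apply, Equiv.trans_apply, h4, h2]

theorem IsoU.sz_eq {t t' : BT} (h : IsoU t t') : sz t' = sz t := by
  obtain ⟨e, _⟩ := h
  rw [← card_V, ← card_V]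
  exact (Fintype.card_congr e).symm

private theorem IsoU_dm_le {t t' : BT} (h : IsoU t t') : dm t ≤ dm t' := by
  obtain ⟨e, h2⟩ := h
  obtain ⟨x, y, hxy⟩ := exists_dm t
  rw [← hxy, ← h2]
  exact ds_le_dm _ _ _

theorem IsoU.dm_eq {t t' : BT} (h : IsoU t t') : dm t' = dm t :=
  le_antisymm (IsoU_dm_le h.symm) (IsoU_dm_le h)

theorem IsoU.wi_eq {t t' : BT} (h : IsoU t t') : wi t' = wi t := by
  obtain ⟨e, h2⟩ := h
  have h3 : ∑ x, ∑ y, ds t' x y = ∑ x, ∑ y, ds t x y := by
    rw [← Equiv.sum_comp e]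
    refine Finset.sum_congr rfl fun x _ => ?_
    rw [← Equiv.sum_comp e]
    exact Finset.sum_congr rfl fun y _ => h2 x y
  rw [sum_all, sum_all] at h3
  omega

theorem Iso.sig_eq {t t' : BT} (h : Iso t t') : sig t' = sig t := by
  obtain ⟨e, h1, h2⟩ := h
  rw [← sum_root, ← sum_root, ← Equiv.sum_comp e, ← h1]
  exact Finset.sum_congr rfl fun y _ => h2 _ y

private theorem Iso_ht_le {t t' : BT} (h : Iso t t') : ht t ≤ ht t' := by
  obtain ⟨e, h1, h2⟩ := h
  obtain ⟨y, hy⟩ := exists_ht t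
  rw [← hy, ← h2, h1]
  exact ds_root_le _ _

theorem Iso.ht_eq {t t' : BT} (h : Iso t t') : ht t' = ht t :=
  le_antisymm (Iso_ht_le h.symm) (Iso_ht_le h)

/-- from `cost_wi` -/
theorem Iso.cost_eq {t t' : BT} (h : Iso t t') (n : ℤ) : cost n t' = cost n t := by
  have h1 := cost_wi n t
  have h2 := cost_wi n t'
  rw [h.toU.sz_eq, h.toU.wi_eq, h.sig_eq, ← h1] at h2
  linarith

/-- for the whole tree (`n = sz t`) the root does not matter -/
theorem IsoU.cost_eq {t t' : BT} (h : IsoU t t') (n : ℤ) (hn : (sz t : ℤ) = n) :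
    cost n t' = cost n t := by
  have h1 := cost_wi n t
  have h2 := cost_wi n t'
  rw [h.sz_eq, h.wi_eq] at h2
  rw [hn, sub_self, zero_mul] at h1 h2
  linarith

theorem Iso.jn_jn {a a' b b' : BT} (ha : Iso a a') (hb : Iso b b') :
    Iso (jn a b) (jn a' b') := by
  obtain ⟨e, h1, h2⟩ := ha
  obtain ⟨f, h3, h4⟩ := hb
  refine ⟨Equiv.sumCongr e f, ?_, ?_⟩
  · rw [root_jn, root_jn, ← h1]
    rfl
  · intro x y
    rcases x with x | x <;> rcases y with y | y
    · exact h2 x y
    · change ds a' (e x) (root a') + 1 + ds b' (root b') (f y) =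
        ds a x (root a) + 1 + ds b (root b) y
      rw [← h1, ← h3, h2, h4]
    · change ds b' (f x) (root b') + 1 + ds a' (root a') (e y) =
        ds b x (root b) + 1 + ds a (root a) y
      rw [← h1, ← h3, h2, h4]
    · exact h4 x y

/-- the order of children does not matter -/
theorem Iso_swap (a b c : BT) : Iso (jn (jn a b) c) (jn (jn a c) b) := by
  have h0 := ds_self a (root a)
  refine ⟨((Equiv.sumAssoc (V a) (V b) (V c)).trans
    ((Equiv.sumCongr (Equiv.refl (V a)) (Equiv.sumComm (V b) (V c))).trans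
      (Equiv.sumAssoc (V a) (V c) (V b)).symm)), rfl, ?_⟩
  intro x y
  rcases x with (x | x) | x <;> rcases y with (y | y) | y
  · rfl
  · rfl
  · rfl
  · rfl
  · rfl
  · change ds b x (root b) + 1 + (ds a (root a) (root a) + 1 + ds c (root c) y) =
      (ds b x (root b) + 1 + ds a (root a) (root a)) + 1 + ds c (root c) y
    omega
  · rfl
  · change (ds c x (root c) + 1 + ds a (root a) (root a)) + 1 + ds b (root b) y =
      ds c x (root c) + 1 + (ds a (root a) (root a) + 1 + ds b (root b) y)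
    omega
  · rfl

/-- moving the root along the edge -/
theorem IsoU_jn (a b : BT) : IsoU (jn a b) (jn b a) := by
  refine ⟨Equiv.sumComm (V a) (V b), ?_⟩
  intro x y
  rcases x with x | x <;> rcases y with y | y
  · rfl
  · rfl
  · rfl
  · rfl

/-- every child can be made the last one -/
theorem pull (t X : BT) (h : X ∈ kids t) :
    ∃ R, Iso t (jn R X) ∧ List.Perm (kids t) (X :: kids R) := by
  induction t with
  | pt => simp at h
  | jn a b iha _ =>
    rw [kids_jn] at h
    rcases List.mem_cons.1 h with h | h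
    · rw [h]
      exact ⟨a, Iso.refl _, List.Perm.refl _⟩
    · obtain ⟨R, h1, h2⟩ := iha h
      refine ⟨jn R b, (Iso.jn_jn h1 (Iso.refl b)).trans (Iso_swap R X b), ?_⟩
      rw [kids_jn, kids_jn]
      exact (h2.cons b).trans (List.Perm.swap _ _ _)

/-- height through the children -/
theorem ht_kids (t : BT) (X : BT) (h : X ∈ kids t) : ht X + 1 ≤ ht t := by
  induction t with
  | pt => simp at h
  | jn a b iha _ =>
    rw [kids_jn] at h
    rw [ht_jn]
    rcases List.mem_cons.1 h with h | h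
    · rw [h]
      exact le_max_right _ _
    · exact (iha h).trans (le_max_left _ _)

theorem exists_kid (t : BT) (h : 1 ≤ ht t) : ∃ X ∈ kids t, ht X + 1 = ht t := by
  induction t with
  | pt => simp at h
  | jn a b iha _ =>
    rw [kids_jn, ht_jn]
    by_cases h1 : ht a ≤ ht b + 1
    · exact ⟨b, List.mem_cons_self, by rw [max_eq_right h1]⟩
    · obtain ⟨X, hX, h2⟩ := iha (by omega)
      exact ⟨X, List.mem_cons_of_mem _ hX, by rw [max_eq_left (by omega), h2]⟩

/-- a tree is level as soon as its children are level of equal heights -/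
theorem lev_of_kids (t : BT) (h1 : ∀ X ∈ kids t, Lev X)
    (h2 : ∀ X ∈ kids t, ∀ Y ∈ kids t, ht X = ht Y) : Lev t := by
  induction t with
  | pt => simp
  | jn a b iha _ =>
    rw [kids_jn] at h1 h2
    rw [lev_jn]
    refine ⟨iha (fun X hX => h1 X (List.mem_cons_of_mem _ hX))
      (fun X hX Y hY => h2 X (List.mem_cons_of_mem _ hX) Y (List.mem_cons_of_mem _ hY)),
      h1 b List.mem_cons_self, ?_⟩
    rcases Nat.eq_zero_or_pos (ht a) with h | h
    · exact Or.inl (ht_eq_zero a h)
    · right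
      obtain ⟨X, hX, h3⟩ := exists_kid a h
      have h4 := h2 X (List.mem_cons_of_mem _ hX) b List.mem_cons_self
      omega

end BT

end Pool.Agent.Lib.MP_b072d9_co
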