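import Mathlib
import Pool.Agent.Lib.MP_b072d9_co.GMetric

/-!
# MP_b072d9_co, piece G3: a root without heavy child is a median
-/

set_option autoImplicit false

namespace Pool.Agent.Lib.MP_b072d9_co
namespace BT

theorem median_root (t : BT) (w : ℕ) (h : ∀ X ∈ kids t, 2 * sz X ≤ sz t + w) (x : V t) :
    sig t ≤ ∑ y, ds t x y + w * ds t x (root t) := by
  induction t generalizing w with
  | pt => simp
  | jn a b iha ihb =>
    have hb : sz b ≤ sz a + w := by
      have := h b (by simp)
      rw [sz_jn] at this
      omega
    have hsum : ∀ z : V (jn a b), ∑ y, ds (jn a b) z y =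
        ∑ y : V a, ds (jn a b) z (Sum.inl y) + ∑ y : V b, ds (jn a b) z (Sum.inr y) :=
      fun z => Fintype.sum_sum_type (fun y : V a ⊕ V b => ds (jn a b) z y)
    rw [hsum x]
    rcases x with x | x
    · have h1 := iha (sz b + w) (fun X hX => by
        have := h X (by simp [hX])
        rw [sz_jn] at this
        omega) x
      simp only [ds_ll, ds_lr, root_jn, sig_jn, Finset.sum_add_distrib, Finset.sum_const,
        Finset.card_univ, card_V, smul_eq_mul, sum_root]
      nlinarith
    · have h1 : sig b ≤ sz b * ds b x (root b) + ∑ y, ds b x y := by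
        rw [← sum_root b, ← card_V b, ← smul_eq_mul, ← Finset.card_univ, ← Finset.sum_const,
          ← Finset.sum_add_distrib]
        refine Finset.sum_le_sum fun y _ => ?_
        have := ds_tri b (root b) x y
        rw [ds_comm b (root b) x] at this
        exact this
      simp only [ds_rr, ds_rl, root_jn, sig_jn, Finset.sum_add_distrib, Finset.sum_const,
        Finset.card_univ, card_V, smul_eq_mul, sum_root, ds_self]
      nlinarith [Nat.mul_le_mul_right (ds b x (root b) + 1) hb]

end BT
end Pool.Agent.Lib.MP_b072d9_co
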