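import Mathlib
import Pool.Agent.Lib.MP_b072d9_co.GMetric

/-!
# MP_b072d9_co, piece G4: trees of type `BT` as `SimpleGraph`s
-/

set_option autoImplicit false

namespace Pool.Agent.Lib.MP_b072d9_co
namespace BT

section metric
variable {α : Type} {D : α → α → ℕ} (h0 : ∀ x, D x x = 0) (h1 : ∀ x y, D x y = 0 → x = y)
  (hs : ∀ x y, D x y = D y x) (ht : ∀ x y z, D x z ≤ D x y + D y z)
  (hst : ∀ x y, x ≠ y → ∃ z, D x z = 1 ∧ D z y + 1 = D x y)

/-- the graph of the pairs at distance one -/
def mgr (D : α → α → ℕ) (h0 : ∀ x, D x x = 0) (hs : ∀ x y, D x y = D y x) : SimpleGraph α where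
  Adj x y := D x y = 1
  symm := ⟨fun x y h => by rw [hs]; exact h⟩
  loopless := ⟨fun x h => by rw [h0] at h; exact zero_ne_one h⟩

include h1 hst in
theorem mgr_walk (k : ℕ) : ∀ x y, D x y = k → ∃ p : (mgr D h0 hs).Walk x y, p.length = k := by
  induction k with
  | zero =>
    intro x y h
    obtain rfl := h1 x y h
    exact ⟨SimpleGraph.Walk.nil, rfl⟩
  | succ k ih =>
    intro x y h
    have hxy : x ≠ y := by
      rintro rfl
      rw [h0] at h
      exact absurd h (by omega)
    obtain ⟨z, hz1, hz2⟩ := hst x y hxy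
    obtain ⟨p, hp⟩ := ih z y (by omega)
    have hadj : (mgr D h0 hs).Adj x z := hz1
    exact ⟨SimpleGraph.Walk.cons hadj p, by rw [SimpleGraph.Walk.length_cons, hp]⟩

include ht in
theorem mgr_le {x y : α} (p : (mgr D h0 hs).Walk x y) : D x y ≤ p.length := by
  induction p with
  | nil => rw [h0]; exact Nat.zero_le _
  | @cons u v w hadj p ih =>
    have h2 : D u v = 1 := hadj
    have h3 := ht u v w
    rw [SimpleGraph.Walk.length_cons]
    omega

include h1 ht hst in
theorem mgr_dist (x y : α) : (mgr D h0 hs).dist x y = D x y := by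
  obtain ⟨p, hp⟩ := mgr_walk h0 h1 hs hst (D x y) x y rfl
  apply le_antisymm
  · rw [← hp]
    exact SimpleGraph.dist_le p
  · obtain ⟨q, hq⟩ := (SimpleGraph.Walk.reachable p).exists_walk_length_eq_dist
    rw [← hq]
    exact mgr_le h0 hs ht q

include h1 hst in
theorem mgr_isTree [Fintype α] [Nonempty α]
    (hc : (Finset.univ.filter (fun p : α × α => D p.1 p.2 = 1)).card =
      2 * (Fintype.card α - 1)) : (mgr D h0 hs).IsTree := by
  classical
  rw [SimpleGraph.isTree_iff_connected_and_card]
  refine ⟨⟨fun x y => ?_⟩, ?_⟩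
  · obtain ⟨p, _⟩ := mgr_walk h0 h1 hs hst (D x y) x y rfl
    exact ⟨p⟩
  · have e1 := (mgr D h0 hs).sum_degrees_eq_twice_card_edges
    have e2 : ∑ v, (mgr D h0 hs).degree v =
        (Finset.univ.filter (fun p : α × α => D p.1 p.2 = 1)).card := by
      rw [Finset.card_filter, ← Finset.univ_product_univ, Finset.sum_product]
      refine Finset.sum_congr rfl fun x _ => ?_
      rw [← Finset.card_filter, ← SimpleGraph.card_neighborFinset_eq_degree]
      congr 1
      ext y
      rw [SimpleGraph.mem_neighborFinset, Finset.mem_filter]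
      exact ⟨fun h => ⟨Finset.mem_univ _, h⟩, fun h => h.2⟩
    have e3 : Nat.card (mgr D h0 hs).edgeSet = (mgr D h0 hs).edgeFinset.card := by
      rw [Nat.card_eq_fintype_card, SimpleGraph.edgeFinset_card]
    have e4 : 1 ≤ Fintype.card α := Fintype.card_pos
    rw [e3, Nat.card_eq_fintype_card]
    omega

end metric

theorem realise (t : BT) (n : ℕ) (hn : sz t = n) :
    ∃ (T : SimpleGraph (Fin n)) (e : V t ≃ Fin n), T.IsTree ∧
      ∀ x y, T.dist (e x) (e y) = ds t x y := by
  have hcard : Fintype.card (V t) = n := (card_V t).trans hn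
  let e : V t ≃ Fin n := Fintype.equivFinOfCardEq hcard
  let D : Fin n → Fin n → ℕ := fun i j => ds t (e.symm i) (e.symm j)
  have h0 : ∀ x, D x x = 0 := fun x => ds_self t _
  have h1 : ∀ x y, D x y = 0 → x = y := fun x y h => e.symm.injective (ds_eq_zero t _ _ h)
  have hs : ∀ x y, D x y = D y x := fun x y => ds_comm t _ _
  have ht : ∀ x y z, D x z ≤ D x y + D y z := fun x y z => ds_tri t _ _ _
  have hst : ∀ x y, x ≠ y → ∃ z, D x z = 1 ∧ D z y + 1 = D x y := by
    intro x y hxy
    obtain ⟨z, hz1, hz2⟩ := ds_step t (e.symm x) (e.symm y) (fun h => hxy (e.symm.injective h))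
    refine ⟨e z, ?_, ?_⟩
    · show ds t (e.symm x) (e.symm (e z)) = 1
      rw [e.symm_apply_apply]
      exact hz1
    · show ds t (e.symm (e z)) (e.symm y) + 1 = _
      rw [e.symm_apply_apply]
      exact hz2
  have : Nonempty (Fin n) := ⟨e (root t)⟩
  have hc : (Finset.univ.filter (fun p : Fin n × Fin n => D p.1 p.2 = 1)).card =
      2 * (Fintype.card (Fin n) - 1) := by
    have hca := card_adj t
    rw [hn] at hca
    rw [Fintype.card_fin, ← hca]
    symm
    refine Finset.card_bij (fun p _ => (e p.1, e p.2)) ?_ ?_ ?_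
    · intro p hp
      rw [Finset.mem_filter] at hp ⊢
      refine ⟨Finset.mem_univ _, ?_⟩
      show ds t (e.symm (e p.1)) (e.symm (e p.2)) = 1
      rw [e.symm_apply_apply, e.symm_apply_apply]
      exact hp.2
    · intro p _ q _ h
      rw [Prod.mk.injEq] at h
      exact Prod.ext (e.injective h.1) (e.injective h.2)
    · intro p hp
      rw [Finset.mem_filter] at hp
      refine ⟨(e.symm p.1, e.symm p.2), ?_, ?_⟩
      · rw [Finset.mem_filter]
        exact ⟨Finset.mem_univ _, hp.2⟩
      · simp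
  refine ⟨mgr D h0 hs, e, mgr_isTree h0 h1 hs hst hc, fun x y => ?_⟩
  rw [mgr_dist h0 h1 hs ht hst]
  show ds t (e.symm (e x)) (e.symm (e y)) = _
  rw [e.symm_apply_apply, e.symm_apply_apply]

end BT
end Pool.Agent.Lib.MP_b072d9_co
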