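import Pool.Agent.Lib.MP_b072d9_co.GMetric

set_option autoImplicit false

/-!
# MP_b072d9_co, piece G5: every `SimpleGraph` tree is a tree of type `BT`
-/

namespace Pool.Agent.Lib.MP_b072d9_co
namespace BT

open Function

/-- attaching a leaf at the vertex `x` -/
theorem exists_leaf (t : BT) (x : V t) : ∃ (t' : BT) (e : Option (V t) ≃ V t'),
    sz t' = sz t + 1 ∧ e (some (root t)) = root t' ∧
      (∀ y z, ds t' (e (some y)) (e (some z)) = ds t y z) ∧
      ∀ y, ds t' (e (some y)) (e none) = ds t y x + 1 := by
  induction t with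
  | pt =>
    refine ⟨jn pt pt, Equiv.ofBijective (fun o : Option (V pt) =>
      (o.elim (Sum.inr (root pt)) (fun y => Sum.inl y) : V pt ⊕ V pt)) ⟨?_, ?_⟩,
      rfl, rfl, fun y z => rfl, fun y => rfl⟩
    · rintro (_ | y) (_ | z) h
      · rfl
      · exact absurd h (by simp)
      · exact absurd h (by simp)
      · rw [Sum.inl_injective (show (Sum.inl _ : V pt ⊕ V pt) = Sum.inl _ from h)]
    · rintro (y | y)
      · exact ⟨some y, rfl⟩
      · exact ⟨none, rfl⟩
  | jn a b iha ihb =>
    rcases x with x | x
    · obtain ⟨a', e, h1, h2, h3, h4⟩ := iha x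
      refine ⟨jn a' b, Equiv.ofBijective (fun o : Option (V a ⊕ V b) =>
        (o.elim (Sum.inl (e none)) (Sum.elim (fun y => Sum.inl (e (some y)))
          (fun y => Sum.inr y)) : V a' ⊕ V b)) ⟨?_, ?_⟩, ?_, ?_, ?_, ?_⟩
      · rintro (_ | y | y) (_ | z | z) h
        · rfl
        · exact absurd (e.injective (Sum.inl_injective
            (show (Sum.inl _ : V a' ⊕ V b) = Sum.inl _ from h))) (by simp)
        · exact (Sum.inl_ne_inr (show (Sum.inl _ : V a' ⊕ V b) = Sum.inr _ from h)).elim
        · exact absurd (e.injective (Sum.inl_injective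
            (show (Sum.inl _ : V a' ⊕ V b) = Sum.inl _ from h))) (by simp)
        · have h' : (Sum.inl (e (some y)) : V a' ⊕ V b) = Sum.inl (e (some z)) := h
          have := e.injective (Sum.inl_injective h')
          rw [Option.some_injective _ this]
        · exact (Sum.inl_ne_inr (show (Sum.inl _ : V a' ⊕ V b) = Sum.inr _ from h)).elim
        · exact (Sum.inr_ne_inl (show (Sum.inr _ : V a' ⊕ V b) = Sum.inl _ from h)).elim
        · exact (Sum.inr_ne_inl (show (Sum.inr _ : V a' ⊕ V b) = Sum.inl _ from h)).elim
        · have h' : (Sum.inr y : V a' ⊕ V b) = Sum.inr z := h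
          rw [Sum.inr_injective h']
      · rintro (y | y)
        · obtain ⟨o, rfl⟩ := e.surjective y
          rcases o with _ | y
          · exact ⟨none, rfl⟩
          · exact ⟨some (Sum.inl y), rfl⟩
        · exact ⟨some (Sum.inr y), rfl⟩
      · simp only [sz_jn, h1]
        omega
      · change (Sum.inl (e (some (root a))) : V a' ⊕ V b) = Sum.inl (root a')
        rw [h2]
      · rintro (y | y) (z | z)
        · exact h3 y z
        · change ds a' (e (some y)) (root a') + 1 + ds b (root b) z = _
          rw [← h2, h3]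
          rfl
        · change ds b y (root b) + 1 + ds a' (root a') (e (some z)) = _
          rw [← h2, h3]
          rfl
        · rfl
      · rintro (y | y)
        · exact h4 y
        · change ds b y (root b) + 1 + ds a' (root a') (e none) = _
          rw [← h2, h4]
          rfl
    · obtain ⟨b', e, h1, h2, h3, h4⟩ := ihb x
      refine ⟨jn a b', Equiv.ofBijective (fun o : Option (V a ⊕ V b) =>
        (o.elim (Sum.inr (e none)) (Sum.elim (fun y => Sum.inl y)
          (fun y => Sum.inr (e (some y)))) : V a ⊕ V b')) ⟨?_, ?_⟩, ?_, rfl, ?_, ?_⟩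
      · rintro (_ | y | y) (_ | z | z) h
        · rfl
        · exact (Sum.inr_ne_inl (show (Sum.inr _ : V a ⊕ V b') = Sum.inl _ from h)).elim
        · exact absurd (e.injective (Sum.inr_injective
            (show (Sum.inr _ : V a ⊕ V b') = Sum.inr _ from h))) (by simp)
        · exact (Sum.inl_ne_inr (show (Sum.inl _ : V a ⊕ V b') = Sum.inr _ from h)).elim
        · have h' : (Sum.inl y : V a ⊕ V b') = Sum.inl z := h
          rw [Sum.inl_injective h']
        · exact (Sum.inl_ne_inr (show (Sum.inl _ : V a ⊕ V b') = Sum.inr _ from h)).elim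
        · exact absurd (e.injective (Sum.inr_injective
            (show (Sum.inr _ : V a ⊕ V b') = Sum.inr _ from h))) (by simp)
        · exact (Sum.inr_ne_inl (show (Sum.inr _ : V a ⊕ V b') = Sum.inl _ from h)).elim
        · have h' : (Sum.inr (e (some y)) : V a ⊕ V b') = Sum.inr (e (some z)) := h
          have := e.injective (Sum.inr_injective h')
          rw [Option.some_injective _ this]
      · rintro (y | y)
        · exact ⟨some (Sum.inl y), rfl⟩
        · obtain ⟨o, rfl⟩ := e.surjective y
          rcases o with _ | y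
          · exact ⟨none, rfl⟩
          · exact ⟨some (Sum.inr y), rfl⟩
      · simp only [sz_jn, h1]
        omega
      · rintro (y | y) (z | z)
        · rfl
        · change ds a y (root a) + 1 + ds b' (root b') (e (some z)) = _
          rw [← h2, h3]
          rfl
        · change ds b' (e (some y)) (root b') + 1 + ds a (root a) z = _
          rw [← h2, h3]
          rfl
        · exact h3 y z
      · rintro (y | y)
        · change ds a y (root a) + 1 + ds b' (root b') (e none) = _
          rw [← h2, h4]
          rfl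
        · exact h4 y

/-- in a tree the next vertex on the way to `v` is unique -/
theorem next_unique {α : Type*} {T : SimpleGraph α} (hT : T.IsTree) {v u w₁ w₂ : α}
    (h₁ : T.Adj w₁ u) (h₂ : T.Adj w₂ u) (d₁ : T.dist v u = T.dist v w₁ + 1)
    (d₂ : T.dist v u = T.dist v w₂ + 1) : w₁ = w₂ := by
  obtain ⟨p, hp, hp'⟩ := hT.connected.exists_path_of_dist v w₁
  obtain ⟨q, hq, hq'⟩ := hT.connected.exists_path_of_dist v w₂
  have e₁ : (p.concat h₁).IsPath := SimpleGraph.Walk.isPath_of_length_eq_dist _ (by
    rw [SimpleGraph.Walk.length_concat, hp', d₁])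
  have e₂ : (q.concat h₂).IsPath := SimpleGraph.Walk.isPath_of_length_eq_dist _ (by
    rw [SimpleGraph.Walk.length_concat, hq', d₂])
  have h : p.concat h₁ = q.concat h₂ :=
    (hT.existsUnique_path v u).unique e₁ e₂
  have := congrArg SimpleGraph.Walk.penultimate h
  simpa using this

/-- growing a subtree -/
theorem grow (n : ℕ) (T : SimpleGraph (Fin n)) (hT : T.IsTree) (c : Fin n) (k : ℕ) (hk : 1 ≤ k)
    (hkn : k ≤ n) : ∃ (t : BT) (f : V t → Fin n), sz t = k ∧ Injective f ∧ f (root t) = c ∧
      ∀ x y, T.dist (f x) (f y) = ds t x y := by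
  induction k, hk using Nat.le_induction with
  | base =>
    refine ⟨pt, fun _ => c, rfl, fun x y _ => Subsingleton.elim (α := Unit) x y, rfl,
      fun x y => by simp⟩
  | succ k hk ih =>
    obtain ⟨t, f, h1, h2, h3, h4⟩ := ih (by omega)
    -- a vertex outside of the range
    have hns : ¬ Surjective f := by
      intro hs
      have := Fintype.card_of_bijective (f := f) ⟨h2, hs⟩
      rw [card_V, h1, Fintype.card_fin] at this
      omega
    rw [Surjective] at hns
    push Not at hns
    obtain ⟨w₀, hw₀⟩ := hns
    obtain ⟨p⟩ := hT.connected (f (root t)) w₀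
    obtain ⟨dd, -, hd1, hd2⟩ := p.exists_boundary_dart (Set.range f) ⟨_, rfl⟩
      (by rintro ⟨x, hx⟩; exact hw₀ x hx)
    obtain ⟨x, hx⟩ := hd1
    have hadj : T.Adj (f x) dd.snd := hx ▸ dd.adj
    set w := dd.snd with hw
    have hwr : ∀ z, f z ≠ w := fun z hz => hd2 ⟨z, hz⟩
    -- distances to the new vertex
    have hdist : ∀ y, T.dist (f y) w = ds t y x + 1 := by
      intro y
      rcases hT.dist_eq_dist_add_one_of_adj (f y) hadj with h | h
      · exfalso
        have hne : x ≠ y := by
          rintro rfl
          rw [SimpleGraph.dist_self] at h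
          omega
        obtain ⟨z, hz1, hz2⟩ := ds_step t x y hne
        have e1 : T.Adj (f z) (f x) := by
          rw [← SimpleGraph.dist_eq_one_iff_adj, h4, ds_comm, hz1]
        have e2 : T.dist (f y) (f x) = T.dist (f y) (f z) + 1 := by
          rw [h4, h4, ds_comm t y x, ds_comm t y z, hz2]
        exact hwr z (next_unique hT e1 hadj.symm e2 h)
      · rw [h, h4]
    obtain ⟨t', e, g1, g2, g3, g4⟩ := exists_leaf t x
    refine ⟨t', fun z => (e.symm z).elim w f, by omega, ?_, ?_, ?_⟩
    · intro z z' h
      obtain ⟨o, rfl⟩ := e.surjective z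
      obtain ⟨o', rfl⟩ := e.surjective z'
      simp only [Equiv.symm_apply_apply] at h
      rcases o with _ | y <;> rcases o' with _ | y'
      · rfl
      · exact absurd h.symm (hwr y')
      · exact absurd h (hwr y)
      · rw [h2 h]
    · rw [← g2]
      simp only [Equiv.symm_apply_apply]
      exact h3
    · intro z z'
      obtain ⟨o, rfl⟩ := e.surjective z
      obtain ⟨o', rfl⟩ := e.surjective z'
      simp only [Equiv.symm_apply_apply]
      rcases o with _ | y <;> rcases o' with _ | y'
      · simp only [Option.elim_none, SimpleGraph.dist_self]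
        exact (ds_self t' _).symm
      · simp only [Option.elim_none, Option.elim_some]
        rw [SimpleGraph.dist_comm, hdist, ds_comm t' (e none), g4]
      · simp only [Option.elim_none, Option.elim_some]
        rw [hdist, g4]
      · simp only [Option.elim_some]
        rw [h4, g3]

theorem tree_BT (n : ℕ) (T : SimpleGraph (Fin n)) (hT : T.IsTree) (c : Fin n) :
    ∃ (t : BT) (e : V t ≃ Fin n), sz t = n ∧ e (root t) = c ∧
      ∀ x y, T.dist (e x) (e y) = ds t x y := by
  have hn : 1 ≤ n := by
    have := c.2
    omega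
  obtain ⟨t, f, h1, h2, h3, h4⟩ := grow n T hT c n hn le_rfl
  have hb : Bijective f := by
    rw [Fintype.bijective_iff_injective_and_card]
    exact ⟨h2, by rw [card_V, h1, Fintype.card_fin]⟩
  exact ⟨t, Equiv.ofBijective f hb, h1, h3, h4⟩

end BT
end Pool.Agent.Lib.MP_b072d9_co
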