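import Mathlib

set_option autoImplicit false

namespace Pool.Agent.Lib.MP_b072d9_co

/-! Pure real inequalities for the window theorem. `N = n - 3 v`. -/

theorem pureQ (y : ℝ) (hy : 34 / 5 ≤ y) :
    5 / 16 / (y + 3 / 2) + 1 / 2 / (y + 9 / 10) + 31 / 20 / (y - 11 / 50) ≤
      241 / 100 / (y + 1 / 19) := by
  obtain ⟨z, rfl⟩ : ∃ z, y = 34 / 5 + z := ⟨y - 34 / 5, by ring⟩
  have hz : 0 ≤ z := by linarith
  have h1 : 0 < 34 / 5 + z + 3 / 2 := by linarith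
  have h2 : 0 < 34 / 5 + z + 9 / 10 := by linarith
  have h3 : 0 < 34 / 5 + z - 11 / 50 := by linarith
  have h4 : 0 < 34 / 5 + z + 1 / 19 := by linarith
  rw [div_add_div _ _ h1.ne' h2.ne', div_add_div _ _ (mul_pos h1 h2).ne' h3.ne',
    div_le_div_iff₀ (mul_pos (mul_pos h1 h2) h3) h4, ← sub_nonneg]
  ring_nf
  positivity

theorem pureP (y : ℝ) (hy : 34 / 5 ≤ y) :
    213 / 500 / (y + 5 / 4) + 1 / 2 / (y + 9 / 10) + 27 / 20 / (y - 11 / 50) ≤
      241 / 100 / (y + 1 / 19) := by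
  obtain ⟨z, rfl⟩ : ∃ z, y = 34 / 5 + z := ⟨y - 34 / 5, by ring⟩
  have hz : 0 ≤ z := by linarith
  have h1 : 0 < 34 / 5 + z + 5 / 4 := by linarith
  have h2 : 0 < 34 / 5 + z + 9 / 10 := by linarith
  have h3 : 0 < 34 / 5 + z - 11 / 50 := by linarith
  have h4 : 0 < 34 / 5 + z + 1 / 19 := by linarith
  rw [div_add_div _ _ h1.ne' h2.ne', div_add_div _ _ (mul_pos h1 h2).ne' h3.ne',
    div_le_div_iff₀ (mul_pos (mul_pos h1 h2) h3) h4, ← sub_nonneg]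
  ring_nf
  positivity

end Pool.Agent.Lib.MP_b072d9_co
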