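import Pool.Agent.Lib.MP_b072d9_co.LImb

set_option autoImplicit false

namespace Pool.Agent.Lib.MP_b072d9_co

/-! Real inequalities for the window theorem, version with constant four. `N = n - 3 v`. -/


theorem pureQ4 (y : ℝ) (hy : 339 / 50 ≤ y) :
    5 / 16 / (y + 3 / 2) + 1 / 2 / (y + 9 / 10) + 7751 / 5000 / (y - 11 / 50) ≤
      2394 / 1000 / (y + 3 / 47) := by
  obtain ⟨z, rfl⟩ : ∃ z, y = 339 / 50 + z := ⟨y - 339 / 50, by ring⟩
  have hz : 0 ≤ z := by linarith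
  have h1 : 0 < 339 / 50 + z + 3 / 2 := by linarith
  have h2 : 0 < 339 / 50 + z + 9 / 10 := by linarith
  have h3 : 0 < 339 / 50 + z - 11 / 50 := by linarith
  have h4 : 0 < 339 / 50 + z + 3 / 47 := by linarith
  rw [div_add_div _ _ h1.ne' h2.ne', div_add_div _ _ (mul_pos h1 h2).ne' h3.ne',
    div_le_div_iff₀ (mul_pos (mul_pos h1 h2) h3) h4, ← sub_nonneg]
  ring_nf
  positivity

theorem pureP4 (y : ℝ) (hy : 339 / 50 ≤ y) :
    213 / 500 / (y + 5 / 4) + 1 / 2 / (y + 9 / 10) + 1351 / 1000 / (y - 11 / 50) ≤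
      2394 / 1000 / (y + 3 / 47) := by
  obtain ⟨z, rfl⟩ : ∃ z, y = 339 / 50 + z := ⟨y - 339 / 50, by ring⟩
  have hz : 0 ≤ z := by linarith
  have h1 : 0 < 339 / 50 + z + 5 / 4 := by linarith
  have h2 : 0 < 339 / 50 + z + 9 / 10 := by linarith
  have h3 : 0 < 339 / 50 + z - 11 / 50 := by linarith
  have h4 : 0 < 339 / 50 + z + 3 / 47 := by linarith
  rw [div_add_div _ _ h1.ne' h2.ne', div_add_div _ _ (mul_pos h1 h2).ne' h3.ne',
    div_le_div_iff₀ (mul_pos (mul_pos h1 h2) h3) h4, ← sub_nonneg]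
  ring_nf
  positivity



theorem hom_aux4 (v N c d : ℝ) (hv : 0 < v) (_ : 0 < N + d * v) :
    c * v ^ 2 / (N + d * v) = v * (c / (N / v + d)) := by
  rw [show N / v + d = (N + d * v) / v by field_simp]
  rw [div_div_eq_mul_div]
  ring

/-- right-hand side term -/
theorem rhs_lb4 (v N : ℝ) (hv : 47 ≤ v) (hN : 339 / 50 * v ≤ N) :
    v * (2394 / 1000 / (N / v + 3 / 47)) ≤ 5 / 2 * (v - 1) ^ 2 / (N + 3) := by
  have h0 : 0 < v := by linarith
  rw [← hom_aux4 v N (2394 / 1000) (3 / 47) h0 (by linarith)]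
  rw [div_le_div_iff₀ (by linarith) (by linarith)]
  have h1 : (46 / 47 * v) ^ 2 ≤ (v - 1) ^ 2 := by
    apply pow_le_pow_left₀ (by linarith)
    linarith
  have h2 : N + 3 ≤ N + 3 / 47 * v := by linarith
  have h3 : 2394 / 1000 * v ^ 2 ≤ 5 / 2 * (v - 1) ^ 2 := by nlinarith
  exact mul_le_mul h3 h2 (by linarith) (by positivity)

theorem y_lb4 (v N : ℝ) (hv : 47 ≤ v) (hN : 339 / 50 * v ≤ N) : 339 / 50 ≤ N / v := by
  rw [le_div_iff₀ (by linarith)]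
  linarith

/-- main inequality of case P -/
theorem mainP4 (v N k i S : ℝ) (hv : 47 ≤ v) (hN : 339 / 50 * v ≤ N) (hk : 1 ≤ k)
    (hk1 : 384 * k ≤ 25 * v) (hkN : k * (N + 9 / 10 * v) ≤ 1 / 2 * v ^ 2) (hi : 0 ≤ i)
    (hi1 : 6 * i ≤ v) (hS : S * (N + 5 / 4 * v) ≤ 5 / 8 * (v - k + i) ^ 2) :
    S / 2 + k + (v + 3 * k - 1) * (v + 2 * k - 2) / (N - 1 - 3 * k) ≤
      5 / 2 * (v - 1) ^ 2 / (N + 3) := by
  have h0 : 0 < v := by linarith
  refine le_trans ?_ (rhs_lb4 v N hv hN)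
  have hy := y_lb4 v N hv hN
  have hp := mul_le_mul_of_nonneg_left (pureP4 (N / v) hy) h0.le
  refine le_trans ?_ hp
  have t1 : S / 2 ≤ v * (213 / 500 / (N / v + 5 / 4)) := by
    rw [← hom_aux4 v N (213 / 500) (5 / 4) h0 (by linarith), le_div_iff₀ (by linarith)]
    have : (v - k + i) ^ 2 ≤ (7 / 6 * v) ^ 2 := by
      apply pow_le_pow_left₀ (by linarith)
      linarith
    nlinarith
  have t2 : k ≤ v * (1 / 2 / (N / v + 9 / 10)) := by
    rw [← hom_aux4 v N (1 / 2) (9 / 10) h0 (by linarith), le_div_iff₀ (by linarith)]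
    linarith
  have t3 : (v + 3 * k - 1) * (v + 2 * k - 2) / (N - 1 - 3 * k) ≤
      v * (1351 / 1000 / (N / v - 11 / 50)) := by
    have e := hom_aux4 v N (1351 / 1000) (-(11 / 50)) h0 (by linarith)
    rw [show N / v - 11 / 50 = N / v + -(11 / 50) by ring, ← e]
    apply div_le_div₀ (by positivity) _ (by linarith) (by linarith)
    have a1 : v + 3 * k - 1 ≤ 153 / 128 * v := by linarith
    have a2 : v + 2 * k - 2 ≤ 217 / 192 * v := by linarith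
    have a3 := mul_le_mul a1 a2 (by linarith) (by linarith)
    nlinarith
  have e : v * (213 / 500 / (N / v + 5 / 4) + 1 / 2 / (N / v + 9 / 10) + 1351 / 1000 / (N / v - 11 / 50))
      = v * (213 / 500 / (N / v + 5 / 4)) + v * (1 / 2 / (N / v + 9 / 10)) +
        v * (1351 / 1000 / (N / v - 11 / 50)) := by ring
  rw [e]
  linarith

/-- main inequality of case Q -/
theorem mainQ4 (v N k i j S : ℝ) (hv : 47 ≤ v) (hN : 339 / 50 * v ≤ N) (hk : 1 ≤ k)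
    (hk1 : 384 * k ≤ 25 * v) (hkN : k * (N + 9 / 10 * v) ≤ 1 / 2 * v ^ 2) (hi : 0 ≤ i)
    (hi1 : 6 * i ≤ v) (hj : 0 ≤ j) (hj1 : 6 * j ≤ v)
    (hS : S * (N + 3 / 2 * v) ≤ 5 / 8 * (v - k - i) ^ 2) :
    S / 2 + k + (v + 3 * k - 1) * (v + 2 * k - 2 + j) / (N - 1 - 3 * k) ≤
      5 / 2 * (v - 1) ^ 2 / (N + 3) := by
  have h0 : 0 < v := by linarith
  refine le_trans ?_ (rhs_lb4 v N hv hN)
  have hy := y_lb4 v N hv hN
  have hp := mul_le_mul_of_nonneg_left (pureQ4 (N / v) hy) h0.le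
  refine le_trans ?_ hp
  have t1 : S / 2 ≤ v * (5 / 16 / (N / v + 3 / 2)) := by
    rw [← hom_aux4 v N (5 / 16) (3 / 2) h0 (by linarith), le_div_iff₀ (by linarith)]
    have : (v - k - i) ^ 2 ≤ (v) ^ 2 := by
      apply pow_le_pow_left₀ (by linarith)
      linarith
    nlinarith
  have t2 : k ≤ v * (1 / 2 / (N / v + 9 / 10)) := by
    rw [← hom_aux4 v N (1 / 2) (9 / 10) h0 (by linarith), le_div_iff₀ (by linarith)]
    linarith
  have t3 : (v + 3 * k - 1) * (v + 2 * k - 2 + j) / (N - 1 - 3 * k) ≤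
      v * (7751 / 5000 / (N / v - 11 / 50)) := by
    have e := hom_aux4 v N (7751 / 5000) (-(11 / 50)) h0 (by linarith)
    rw [show N / v - 11 / 50 = N / v + -(11 / 50) by ring, ← e]
    apply div_le_div₀ (by positivity) _ (by linarith) (by linarith)
    have a1 : v + 3 * k - 1 ≤ 153 / 128 * v := by linarith
    have a2 : v + 2 * k - 2 + j ≤ (217 / 192 + 1 / 6) * v := by linarith
    have a3 := mul_le_mul a1 a2 (by linarith) (by linarith)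
    nlinarith
  have e : v * (5 / 16 / (N / v + 3 / 2) + 1 / 2 / (N / v + 9 / 10) + 7751 / 5000 / (N / v - 11 / 50))
      = v * (5 / 16 / (N / v + 3 / 2)) + v * (1 / 2 / (N / v + 9 / 10)) +
        v * (7751 / 5000 / (N / v - 11 / 50)) := by ring
  rw [e]
  linarith

/-- `S ≤ 2 k + 2`, case P -/
theorem smallP4 (v N k i S : ℝ) (hv : 47 ≤ v) (hN : 339 / 50 * v ≤ N) (hk : 1 ≤ k)
    (hk1 : 384 * k ≤ 25 * v) (hi : 0 ≤ i)
    (hi1 : 6 * i ≤ v) (hS : S * (N + 5 / 4 * v) ≤ 5 / 8 * (v - k + i) ^ 2)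
    (hD : 55 / 56 * (v - k - 1) ^ 2 - 59 / 56 * i ^ 2 ≤ 2 * (k + 1) * (N - 2)) :
    S ≤ 2 * k + 2 := by
  have h0 : 0 < v := by linarith
  by_contra hc
  push Not at hc
  have h1 : (2 * k + 2) * (N - 2) < S * (N + 5 / 4 * v) := by
    have e1 : (2 * k + 2) * (N - 2) ≤ S * (N - 2) :=
      mul_le_mul_of_nonneg_right hc.le (by linarith)
    have e2 : S * (N - 2) < S * (N + 5 / 4 * v) :=
      mul_lt_mul_of_pos_left (by linarith) (by linarith)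
    linarith
  have h2 : 55 / 56 * (v - k - 1) ^ 2 - 59 / 56 * i ^ 2 < 5 / 8 * (v - k + i) ^ 2 := by
    linarith
  have h3 : (46 / 47 * v - k) ^ 2 ≤ (v - k - 1) ^ 2 := by
    apply pow_le_pow_left₀ (by linarith)
    linarith
  have h4 : 55 / 56 * (46 / 47 * v - k) ^ 2 - 59 / 56 * i ^ 2 < 5 / 8 * (v - k + i) ^ 2 := by
    linarith
  nlinarith [mul_nonneg hi (sub_nonneg.2 hi1), mul_nonneg (by linarith : 0 ≤ k)
    (sub_nonneg.2 hk1), mul_nonneg (sub_nonneg.2 hi1) (sub_nonneg.2 hk1),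
    mul_nonneg hi (by linarith : 0 ≤ k), mul_nonneg hi (sub_nonneg.2 hk1),
    mul_nonneg (by linarith : 0 ≤ k) (sub_nonneg.2 hi1)]

/-- `S + T₂ ≤ 2 k + 2`, case Q -/
theorem smallQ4 (v N k i j S : ℝ) (hv : 47 ≤ v) (hN : 339 / 50 * v ≤ N) (hk : 1 ≤ k)
    (hk1 : 384 * k ≤ 25 * v) (hkN : k * (N + 9 / 10 * v) ≤ 1 / 2 * v ^ 2) (hi : 0 ≤ i)
    (hij : i ≤ j) (hj1 : 6 * j ≤ v) (hS : S * (N + 3 / 2 * v) ≤ 5 / 8 * (v - k - i) ^ 2)
    (hS0 : 0 ≤ S)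
    (hD : 55 / 56 * (v - k - 1) ^ 2 - 59 / 56 * i ^ 2 ≤ 2 * (k + 1) * (N - 2)) :
    S + (i + j) * (v + 2 * k - 2 + j) / (N - 1 - 3 * k) ≤ 2 * k + 2 := by
  have h0 : 0 < v := by linarith
  have hN' : 0 < N - 1 - 3 * k := by linarith
  have hN0 : 0 < N := by linarith
  set T := (i + j) * (v + 2 * k - 2 + j) / (N - 1 - 3 * k) with hT
  have hT1 : T * (N - 1 - 3 * k) = (i + j) * (v + 2 * k - 2 + j) := by
    rw [hT, div_mul_cancel₀ _ hN'.ne']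
  have hT0 : 0 ≤ T := by
    rw [hT]; apply div_nonneg _ hN'.le
    apply mul_nonneg <;> linarith
  have h3 : (46 / 47 * v - k) ^ 2 ≤ (v - k - 1) ^ 2 := by
    apply pow_le_pow_left₀ (by linarith)
    linarith
  have h4 : 55 / 56 * (46 / 47 * v - k) ^ 2 - 59 / 56 * i ^ 2 ≤ (2 * k + 2) * N := by
    linarith
  have h5 : (i + j) * (v + 2 * k - 2 + j) ≤ (i + v / 6) * (7 / 6 * v + 2 * k) := by
    apply mul_le_mul <;> linarith
  have hi1 : 6 * i ≤ v := by linarith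
  have hk0 : 0 ≤ k := by linarith
  rcases le_total N (14 * v) with hc | hc
  · have a1 : S * (31 / 28 * N) ≤ S * (N + 3 / 2 * v) :=
      mul_le_mul_of_nonneg_left (by linarith) hS0
    have a2 : T * N ≤ T * (10331 / 10000 * (N - 1 - 3 * k)) :=
      mul_le_mul_of_nonneg_left (by linarith) hT0
    have a3 : (S + T) * N ≤ (2 * k + 2) * N := by
      have e1 : S * N ≤ 28 / 31 * (5 / 8 * (v - k - i) ^ 2) := by linarith
      have e2 : T * N ≤ 10331 / 10000 * ((i + v / 6) * (7 / 6 * v + 2 * k)) := by linarith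
      have e3 : 28 / 31 * (5 / 8 * (v - k - i) ^ 2) +
          10331 / 10000 * ((i + v / 6) * (7 / 6 * v + 2 * k)) ≤
          55 / 56 * (46 / 47 * v - k) ^ 2 - 59 / 56 * i ^ 2 := by
        have p1 := mul_nonneg h0.le (sub_nonneg.2 hk1)
        have p2 := mul_nonneg hi (sub_nonneg.2 hk1)
        have p3 := mul_nonneg hi (sub_nonneg.2 hi1)
        have p4 := mul_nonneg h0.le (sub_nonneg.2 hi1)
        have p5 := mul_nonneg hk0 (sub_nonneg.2 hk1)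
        have p6 := sq_nonneg k
        have p7 := mul_nonneg h0.le hi
        linarith
      linarith
    exact le_of_mul_le_mul_right a3 hN0
  · have hk2 : 149 * k ≤ 5 * v := by
      have : k * (149 / 10 * v) ≤ 1 / 2 * v ^ 2 := by
        refine le_trans (mul_le_mul_of_nonneg_left ?_ hk0) hkN
        linarith
      have e : (149 * k) * v ≤ (5 * v) * v := by linarith
      exact le_of_mul_le_mul_right e h0
    have a1 : S * N ≤ S * (N + 3 / 2 * v) :=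
      mul_le_mul_of_nonneg_left (by linarith) hS0
    have a2 : T * N ≤ T * (10088 / 10000 * (N - 1 - 3 * k)) :=
      mul_le_mul_of_nonneg_left (by linarith) hT0
    have a3 : (S + T) * N ≤ (2 * k + 2) * N := by
      have e1 : S * N ≤ (5 / 8 * (v - k - i) ^ 2) := by linarith
      have e2 : T * N ≤ 10088 / 10000 * ((i + v / 6) * (7 / 6 * v + 2 * k)) := by linarith
      have e3 : (5 / 8 * (v - k - i) ^ 2) +
          10088 / 10000 * ((i + v / 6) * (7 / 6 * v + 2 * k)) ≤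
          55 / 56 * (46 / 47 * v - k) ^ 2 - 59 / 56 * i ^ 2 := by
        have p1 := mul_nonneg h0.le (sub_nonneg.2 hk2)
        have p2 := mul_nonneg hi (sub_nonneg.2 hk2)
        have p3 := mul_nonneg hi (sub_nonneg.2 hi1)
        have p4 := mul_nonneg h0.le (sub_nonneg.2 hi1)
        have p6 := sq_nonneg k
        have p7 := mul_nonneg h0.le hi
        linarith
      linarith
    exact le_of_mul_le_mul_right a3 hN0



/-- case P (`j ≤ i`), `h' < h` -/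
theorem closeP4 (v N k i j μ r S : ℝ) (hv : 47 ≤ v) (hN : 339 / 50 * v ≤ N) (hk : 1 ≤ k)
    (hk1 : 384 * k ≤ 25 * v) (hkN : k * (N + 9 / 10 * v) ≤ 1 / 2 * v ^ 2) (hj : 0 ≤ j)
    (hij : j ≤ i) (hi1 : 6 * i ≤ v) (hS : S * (N + 5 / 4 * v) ≤ 5 / 8 * (v - k + i) ^ 2)
    (_hS0 : 0 ≤ S) (hμ : 0 ≤ μ) (hr : 0 ≤ r)
    (hD : 55 / 56 * (v - k - 1) ^ 2 - 59 / 56 * i ^ 2 ≤ 2 * (k + 1) * (N - 2))
    (hB : r * (N - 1 - 3 * k + 3 * μ + 3 / 2 * r) ≤
      μ * (v + 3 * k - 1 - μ / 2) + (j ^ 2 - i ^ 2) / 2) :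
    S * (μ / 2 + (i - j) / 2) + 4 * ((v - k - 3 + i) / 2) + k * (2 - (i - j) + μ + r) +
      (1 + r) * (v + k - 1 - μ - r - j) ≤ 5 / 2 * (v - 1) ^ 2 / (N + 3) * μ + 4 * (v - 1) := by
  have h0 : 0 < v := by linarith
  have hi : 0 ≤ i := by linarith
  have hN' : 0 < N - 1 - 3 * k := by linarith
  have m1 := mainP4 v N k i S hv hN hk hk1 hkN hi hi1 hS
  have m2 := smallP4 v N k i S hv hN hk hk1 hi hi1 hS hD
  set R := 5 / 2 * (v - 1) ^ 2 / (N + 3) with hR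
  set T := (v + 3 * k - 1) * (v + 2 * k - 2) / (N - 1 - 3 * k) with hT
  have hT1 : T * (N - 1 - 3 * k) = (v + 3 * k - 1) * (v + 2 * k - 2) := by
    rw [hT, div_mul_cancel₀ _ hN'.ne']
  -- r X ≤ μ T
  have hX : 0 ≤ v + 2 * k - 2 := by linarith
  have b1 : r * (N - 1 - 3 * k) ≤ μ * (v + 3 * k - 1) := by
    have e1 : 0 ≤ r * μ := mul_nonneg hr hμ
    have e2 : 0 ≤ r * r := mul_nonneg hr hr
    have e3 : 0 ≤ μ * μ := mul_nonneg hμ hμ
    have e4 : j ^ 2 ≤ i ^ 2 := by apply pow_le_pow_left₀ hj hij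
    linarith
  have b2 : r * (v + 2 * k - 2) ≤ μ * T := by
    have e := mul_le_mul_of_nonneg_right b1 hX
    have e2 : (r * (v + 2 * k - 2)) * (N - 1 - 3 * k) ≤ (μ * T) * (N - 1 - 3 * k) := by
      rw [mul_assoc μ T, hT1]
      linarith
    exact le_of_mul_le_mul_right e2 hN'
  have b3 : μ * (S / 2 + k + T) ≤ μ * R := mul_le_mul_of_nonneg_left m1 hμ
  have b4 : (i - j) * (S - 2 * k - 2) ≤ 0 :=
    mul_nonpos_of_nonneg_of_nonpos (by linarith) (by linarith)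
  have b5 : 0 ≤ r * μ := mul_nonneg hr hμ
  have b6 : 0 ≤ r * r := mul_nonneg hr hr
  have b7 : 0 ≤ r * j := mul_nonneg hr hj
  linarith

/-- case Q (`i ≤ j`), `h' < h` -/
theorem closeQ4 (v N k i j μ r S : ℝ) (hv : 47 ≤ v) (hN : 339 / 50 * v ≤ N) (hk : 1 ≤ k)
    (hk1 : 384 * k ≤ 25 * v) (hkN : k * (N + 9 / 10 * v) ≤ 1 / 2 * v ^ 2) (hi : 0 ≤ i)
    (hij : i ≤ j) (hj1 : 6 * j ≤ v) (hS : S * (N + 3 / 2 * v) ≤ 5 / 8 * (v - k - i) ^ 2)
    (hS0 : 0 ≤ S) (hμ : 0 ≤ μ) (hr : 0 ≤ r)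
    (hD : 55 / 56 * (v - k - 1) ^ 2 - 59 / 56 * i ^ 2 ≤ 2 * (k + 1) * (N - 2))
    (hB : r * (N - 1 - 3 * k + 3 * μ + 3 / 2 * r) ≤
      μ * (v + 3 * k - 1 - μ / 2) + (j ^ 2 - i ^ 2) / 2) :
    S * (μ / 2 + (j - i) / 2) + 4 * ((v - k - 3 - i) / 2) + k * (2 - (j - i) + μ + r) +
      (1 + r) * (v + k - 1 - μ - r + j) ≤ 5 / 2 * (v - 1) ^ 2 / (N + 3) * μ + 4 * (v - 1) := by
  have h0 : 0 < v := by linarith
  have hj : 0 ≤ j := by linarith
  have hN' : 0 < N - 1 - 3 * k := by linarith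
  have m1 := mainQ4 v N k i j S hv hN hk hk1 hkN hi (by linarith) hj hj1 hS
  have m2 := smallQ4 v N k i j S hv hN hk hk1 hkN hi hij hj1 hS hS0 hD
  set R := 5 / 2 * (v - 1) ^ 2 / (N + 3) with hR
  set T := (v + 3 * k - 1) * (v + 2 * k - 2 + j) / (N - 1 - 3 * k) with hT
  set T2 := (i + j) * (v + 2 * k - 2 + j) / (N - 1 - 3 * k) with hT2
  have hT1 : T * (N - 1 - 3 * k) = (v + 3 * k - 1) * (v + 2 * k - 2 + j) := by
    rw [hT, div_mul_cancel₀ _ hN'.ne']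
  have hT21 : T2 * (N - 1 - 3 * k) = (i + j) * (v + 2 * k - 2 + j) := by
    rw [hT2, div_mul_cancel₀ _ hN'.ne']
  have hX : 0 ≤ v + 2 * k - 2 + j := by linarith
  have b1 : r * (N - 1 - 3 * k) ≤ μ * (v + 3 * k - 1) + (j - i) / 2 * (i + j) := by
    have e1 : 0 ≤ r * μ := mul_nonneg hr hμ
    have e2 : 0 ≤ r * r := mul_nonneg hr hr
    have e3 : 0 ≤ μ * μ := mul_nonneg hμ hμ
    linarith
  have b2 : r * (v + 2 * k - 2 + j) ≤ μ * T + (j - i) / 2 * T2 := by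
    have e := mul_le_mul_of_nonneg_right b1 hX
    have e2 : (r * (v + 2 * k - 2 + j)) * (N - 1 - 3 * k) ≤
        (μ * T + (j - i) / 2 * T2) * (N - 1 - 3 * k) := by
      rw [add_mul, mul_assoc μ T, hT1, mul_assoc ((j - i) / 2) T2, hT21]
      linarith
    exact le_of_mul_le_mul_right e2 hN'
  have b3 : μ * (S / 2 + k + T) ≤ μ * R := mul_le_mul_of_nonneg_left m1 hμ
  have b4 : (j - i) * (S + T2 - 2 * k - 2) ≤ 0 :=
    mul_nonpos_of_nonneg_of_nonpos (by linarith) (by linarith)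
  have b5 : 0 ≤ r * μ := mul_nonneg hr hμ
  have b6 : 0 ≤ r * r := mul_nonneg hr hr
  linarith

/-- `h ≤ h'` -/
theorem closeR4 (v k e μ q S R x y : ℝ) (hv : 47 ≤ v)
    (hk1 : 384 * k ≤ 25 * v) (he : 0 ≤ e) (he1 : 12 * e ≤ v) (hx : 12 * x ≤ 7 * v)
    (hμ : 0 ≤ μ) (hq : 0 ≤ q) (hy : 1 ≤ y) (h1 : S / 2 + k ≤ R) (h2 : S ≤ 2 * k + 2) :
    S * ((μ + q) / 2 + e) + 4 * x + k * (μ + 1 - q - 2 * e) - 2 * q * y ≤
      R * μ + 4 * (v - 1) := by
  have b1 : μ * (S / 2 + k) ≤ μ * R := mul_le_mul_of_nonneg_left h1 hμ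
  have b2 : e * (S - 2 * k - 2) ≤ 0 :=
    mul_nonpos_of_nonneg_of_nonpos he (by linarith)
  have b3 : q * (S - 2 * k - 2) ≤ 0 :=
    mul_nonpos_of_nonneg_of_nonpos hq (by linarith)
  have b4 : 0 ≤ q * (y - 1) := mul_nonneg hq (by linarith)
  linarith



theorem kbound4 (v N k i : ℝ) (hv : 47 ≤ v) (hN : 339 / 50 * v ≤ N) (hk : 1 ≤ k) (hkv : k ≤ v)
    (h : 2 * k * N ≤ (v - k - 1) ^ 2 - i ^ 2 + 2 * v + 4 * k - 2) :
    384 * k ≤ 25 * v ∧ k * (N + 9 / 10 * v) ≤ 1 / 2 * v ^ 2 := by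
  have h0 : 0 < v := by linarith
  have hk0 : 0 ≤ k := by linarith
  have hi := sq_nonneg i
  have h1 : k * (N + v - 3 - k / 2) ≤ 1 / 2 * v ^ 2 := by linarith
  -- first crude bound
  have h2 : 14 * k ≤ v := by
    have e : k * (7 * v) ≤ k * (N + v - 3 - k / 2) := by
      apply mul_le_mul_of_nonneg_left _ hk0
      linarith
    have e2 : (14 * k) * v ≤ v * v := by linarith
    exact le_of_mul_le_mul_right e2 h0
  have h3 : k * (N + 9 / 10 * v) ≤ 1 / 2 * v ^ 2 := by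
    refine le_trans (mul_le_mul_of_nonneg_left ?_ hk0) h1
    linarith
  refine ⟨?_, h3⟩
  have e : k * (192 / 25 * v) ≤ 1 / 2 * v ^ 2 := by
    refine le_trans (mul_le_mul_of_nonneg_left ?_ hk0) h3
    linarith
  have e2 : (384 * k) * v ≤ (25 * v) * v := by linarith
  exact le_of_mul_le_mul_right e2 h0

theorem dbound4 (v N k i a b KA KB : ℝ) (hv : 47 ≤ v) (hN : 339 / 50 * v ≤ N) (hk : 1 ≤ k)
    (hk1 : 384 * k ≤ 25 * v) (hi : 0 ≤ i) (hi1 : 6 * i ≤ v)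
    (ha : a = (v - k - 1 + i) / 2) (hb : b = (v - k - 1 - i) / 2)
    (hA0 : 0 ≤ KA) (hB0 : 0 ≤ KB)
    (hA : 7 * (N + 3 * v - 3 * a) * KA ≤ 4 * a ^ 3)
    (hB : 7 * (N + 3 * v - 3 * b) * KB ≤ 4 * b ^ 3)
    (h : 4 * a * b - KA - KB ≤ 2 * (k + 1) * (N - 2)) :
    55 / 56 * (v - k - 1) ^ 2 - 59 / 56 * i ^ 2 ≤ 2 * (k + 1) * (N - 2) := by
  have h0 : 0 < v := by linarith
  set s := v - k - 1 with hs
  have hs0 : 0 < s := by linarith
  have hA1 : 56 * s * KA ≤ 4 * a ^ 3 := by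
    refine le_trans (mul_le_mul_of_nonneg_right ?_ hA0) hA
    linarith
  have hB1 : 56 * s * KB ≤ 4 * b ^ 3 := by
    refine le_trans (mul_le_mul_of_nonneg_right ?_ hB0) hB
    linarith
  have e1 : 4 * a ^ 3 + 4 * b ^ 3 = (s ^ 2 + 3 * i ^ 2) * s := by
    rw [ha, hb]; ring
  have e2 : (56 * (KA + KB)) * s ≤ (s ^ 2 + 3 * i ^ 2) * s := by linarith
  have e3 := le_of_mul_le_mul_right e2 hs0
  have e4 : 4 * a * b = s ^ 2 - i ^ 2 := by rw [ha, hb]; ring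
  linarith

theorem SPbound4 (v N k i x S : ℝ) (hv : 47 ≤ v) (hN : 339 / 50 * v ≤ N) (hk : 1 ≤ k)
    (hk1 : 384 * k ≤ 25 * v) (hi : 0 ≤ i) (hi1 : 6 * i ≤ v) (hx : x = (v - k - 3 + i) / 2)
    (hS : S = 5 / 2 * x ^ 2 / (N + 3 * v - 3 * x)) :
    0 ≤ S ∧ S * (N + 5 / 4 * v) ≤ 5 / 8 * (v - k + i) ^ 2 := by
  have hd : 0 < N + 3 * v - 3 * x := by rw [hx]; linarith
  have h0 : 0 ≤ S := by rw [hS]; positivity
  refine ⟨h0, ?_⟩
  have h1 : S * (N + 3 * v - 3 * x) = 5 / 2 * x ^ 2 := by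
    rw [hS, div_mul_cancel₀ _ hd.ne']
  have h2 : S * (N + 5 / 4 * v) ≤ S * (N + 3 * v - 3 * x) := by
    apply mul_le_mul_of_nonneg_left _ h0
    rw [hx]; linarith
  have h3 : x ^ 2 ≤ ((v - k + i) / 2) ^ 2 := by
    apply pow_le_pow_left₀
    · rw [hx]; linarith
    · rw [hx]; linarith
  linarith

theorem SQbound4 (v N k i x S : ℝ) (hv : 47 ≤ v) (hN : 339 / 50 * v ≤ N) (hk : 1 ≤ k)
    (hk1 : 384 * k ≤ 25 * v) (hi : 0 ≤ i) (hi1 : 6 * i ≤ v) (hx : x = (v - k - 3 - i) / 2)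
    (hS : S = 5 / 2 * x ^ 2 / (N + 3 * v - 3 * x)) :
    0 ≤ S ∧ S * (N + 3 / 2 * v) ≤ 5 / 8 * (v - k - i) ^ 2 := by
  have hd : 0 < N + 3 * v - 3 * x := by rw [hx]; linarith
  have h0 : 0 ≤ S := by rw [hS]; positivity
  refine ⟨h0, ?_⟩
  have h1 : S * (N + 3 * v - 3 * x) = 5 / 2 * x ^ 2 := by
    rw [hS, div_mul_cancel₀ _ hd.ne']
  have h2 : S * (N + 3 / 2 * v) ≤ S * (N + 3 * v - 3 * x) := by
    apply mul_le_mul_of_nonneg_left _ h0
    rw [hx]; linarith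
  have h3 : x ^ 2 ≤ ((v - k - i) / 2) ^ 2 := by
    apply pow_le_pow_left₀
    · rw [hx]; linarith
    · rw [hx]; linarith
  linarith


end Pool.Agent.Lib.MP_b072d9_co
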