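import Pool.Agent.Lib.MP_b072d9_co.LAlg

set_option autoImplicit false

namespace Pool.Agent.Lib.MP_b072d9_co

/-! Real inequalities for the window theorem, second part. -/

theorem hom_aux (v N c d : ℝ) (hv : 0 < v) (_ : 0 < N + d * v) :
    c * v ^ 2 / (N + d * v) = v * (c / (N / v + d)) := by
  rw [show N / v + d = (N + d * v) / v by field_simp]
  rw [div_div_eq_mul_div]
  ring

/-- right-hand side term -/
theorem rhs_lb (v N : ℝ) (hv : 57 ≤ v) (hN : 34 / 5 * v ≤ N) :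
    v * (241 / 100 / (N / v + 1 / 19)) ≤ 5 / 2 * (v - 1) ^ 2 / (N + 3) := by
  have h0 : 0 < v := by linarith
  rw [← hom_aux v N (241 / 100) (1 / 19) h0 (by linarith)]
  rw [div_le_div_iff₀ (by linarith) (by linarith)]
  have h1 : (56 / 57 * v) ^ 2 ≤ (v - 1) ^ 2 := by
    apply pow_le_pow_left₀ (by linarith)
    linarith
  have h2 : N + 3 ≤ N + 1 / 19 * v := by linarith
  have h3 : 241 / 100 * v ^ 2 ≤ 5 / 2 * (v - 1) ^ 2 := by nlinarith
  exact mul_le_mul h3 h2 (by linarith) (by positivity)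

theorem y_lb (v N : ℝ) (hv : 57 ≤ v) (hN : 34 / 5 * v ≤ N) : 34 / 5 ≤ N / v := by
  rw [le_div_iff₀ (by linarith)]
  linarith

/-- main inequality of case P -/
theorem mainP (v N k i S : ℝ) (hv : 57 ≤ v) (hN : 34 / 5 * v ≤ N) (hk : 1 ≤ k)
    (hk1 : 77 * k ≤ 5 * v) (hkN : k * (N + 9 / 10 * v) ≤ 1 / 2 * v ^ 2) (hi : 0 ≤ i)
    (hi1 : 6 * i ≤ v) (hS : S * (N + 5 / 4 * v) ≤ 5 / 8 * (v - k + i) ^ 2) :
    S / 2 + k + (v + 3 * k - 1) * (v + 2 * k - 2) / (N - 1 - 3 * k) ≤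
      5 / 2 * (v - 1) ^ 2 / (N + 3) := by
  have h0 : 0 < v := by linarith
  refine le_trans ?_ (rhs_lb v N hv hN)
  have hy := y_lb v N hv hN
  have hp := mul_le_mul_of_nonneg_left (pureP (N / v) hy) h0.le
  refine le_trans ?_ hp
  have t1 : S / 2 ≤ v * (213 / 500 / (N / v + 5 / 4)) := by
    rw [← hom_aux v N (213 / 500) (5 / 4) h0 (by linarith), le_div_iff₀ (by linarith)]
    have : (v - k + i) ^ 2 ≤ (7 / 6 * v) ^ 2 := by
      apply pow_le_pow_left₀ (by linarith)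
      linarith
    nlinarith
  have t2 : k ≤ v * (1 / 2 / (N / v + 9 / 10)) := by
    rw [← hom_aux v N (1 / 2) (9 / 10) h0 (by linarith), le_div_iff₀ (by linarith)]
    linarith
  have t3 : (v + 3 * k - 1) * (v + 2 * k - 2) / (N - 1 - 3 * k) ≤
      v * (27 / 20 / (N / v - 11 / 50)) := by
    have e := hom_aux v N (27 / 20) (-(11 / 50)) h0 (by linarith)
    rw [show N / v - 11 / 50 = N / v + -(11 / 50) by ring, ← e]
    apply div_le_div₀ (by positivity) _ (by linarith) (by linarith)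
    have a1 : v + 3 * k - 1 ≤ 92 / 77 * v := by linarith
    have a2 : v + 2 * k - 2 ≤ 87 / 77 * v := by linarith
    have a3 := mul_le_mul a1 a2 (by linarith) (by linarith)
    nlinarith
  have e : v * (213 / 500 / (N / v + 5 / 4) + 1 / 2 / (N / v + 9 / 10) + 27 / 20 / (N / v - 11 / 50))
      = v * (213 / 500 / (N / v + 5 / 4)) + v * (1 / 2 / (N / v + 9 / 10)) +
        v * (27 / 20 / (N / v - 11 / 50)) := by ring
  rw [e]
  linarith

/-- main inequality of case Q -/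
theorem mainQ (v N k i j S : ℝ) (hv : 57 ≤ v) (hN : 34 / 5 * v ≤ N) (hk : 1 ≤ k)
    (hk1 : 77 * k ≤ 5 * v) (hkN : k * (N + 9 / 10 * v) ≤ 1 / 2 * v ^ 2) (hi : 0 ≤ i)
    (hi1 : 6 * i ≤ v) (hj : 0 ≤ j) (hj1 : 6 * j ≤ v)
    (hS : S * (N + 3 / 2 * v) ≤ 5 / 8 * (v - k - i) ^ 2) :
    S / 2 + k + (v + 3 * k - 1) * (v + 2 * k - 2 + j) / (N - 1 - 3 * k) ≤
      5 / 2 * (v - 1) ^ 2 / (N + 3) := by
  have h0 : 0 < v := by linarith
  refine le_trans ?_ (rhs_lb v N hv hN)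
  have hy := y_lb v N hv hN
  have hp := mul_le_mul_of_nonneg_left (pureQ (N / v) hy) h0.le
  refine le_trans ?_ hp
  have t1 : S / 2 ≤ v * (5 / 16 / (N / v + 3 / 2)) := by
    rw [← hom_aux v N (5 / 16) (3 / 2) h0 (by linarith), le_div_iff₀ (by linarith)]
    have : (v - k - i) ^ 2 ≤ (v) ^ 2 := by
      apply pow_le_pow_left₀ (by linarith)
      linarith
    nlinarith
  have t2 : k ≤ v * (1 / 2 / (N / v + 9 / 10)) := by
    rw [← hom_aux v N (1 / 2) (9 / 10) h0 (by linarith), le_div_iff₀ (by linarith)]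
    linarith
  have t3 : (v + 3 * k - 1) * (v + 2 * k - 2 + j) / (N - 1 - 3 * k) ≤
      v * (31 / 20 / (N / v - 11 / 50)) := by
    have e := hom_aux v N (31 / 20) (-(11 / 50)) h0 (by linarith)
    rw [show N / v - 11 / 50 = N / v + -(11 / 50) by ring, ← e]
    apply div_le_div₀ (by positivity) _ (by linarith) (by linarith)
    have a1 : v + 3 * k - 1 ≤ 92 / 77 * v := by linarith
    have a2 : v + 2 * k - 2 + j ≤ (87 / 77 + 1 / 6) * v := by linarith
    have a3 := mul_le_mul a1 a2 (by linarith) (by linarith)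
    nlinarith
  have e : v * (5 / 16 / (N / v + 3 / 2) + 1 / 2 / (N / v + 9 / 10) + 31 / 20 / (N / v - 11 / 50))
      = v * (5 / 16 / (N / v + 3 / 2)) + v * (1 / 2 / (N / v + 9 / 10)) +
        v * (31 / 20 / (N / v - 11 / 50)) := by ring
  rw [e]
  linarith

/-- `S ≤ 2 k + 2`, case P -/
theorem smallP (v N k i S : ℝ) (hv : 57 ≤ v) (hN : 34 / 5 * v ≤ N) (hk : 1 ≤ k)
    (hk1 : 77 * k ≤ 5 * v) (hi : 0 ≤ i)
    (hi1 : 6 * i ≤ v) (hS : S * (N + 5 / 4 * v) ≤ 5 / 8 * (v - k + i) ^ 2)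
    (hD : 55 / 56 * (v - k - 1) ^ 2 - 59 / 56 * i ^ 2 ≤ 2 * (k + 1) * (N - 2)) :
    S ≤ 2 * k + 2 := by
  have h0 : 0 < v := by linarith
  by_contra hc
  push Not at hc
  have h1 : (2 * k + 2) * (N - 2) < S * (N + 5 / 4 * v) := by
    have e1 : (2 * k + 2) * (N - 2) ≤ S * (N - 2) :=
      mul_le_mul_of_nonneg_right hc.le (by linarith)
    have e2 : S * (N - 2) < S * (N + 5 / 4 * v) :=
      mul_lt_mul_of_pos_left (by linarith) (by linarith)
    linarith
  have h2 : 55 / 56 * (v - k - 1) ^ 2 - 59 / 56 * i ^ 2 < 5 / 8 * (v - k + i) ^ 2 := by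
    linarith
  have h3 : (56 / 57 * v - k) ^ 2 ≤ (v - k - 1) ^ 2 := by
    apply pow_le_pow_left₀ (by linarith)
    linarith
  have h4 : 55 / 56 * (56 / 57 * v - k) ^ 2 - 59 / 56 * i ^ 2 < 5 / 8 * (v - k + i) ^ 2 := by
    linarith
  nlinarith [mul_nonneg hi (sub_nonneg.2 hi1), mul_nonneg (by linarith : 0 ≤ k)
    (sub_nonneg.2 hk1), mul_nonneg (sub_nonneg.2 hi1) (sub_nonneg.2 hk1),
    mul_nonneg hi (by linarith : 0 ≤ k), mul_nonneg hi (sub_nonneg.2 hk1),
    mul_nonneg (by linarith : 0 ≤ k) (sub_nonneg.2 hi1)]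

/-- `S + T₂ ≤ 2 k + 2`, case Q -/
theorem smallQ (v N k i j S : ℝ) (hv : 57 ≤ v) (hN : 34 / 5 * v ≤ N) (hk : 1 ≤ k)
    (hk1 : 77 * k ≤ 5 * v) (hkN : k * (N + 9 / 10 * v) ≤ 1 / 2 * v ^ 2) (hi : 0 ≤ i)
    (hij : i ≤ j) (hj1 : 6 * j ≤ v) (hS : S * (N + 3 / 2 * v) ≤ 5 / 8 * (v - k - i) ^ 2)
    (hS0 : 0 ≤ S)
    (hD : 55 / 56 * (v - k - 1) ^ 2 - 59 / 56 * i ^ 2 ≤ 2 * (k + 1) * (N - 2)) :
    S + (i + j) * (v + 2 * k - 2 + j) / (N - 1 - 3 * k) ≤ 2 * k + 2 := by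
  have h0 : 0 < v := by linarith
  have hN' : 0 < N - 1 - 3 * k := by linarith
  have hN0 : 0 < N := by linarith
  set T := (i + j) * (v + 2 * k - 2 + j) / (N - 1 - 3 * k) with hT
  have hT1 : T * (N - 1 - 3 * k) = (i + j) * (v + 2 * k - 2 + j) := by
    rw [hT, div_mul_cancel₀ _ hN'.ne']
  have hT0 : 0 ≤ T := by
    rw [hT]; apply div_nonneg _ hN'.le
    apply mul_nonneg <;> linarith
  have h3 : (56 / 57 * v - k) ^ 2 ≤ (v - k - 1) ^ 2 := by
    apply pow_le_pow_left₀ (by linarith)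
    linarith
  have h4 : 55 / 56 * (56 / 57 * v - k) ^ 2 - 59 / 56 * i ^ 2 ≤ (2 * k + 2) * N := by
    linarith
  have h5 : (i + j) * (v + 2 * k - 2 + j) ≤ (i + v / 6) * (7 / 6 * v + 2 * k) := by
    apply mul_le_mul <;> linarith
  have hi1 : 6 * i ≤ v := by linarith
  have hk0 : 0 ≤ k := by linarith
  rcases le_total N (14 * v) with hc | hc
  · have a1 : S * (31 / 28 * N) ≤ S * (N + 3 / 2 * v) :=
      mul_le_mul_of_nonneg_left (by linarith) hS0
    have a2 : T * N ≤ T * (10323 / 10000 * (N - 1 - 3 * k)) :=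
      mul_le_mul_of_nonneg_left (by linarith) hT0
    have a3 : (S + T) * N ≤ (2 * k + 2) * N := by
      have e1 : S * N ≤ 28 / 31 * (5 / 8 * (v - k - i) ^ 2) := by linarith
      have e2 : T * N ≤ 10323 / 10000 * ((i + v / 6) * (7 / 6 * v + 2 * k)) := by linarith
      have e3 : 28 / 31 * (5 / 8 * (v - k - i) ^ 2) +
          10323 / 10000 * ((i + v / 6) * (7 / 6 * v + 2 * k)) ≤
          55 / 56 * (56 / 57 * v - k) ^ 2 - 59 / 56 * i ^ 2 := by
        have p1 := mul_nonneg h0.le (sub_nonneg.2 hk1)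
        have p2 := mul_nonneg hi (sub_nonneg.2 hk1)
        have p3 := mul_nonneg hi (sub_nonneg.2 hi1)
        have p4 := mul_nonneg h0.le (sub_nonneg.2 hi1)
        have p5 := mul_nonneg hk0 (sub_nonneg.2 hk1)
        have p6 := sq_nonneg k
        have p7 := mul_nonneg h0.le hi
        linarith
      linarith
    exact le_of_mul_le_mul_right a3 hN0
  · have hk2 : 149 * k ≤ 5 * v := by
      have : k * (149 / 10 * v) ≤ 1 / 2 * v ^ 2 := by
        refine le_trans (mul_le_mul_of_nonneg_left ?_ hk0) hkN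
        linarith
      have e : (149 * k) * v ≤ (5 * v) * v := by linarith
      exact le_of_mul_le_mul_right e h0
    have a1 : S * N ≤ S * (N + 3 / 2 * v) :=
      mul_le_mul_of_nonneg_left (by linarith) hS0
    have a2 : T * N ≤ T * (10086 / 10000 * (N - 1 - 3 * k)) :=
      mul_le_mul_of_nonneg_left (by linarith) hT0
    have a3 : (S + T) * N ≤ (2 * k + 2) * N := by
      have e1 : S * N ≤ (5 / 8 * (v - k - i) ^ 2) := by linarith
      have e2 : T * N ≤ 10086 / 10000 * ((i + v / 6) * (7 / 6 * v + 2 * k)) := by linarith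
      have e3 : (5 / 8 * (v - k - i) ^ 2) +
          10086 / 10000 * ((i + v / 6) * (7 / 6 * v + 2 * k)) ≤
          55 / 56 * (56 / 57 * v - k) ^ 2 - 59 / 56 * i ^ 2 := by
        have p1 := mul_nonneg h0.le (sub_nonneg.2 hk2)
        have p2 := mul_nonneg hi (sub_nonneg.2 hk2)
        have p3 := mul_nonneg hi (sub_nonneg.2 hi1)
        have p4 := mul_nonneg h0.le (sub_nonneg.2 hi1)
        have p6 := sq_nonneg k
        have p7 := mul_nonneg h0.le hi
        linarith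
      linarith
    exact le_of_mul_le_mul_right a3 hN0

end Pool.Agent.Lib.MP_b072d9_co
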