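import Pool.Agent.Lib.MP_b072d9_co.LAlgB

set_option autoImplicit false

namespace Pool.Agent.Lib.MP_b072d9_co

/-! Real inequalities for the window theorem, third part: the three closing estimates. -/

/-- case P (`j ≤ i`), `h' < h` -/
theorem closeP (v N k i j μ r S : ℝ) (hv : 57 ≤ v) (hN : 34 / 5 * v ≤ N) (hk : 1 ≤ k)
    (hk1 : 77 * k ≤ 5 * v) (hkN : k * (N + 9 / 10 * v) ≤ 1 / 2 * v ^ 2) (hj : 0 ≤ j)
    (hij : j ≤ i) (hi1 : 6 * i ≤ v) (hS : S * (N + 5 / 4 * v) ≤ 5 / 8 * (v - k + i) ^ 2)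
    (hS0 : 0 ≤ S) (hμ : 0 ≤ μ) (hr : 0 ≤ r)
    (hD : 55 / 56 * (v - k - 1) ^ 2 - 59 / 56 * i ^ 2 ≤ 2 * (k + 1) * (N - 2))
    (hB : r * (N - 1 - 3 * k + 3 * μ + 3 / 2 * r) ≤
      μ * (v + 3 * k - 1 - μ / 2) + (j ^ 2 - i ^ 2) / 2) :
    S * (μ / 2 + (i - j) / 2) + 7 / 2 * ((v - k - 3 + i) / 2) + k * (2 - (i - j) + μ + r) +
      (1 + r) * (v + k - 1 - μ - r - j) ≤ 5 / 2 * (v - 1) ^ 2 / (N + 3) * μ + 7 / 2 * (v - 1) := by
  have h0 : 0 < v := by linarith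
  have hi : 0 ≤ i := by linarith
  have hN' : 0 < N - 1 - 3 * k := by linarith
  have m1 := mainP v N k i S hv hN hk hk1 hkN hi hi1 hS
  have m2 := smallP v N k i S hv hN hk hk1 hi hi1 hS hD
  set R := 5 / 2 * (v - 1) ^ 2 / (N + 3) with hR
  set T := (v + 3 * k - 1) * (v + 2 * k - 2) / (N - 1 - 3 * k) with hT
  have hT1 : T * (N - 1 - 3 * k) = (v + 3 * k - 1) * (v + 2 * k - 2) := by
    rw [hT, div_mul_cancel₀ _ hN'.ne']
  -- r X ≤ μ T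
  have hX : 0 ≤ v + 2 * k - 2 := by linarith
  have b1 : r * (N - 1 - 3 * k) ≤ μ * (v + 3 * k - 1) := by
    have e1 : 0 ≤ r * μ := mul_nonneg hr hμ
    have e2 : 0 ≤ r * r := mul_nonneg hr hr
    have e3 : 0 ≤ μ * μ := mul_nonneg hμ hμ
    have e4 : j ^ 2 ≤ i ^ 2 := by apply pow_le_pow_left₀ hj hij
    linarith
  have b2 : r * (v + 2 * k - 2) ≤ μ * T := by
    have e := mul_le_mul_of_nonneg_right b1 hX
    have e2 : (r * (v + 2 * k - 2)) * (N - 1 - 3 * k) ≤ (μ * T) * (N - 1 - 3 * k) := by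
      rw [mul_assoc μ T, hT1]
      linarith
    exact le_of_mul_le_mul_right e2 hN'
  have b3 : μ * (S / 2 + k + T) ≤ μ * R := mul_le_mul_of_nonneg_left m1 hμ
  have b4 : (i - j) * (S - 2 * k - 2) ≤ 0 :=
    mul_nonpos_of_nonneg_of_nonpos (by linarith) (by linarith)
  have b5 : 0 ≤ r * μ := mul_nonneg hr hμ
  have b6 : 0 ≤ r * r := mul_nonneg hr hr
  have b7 : 0 ≤ r * j := mul_nonneg hr hj
  linarith

/-- case Q (`i ≤ j`), `h' < h` -/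
theorem closeQ (v N k i j μ r S : ℝ) (hv : 57 ≤ v) (hN : 34 / 5 * v ≤ N) (hk : 1 ≤ k)
    (hk1 : 77 * k ≤ 5 * v) (hkN : k * (N + 9 / 10 * v) ≤ 1 / 2 * v ^ 2) (hi : 0 ≤ i)
    (hij : i ≤ j) (hj1 : 6 * j ≤ v) (hS : S * (N + 3 / 2 * v) ≤ 5 / 8 * (v - k - i) ^ 2)
    (hS0 : 0 ≤ S) (hμ : 0 ≤ μ) (hr : 0 ≤ r)
    (hD : 55 / 56 * (v - k - 1) ^ 2 - 59 / 56 * i ^ 2 ≤ 2 * (k + 1) * (N - 2))
    (hB : r * (N - 1 - 3 * k + 3 * μ + 3 / 2 * r) ≤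
      μ * (v + 3 * k - 1 - μ / 2) + (j ^ 2 - i ^ 2) / 2) :
    S * (μ / 2 + (j - i) / 2) + 7 / 2 * ((v - k - 3 - i) / 2) + k * (2 - (j - i) + μ + r) +
      (1 + r) * (v + k - 1 - μ - r + j) ≤ 5 / 2 * (v - 1) ^ 2 / (N + 3) * μ + 7 / 2 * (v - 1) := by
  have h0 : 0 < v := by linarith
  have hj : 0 ≤ j := by linarith
  have hN' : 0 < N - 1 - 3 * k := by linarith
  have m1 := mainQ v N k i j S hv hN hk hk1 hkN hi (by linarith) hj hj1 hS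
  have m2 := smallQ v N k i j S hv hN hk hk1 hkN hi hij hj1 hS hS0 hD
  set R := 5 / 2 * (v - 1) ^ 2 / (N + 3) with hR
  set T := (v + 3 * k - 1) * (v + 2 * k - 2 + j) / (N - 1 - 3 * k) with hT
  set T2 := (i + j) * (v + 2 * k - 2 + j) / (N - 1 - 3 * k) with hT2
  have hT1 : T * (N - 1 - 3 * k) = (v + 3 * k - 1) * (v + 2 * k - 2 + j) := by
    rw [hT, div_mul_cancel₀ _ hN'.ne']
  have hT21 : T2 * (N - 1 - 3 * k) = (i + j) * (v + 2 * k - 2 + j) := by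
    rw [hT2, div_mul_cancel₀ _ hN'.ne']
  have hX : 0 ≤ v + 2 * k - 2 + j := by linarith
  have b1 : r * (N - 1 - 3 * k) ≤ μ * (v + 3 * k - 1) + (j - i) / 2 * (i + j) := by
    have e1 : 0 ≤ r * μ := mul_nonneg hr hμ
    have e2 : 0 ≤ r * r := mul_nonneg hr hr
    have e3 : 0 ≤ μ * μ := mul_nonneg hμ hμ
    linarith
  have b2 : r * (v + 2 * k - 2 + j) ≤ μ * T + (j - i) / 2 * T2 := by
    have e := mul_le_mul_of_nonneg_right b1 hX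
    have e2 : (r * (v + 2 * k - 2 + j)) * (N - 1 - 3 * k) ≤
        (μ * T + (j - i) / 2 * T2) * (N - 1 - 3 * k) := by
      rw [add_mul, mul_assoc μ T, hT1, mul_assoc ((j - i) / 2) T2, hT21]
      linarith
    exact le_of_mul_le_mul_right e2 hN'
  have b3 : μ * (S / 2 + k + T) ≤ μ * R := mul_le_mul_of_nonneg_left m1 hμ
  have b4 : (j - i) * (S + T2 - 2 * k - 2) ≤ 0 :=
    mul_nonpos_of_nonneg_of_nonpos (by linarith) (by linarith)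
  have b5 : 0 ≤ r * μ := mul_nonneg hr hμ
  have b6 : 0 ≤ r * r := mul_nonneg hr hr
  linarith

/-- `h ≤ h'` -/
theorem closeR (v k e μ q S R x y : ℝ) (hv : 57 ≤ v)
    (hk1 : 77 * k ≤ 5 * v) (he : 0 ≤ e) (he1 : 12 * e ≤ v) (hx : 12 * x ≤ 7 * v)
    (hμ : 0 ≤ μ) (hq : 0 ≤ q) (hy : 1 ≤ y) (h1 : S / 2 + k ≤ R) (h2 : S ≤ 2 * k + 2) :
    S * ((μ + q) / 2 + e) + 7 / 2 * x + k * (μ + 1 - q - 2 * e) - 2 * q * y ≤
      R * μ + 7 / 2 * (v - 1) := by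
  have b1 : μ * (S / 2 + k) ≤ μ * R := mul_le_mul_of_nonneg_left h1 hμ
  have b2 : e * (S - 2 * k - 2) ≤ 0 :=
    mul_nonpos_of_nonneg_of_nonpos he (by linarith)
  have b3 : q * (S - 2 * k - 2) ≤ 0 :=
    mul_nonpos_of_nonneg_of_nonpos hq (by linarith)
  have b4 : 0 ≤ q * (y - 1) := mul_nonneg hq (by linarith)
  linarith

end Pool.Agent.Lib.MP_b072d9_co
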