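import Pool.Agent.Lib.MP_b072d9_co.LAlgC

set_option autoImplicit false

namespace Pool.Agent.Lib.MP_b072d9_co

/-! Real inequalities for the window theorem, fourth part. -/

theorem kbound (v N k i : ℝ) (hv : 57 ≤ v) (hN : 34 / 5 * v ≤ N) (hk : 1 ≤ k) (hkv : k ≤ v)
    (h : 2 * k * N ≤ (v - k - 1) ^ 2 - i ^ 2 + 2 * v + 4 * k - 2) :
    77 * k ≤ 5 * v ∧ k * (N + 9 / 10 * v) ≤ 1 / 2 * v ^ 2 := by
  have h0 : 0 < v := by linarith
  have hk0 : 0 ≤ k := by linarith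
  have hi := sq_nonneg i
  have h1 : k * (N + v - 3 - k / 2) ≤ 1 / 2 * v ^ 2 := by linarith
  -- first crude bound
  have h2 : 14 * k ≤ v := by
    have e : k * (7 * v) ≤ k * (N + v - 3 - k / 2) := by
      apply mul_le_mul_of_nonneg_left _ hk0
      linarith
    have e2 : (14 * k) * v ≤ v * v := by linarith
    exact le_of_mul_le_mul_right e2 h0
  have h3 : k * (N + 9 / 10 * v) ≤ 1 / 2 * v ^ 2 := by
    refine le_trans (mul_le_mul_of_nonneg_left ?_ hk0) h1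
    linarith
  refine ⟨?_, h3⟩
  have e : k * (77 / 10 * v) ≤ 1 / 2 * v ^ 2 := by
    refine le_trans (mul_le_mul_of_nonneg_left ?_ hk0) h3
    linarith
  have e2 : (77 * k) * v ≤ (5 * v) * v := by linarith
  exact le_of_mul_le_mul_right e2 h0

theorem dbound (v N k i a b KA KB : ℝ) (hv : 57 ≤ v) (hN : 34 / 5 * v ≤ N) (hk : 1 ≤ k)
    (hk1 : 77 * k ≤ 5 * v) (hi : 0 ≤ i) (hi1 : 6 * i ≤ v)
    (ha : a = (v - k - 1 + i) / 2) (hb : b = (v - k - 1 - i) / 2)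
    (hA0 : 0 ≤ KA) (hB0 : 0 ≤ KB)
    (hA : 7 * (N + 3 * v - 3 * a) * KA ≤ 4 * a ^ 3)
    (hB : 7 * (N + 3 * v - 3 * b) * KB ≤ 4 * b ^ 3)
    (h : 4 * a * b - KA - KB ≤ 2 * (k + 1) * (N - 2)) :
    55 / 56 * (v - k - 1) ^ 2 - 59 / 56 * i ^ 2 ≤ 2 * (k + 1) * (N - 2) := by
  have h0 : 0 < v := by linarith
  set s := v - k - 1 with hs
  have hs0 : 0 < s := by linarith
  have hA1 : 56 * s * KA ≤ 4 * a ^ 3 := by
    refine le_trans (mul_le_mul_of_nonneg_right ?_ hA0) hA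
    linarith
  have hB1 : 56 * s * KB ≤ 4 * b ^ 3 := by
    refine le_trans (mul_le_mul_of_nonneg_right ?_ hB0) hB
    linarith
  have e1 : 4 * a ^ 3 + 4 * b ^ 3 = (s ^ 2 + 3 * i ^ 2) * s := by
    rw [ha, hb]; ring
  have e2 : (56 * (KA + KB)) * s ≤ (s ^ 2 + 3 * i ^ 2) * s := by linarith
  have e3 := le_of_mul_le_mul_right e2 hs0
  have e4 : 4 * a * b = s ^ 2 - i ^ 2 := by rw [ha, hb]; ring
  linarith

theorem SPbound (v N k i x S : ℝ) (hv : 57 ≤ v) (hN : 34 / 5 * v ≤ N) (hk : 1 ≤ k)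
    (hk1 : 77 * k ≤ 5 * v) (hi : 0 ≤ i) (hi1 : 6 * i ≤ v) (hx : x = (v - k - 3 + i) / 2)
    (hS : S = 5 / 2 * x ^ 2 / (N + 3 * v - 3 * x)) :
    0 ≤ S ∧ S * (N + 5 / 4 * v) ≤ 5 / 8 * (v - k + i) ^ 2 := by
  have hd : 0 < N + 3 * v - 3 * x := by rw [hx]; linarith
  have h0 : 0 ≤ S := by rw [hS]; positivity
  refine ⟨h0, ?_⟩
  have h1 : S * (N + 3 * v - 3 * x) = 5 / 2 * x ^ 2 := by
    rw [hS, div_mul_cancel₀ _ hd.ne']
  have h2 : S * (N + 5 / 4 * v) ≤ S * (N + 3 * v - 3 * x) := by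
    apply mul_le_mul_of_nonneg_left _ h0
    rw [hx]; linarith
  have h3 : x ^ 2 ≤ ((v - k + i) / 2) ^ 2 := by
    apply pow_le_pow_left₀
    · rw [hx]; linarith
    · rw [hx]; linarith
  linarith

theorem SQbound (v N k i x S : ℝ) (hv : 57 ≤ v) (hN : 34 / 5 * v ≤ N) (hk : 1 ≤ k)
    (hk1 : 77 * k ≤ 5 * v) (hi : 0 ≤ i) (hi1 : 6 * i ≤ v) (hx : x = (v - k - 3 - i) / 2)
    (hS : S = 5 / 2 * x ^ 2 / (N + 3 * v - 3 * x)) :
    0 ≤ S ∧ S * (N + 3 / 2 * v) ≤ 5 / 8 * (v - k - i) ^ 2 := by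
  have hd : 0 < N + 3 * v - 3 * x := by rw [hx]; linarith
  have h0 : 0 ≤ S := by rw [hS]; positivity
  refine ⟨h0, ?_⟩
  have h1 : S * (N + 3 * v - 3 * x) = 5 / 2 * x ^ 2 := by
    rw [hS, div_mul_cancel₀ _ hd.ne']
  have h2 : S * (N + 3 / 2 * v) ≤ S * (N + 3 * v - 3 * x) := by
    apply mul_le_mul_of_nonneg_left _ h0
    rw [hx]; linarith
  have h3 : x ^ 2 ≤ ((v - k - i) / 2) ^ 2 := by
    apply pow_le_pow_left₀
    · rw [hx]; linarith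
    · rw [hx]; linarith
  linarith

end Pool.Agent.Lib.MP_b072d9_co
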