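import Mathlib

set_option autoImplicit false

namespace Pool.Agent.Lib.MP_b072d9_co

/-- cost of a binary node with label `h` and parts of excess `a`, `b` -/
def cst (n : ℤ) (h a b : ℕ) : ℤ := ((a : ℤ) + h) * ((b : ℤ) + h) * (n - 1 - a - b - 2 * h)

/-- `L` is the minimal cost function of labelled binary structures -/
structure IsL (n : ℤ) (L : ℕ → ℤ) : Prop where
  zero : L 0 = 0
  le : ∀ h a b : ℕ, 1 ≤ h → L (a + b + h) ≤ L a + L b + cst n h a b
  ex : ∀ u : ℕ, 1 ≤ u → ∃ h a b : ℕ, 1 ≤ h ∧ a + b + h = u ∧ L u = L a + L b + cst n h a b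

/-- the defect of the increments of `L` with respect to brooms -/
def KK (n : ℤ) (L : ℕ → ℤ) (u : ℕ) : ℤ := ((u : ℤ) + 1) * (n - 3 - u) - (L (u + 1) - L u)

/-- the node `(h; a, b)` is optimal -/
def Opt (n : ℤ) (L : ℕ → ℤ) (h a b : ℕ) : Prop := 1 ≤ h ∧ L (a + b + h) = L a + L b + cst n h a b

variable {n : ℤ} {L : ℕ → ℤ}

theorem Opt.swap {h a b : ℕ} (ho : Opt n L h a b) : Opt n L h b a := by
  obtain ⟨h1, h2⟩ := ho
  refine ⟨h1, ?_⟩
  rw [show b + a + h = a + b + h by ring, h2]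
  unfold cst; ring

theorem IsL.exists_opt (hL : IsL n L) (u : ℕ) (hu : 1 ≤ u) :
    ∃ h a b : ℕ, Opt n L h a b ∧ a + b + h = u := by
  obtain ⟨h, a, b, h1, h2, h3⟩ := hL.ex u hu
  exact ⟨h, a, b, ⟨h1, by rw [h2]; exact h3⟩, h2⟩

/-- the increment of `L` -/
theorem L_succ (n : ℤ) (L : ℕ → ℤ) (u : ℕ) :
    L (u + 1) = L u + ((u : ℤ) + 1) * (n - 3 - u) - KK n L u := by
  unfold KK; ring

/-- (C+) -/
theorem Cplus (hL : IsL n L) {h a b : ℕ} (ho : Opt n L h a b) :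
    KK n L a + 2 * ((h : ℤ) - 1) * (b + h) ≤ KK n L (a + b + h) := by
  obtain ⟨h1, h2⟩ := ho
  have h3 := hL.le h (a + 1) b h1
  rw [show a + 1 + b + h = a + b + h + 1 by ring, L_succ n L (a + b + h), L_succ n L a, h2] at h3
  unfold cst at h3
  push_cast at h3
  linarith

/-- (C-) -/
theorem Cminus (hL : IsL n L) {h a b : ℕ} (ho : Opt n L h (a + 1) b) :
    KK n L (a + b + h) ≤ KK n L a + 2 * ((h : ℤ) - 1) * (b + h) := by
  obtain ⟨h1, h2⟩ := ho
  have h3 := hL.le h a b h1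
  rw [show a + 1 + b + h = a + b + h + 1 by ring, L_succ n L (a + b + h), L_succ n L a] at h2
  unfold cst at h2 h3
  push_cast at h2
  linarith

/-- (B+) -/
theorem Bplus (hL : IsL n L) {h a b : ℕ} (ho : Opt n L h a b) :
    2 * (a : ℤ) * b - h * (n - 4 - 4 * (a + b + h) - h) ≤ KK n L (a + b + h) := by
  obtain ⟨h1, h2⟩ := ho
  have h3 := hL.le (h + 1) a b (by omega)
  rw [show a + b + (h + 1) = a + b + h + 1 by ring, L_succ n L (a + b + h), h2] at h3
  unfold cst at h3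
  push_cast at h3
  linarith

/-- (B-) -/
theorem Bminus (hL : IsL n L) {h a b : ℕ} (h1 : 1 ≤ h) (ho : Opt n L (h + 1) a b) :
    KK n L (a + b + h) ≤ 2 * (a : ℤ) * b - h * (n + 1 - 4 * (a + b + h + 1) - (h + 1)) := by
  obtain ⟨-, h2⟩ := ho
  have h3 := hL.le h a b h1
  rw [show a + b + (h + 1) = a + b + h + 1 by ring, L_succ n L (a + b + h)] at h2
  unfold cst at h2 h3
  push_cast at h2
  linarith

/-- (Imb) -/
theorem Imb (hL : IsL n L) {h a b : ℕ} (ho : Opt n L h (a + 1) b) :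
    ((a : ℤ) - b) * (2 * h - 2) ≤ KK n L a - KK n L b := by
  obtain ⟨h1, h2⟩ := ho
  have h3 := hL.le h a (b + 1) h1
  rw [show a + (b + 1) + h = a + 1 + b + h by ring, h2, L_succ n L a, L_succ n L b] at h3
  unfold cst at h3
  push_cast at h3
  linarith

/-- (D1) -/
theorem D1 (hL : IsL n L) {h a b : ℕ} (h1 : 1 ≤ h) (ho : Opt n L (h + 1) a b) :
    (h : ℤ) * (n - 4 * a) - 2 * (h + 1) * b - 3 * (h + 1) ^ 2 + 3 + KK n L a ≤ 2 * a * b := by
  obtain ⟨-, h2⟩ := ho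
  have h3 := hL.le h (a + 1) b h1
  rw [show a + 1 + b + h = a + b + (h + 1) by ring, h2, L_succ n L a] at h3
  unfold cst at h3
  push_cast at h3
  linarith

/-- (D2) -/
theorem D2 (hL : IsL n L) {h a b : ℕ} (ho : Opt n L h (a + 1) b) :
    2 * ((a : ℤ) + 1) * b - KK n L a ≤ h * (n - 2 - 4 * (a + 1) - 2 * b - 3 * h) := by
  obtain ⟨h1, h2⟩ := ho
  have h3 := hL.le (h + 1) a b (by omega)
  rw [show a + b + (h + 1) = a + 1 + b + h by ring, h2, L_succ n L a] at h3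
  unfold cst at h3
  push_cast at h3
  linarith

/-- (N1) labels of optimal structures decrease from the root -/
theorem N1 (hL : IsL n L) {h h₁ p q r : ℕ} (ho : Opt n L h (p + q + h₁) r)
    (ho₁ : Opt n L h₁ p q) : h₁ ≤ h := by
  by_contra hc
  push Not at hc
  obtain ⟨h1, h2⟩ := ho
  obtain ⟨g1, g2⟩ := ho₁
  have h3 := hL.le h₁ p (q + r + h) g1
  have h4 := hL.le h q r h1
  rw [show p + (q + r + h) + h₁ = p + q + h₁ + r + h by ring, h2, g2] at h3
  unfold cst at h3 h4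
  push_cast at h3 h4
  have h5 : (0 : ℤ) < 2 * (p + h₁) * (r + h) * (h₁ - h) := by
    have e1 : (1 : ℤ) ≤ h := by exact_mod_cast h1
    have e2 : (h : ℤ) < h₁ := by exact_mod_cast hc
    have e3 : (0 : ℤ) ≤ p := by positivity
    have e4 : (0 : ℤ) ≤ r := by positivity
    have : (0 : ℤ) < p + h₁ := by linarith
    have : (0 : ℤ) < r + h := by linarith
    have : (0 : ℤ) < h₁ - h := by linarith
    positivity
  linarith

/-- (N2) -/
theorem N2 (hL : IsL n L) {h h₁ p q r : ℕ} (ho : Opt n L h (p + q + h₁) r)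
    (ho₁ : Opt n L h₁ p q) (hlt : h₁ < h) : p ≤ r := by
  by_contra hc
  push Not at hc
  obtain ⟨h1, h2⟩ := ho
  obtain ⟨g1, g2⟩ := ho₁
  have h3 := hL.le h (r + q + h₁) p h1
  have h4 := hL.le h₁ r q g1
  rw [show r + q + h₁ + p + h = p + q + h₁ + r + h by ring, h2, g2] at h3
  unfold cst at h3 h4
  push_cast at h3 h4
  have h5 : (0 : ℤ) < 2 * (h - h₁) * (q + h₁) * (p - r) := by
    have e1 : (1 : ℤ) ≤ h₁ := by exact_mod_cast g1
    have e2 : (h₁ : ℤ) < h := by exact_mod_cast hlt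
    have e3 : (0 : ℤ) ≤ q := by positivity
    have e4 : (r : ℤ) < p := by exact_mod_cast hc
    have : (0 : ℤ) < q + h₁ := by linarith
    have : (0 : ℤ) < p - r := by linarith
    have : (0 : ℤ) < h - h₁ := by linarith
    positivity
  linarith

end Pool.Agent.Lib.MP_b072d9_co
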