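import Pool.Agent.Lib.MP_b072d9_co.LWin4

set_option autoImplicit false

namespace Pool.Agent.Lib.MP_b072d9_co

/-! The label-capped cost function: all labels are at most `H`. -/

/-- `L` is the minimal cost function of binary structures with labels at most `H` -/
structure IsLH (n : ℤ) (H : ℕ) (L : ℕ → ℤ) : Prop where
  zero : L 0 = 0
  le : ∀ h a b : ℕ, (1 ≤ h ∧ h ≤ H) → L (a + b + h) ≤ L a + L b + cst n h a b
  ex : ∀ u : ℕ, 1 ≤ u → ∃ h a b : ℕ, (1 ≤ h ∧ h ≤ H) ∧ a + b + h = u ∧
    L u = L a + L b + cst n h a b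

/-- the node `(h; a, b)` is optimal among labels at most `H` -/
def OptH (n : ℤ) (H : ℕ) (L : ℕ → ℤ) (h a b : ℕ) : Prop :=
  (1 ≤ h ∧ h ≤ H) ∧ L (a + b + h) = L a + L b + cst n h a b

variable {n : ℤ} {H : ℕ} {L : ℕ → ℤ}

theorem OptH.swap {h a b : ℕ} (ho : OptH n H L h a b) : OptH n H L h b a := by
  obtain ⟨h1, h2⟩ := ho
  refine ⟨h1, ?_⟩
  rw [show b + a + h = a + b + h by ring, h2]
  unfold cst; ring

theorem IsLH.exists_opt (hL : IsLH n H L) (u : ℕ) (hu : 1 ≤ u) :
    ∃ h a b : ℕ, OptH n H L h a b ∧ a + b + h = u := by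
  obtain ⟨h, a, b, h1, h2, h3⟩ := hL.ex u hu
  exact ⟨h, a, b, ⟨h1, by rw [h2]; exact h3⟩, h2⟩

/-- (C+) -/
theorem CplusH (hL : IsLH n H L) {h a b : ℕ} (ho : OptH n H L h a b) :
    KK n L a + 2 * ((h : ℤ) - 1) * (b + h) ≤ KK n L (a + b + h) := by
  obtain ⟨h1, h2⟩ := ho
  have h3 := hL.le h (a + 1) b h1
  rw [show a + 1 + b + h = a + b + h + 1 by ring, L_succ n L (a + b + h), L_succ n L a, h2] at h3
  unfold cst at h3
  push_cast at h3
  linarith

/-- (C-) -/
theorem CminusH (hL : IsLH n H L) {h a b : ℕ} (ho : OptH n H L h (a + 1) b) :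
    KK n L (a + b + h) ≤ KK n L a + 2 * ((h : ℤ) - 1) * (b + h) := by
  obtain ⟨h1, h2⟩ := ho
  have h3 := hL.le h a b h1
  rw [show a + 1 + b + h = a + b + h + 1 by ring, L_succ n L (a + b + h), L_succ n L a] at h2
  unfold cst at h2 h3
  push_cast at h2
  linarith

/-- (B+) -/
theorem BplusH (hL : IsLH n H L) {h a b : ℕ} (hH : h + 1 ≤ H) (ho : OptH n H L h a b) :
    2 * (a : ℤ) * b - h * (n - 4 - 4 * (a + b + h) - h) ≤ KK n L (a + b + h) := by
  obtain ⟨h1, h2⟩ := ho
  have h3 := hL.le (h + 1) a b (by omega)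
  rw [show a + b + (h + 1) = a + b + h + 1 by ring, L_succ n L (a + b + h), h2] at h3
  unfold cst at h3
  push_cast at h3
  linarith

/-- (B-) -/
theorem BminusH (hL : IsLH n H L) {h a b : ℕ} (h1 : 1 ≤ h) (ho : OptH n H L (h + 1) a b) :
    KK n L (a + b + h) ≤ 2 * (a : ℤ) * b - h * (n + 1 - 4 * (a + b + h + 1) - (h + 1)) := by
  obtain ⟨hh, h2⟩ := ho
  have h3 := hL.le h a b (by omega)
  rw [show a + b + (h + 1) = a + b + h + 1 by ring, L_succ n L (a + b + h)] at h2
  unfold cst at h2 h3
  push_cast at h2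
  linarith

/-- (ImbH) -/
theorem ImbH (hL : IsLH n H L) {h a b : ℕ} (ho : OptH n H L h (a + 1) b) :
    ((a : ℤ) - b) * (2 * h - 2) ≤ KK n L a - KK n L b := by
  obtain ⟨h1, h2⟩ := ho
  have h3 := hL.le h a (b + 1) h1
  rw [show a + (b + 1) + h = a + 1 + b + h by ring, h2, L_succ n L a, L_succ n L b] at h3
  unfold cst at h3
  push_cast at h3
  linarith

/-- (D1H) -/
theorem D1H (hL : IsLH n H L) {h a b : ℕ} (h1 : 1 ≤ h) (ho : OptH n H L (h + 1) a b) :
    (h : ℤ) * (n - 4 * a) - 2 * (h + 1) * b - 3 * (h + 1) ^ 2 + 3 + KK n L a ≤ 2 * a * b := by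
  obtain ⟨hh, h2⟩ := ho
  have h3 := hL.le h (a + 1) b (by omega)
  rw [show a + 1 + b + h = a + b + (h + 1) by ring, h2, L_succ n L a] at h3
  unfold cst at h3
  push_cast at h3
  linarith

/-- (D2H) -/
theorem D2H (hL : IsLH n H L) {h a b : ℕ} (hH : h + 1 ≤ H) (ho : OptH n H L h (a + 1) b) :
    2 * ((a : ℤ) + 1) * b - KK n L a ≤ h * (n - 2 - 4 * (a + 1) - 2 * b - 3 * h) := by
  obtain ⟨h1, h2⟩ := ho
  have h3 := hL.le (h + 1) a b (by omega)
  rw [show a + b + (h + 1) = a + 1 + b + h by ring, h2, L_succ n L a] at h3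
  unfold cst at h3
  push_cast at h3
  linarith

/-- (N1H) labels of optimal structures decrease from the root -/
theorem N1H (hL : IsLH n H L) {h h₁ p q r : ℕ} (ho : OptH n H L h (p + q + h₁) r)
    (ho₁ : OptH n H L h₁ p q) : h₁ ≤ h := by
  by_contra hc
  push Not at hc
  obtain ⟨h1, h2⟩ := ho
  obtain ⟨g1, g2⟩ := ho₁
  have h3 := hL.le h₁ p (q + r + h) g1
  have h4 := hL.le h q r h1
  rw [show p + (q + r + h) + h₁ = p + q + h₁ + r + h by ring, h2, g2] at h3
  unfold cst at h3 h4
  push_cast at h3 h4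
  have h5 : (0 : ℤ) < 2 * (p + h₁) * (r + h) * (h₁ - h) := by
    have e1 : (1 : ℤ) ≤ h := by exact_mod_cast h1.1
    have e2 : (h : ℤ) < h₁ := by exact_mod_cast hc
    have e3 : (0 : ℤ) ≤ p := by positivity
    have e4 : (0 : ℤ) ≤ r := by positivity
    have : (0 : ℤ) < p + h₁ := by linarith
    have : (0 : ℤ) < r + h := by linarith
    have : (0 : ℤ) < h₁ - h := by linarith
    positivity
  linarith

/-- (N2H) -/
theorem N2H (hL : IsLH n H L) {h h₁ p q r : ℕ} (ho : OptH n H L h (p + q + h₁) r)
    (ho₁ : OptH n H L h₁ p q) (hlt : h₁ < h) : p ≤ r := by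
  by_contra hc
  push Not at hc
  obtain ⟨h1, h2⟩ := ho
  obtain ⟨g1, g2⟩ := ho₁
  have h3 := hL.le h (r + q + h₁) p h1
  have h4 := hL.le h₁ r q g1
  rw [show r + q + h₁ + p + h = p + q + h₁ + r + h by ring, h2, g2] at h3
  unfold cst at h3 h4
  push_cast at h3 h4
  have h5 : (0 : ℤ) < 2 * (h - h₁) * (q + h₁) * (p - r) := by
    have e1 : (1 : ℤ) ≤ h₁ := by exact_mod_cast g1.1
    have e2 : (h₁ : ℤ) < h := by exact_mod_cast hlt
    have e3 : (0 : ℤ) ≤ q := by positivity
    have e4 : (r : ℤ) < p := by exact_mod_cast hc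
    have : (0 : ℤ) < q + h₁ := by linarith
    have : (0 : ℤ) < p - r := by linarith
    have : (0 : ℤ) < h - h₁ := by linarith
    positivity
  linarith



theorem K_zeroH (hL : IsLH n H L) : KK n L 0 = 0 := by
  obtain ⟨h, a, b, ⟨h1, h2⟩, h3⟩ := hL.exists_opt 1 le_rfl
  have ha : a = 0 := by omega
  have hb : b = 0 := by omega
  have hh : h = 1 := by omega
  subst ha hb hh
  have h0 := hL.zero
  unfold cst at h2
  unfold KK
  simp only [Nat.zero_add] at h2 ⊢
  rw [h2, h0]
  push_cast
  ring

theorem K_nonnegH (hL : IsLH n H L) (u : ℕ) : 0 ≤ KK n L u := by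
  induction u using Nat.strong_induction_on with
  | _ u ih =>
    rcases Nat.eq_zero_or_pos u with h0 | h0
    · subst h0; rw [K_zeroH hL]
    · obtain ⟨h, a, b, ho, hu⟩ := hL.exists_opt u h0
      have h1 := CplusH hL ho
      rw [hu] at h1
      have h2 := ih a (by have := ho.1; omega)
      have h3 : (1 : ℤ) ≤ h := by exact_mod_cast ho.1.1
      have h4 : 0 ≤ 2 * ((h : ℤ) - 1) * (b + h) := by
        apply mul_nonneg
        · linarith
        · positivity
      linarith

theorem K_mono_succH (hL : IsLH n H L) (u : ℕ) (hu : 5 * ((u : ℤ) + 1) ≤ n + 1) :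
    KK n L u ≤ KK n L (u + 1) := by
  induction u using Nat.strong_induction_on with
  | _ u ih =>
    obtain ⟨h, a, b, ho, hs⟩ := hL.exists_opt (u + 1) (by omega)
    -- a case with a positive part
    have key : ∀ a b : ℕ, OptH n H L h a b → a + b + h = u + 1 → 1 ≤ a →
        KK n L u ≤ KK n L (u + 1) := by
      intro a b ho hs ha
      obtain ⟨a', rfl⟩ := Nat.exists_eq_add_of_le' ha
      have h1 := CminusH hL ho
      have h2 := CplusH hL ho
      have h3 : a' + b + h = u := by omega
      rw [h3] at h1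
      rw [hs] at h2
      have h4 := ih a' (by have := ho.1; omega) (by
        have : (a' : ℤ) ≤ u := by exact_mod_cast (by omega : a' ≤ u)
        linarith)
      linarith
    rcases Nat.eq_zero_or_pos a with ha | ha
    · rcases Nat.eq_zero_or_pos b with hb | hb
      · subst ha hb
        have hh : h = u + 1 := by omega
        subst hh
        rcases Nat.eq_zero_or_pos u with h0 | h0
        · subst h0
          rw [K_zeroH hL]
          exact K_nonnegH hL 1
        · have h1 := BminusH hL h0 ho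
          have h2 := K_nonnegH hL (u + 1)
          simp only [Nat.zero_add] at h1
          have h5 : (0 : ℤ) ≤ u := by positivity
          have h3 : 0 ≤ (u : ℤ) * (n + 1 - 4 * ((0 : ℕ) + (0 : ℕ) + u + 1) - (u + 1)) := by
            apply mul_nonneg h5
            push_cast
            linarith
          push_cast at h1 h3
          linarith
      · exact key b a ho.swap (by omega) hb
    · exact key a b ho hs ha

theorem K_monoH (hL : IsLH n H L) {v w : ℕ} (hvw : v ≤ w) (hw : 5 * (w : ℤ) ≤ n + 1) :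
    KK n L v ≤ KK n L w := by
  induction w, hvw using Nat.le_induction with
  | base => exact le_rfl
  | succ w hvw ih =>
    push_cast at hw
    exact (ih (by linarith)).trans (K_mono_succH hL w hw)

/-- the defect vanishes at the beginning -/
theorem K_eq_zeroH (hL : IsLH n H L) (v : ℕ) (hv : ((v : ℤ) + 3) ^ 2 ≤ 2 * n - 2) :
    KK n L v = 0 := by
  induction v using Nat.strong_induction_on with
  | _ v ih =>
    rcases Nat.eq_zero_or_pos v with h0 | h0
    · subst h0; exact K_zeroH hL
    · apply le_antisymm _ (K_nonnegH hL v)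
      obtain ⟨h, a, b, ho, hs⟩ := hL.exists_opt (v + 1) (by omega)
      have key : ∀ a b : ℕ, OptH n H L 1 a b → a + b + 1 = v + 1 → 1 ≤ a → KK n L v ≤ 0 := by
        intro a b ho hs ha
        obtain ⟨a', rfl⟩ := Nat.exists_eq_add_of_le' ha
        have h1 := CminusH hL ho
        have h3 : a' + b + 1 = v := by omega
        rw [h3] at h1
        have h5 : (a' : ℤ) ≤ v := by exact_mod_cast (by omega : a' ≤ v)
        have h4 := ih a' (by omega) (by nlinarith)
        rw [h4] at h1
        push_cast at h1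
        linarith
      rcases Nat.lt_or_ge 1 h with hh | hh
      · obtain ⟨k, rfl⟩ := Nat.exists_eq_add_of_le' (by omega : 1 ≤ h)
        have hk : 1 ≤ k := by omega
        have h1 := BminusH hL hk ho
        have h3 : a + b + k = v := by omega
        rw [h3] at h1
        refine h1.trans ?_
        have e1 : (a : ℤ) + b = v - k := by
          have : (a : ℤ) + b + k = v := by exact_mod_cast h3
          linarith
        have e2 : (a : ℤ) + b + k + 1 = v + 1 := by linarith
        have hk' : (1 : ℤ) ≤ k := by exact_mod_cast hk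
        have hkn : k ≤ v := by omega
        have hkv : (k : ℤ) ≤ v := by exact_mod_cast hkn
        have e3 : 4 * ((a : ℤ) * b) ≤ (v - k) ^ 2 := by
          rw [← e1]; nlinarith [sq_nonneg ((a : ℤ) - b)]
        rw [e2]
        -- it suffices that (v-k)^2 <= 2k(n-4-4v-k)
        have e4 : ((v : ℤ) - k) ^ 2 ≤ 2 * k * (n - 4 - 4 * v - k) := by
          have e5 : (v : ℤ) ^ 2 - 2 * v + 3 - 2 * k ≤ 2 * (n - 4 - 4 * v - k) := by linarith
          have e6 : (k : ℤ) * ((v : ℤ) ^ 2 - 2 * v + 3 - 2 * k) ≤ k * (2 * (n - 4 - 4 * v - k)) :=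
            mul_le_mul_of_nonneg_left e5 (by linarith)
          rcases le_or_gt 3 v with hv3 | hv3
          · have hv3' : (3 : ℤ) ≤ v := by exact_mod_cast hv3
            have e7 : 0 ≤ ((k : ℤ) - 1) * ((v : ℤ) ^ 2 - 3 * k) := by
              apply mul_nonneg (by linarith)
              have := mul_le_mul_of_nonneg_right hv3' (by linarith : (0 : ℤ) ≤ v)
              linarith
            linarith
          · interval_cases v
            · interval_cases k
              push_cast at hv ⊢
              norm_num at hv ⊢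
              linarith
            · interval_cases k
              · push_cast at hv ⊢
                norm_num at hv ⊢
                linarith
              · push_cast at hv ⊢
                norm_num at hv ⊢
                omega
        linarith
      · have hh1 : h = 1 := by have := ho.1; omega
        subst hh1
        rcases Nat.eq_zero_or_pos a with ha | ha
        · rcases Nat.eq_zero_or_pos b with hb | hb
          · omega
          · exact key b a ho.swap (by omega) hb
        · exact key a b ho hs ha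

/-- cubic upper bound for the defect -/
theorem K_upH (hL : IsLH n H L) (v : ℕ) (hv : 5 * ((v : ℤ) + 1) ≤ n + 1) :
    7 * (n - 3 * (v + 1)) * KK n L v ≤ 4 * ((v : ℤ) + 1) ^ 3 := by
  induction v using Nat.strong_induction_on with
  | _ v ih =>
    obtain ⟨h, a, b, ho, hs⟩ := hL.exists_opt (v + 1) (by omega)
    have hX := K_nonnegH hL v
    have hv0 : (0 : ℤ) ≤ v := by positivity
    rcases Nat.lt_or_ge 1 h with hh | hh
    · obtain ⟨k, rfl⟩ := Nat.exists_eq_add_of_le' (by omega : 1 ≤ h)
      have hk : 1 ≤ k := by omega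
      have h1 := BminusH hL hk ho
      have h3 : a + b + k = v := by omega
      rw [h3] at h1
      have hk' : (1 : ℤ) ≤ k := by exact_mod_cast hk
      have e1 : (a : ℤ) + b + k = v := by exact_mod_cast h3
      have ha0 : (0 : ℤ) ≤ a := by positivity
      have hb0 : (0 : ℤ) ≤ b := by positivity
      rcases Nat.eq_zero_or_pos (a * b) with hab | hab
      · have hab' : (a : ℤ) * b = 0 := by exact_mod_cast hab
        have h5 : KK n L v ≤ 0 := by
          refine h1.trans ?_
          have : 0 ≤ (k : ℤ) * (n + 1 - 4 * ((a : ℤ) + b + k + 1) - (k + 1)) := by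
            apply mul_nonneg (by linarith)
            linarith
          have e : 2 * (a : ℤ) * b = 0 := by rw [mul_assoc, hab']; ring
          linarith
        have h6 : KK n L v = 0 := le_antisymm h5 hX
        rw [h6]
        have : 0 ≤ 4 * ((v : ℤ) + 1) ^ 3 := by positivity
        linarith
      · have ha : 1 ≤ a := Nat.pos_of_ne_zero (by rintro rfl; simp at hab)
        have hb : 1 ≤ b := Nat.pos_of_ne_zero (by rintro rfl; simp at hab)
        obtain ⟨a', rfl⟩ := Nat.exists_eq_add_of_le' ha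
        obtain ⟨b', rfl⟩ := Nat.exists_eq_add_of_le' hb
        have c1 := CminusH hL ho
        have c2 := CminusH hL ho.swap
        rw [show a' + (b' + 1) + (k + 1) = v by omega] at c1
        rw [show b' + (a' + 1) + (k + 1) = v by omega] at c2
        have i1 := ih a' (by omega) (by push_cast at e1; linarith)
        have i2 := ih b' (by omega) (by push_cast at e1; linarith)
        have k1 := K_nonnegH hL a'
        have k2 := K_nonnegH hL b'
        push_cast at *
        set X := KK n L v
        set KA := KK n L a'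
        set KB := KK n L b'
        set A : ℤ := (a' : ℤ) + 1 with hA
        set B : ℤ := (b' : ℤ) + 1 with hB
        set U : ℤ := (v : ℤ) + 1 with hU
        set H : ℤ := (k : ℤ) + 1 with hH
        have hsum : A + B + H = U := by linarith
        set Q : ℤ := n + 1 - 4 * U - H with hQ
        have hQ0 : 0 ≤ Q := by rw [hQ]; linarith
        -- combination
        have f1 : X ≤ 2 * A * B - (H - 1) * Q := by
          have : (k : ℤ) * (n + 1 - 4 * (A + B + k + 1) - (k + 1)) = (H - 1) * Q := by
            rw [hQ, ← hsum, hH]; ring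
          linarith
        have f2 : X ≤ KA + 2 * (H - 1) * (B + H) := by
          rw [hH]; linarith
        have f3 : X ≤ KB + 2 * (H - 1) * (A + H) := by
          rw [hH]; linarith
        have hUH : 0 ≤ U + H := by linarith
        have g1 : (U + H) * X ≤ (U + H) * (2 * A * B - (H - 1) * Q) :=
          mul_le_mul_of_nonneg_left f1 hUH
        have g2 : Q * (2 * X) ≤ Q * (KA + KB + 2 * (H - 1) * (U + H)) := by
          apply mul_le_mul_of_nonneg_left _ hQ0
          rw [← hsum]; linarith
        have g3 : 2 * ((n + 1 - 3 * U) * X) ≤ 4 * A * B * (U + H) + Q * (KA + KB) := by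
          have : 2 * ((n + 1 - 3 * U) * X) = 2 * ((U + H) * X) + Q * (2 * X) := by
            rw [hQ]; ring
          rw [this]
          linarith
        have j1 : 7 * (Q * KA) ≤ 4 * A ^ 3 := by
          have : Q * KA ≤ (n - 3 * A) * KA := by
            apply mul_le_mul_of_nonneg_right _ k1
            rw [hQ]; linarith
          linarith
        have j2 : 7 * (Q * KB) ≤ 4 * B ^ 3 := by
          have : Q * KB ≤ (n - 3 * B) * KB := by
            apply mul_le_mul_of_nonneg_right _ k2
            rw [hQ]; linarith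
          linarith
        have g4 : 14 * ((n + 1 - 3 * U) * X) ≤ 28 * A * B * (U + H) + 4 * (A ^ 3 + B ^ 3) := by
          linarith
        have g5 : 14 * A * B * (U + H) + 2 * (A ^ 3 + B ^ 3) ≤ 4 * U ^ 3 := by
          set s := A + B with hs'
          have hs0 : 0 ≤ s := by linarith
          have hsU : s ≤ U := by linarith
          have hP : 4 * (A * B) ≤ s ^ 2 := by rw [hs']; nlinarith [sq_nonneg (A - B)]
          have hHs : H = U - s := by linarith
          have e5 : 14 * A * B * (U + H) + 2 * (A ^ 3 + B ^ 3) =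
              (A * B) * (28 * U - 20 * s) + 2 * s ^ 3 := by
            rw [hHs, hs']; ring
          rw [e5]
          have e6 : (A * B) * (28 * U - 20 * s) * 4 ≤ s ^ 2 * (28 * U - 20 * s) := by
            have : 0 ≤ 28 * U - 20 * s := by linarith
            have := mul_le_mul_of_nonneg_right hP this
            linarith
          have e7 : 0 ≤ (U - s) * (4 * U ^ 2 + 4 * U * s - 3 * s ^ 2) := by
            apply mul_nonneg (by linarith)
            have t1 := mul_nonneg hs0 (by linarith : 0 ≤ 4 * U - 3 * s)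
            have t2 := sq_nonneg U
            linarith
          linarith
        have g6 : 7 * (n - 3 * U) * X ≤ 7 * ((n + 1 - 3 * U) * X) := by linarith
        linarith
    · have hh1 : h = 1 := by have := ho.1; omega
      subst hh1
      have key : ∀ a b : ℕ, OptH n H L 1 a b → a + b + 1 = v + 1 → 1 ≤ a →
          7 * (n - 3 * (v + 1)) * KK n L v ≤ 4 * ((v : ℤ) + 1) ^ 3 := by
        intro a b ho hs ha
        obtain ⟨a', rfl⟩ := Nat.exists_eq_add_of_le' ha
        have h1 := CminusH hL ho
        have h3 : a' + b + 1 = v := by omega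
        rw [h3] at h1
        push_cast at h1
        have h5 : (a' : ℤ) + 1 ≤ v := by exact_mod_cast (by omega : a' + 1 ≤ v)
        have h4 := ih a' (by omega) (by linarith)
        have k1 := K_nonnegH hL a'
        have ha0 : (0 : ℤ) ≤ a' := by positivity
        have s1 : 7 * (n - 3 * (v + 1)) * KK n L v ≤ 7 * (n - 3 * (v + 1)) * KK n L a' := by
          apply mul_le_mul_of_nonneg_left _ (by linarith)
          linarith
        have s2 : 7 * (n - 3 * ((v : ℤ) + 1)) * KK n L a' ≤ 7 * (n - 3 * ((a' : ℤ) + 1)) * KK n L a' := by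
          apply mul_le_mul_of_nonneg_right _ k1
          linarith
        have s3 : ((a' : ℤ) + 1) ^ 3 ≤ ((v : ℤ) + 1) ^ 3 := by
          apply pow_le_pow_left₀ (by linarith) (by linarith)
        linarith
      rcases Nat.eq_zero_or_pos a with ha | ha
      · rcases Nat.eq_zero_or_pos b with hb | hb
        · have : v = 0 := by omega
          subst this
          rw [K_zeroH hL]
          push_cast
          norm_num
        · exact key b a ho.swap (by omega) hb
      · exact key a b ho hs ha



/-- rotation of equal labels -/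
theorem rot_eqH (hL : IsLH n H L) {h p q r : ℕ} (ho : OptH n H L h (p + q + h) r)
    (ho₁ : OptH n H L h p q) : OptH n H L h (q + r + h) p ∧ OptH n H L h q r := by
  obtain ⟨h1, h2⟩ := ho
  obtain ⟨g1, g2⟩ := ho₁
  have h3 := hL.le h (q + r + h) p h1
  have h4 := hL.le h q r h1
  rw [show q + r + h + p + h = p + q + h + r + h by ring, h2, g2] at h3
  have e : cst n h (p + q + h) r + cst n h p q = cst n h (q + r + h) p + cst n h q r := by
    unfold cst; push_cast; ring
  refine ⟨⟨h1, ?_⟩, ⟨h1, ?_⟩⟩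
  · rw [show q + r + h + p + h = p + q + h + r + h by ring, h2, g2]
    linarith
  · linarith

/-- three parts with the same label `≥ 2` are impossible, sorted case -/
theorem N3coreH (hL : IsLH n H L) {k p q r : ℕ} (hk : 1 ≤ k) (hH : k + 2 ≤ H) (ho : OptH n H L (k + 1) (q + r + (k + 1)) p)
    (ho₁ : OptH n H L (k + 1) q r) (hpq : q ≤ p) (hqr : r ≤ q) : False := by
  have d1 := D1H hL hk ho₁
  have kq := K_nonnegH hL q
  obtain ⟨-, h2⟩ := ho
  obtain ⟨-, g2⟩ := ho₁
  have h3 := hL.le (k + 2) p (q + r + k) (by omega)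
  have h4 := hL.le k q r (by omega)
  rw [show p + (q + r + k) + (k + 2) = q + r + (k + 1) + p + (k + 1) by ring, h2, g2] at h3
  unfold cst at h3 h4
  push_cast at h3 h4 d1
  have ek : (1 : ℤ) ≤ k := by exact_mod_cast hk
  have ep : (q : ℤ) ≤ p := by exact_mod_cast hpq
  have eq' : (r : ℤ) ≤ q := by exact_mod_cast hqr
  have er : (0 : ℤ) ≤ r := by positivity
  -- (M1)
  have m1 : 2 * (p : ℤ) * (q + r) - 2 * q * r + 4 * p * (k + 1) + 4 * (q + r) + 2 * (k + 1) ^ 2
      + 8 * (k + 1) - 1 ≤ n := by linarith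
  have m2 : 2 * (q : ℤ) ^ 2 + 4 * q * (k + 1) + 4 * (q + r) + 2 * (k + 1) ^ 2
      + 8 * (k + 1) - 1 ≤ n := by
    have t1 : 0 ≤ ((p : ℤ) - q) * (q + r) := mul_nonneg (by linarith) (by linarith)
    have t2 : 0 ≤ ((p : ℤ) - q) * (k + 1) := mul_nonneg (by linarith) (by linarith)
    linarith
  have m3 : (k : ℤ) * (2 * (q : ℤ) ^ 2 + 4 * q * (k + 1) + 4 * r + 2 * (k + 1) ^ 2
      + 8 * (k + 1) - 1) ≤ k * (n - 4 * q) := by
    apply mul_le_mul_of_nonneg_left _ (by linarith)
    linarith
  have m4 : 2 * (q : ℤ) ^ 2 + 4 * q * (k + 1) + 4 * r + 2 * (k + 1) ^ 2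
      + 8 * (k + 1) - 1 + ((k : ℤ) - 1) * (2 * (k + 1) ^ 2 + 8 * (k + 1) - 1) ≤
      (k : ℤ) * (2 * (q : ℤ) ^ 2 + 4 * q * (k + 1) + 4 * r + 2 * (k + 1) ^ 2
      + 8 * (k + 1) - 1) := by
    have t3 : 0 ≤ ((k : ℤ) - 1) * (2 * (q : ℤ) ^ 2 + 4 * q * (k + 1) + 4 * r) := by
      apply mul_nonneg (by linarith)
      have : 0 ≤ (q : ℤ) * (k + 1) := mul_nonneg (by linarith) (by linarith)
      have := sq_nonneg (q : ℤ)
      linarith
    linarith
  have m5 : 0 ≤ (q : ℤ) * (q - r) := mul_nonneg (by linarith) (by linarith)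
  have m6 : 0 ≤ ((k : ℤ) + 1) * (q - r) := mul_nonneg (by linarith) (by linarith)
  have m7 : 0 ≤ (q : ℤ) * (k + 1) := mul_nonneg (by linarith) (by linarith)
  have m8 : 0 ≤ ((k : ℤ) - 1) * (k ^ 2) := mul_nonneg (by linarith) (sq_nonneg _)
  have m9 : 0 ≤ ((k : ℤ) - 1) * k := mul_nonneg (by linarith) (by linarith)
  linarith

/-- (N3H) the label of a child is strictly smaller if it is at least two -/
theorem N3H (hL : IsLH n H L) {h p q r : ℕ} (hh : 2 ≤ h) (hH : h + 1 ≤ H) (ho : OptH n H L h (p + q + h) r)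
    (ho₁ : OptH n H L h p q) : False := by
  obtain ⟨k, rfl⟩ := Nat.exists_eq_add_of_le' (by omega : 1 ≤ h)
  have hk : 1 ≤ k := by omega
  -- all arrangements
  obtain ⟨a1, a2⟩ := rot_eqH hL ho ho₁
  obtain ⟨b1, b2⟩ := rot_eqH hL a1 a2
  have sw : ∀ x y z : ℕ, OptH n H L (k + 1) (x + y + (k + 1)) z → OptH n H L (k + 1) x y →
      OptH n H L (k + 1) (y + x + (k + 1)) z ∧ OptH n H L (k + 1) y x := by
    intro x y z hx hy
    refine ⟨?_, hy.swap⟩
    rwa [show y + x = x + y by ring]
  have gen : ∀ x y z : ℕ, OptH n H L (k + 1) (x + y + (k + 1)) z → OptH n H L (k + 1) x y →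
      x ≤ z → y ≤ z → False := by
    intro x y z hx hy h1 h2
    rcases le_total x y with h3 | h3
    · obtain ⟨c1, c2⟩ := sw x y z hx hy
      exact N3coreH hL hk hH c1 c2 h2 h3
    · exact N3coreH hL hk hH hx hy h1 h3
  rcases le_total p r with h1 | h1
  · rcases le_total q r with h2 | h2
    · exact gen p q r ho ho₁ h1 h2
    · exact gen r p q b1 b2 h2 (h1.trans h2)
  · rcases le_total q p with h2 | h2
    · exact gen q r p a1 a2 h2 h1
    · exact gen r p q b1 b2 (h1.trans h2) h2

/-- structures with label one only exist as long as the defect vanishes -/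
theorem one_labelH (hL : IsLH n H L) (u : ℕ) (hu : 5 * (u : ℤ) ≤ n + 1) (a b : ℕ)
    (ho : OptH n H L 1 a b) (hs : a + b + 1 = u) : ∀ t < u, KK n L t = 0 := by
  induction u using Nat.strong_induction_on generalizing a b with
  | _ u ih =>
    have key : ∀ a b : ℕ, OptH n H L 1 a b → a + b + 1 = u → 1 ≤ a → KK n L (u - 1) ≤ 0 := by
      intro a b ho hs ha
      obtain ⟨h₁, p, q, ho₁, hs₁⟩ := hL.exists_opt a ha
      have h1 : h₁ = 1 := by
        have t := N1H hL (h := 1) (h₁ := h₁) (p := p) (q := q) (r := b) (by rw [hs₁]; exact ho) ho₁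
        have := ho₁.1
        omega
      subst h1
      have h2 := ih a (by omega) (by
        have : (a : ℤ) ≤ u := by exact_mod_cast (by omega : a ≤ u)
        linarith) p q ho₁ hs₁ (a - 1) (by omega)
      obtain ⟨a', rfl⟩ := Nat.exists_eq_add_of_le' ha
      have h3 := CminusH hL ho
      rw [show a' + b + 1 = u - 1 by omega] at h3
      simp only [Nat.add_sub_cancel] at h2
      rw [h2] at h3
      push_cast at h3
      linarith
    have h0 : KK n L (u - 1) ≤ 0 := by
      rcases Nat.eq_zero_or_pos a with ha | ha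
      · rcases Nat.eq_zero_or_pos b with hb | hb
        · have : u = 1 := by omega
          subst this
          simp only [Nat.sub_self]
          rw [K_zeroH hL]
        · exact key b a ho.swap (by omega) hb
      · exact key a b ho hs ha
    intro t ht
    apply le_antisymm _ (K_nonnegH hL t)
    refine le_trans (K_monoH hL (by omega : t ≤ u - 1) ?_) h0
    have : ((u - 1 : ℕ) : ℤ) ≤ u := by exact_mod_cast Nat.sub_le u 1
    linarith

theorem L_broomH (hL : IsLH n H L) (t : ℕ) (ht : ∀ s < t, KK n L s = 0) :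
    6 * L t = (t : ℤ) * (t + 1) * (3 * n - 7 - 2 * t) := by
  induction t with
  | zero => rw [hL.zero]; push_cast; ring
  | succ t ih =>
    have h1 := ih (fun s hs => ht s (by omega))
    have h2 := ht t (by omega)
    rw [L_succ n L t, h2]
    push_cast
    linarith

/-- canonical optimal structures -/
theorem exists_canonH (hL : IsLH n H L) (u : ℕ) (h1 : 1 ≤ u) (hu : 5 * (u : ℤ) ≤ n + 1) :
    ∃ h a b : ℕ, OptH n H L h a b ∧ a + b + h = u ∧ b ≤ a ∧
      (2 ≤ h ∨ (h = 1 ∧ a ≤ b + 1 ∧ ∀ t < u, KK n L t = 0)) := by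
  obtain ⟨h, a, b, ho, hs⟩ := hL.exists_opt u h1
  rcases Nat.lt_or_ge 1 h with hh | hh
  · rcases le_total b a with hab | hab
    · exact ⟨h, a, b, ho, hs, hab, Or.inl hh⟩
    · exact ⟨h, b, a, ho.swap, by omega, hab, Or.inl hh⟩
  · have h2 : h = 1 := by have := ho.1; omega
    subst h2
    have hK := one_labelH hL u hu a b ho hs
    refine ⟨1, u / 2, u - 1 - u / 2, ?_, by omega, by omega, Or.inr ⟨rfl, by omega, hK⟩⟩
    refine ⟨⟨le_rfl, ho.1.1.trans ho.1.2⟩, ?_⟩
    set x := u / 2 with hx
    set y := u - 1 - u / 2 with hy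
    have hxy : x + y + 1 = u := by omega
    have e1 := L_broomH hL (x + y + 1) (fun s hs => hK s (by omega))
    have e2 := L_broomH hL x (fun s hs => hK s (by omega))
    have e3 := L_broomH hL y (fun s hs => hK s (by omega))
    unfold cst
    push_cast at e1 ⊢
    linarith

/-- average of (D1H) -/
theorem D1avgH (hL : IsLH n H L) {k a b : ℕ} (h1 : 1 ≤ k) (ho : OptH n H L (k + 1) a b) :
    2 * (k : ℤ) * (n - 3 * (a + b + (k + 1))) ≤ 4 * a * b + 2 * (a + b + (k + 1)) + 4 * k - 2 := by
  have e1 := D1H hL h1 ho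
  have e2 := D1H hL h1 ho.swap
  have k1 := K_nonnegH hL a
  have k2 := K_nonnegH hL b
  push_cast at e1 e2
  linarith

/-- average of (D2H) -/
theorem D2avgH (hL : IsLH n H L) {h a b : ℕ} (hH : h + 1 ≤ H) (ho : OptH n H L h (a + 1) (b + 1)) :
    4 * ((a : ℤ) + 1) * (b + 1) - KK n L a - KK n L b ≤
      2 * h * (n - 2 - 3 * (a + 1 + (b + 1) + h)) := by
  have e1 := D2H hL hH ho
  have e2 := D2H hL hH ho.swap
  push_cast at e1 e2
  linarith



/-- siblings of optimal structures are balanced up to a constant factor -/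
theorem crude_imb0H (hL : IsLH n H L) {h a b : ℕ} (hH : h + 1 ≤ H) (ho : OptH n H L h a b) (hh : 2 ≤ h)
    (hab : b ≤ a) (hu : 10 * ((a : ℤ) + b + h) ≤ n + 10) :
    a ≤ b + 1 ∨ 6 * ((a : ℤ) - b) ≤ a + b + h := by
  by_contra hcon
  push Not at hcon
  obtain ⟨hc1, hc2⟩ := hcon
  have hapos : 1 ≤ a := by omega
  obtain ⟨h₁, p, q, ho₁, hs₁, hqp⟩ : ∃ h₁ p q : ℕ, OptH n H L h₁ p q ∧ p + q + h₁ = a ∧ q ≤ p := by
    obtain ⟨h₁, p, q, ho₁, hs₁⟩ := hL.exists_opt a hapos
    rcases le_total q p with h1 | h1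
    · exact ⟨h₁, p, q, ho₁, hs₁, h1⟩
    · exact ⟨h₁, q, p, ho₁.swap, by omega, h1⟩
  have hoa : OptH n H L h (p + q + h₁) b := by rw [hs₁]; exact ho
  have n1 : h₁ ≤ h := N1H hL hoa ho₁
  have n1' : h₁ < h := by
    rcases Nat.lt_or_ge h₁ h with h1 | h1
    · exact h1
    · exfalso
      have : h₁ = h := le_antisymm n1 h1
      subst this
      exact N3H hL hh hH hoa ho₁
  have n2 : p ≤ b := N2H hL hoa ho₁ n1'
  have hg1 := ho₁.1
  have kb := K_nonnegH hL b
  obtain ⟨a', rfl⟩ := Nat.exists_eq_add_of_le' hapos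
  have hI := ImbH hL ho
  have z1 : (b : ℤ) + 2 ≤ a' + 1 := by exact_mod_cast (by omega : b + 2 ≤ a' + 1)
  have z2 : (2 : ℤ) ≤ h := by exact_mod_cast hh
  have z3 : (0 : ℤ) ≤ b := by positivity
  have z4 : (h₁ : ℤ) + 1 ≤ h := by exact_mod_cast n1'
  have z5 : (p : ℤ) + q + h₁ = a' + 1 := by exact_mod_cast hs₁
  have z6 : (q : ℤ) ≤ p := by exact_mod_cast hqp
  have z7 : (p : ℤ) ≤ b := by exact_mod_cast n2
  have z8 : (1 : ℤ) ≤ h₁ := by exact_mod_cast hg1.1
  have z9 : (0 : ℤ) ≤ q := by positivity
  push_cast at hu hc2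
  -- positivity of the left side of (ImbH)
  have hpos : 0 < ((a' : ℤ) - b) * (2 * h - 2) := mul_pos (by linarith) (by linarith)
  rcases Nat.lt_or_ge 1 h₁ with hg2 | hg2
  · obtain ⟨c, rfl⟩ := Nat.exists_eq_add_of_le' hg1.1
    have hc : 1 ≤ c := by omega
    have z10 : (1 : ℤ) ≤ c := by exact_mod_cast hc
    push_cast at z4 z5 z8
    have hp : 1 ≤ p := by
      rcases Nat.eq_zero_or_pos p with h0 | h0
      · exfalso
        subst h0
        have hq0 : q = 0 := by omega
        subst hq0
        have hb := BminusH hL hc ho₁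
        rw [show 0 + 0 + c = a' by omega] at hb
        have ka := K_nonnegH hL a'
        push_cast at hb z5
        have : 0 < (c : ℤ) * (n + 1 - 4 * (0 + 0 + c + 1) - (c + 1)) := by
          apply mul_pos (by linarith)
          linarith
        linarith
      · exact h0
    obtain ⟨p', rfl⟩ := Nat.exists_eq_add_of_le' hp
    have hcm := CminusH hL ho₁
    rw [show p' + q + (c + 1) = a' by omega] at hcm
    have hmono : KK n L p' ≤ KK n L b := K_monoH hL (by omega) (by linarith)
    push_cast at hcm z5 z6 z7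
    have hJ : 2 * (((a' : ℤ) + 1) - b - 1) * (h - 1) ≤ c * (a' + 1 + (c + 1)) := by
      have t : (c : ℤ) * (2 * (q + (c + 1))) ≤ c * (a' + 1 + (c + 1)) := by
        apply mul_le_mul_of_nonneg_left _ (by linarith)
        linarith
      linarith
    have hd1 := D1avgH hL hc ho₁
    push_cast at hd1
    rcases Nat.lt_or_ge c 2 with hc3 | hc3
    · -- h₁ = 2
      have : c = 1 := by omega
      subst this
      push_cast at *
      have e1 : 4 * ((p' : ℤ) + 1) * q ≤ (a' - 1) ^ 2 := by
        have := sq_nonneg ((p' : ℤ) + 1 - q)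
        have e : (a' : ℤ) - 1 = p' + 1 + q := by linarith
        rw [e]; linarith
      have e2 : 2 * n ≤ ((a' : ℤ) + 1) ^ 2 + 4 * (a' + 1) + 6 := by
        rw [z5] at hd1
        linarith
      have e4 : 2 * ((a' : ℤ) - b) * (h - 1) ≤ a' + 3 := by linarith
      have e5 : 4 * ((a' : ℤ) - b) ≤ a' + 3 := by
        have : 2 * ((a' : ℤ) - b) * 2 ≤ 2 * (a' - b) * (h - 1) := by
          apply mul_le_mul_of_nonneg_left _ (by linarith)
          linarith
        linarith
      have e3 : (32 : ℤ) ≤ a' + 1 := by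
        by_contra hlt
        push Not at hlt
        have h5 : (a' : ℤ) + 1 ≤ 31 := by linarith
        have h6 : ((a' : ℤ) + 1) * (a' + 1) ≤ 31 * (a' + 1) :=
          mul_le_mul_of_nonneg_right h5 (by linarith)
        linarith
      rcases le_or_gt (4 : ℤ) h with h4 | h4
      · have : 2 * ((a' : ℤ) - b) * 3 ≤ 2 * (a' - b) * (h - 1) := by
          apply mul_le_mul_of_nonneg_left _ (by linarith)
          linarith
        linarith
      · have : (h : ℤ) = 3 := by linarith
        rw [this] at e4 hc2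
        linarith
    · -- h₁ ≥ 3
      have hb1 : 1 ≤ b := by omega
      obtain ⟨b', rfl⟩ := Nat.exists_eq_add_of_le' hb1
      have hd2 := D2avgH hL hH ho
      have kup := K_upH hL a' (by linarith)
      have kmono : KK n L b' ≤ KK n L a' := K_monoH hL (by omega) (by linarith)
      have ka := K_nonnegH hL a'
      have z11 : (2 : ℤ) ≤ c := by exact_mod_cast hc3
      push_cast at *
      have d1' : 2 * (c : ℤ) * (n - 3 * (a' + 1)) ≤
          ((a' + 1) - (c + 1)) ^ 2 + 2 * (a' + 1) + 4 * c - 2 := by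
        have e : (p' : ℤ) + 1 + q + (c + 1) = a' + 1 := by linarith
        rw [e] at hd1
        have e1 : 4 * ((p' : ℤ) + 1) * q ≤ ((a' + 1) - (c + 1)) ^ 2 := by
          have := sq_nonneg ((p' : ℤ) + 1 - q)
          have e : ((a' : ℤ) + 1) - (c + 1) = p' + 1 + q := by linarith
          rw [e]; linarith
        linarith
      refine crude_alg0 (n : ℝ) ((a' : ℝ) + 1) ((b' : ℝ) + 1) ((h : ℝ) - 1) (c : ℝ)
        ((a' : ℝ) + 1 - ((b' : ℝ) + 1) - 1) (KK n L a' : ℝ) (KK n L b' : ℝ)
        ?_ ?_ rfl ?_ ?_ ?_ ?_ ?_ ?_ ?_ ?_ ?_ ?_ ?_ ?_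
      · exact_mod_cast z11
      · have : (c : ℝ) + 1 + 1 ≤ h := by exact_mod_cast z4
        linarith
      · have : (b' : ℝ) + 1 + 2 ≤ a' + 1 := by exact_mod_cast z1
        linarith
      · have e : ((a' : ℤ) + 1) - (c + 1) ≤ 2 * (b' + 1) := by linarith
        exact_mod_cast e
      · have e : 10 * (((a' : ℤ) + 1) + (b' + 1) + ((h - 1) + 1)) ≤ n + 10 := by linarith
        exact_mod_cast e
      · have e : 2 * (((a' : ℤ) + 1) - (b' + 1) - 1) * (h - 1) ≤ c * (a' + 1 + (c + 1)) := by linarith
        exact_mod_cast e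
      · exact_mod_cast d1'
      · have e : 4 * ((a' : ℤ) + 1) * (b' + 1) - KK n L a' - KK n L b' ≤
          2 * (((h : ℤ) - 1) + 1) * (n - 2 - 3 * (a' + 1 + (b' + 1) + ((h - 1) + 1))) := by
          linarith
        exact_mod_cast e
      · exact_mod_cast kup
      · exact_mod_cast kmono
      · exact_mod_cast ka
      · have e : (c : ℤ) + 1 ≤ a' + 1 := by linarith
        exact_mod_cast e
      · positivity
      · have e : 2 * ((a' : ℤ) + 1) + (h - 1) < 7 * ((a' : ℤ) + 1 - (b' + 1) - 1) + 6 := by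
          linarith
        exact_mod_cast e
  · -- h₁ = 1
    have : h₁ = 1 := by omega
    subst this
    have hz := one_labelH hL (a' + 1) (by push_cast; linarith) p q ho₁ hs₁ a' (by omega)
    rw [hz] at hI
    linarith


end Pool.Agent.Lib.MP_b072d9_co
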