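import Pool.Agent.Lib.MP_b072d9_co.LCap

set_option autoImplicit false

namespace Pool.Agent.Lib.MP_b072d9_co

/-! Existence and comparison of the minimal cost functions. -/

variable {n : ℤ} {H : ℕ} {L M : ℕ → ℤ}

/-- one step of the construction -/
theorem min_step (n : ℤ) (A : ℕ → Prop) (hA : A 1) (F : ℕ → ℤ) (U : ℕ) :
    ∃ m : ℤ, (∀ h a b : ℕ, 1 ≤ h → A h → a + b + h = U + 1 → m ≤ F a + F b + cst n h a b) ∧
      ∃ h a b : ℕ, 1 ≤ h ∧ A h ∧ a + b + h = U + 1 ∧ m = F a + F b + cst n h a b := by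
  classical
  let S : Finset (ℕ × ℕ × ℕ) :=
    (Finset.range (U + 2) ×ˢ (Finset.range (U + 2) ×ˢ Finset.range (U + 2))).filter
      (fun t => (1 ≤ t.1 ∧ A t.1) ∧ t.2.1 + t.2.2 + t.1 = U + 1)
  have hS : S.Nonempty := by
    refine ⟨(1, U, 0), ?_⟩
    simp only [S, Finset.mem_filter, Finset.mem_product, Finset.mem_range]
    exact ⟨⟨by omega, by omega, by omega⟩, ⟨le_rfl, hA⟩, trivial⟩
  obtain ⟨t, ht, hmin⟩ := Finset.exists_min_image S
    (fun t => F t.2.1 + F t.2.2 + cst n t.1 t.2.1 t.2.2) hS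
  refine ⟨F t.2.1 + F t.2.2 + cst n t.1 t.2.1 t.2.2, ?_, ?_⟩
  · intro h a b h1 hAh hs
    refine hmin (h, a, b) ?_
    simp only [S, Finset.mem_filter, Finset.mem_product, Finset.mem_range]
    exact ⟨⟨by omega, by omega, by omega⟩, ⟨h1, hAh⟩, hs⟩
  · simp only [S, Finset.mem_filter, Finset.mem_product, Finset.mem_range] at ht
    exact ⟨t.1, t.2.1, t.2.2, ht.2.1.1, ht.2.1.2, ht.2.2, rfl⟩

/-- the approximations -/
noncomputable def bld (n : ℤ) (A : ℕ → Prop) (hA : A 1) : ℕ → ℕ → ℤ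
  | 0 => fun _ => 0
  | U + 1 => Function.update (bld n A hA U) (U + 1) (min_step n A hA (bld n A hA U) U).choose

theorem bld_stable (n : ℤ) (A : ℕ → Prop) (hA : A 1) (u d : ℕ) :
    bld n A hA (u + d) u = bld n A hA u u := by
  induction d with
  | zero => rfl
  | succ d ih =>
    rw [show u + (d + 1) = (u + d) + 1 by ring]
    show Function.update (bld n A hA (u + d)) (u + d + 1) _ u = _
    rw [Function.update_of_ne (by omega)]
    exact ih

theorem exists_minL (n : ℤ) (A : ℕ → Prop) (hA : A 1) :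
    ∃ L : ℕ → ℤ, L 0 = 0 ∧
      (∀ h a b : ℕ, 1 ≤ h → A h → L (a + b + h) ≤ L a + L b + cst n h a b) ∧
      (∀ u : ℕ, 1 ≤ u → ∃ h a b : ℕ, 1 ≤ h ∧ A h ∧ a + b + h = u ∧
        L u = L a + L b + cst n h a b) := by
  refine ⟨fun u => bld n A hA u u, rfl, ?_, ?_⟩
  · intro h a b h1 hAh
    obtain ⟨U, hU⟩ : ∃ U, a + b + h = U + 1 := ⟨a + b + h - 1, by omega⟩
    simp only []
    rw [hU]
    have hspec := (min_step n A hA (bld n A hA U) U).choose_spec.1 h a b h1 hAh hU
    have e : bld n A hA (U + 1) (U + 1) = (min_step n A hA (bld n A hA U) U).choose := by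
      show Function.update (bld n A hA U) (U + 1) _ (U + 1) = _
      rw [Function.update_self]
    rw [e]
    obtain ⟨da, hda⟩ : ∃ d, U = a + d := ⟨U - a, by omega⟩
    obtain ⟨db, hdb⟩ : ∃ d, U = b + d := ⟨U - b, by omega⟩
    have ea : bld n A hA U a = bld n A hA a a := by rw [hda]; exact bld_stable n A hA a da
    have eb : bld n A hA U b = bld n A hA b b := by rw [hdb]; exact bld_stable n A hA b db
    rw [ea, eb] at hspec
    exact hspec
  · intro u hu
    obtain ⟨U, rfl⟩ := Nat.exists_eq_add_of_le' hu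
    obtain ⟨h, a, b, h1, hAh, hs, hm⟩ := (min_step n A hA (bld n A hA U) U).choose_spec.2
    refine ⟨h, a, b, h1, hAh, hs, ?_⟩
    have e : bld n A hA (U + 1) (U + 1) = (min_step n A hA (bld n A hA U) U).choose := by
      show Function.update (bld n A hA U) (U + 1) _ (U + 1) = _
      rw [Function.update_self]
    simp only []
    rw [e, hm]
    obtain ⟨da, hda⟩ : ∃ d, U = a + d := ⟨U - a, by omega⟩
    obtain ⟨db, hdb⟩ : ∃ d, U = b + d := ⟨U - b, by omega⟩
    have ea : bld n A hA U a = bld n A hA a a := by rw [hda]; exact bld_stable n A hA a da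
    have eb : bld n A hA U b = bld n A hA b b := by rw [hdb]; exact bld_stable n A hA b db
    rw [ea, eb]

theorem exists_IsL (n : ℤ) : ∃ L : ℕ → ℤ, IsL n L := by
  obtain ⟨L, h0, h1, h2⟩ := exists_minL n (fun _ => True) trivial
  refine ⟨L, h0, fun h a b hh => h1 h a b hh trivial, fun u hu => ?_⟩
  obtain ⟨h, a, b, e1, -, e2, e3⟩ := h2 u hu
  exact ⟨h, a, b, e1, e2, e3⟩

theorem exists_IsLH (n : ℤ) {H : ℕ} (hH : 1 ≤ H) : ∃ L : ℕ → ℤ, IsLH n H L := by
  obtain ⟨L, h0, h1, h2⟩ := exists_minL n (fun h => h ≤ H) hH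
  refine ⟨L, h0, fun h a b hh => h1 h a b hh.1 hh.2, fun u hu => ?_⟩
  obtain ⟨h, a, b, e1, e2, e3, e4⟩ := h2 u hu
  exact ⟨h, a, b, ⟨e1, e2⟩, e3, e4⟩

/-- the uncapped function is at most the capped one -/
theorem IsL.le_IsLH (hM : IsL n M) (hL : IsLH n H L) (u : ℕ) : M u ≤ L u := by
  induction u using Nat.strong_induction_on with
  | _ u ih =>
    rcases Nat.eq_zero_or_pos u with h0 | h0
    · subst h0; rw [hM.zero, hL.zero]
    · obtain ⟨h, a, b, h1, h2, h3⟩ := hL.ex u h0
      have h4 := hM.le h a b h1.1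
      rw [h2] at h4
      have h5 := ih a (by omega)
      have h6 := ih b (by omega)
      linarith

/-- for excess at most `H` the cap is not active -/
theorem IsLH.eq_IsL (hL : IsLH n H L) (hM : IsL n M) (u : ℕ) (hu : u ≤ H) : L u = M u := by
  apply le_antisymm _ (hM.le_IsLH hL u)
  induction u using Nat.strong_induction_on with
  | _ u ih =>
    rcases Nat.eq_zero_or_pos u with h0 | h0
    · subst h0; rw [hM.zero, hL.zero]
    · obtain ⟨h, a, b, h1, h2, h3⟩ := hM.ex u h0
      have h4 := hL.le h a b ⟨h1, by omega⟩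
      rw [h2] at h4
      have h5 := ih a (by omega) (by omega)
      have h6 := ih b (by omega) (by omega)
      linarith

theorem IsLH.KK_eq (hL : IsLH n H L) (hM : IsL n M) (u : ℕ) (hu : u + 1 ≤ H) :
    KK n L u = KK n M u := by
  unfold KK
  rw [hL.eq_IsL hM u (by omega), hL.eq_IsL hM (u + 1) hu]

/-- uniqueness -/
theorem IsLH.unique {L' : ℕ → ℤ} (hL : IsLH n H L) (hL' : IsLH n H L') : L = L' := by
  have key : ∀ L L' : ℕ → ℤ, IsLH n H L → IsLH n H L' → ∀ u, L u ≤ L' u := by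
    intro L L' hL hL' u
    induction u using Nat.strong_induction_on with
    | _ u ih =>
      rcases Nat.eq_zero_or_pos u with h0 | h0
      · subst h0; rw [hL.zero, hL'.zero]
      · obtain ⟨h, a, b, h1, h2, h3⟩ := hL'.ex u h0
        have h4 := hL.le h a b h1
        rw [h2] at h4
        have h5 := ih a (by omega)
        have h6 := ih b (by omega)
        linarith
  funext u
  exact le_antisymm (key L L' hL hL' u) (key L' L hL' hL u)

/-- the window theorem for the capped function -/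
theorem WTH (hL : IsLH n H L) (V w : ℕ) (hwV : w ≤ V) (hV : 10 * (V : ℤ) ≤ n) (hH : V + 1 ≤ H) :
    (KK n L V : ℝ) - KK n L w ≤ 5 / 2 * (V : ℝ) ^ 2 / (n - 3 * V) * (V - w) + 4 * V := by
  obtain ⟨M, hM⟩ := exists_IsL n
  rw [hL.KK_eq hM V hH, hL.KK_eq hM w (by omega)]
  exact WT4 hM V w hwV hV

end Pool.Agent.Lib.MP_b072d9_co
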