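import Pool.Agent.Lib.MP_b072d9_co.LKey

set_option autoImplicit false

namespace Pool.Agent.Lib.MP_b072d9_co

variable {n : ℤ} {H : ℕ} {L : ℕ → ℤ}

theorem L9_alg (a x m : ℝ) (ha : 16 ≤ a) (hm : 7 * a ≤ m)
    (B1 : 7 * m * x * (a - 2) ≤ 4 * a ^ 3) (B2 : x * (9 * a - 23) ≤ 56 * (a - 1))
    (hz : 2 * (m + 3 * a - 1) < (a + 2) ^ 2)
    (hx : x = 1 ∨ x = 2 ∨ x = 3 ∨ 4 ≤ x) : (x + 1) ^ 2 * (m + 3 * a - 1) < 10 * a ^ 2 := by
  have ha0 : 0 < a := by linarith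
  have hm0 : 0 < m := by linarith
  have h16 : (a + 2) ^ 2 ≤ 13 / 10 * a ^ 2 := by nlinarith
  have big : 3 ≤ x → 35 ≤ a + 1 / 2 := by
    intro h3
    by_contra hcon
    push Not at hcon
    have e1 : 7 * (7 * a) * 3 * (a - 2) ≤ 7 * m * x * (a - 2) := by
      apply mul_le_mul_of_nonneg_right _ (by linarith)
      apply mul_le_mul (by linarith) h3 (by norm_num) (by linarith)
    have e2 : a * (147 * (a - 2)) ≤ a * (4 * a ^ 2) := by linarith
    have e3 : 147 * (a - 2) ≤ 4 * a ^ 2 := le_of_mul_le_mul_left e2 ha0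
    nlinarith
  rcases hx with h | h | h | h
  · subst h; nlinarith
  · subst h; nlinarith
  · subst h
    have hb := big le_rfl
    have e1 : 21 * m * (33 / 35 * a) ≤ 21 * m * (a - 2) * (1 + 1 / 100) := by
      nlinarith
    have e2 : a * (m * 19) ≤ a * (101 / 25 * a ^ 2) := by nlinarith
    have e3 : m * 19 ≤ 101 / 25 * a ^ 2 := le_of_mul_le_mul_left e2 ha0
    nlinarith
  · have hb := big (by linarith)
    have hx0 : 0 < x := by linarith
    have e1 : (7 * m * x * (a - 2)) * (x * (9 * a - 23)) ≤ 4 * a ^ 3 * (56 * (a - 1)) := by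
      apply mul_le_mul B1 B2 _ (by positivity)
      apply mul_nonneg hx0.le (by linarith)
    have e2 : 77 / 10 * a ^ 2 ≤ (a - 2) * (9 * a - 23) := by nlinarith
    have e3 : (x ^ 2 * m) * (77 / 10 * a ^ 2) ≤ (x ^ 2 * m) * ((a - 2) * (9 * a - 23)) :=
      mul_le_mul_of_nonneg_left e2 (by positivity)
    have e4 : a ^ 2 * (77 / 10 * (x ^ 2 * m)) ≤ a ^ 2 * (32 * a ^ 2) := by
      have : 0 ≤ a ^ 3 := by positivity
      nlinarith
    have e5 : 77 / 10 * (x ^ 2 * m) ≤ 32 * a ^ 2 := le_of_mul_le_mul_left e4 (by positivity)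
    have e6 : 16 * (x + 1) ^ 2 ≤ 25 * x ^ 2 := by nlinarith
    have e7 : 16 * (x + 1) ^ 2 * m ≤ 25 * x ^ 2 * m := mul_le_mul_of_nonneg_right e6 hm0.le
    have e8 : (x + 1) ^ 2 * (m + 3 * a - 1) ≤ (x + 1) ^ 2 * (10 / 7 * m) := by
      apply mul_le_mul_of_nonneg_left _ (sq_nonneg _)
      linarith
    have e9 : 0 < a ^ 2 := by positivity
    linarith

/-- the two imbalance bounds, real form: `x = a - b - 1`, `p = 2 h - 2`, `m = n - 3 a` -/
theorem NF.two_bounds (hL : IsLH n H L) {h a b : ℕ} (hN : NF n H L h a b) (haH : a ≤ H)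
    (hba : b + 1 ≤ a) (h10 : 10 * (a : ℤ) ≤ n) :
    7 * ((n : ℝ) - 3 * a) * ((a : ℝ) - b - 1) * (2 * h - 2) ≤ 4 * (a : ℝ) ^ 3 ∧
    ((a : ℝ) - b - 1) * (2 * ((n : ℝ) - 3 * (a - 1)) * (2 * h - 2) - 5 * ((a : ℝ) - 1) ^ 2) ≤
      8 * ((a : ℝ) - 1) * ((n : ℝ) - 3 * (a - 1)) := by
  obtain ⟨v, rfl⟩ : ∃ v, a = v + 1 := ⟨a - 1, by omega⟩
  have hv0 : (0 : ℤ) ≤ v := by positivity
  push_cast at h10
  have im := ImbH hL hN.opt
  have kb := K_nonnegH hL b
  have ku := K_upH hL v (by linarith)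
  have hm : 0 < n - 3 * ((v : ℤ) + 1) := by linarith
  constructor
  · have e1 : 7 * (n - 3 * ((v : ℤ) + 1)) * (((v : ℤ) - b) * (2 * h - 2)) ≤
        7 * (n - 3 * ((v : ℤ) + 1)) * KK n L v := by
      apply mul_le_mul_of_nonneg_left _ (by linarith)
      linarith
    have e2 : 7 * (n - 3 * ((v : ℤ) + 1)) * (((v : ℤ) + 1) - b - 1) * (2 * h - 2) ≤
        4 * ((v : ℤ) + 1) ^ 3 := by linarith
    have : 7 * ((n : ℝ) - 3 * ((v : ℝ) + 1)) * (((v : ℝ) + 1) - b - 1) * (2 * h - 2) ≤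
        4 * ((v : ℝ) + 1) ^ 3 := by exact_mod_cast e2
    push_cast
    exact this
  · have wt := WTH hL v b (by omega) (by linarith) (by omega)
    have imR : ((v : ℝ) - b) * (2 * h - 2) ≤ (KK n L v : ℝ) - KK n L b := by exact_mod_cast im
    have hm3 : (0 : ℝ) < (n : ℝ) - 3 * v := by
      have : (0 : ℤ) < n - 3 * v := by linarith
      exact_mod_cast this
    have e1 : ((v : ℝ) - b) * (2 * h - 2) * ((n : ℝ) - 3 * v) ≤
        (5 / 2 * (v : ℝ) ^ 2 / ((n : ℝ) - 3 * v) * ((v : ℝ) - b) + 4 * v) * ((n : ℝ) - 3 * v) :=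
      mul_le_mul_of_nonneg_right (imR.trans wt) hm3.le
    have e2 : (5 / 2 * (v : ℝ) ^ 2 / ((n : ℝ) - 3 * v) * ((v : ℝ) - b) + 4 * v) *
        ((n : ℝ) - 3 * v) = 5 / 2 * (v : ℝ) ^ 2 * ((v : ℝ) - b) + 4 * v * ((n : ℝ) - 3 * v) := by
      have : 5 / 2 * (v : ℝ) ^ 2 / ((n : ℝ) - 3 * v) * ((n : ℝ) - 3 * v) = 5 / 2 * (v : ℝ) ^ 2 :=
        div_mul_cancel₀ _ hm3.ne'
      linear_combination ((v : ℝ) - b) * this
    rw [e2] at e1
    push_cast
    have e3 : (v : ℝ) + 1 - b - 1 = v - b := by ring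
    have e4 : (v : ℝ) + 1 - 1 = v := by ring
    rw [e3, e4]
    linarith

/-- L9: imbalance, large label -/
theorem NF.imA (hL : IsLH n H L) {h a b : ℕ} (hN : NF n H L h a b) (_hH : h + 1 ≤ H) (haH : a ≤ H)
    (hz : 2 * (n - 1) < ((a : ℤ) + 2) ^ 2) (h10 : 10 * (a : ℤ) ≤ n) (hA : a ≤ 2 * h)
    (h3 : 3 * ((a : ℤ) + b + 2 * h) ≤ (n - 1)) :
    ((a : ℤ) - b) ^ 2 * (n - 1) < 10 * a ^ 2 := by
  have h1Z : (1 : ℤ) ≤ h := by exact_mod_cast hN.opt.1.1
  have hb0 : (0 : ℤ) ≤ b := by positivity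
  have ha0 : (0 : ℤ) ≤ a := by positivity
  have hbaZ : (b : ℤ) ≤ a := by exact_mod_cast hN.le
  have ha16 : (16 : ℤ) ≤ a := by
    by_contra hcon
    push Not at hcon
    have hn1 : 7 ≤ n := by linarith
    have : (a : ℤ) ≤ 15 := by linarith
    nlinarith
  rcases le_or_gt a (b + 1) with h1 | h1
  · have h1Z' : (a : ℤ) ≤ b + 1 := by exact_mod_cast h1
    have e1 : ((a : ℤ) - b) ^ 2 ≤ 1 := by nlinarith
    have e2 : ((a : ℤ) - b) ^ 2 * (n - 1) ≤ 1 * (n - 1) :=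
      mul_le_mul_of_nonneg_right e1 (by linarith)
    nlinarith
  · obtain ⟨B1, B2⟩ := hN.two_bounds hL haH (by omega) h10
    obtain ⟨x, hx⟩ : ∃ x : ℕ, a = b + 1 + x := ⟨a - (b + 1), by omega⟩
    have hx1 : 1 ≤ x := by omega
    have hxR : (a : ℝ) - b - 1 = x := by
      have : (a : ℝ) = b + 1 + x := by exact_mod_cast hx
      linarith
    rw [hxR] at B1 B2
    have haR : (16 : ℝ) ≤ a := by exact_mod_cast ha16
    have hAR : (a : ℝ) ≤ 2 * h := by exact_mod_cast hA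
    have h10R : 10 * (a : ℝ) ≤ n := by exact_mod_cast h10
    have hxR1 : (1 : ℝ) ≤ x := by exact_mod_cast hx1
    have hm : 7 * (a : ℝ) ≤ (n : ℝ) - 3 * a := by linarith
    have key := L9_alg (a : ℝ) (x : ℝ) ((n : ℝ) - 3 * a) haR hm ?_ ?_ ?_ ?_
    · have e1 : (x : ℝ) + 1 = (a : ℝ) - b := by linarith
      have e2 : (n : ℝ) - 3 * a + 3 * a - 1 = n - 1 := by ring
      rw [e1, e2] at key
      exact_mod_cast key
    · have e1 : 7 * ((n : ℝ) - 3 * a) * x * (a - 2) ≤ 7 * ((n : ℝ) - 3 * a) * x * (2 * h - 2) := by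
        apply mul_le_mul_of_nonneg_left (by linarith)
        apply mul_nonneg _ (by linarith)
        linarith
      linarith
    · -- B2
      have hM : 0 < (n : ℝ) - 3 * (a - 1) := by linarith
      have e1 : (x : ℝ) * (2 * ((n : ℝ) - 3 * (a - 1)) * (a - 2) -
          5 / 7 * ((a : ℝ) - 1) * ((n : ℝ) - 3 * (a - 1))) ≤
          x * (2 * ((n : ℝ) - 3 * (a - 1)) * (2 * h - 2) - 5 * ((a : ℝ) - 1) ^ 2) := by
        apply mul_le_mul_of_nonneg_left _ (by linarith)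
        have t1 : 2 * ((n : ℝ) - 3 * (a - 1)) * (a - 2) ≤
            2 * ((n : ℝ) - 3 * (a - 1)) * (2 * h - 2) := by
          apply mul_le_mul_of_nonneg_left <;> linarith
        have t2 : ((a : ℝ) - 1) * (7 * (a - 1)) ≤ (a - 1) * ((n : ℝ) - 3 * (a - 1)) := by
          apply mul_le_mul_of_nonneg_left <;> linarith
        linarith
      have e2 : ((n : ℝ) - 3 * (a - 1)) * (x * (9 * a - 23)) ≤
          ((n : ℝ) - 3 * (a - 1)) * (56 * (a - 1)) := by linarith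
      exact le_of_mul_le_mul_left e2 hM
    · have : 2 * ((n - 3 * (a : ℤ)) + 3 * a - 1) < ((a : ℤ) + 2) ^ 2 := by linarith
      exact_mod_cast this
    · rcases Nat.lt_or_ge x 4 with h4 | h4
      · interval_cases x
        · left; norm_num
        · right; left; norm_num
        · right; right; left; norm_num
      · right; right; right
        exact_mod_cast h4

end Pool.Agent.Lib.MP_b072d9_co
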