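import Mathlib

set_option autoImplicit false

namespace Pool.Agent.Lib.MP_b072d9_co

/-! Real algebra for the imbalance of nodes with small label (case II). -/

theorem L10_x (a h m x : ℝ) (ha : 16 ≤ a) (h3 : 3 ≤ h) (hA : 2 * h + 1 ≤ a)
    (hx : 0 ≤ x) (B1 : 7 * m * (2 * h - 2) * x ≤ 4 * a ^ 3)
    (NC : 5 * (a - 1) ^ 2 ≤ 2 * (2 * h - 2) * (m + 3)) : 100 * x ≤ 28 * a := by
  by_contra hcon
  push Not at hcon
  have hx0 : 0 < x := by linarith
  have e1 : 5 * a ^ 2 - 16 * a + 23 ≤ 2 * ((2 * h - 2) * m) := by nlinarith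
  have e0 : 0 ≤ 5 * a ^ 2 - 16 * a + 23 := by nlinarith
  have e2 : (5 * a ^ 2 - 16 * a + 23) * (28 * a) ≤ 2 * ((2 * h - 2) * m) * (100 * x) := by
    apply mul_le_mul e1 hcon.le (by linarith) (by linarith)
  have e3 : a * (7 * 28 * (5 * a ^ 2 - 16 * a + 23)) ≤ a * (800 * a ^ 2) := by
    linarith
  have e4 := le_of_mul_le_mul_left e3 (by linarith : 0 < a)
  nlinarith

/-- the consequence of D2 for `C = 2ν - 6N`, `i = a - b` -/
theorem L10_R (a h m i K : ℝ)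
    (D2 : 2 * a * (a - i) - K ≤ h * (m - 2 - 3 * a + 2 * i - 3 * h)) :
    4 * a ^ 2 - 4 * a * i - 2 * K + 2 * h + 2 * h * i - 6 * h ^ 2 ≤
      h * (2 * m - 6 * a - 2 + 6 * i - 12 * h) := by
  nlinarith

/-- second claim, `x = i - 1 ≥ 1` -/
theorem L10_G2 (a h m x K : ℝ) (ha : 16 ≤ a) (h3 : 3 ≤ h) (hA : 2 * h + 1 ≤ a) (hm : 7 * a ≤ m)
    (hx : 1 ≤ x) (hxa : 100 * x ≤ 28 * a) (B1 : 7 * m * (2 * h - 2) * x ≤ 4 * a ^ 3)
    (hK : 49 * K ≤ 4 * a ^ 2)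
    (D2 : 2 * a * (a - (x + 1)) - K ≤ h * (m - 2 - 3 * a + 2 * (x + 1) - 3 * h)) :
    3 * (x + 1) ^ 2 * (m + 3 * a - 1) ^ 2 <
      4 * a ^ 2 * (m + 3 * a - 1) * ((2 * m - 6 * a - 2 + 6 * (x + 1) - 12 * h) - 6) -
        16 * a ^ 4 := by
  have hR := L10_R a h m (x + 1) K D2
  obtain ⟨C, hC⟩ : ∃ C, C = 2 * m - 6 * a - 2 + 6 * (x + 1) - 12 * h := ⟨_, rfl⟩
  obtain ⟨ν, hν⟩ : ∃ ν, ν = m + 3 * a - 1 := ⟨_, rfl⟩
  rw [← hC] at hR ⊢
  rw [← hν]
  have ha0 : 0 < a := by linarith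
  have hh0 : 0 < h := by linarith
  have hν0 : 0 < ν := by linarith
  have hν1 : 99 * a ≤ 10 * ν := by linarith
  have hν2 : 7 * ν ≤ 10 * m := by linarith
  -- R is large
  have r1 : 24 / 25 * a ^ 2 ≤ h * C := by
    have t1 : a * (100 * x) ≤ a * (28 * a) := mul_le_mul_of_nonneg_left hxa ha0.le
    have t2 : 0 ≤ h * (x + 1) := mul_nonneg hh0.le (by linarith)
    have t3 : 4 * h ^ 2 ≤ (a - 1) ^ 2 := by
      have := pow_le_pow_left₀ (by linarith : 0 ≤ 2 * h) (by linarith : 2 * h ≤ a - 1) 2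
      linarith
    have t4 : 16 * a ≤ a ^ 2 := by nlinarith
    nlinarith
  -- the product `h ν x`
  have r2 : h * ν * x ≤ 62 / 100 * a ^ 3 := by
    have t1 : 4 * h ≤ 3 * (2 * h - 2) := by linarith
    have t2 : 7 * (4 * h * x * (7 * ν)) ≤ 7 * (3 * (2 * h - 2) * x * (10 * m)) := by
      apply mul_le_mul_of_nonneg_left _ (by norm_num)
      apply mul_le_mul _ hν2 (by linarith) _
      · exact mul_le_mul_of_nonneg_right t1 (by linarith)
      · apply mul_nonneg _ (by linarith)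
        linarith
    have t3 : 0 < a ^ 3 := by positivity
    linarith
  have r3 : h * (3 * (x + 1) ^ 2 * ν ^ 2) ≤ 88 / 100 * a ^ 4 * ν := by
    have t1 : (x + 1) ^ 2 ≤ x * (x + 3) := by nlinarith
    have t2 : h * (3 * (x + 1) ^ 2 * ν ^ 2) ≤ h * (3 * (x * (x + 3)) * ν ^ 2) := by
      apply mul_le_mul_of_nonneg_left _ hh0.le
      apply mul_le_mul_of_nonneg_right _ (sq_nonneg ν)
      linarith
    have t3 : (3 * (x + 3) * ν) * (h * ν * x) ≤ (3 * (x + 3) * ν) * (62 / 100 * a ^ 3) := by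
      apply mul_le_mul_of_nonneg_left r2
      apply mul_nonneg _ hν0.le
      linarith
    have t4 : 3 * (x + 3) * ν * (62 / 100 * a ^ 3) ≤ 88 / 100 * a ^ 4 * ν := by
      have t5 : (x + 3) * 186 ≤ 88 * a := by linarith
      have t6 : (a ^ 3 * ν) * ((x + 3) * 186) ≤ (a ^ 3 * ν) * (88 * a) :=
        mul_le_mul_of_nonneg_left t5 (by positivity)
      linarith
    linarith
  have r4 : h * (16 * a ^ 4) ≤ 81 / 100 * a ^ 4 * ν := by
    have t1 : 2 * h ≤ a := by linarith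
    have t2 : (8 * a ^ 4) * (2 * h) ≤ (8 * a ^ 4) * (10 / 99 * ν) := by
      apply mul_le_mul_of_nonneg_left (by linarith) (by positivity)
    have : 0 ≤ a ^ 4 * ν := by positivity
    linarith
  have r5 : h * (24 * a ^ 2 * ν) ≤ 3 / 4 * a ^ 4 * ν := by
    have t1 : 32 * h ≤ a ^ 2 := by nlinarith
    have t2 : (a ^ 2 * ν) * (32 * h) ≤ (a ^ 2 * ν) * a ^ 2 :=
      mul_le_mul_of_nonneg_left t1 (by positivity)
    linarith
  have r6 : (4 * a ^ 2 * ν) * (24 / 25 * a ^ 2) ≤ (4 * a ^ 2 * ν) * (h * C) :=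
    mul_le_mul_of_nonneg_left r1 (by positivity)
  have r7 : 0 < a ^ 4 * ν := by positivity
  have r8 : h * (3 * (x + 1) ^ 2 * ν ^ 2) < h * (4 * a ^ 2 * ν * (C - 6) - 16 * a ^ 4) := by
    linarith
  exact lt_of_mul_lt_mul_left r8 hh0.le

/-- reduction of the first claim -/
theorem L10_G1 (a h m x K : ℝ) (hh0 : 0 < h)
    (D2 : 2 * a * (a - (x + 1)) - K ≤ h * (m - 2 - 3 * a + 2 * (x + 1) - 3 * h))
    (key : h * x ^ 2 + 6 * h ^ 2 + 6 * h + 4 * a * x + 4 * a + 2 * K < 4 * a ^ 2) :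
    (x + 1) ^ 2 < (2 * m - 6 * a - 2 + 6 * (x + 1) - 12 * h) - 9 := by
  have hR := L10_R a h m (x + 1) K D2
  obtain ⟨C, hC⟩ : ∃ C, C = 2 * m - 6 * a - 2 + 6 * (x + 1) - 12 * h := ⟨_, rfl⟩
  rw [← hC] at hR ⊢
  have : h * (x + 1) ^ 2 < h * (C - 9) := by linarith
  exact lt_of_mul_lt_mul_left this hh0.le

theorem L10_keyA (a h m x K : ℝ) (ha : 16 ≤ a) (h3 : 3 ≤ h) (hA : 2 * h + 1 ≤ a) (hm : 7 * a ≤ m)
    (hx : 1 ≤ x) (hxa : 100 * x ≤ 28 * a) (B1 : 7 * m * (2 * h - 2) * x ≤ 4 * a ^ 3)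
    (hK : 49 * K ≤ 4 * a ^ 2) (h16 : h ≤ 16) :
    h * x ^ 2 + 6 * h ^ 2 + 6 * h + 4 * a * x + 4 * a + 2 * K < 4 * a ^ 2 := by
  have ha0 : 0 < a := by linarith
  have hx0 : 0 < x := by linarith
  have ha2 : 0 < a ^ 2 := by positivity
  have t4 : 16 * a ≤ a ^ 2 := by nlinarith
  -- `p x ≤ 4 a² / 49`
  have e1 : 49 * ((2 * h - 2) * x) ≤ 4 * a ^ 2 := by
    have t1 : 7 * (7 * a) * ((2 * h - 2) * x) ≤ 7 * m * ((2 * h - 2) * x) := by
      apply mul_le_mul_of_nonneg_right (by linarith)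
      apply mul_nonneg (by linarith) hx0.le
    have t2 : a * (49 * ((2 * h - 2) * x)) ≤ a * (4 * a ^ 2) := by linarith
    exact le_of_mul_le_mul_left t2 ha0
  rcases le_total a (4 * h) with h4 | h4
  · -- `h ≥ a / 4`
    have e2 : 3 / 8 * a ≤ 2 * h - 2 := by linarith
    have e3 : 100 * x ≤ 22 * a := by
      have t1 : 49 * (3 / 8 * a * x) ≤ 4 * a ^ 2 := by
        have : 3 / 8 * a * x ≤ (2 * h - 2) * x := mul_le_mul_of_nonneg_right e2 hx0.le
        linarith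
      have t2 : a * (49 * 3 * x) ≤ a * (32 * a) := by linarith
      have t3 := le_of_mul_le_mul_left t2 ha0
      linarith
    have e4 : 49 * (h * x) ≤ 3 * a ^ 2 := by
      have : 4 * (h * x) ≤ 3 * ((2 * h - 2) * x) := by
        have : 0 ≤ (h - 3) * x := mul_nonneg (by linarith) hx0.le
        linarith
      linarith
    have e5 : (49 * (h * x)) * (100 * x) ≤ (3 * a ^ 2) * (22 * a) := by
      apply mul_le_mul e4 e3 (by linarith) (by positivity)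
    have e6 : a ^ 2 * a ≤ a ^ 2 * 64 := by
      apply mul_le_mul_of_nonneg_left _ ha2.le
      linarith
    have e7 : 4 * h ^ 2 ≤ (a - 1) ^ 2 := by
      have := pow_le_pow_left₀ (by linarith : 0 ≤ 2 * h) (by linarith : 2 * h ≤ a - 1) 2
      linarith
    have e8 : a * (100 * x) ≤ a * (22 * a) := mul_le_mul_of_nonneg_left e3 ha0.le
    nlinarith
  · have e2 : 16 * h ^ 2 ≤ a ^ 2 := by
      have := pow_le_pow_left₀ (by linarith : 0 ≤ 4 * h) h4 2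
      linarith
    have e3 : (100 * x) ^ 2 ≤ (28 * a) ^ 2 := pow_le_pow_left₀ (by linarith) hxa 2
    have e4 : h * x ^ 2 ≤ 16 * x ^ 2 := mul_le_mul_of_nonneg_right h16 (sq_nonneg x)
    have e8 : a * (100 * x) ≤ a * (28 * a) := mul_le_mul_of_nonneg_left hxa ha0.le
    nlinarith

theorem L10_keyB (a h m x K : ℝ) (h17 : 17 ≤ h) (hA : 2 * h + 1 ≤ a) (hm : 7 * a ≤ m)
    (hx : 1 ≤ x) (hxa : 100 * x ≤ 28 * a) (B1 : 7 * m * (2 * h - 2) * x ≤ 4 * a ^ 3)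
    (B2 : x * (2 * (m + 3) * (2 * h - 2) - 5 * (a - 1) ^ 2) ≤ 8 * (a - 1) * (m + 3))
    (hK0 : 0 ≤ K) (hK : 49 * K ≤ 4 * a ^ 2) (hK7 : 7 * m * K ≤ 4 * a ^ 3)
    (D2 : 2 * a * (a - (x + 1)) - K ≤ h * (m - 2 - 3 * a + 2 * (x + 1) - 3 * h)) :
    h * x ^ 2 + 6 * h ^ 2 + 6 * h + 4 * a * x + 4 * a + 2 * K < 4 * a ^ 2 := by
  have ha : 35 ≤ a := by linarith
  have ha0 : 0 < a := by linarith
  have hx0 : 0 < x := by linarith
  have hh0 : 0 < h := by linarith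
  have hm0 : 0 < m := by linarith
  have ha2 : 0 < a ^ 2 := by positivity
  have t4 : 35 * a ≤ a ^ 2 := by nlinarith
  have eax : a * (100 * x) ≤ a * (28 * a) := mul_le_mul_of_nonneg_left hxa ha0.le
  have ehx : h * (100 * x) ≤ h * (28 * a) := mul_le_mul_of_nonneg_left hxa hh0.le
  have eah : a * 17 ≤ a * h := mul_le_mul_of_nonneg_left h17 ha0.le
  -- first bound for `h m`
  have s1 : 135 / 100 * a ^ 2 ≤ h * m := by nlinarith
  have s2 : K ≤ 43 / 100 * (a * h) := by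
    have t1 : (135 / 100 * a ^ 2) * (7 * K) ≤ (h * m) * (7 * K) :=
      mul_le_mul_of_nonneg_right s1 (by linarith)
    have t2 : h * (7 * m * K) ≤ h * (4 * a ^ 3) := mul_le_mul_of_nonneg_left hK7 hh0.le
    have t3 : a ^ 2 * (945 / 100 * K) ≤ a ^ 2 * (4 * (a * h)) := by linarith
    have t4 := le_of_mul_le_mul_left t3 ha2
    have : 0 ≤ a * h := by positivity
    linarith
  have s3 : 2 * a * (a - x + h - 1) ≤ h * m := by nlinarith
  have s4 : 32 * h ≤ 17 * (2 * h - 2) := by linarith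
  have s5 : 64 * (a * (a - x + h - 1)) ≤ 17 * ((2 * h - 2) * m) := by
    have t1 : 32 * h * m ≤ 17 * (2 * h - 2) * m := mul_le_mul_of_nonneg_right s4 hm0.le
    linarith
  have s6 : 100 * x ≤ 187 / 10 * a := by
    by_contra hcon
    push Not at hcon
    have t1 : x * (7 * (64 * (a * (a - x + h - 1)))) ≤ x * (7 * (17 * ((2 * h - 2) * m))) := by
      apply mul_le_mul_of_nonneg_left _ hx0.le
      linarith
    have t2 : a * (7 * 64 * (x * (a - x + h - 1))) ≤ a * (68 * a ^ 2) := by linarith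
    have t3 := le_of_mul_le_mul_left t2 ha0
    have t4 : 0 ≤ (1000 * x - 187 * a) * (1000 * a - 1000 * x - 187 * a) := by
      apply mul_nonneg <;> linarith
    nlinarith
  -- `Q`
  obtain ⟨Q, hQ⟩ : ∃ Q, Q = 2 * (m + 3) * (2 * h - 2) - 5 * (a - 1) ^ 2 := ⟨_, rfl⟩
  rw [← hQ] at B2
  have s7 : 112 / 100 * a ^ 2 + 7 * (a * h) ≤ Q := by
    have t1 : a * (100 * x) ≤ a * (187 / 10 * a) := mul_le_mul_of_nonneg_left s6 ha0.le
    rw [hQ]
    nlinarith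
  have hQ0 : 0 < Q := by
    have : 0 ≤ a * h := by positivity
    linarith
  have s8 : (7 * m * (2 * h - 2) * x) * (x * Q) ≤ 4 * a ^ 3 * (8 * (a - 1) * (m + 3)) := by
    apply mul_le_mul B1 B2 (by positivity) (by positivity)
  have s9 : (a - 1) * (m + 3) ≤ a * m := by linarith
  have s10 : m * (7 * (2 * h - 2) * (x ^ 2 * Q)) ≤ m * (32 * a ^ 4) := by
    have : 32 * a ^ 3 * ((a - 1) * (m + 3)) ≤ 32 * a ^ 3 * (a * m) :=
      mul_le_mul_of_nonneg_left s9 (by positivity)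
    linarith
  have s11 : 7 * (2 * h - 2) * (x ^ 2 * Q) ≤ 32 * a ^ 4 := le_of_mul_le_mul_left s10 hm0
  have s12 : 7 * (h * x ^ 2) * Q ≤ 17 * a ^ 4 := by
    have t1 : 7 * (32 * h) * (x ^ 2 * Q) ≤ 7 * (17 * (2 * h - 2)) * (x ^ 2 * Q) := by
      apply mul_le_mul_of_nonneg_right _ (by positivity)
      linarith
    linarith
  have hhx : 0 ≤ h * x ^ 2 := by positivity
  have eax' : a * (100 * x) ≤ a * (187 / 10 * a) := mul_le_mul_of_nonneg_left s6 ha0.le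
  rcases le_total (4 * h) a with h4 | h4
  · have u1 : 7 * (h * x ^ 2) * (112 / 100 * a ^ 2) ≤ 7 * (h * x ^ 2) * Q := by
      apply mul_le_mul_of_nonneg_left _ (by positivity)
      have : 0 ≤ a * h := by positivity
      linarith
    have u2 : a ^ 2 * (784 / 100 * (h * x ^ 2)) ≤ a ^ 2 * (17 * a ^ 2) := by linarith
    have u3 := le_of_mul_le_mul_left u2 ha2
    have e2 : 16 * h ^ 2 ≤ a ^ 2 := by
      have := pow_le_pow_left₀ (by linarith : 0 ≤ 4 * h) h4 2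
      linarith
    nlinarith
  · have u0 : 28 / 10 * a ^ 2 ≤ Q := by
      have : a * a ≤ a * (4 * h) := mul_le_mul_of_nonneg_left h4 ha0.le
      nlinarith
    have u1 : 7 * (h * x ^ 2) * (28 / 10 * a ^ 2) ≤ 7 * (h * x ^ 2) * Q := by
      apply mul_le_mul_of_nonneg_left u0 (by positivity)
    have u2 : a ^ 2 * (196 / 10 * (h * x ^ 2)) ≤ a ^ 2 * (17 * a ^ 2) := by linarith
    have u3 := le_of_mul_le_mul_left u2 ha2
    have e7 : 4 * h ^ 2 ≤ (a - 1) ^ 2 := by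
      have := pow_le_pow_left₀ (by linarith : 0 ≤ 2 * h) (by linarith : 2 * h ≤ a - 1) 2
      linarith
    nlinarith

/-- the case `i ≤ 1` -/
theorem L10_small (a h m i K : ℝ) (ha : 16 ≤ a) (h1 : 1 ≤ h) (hA : 2 * h + 1 ≤ a)
    (hm : 7 * a ≤ m) (hi0 : 0 ≤ i) (hi : i ≤ 1)
    (hK : 49 * K ≤ 4 * a ^ 2)
    (hz : 2 * (m + 3 * a - 1) < (a + 2) ^ 2)
    (D2 : 2 * a * (a - i) - K ≤ h * (m - 2 - 3 * a + 2 * i - 3 * h)) :
    i ^ 2 < (2 * m - 6 * a - 2 + 6 * i - 12 * h) - 9 ∧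
    3 * i ^ 2 * (m + 3 * a - 1) ^ 2 <
      4 * a ^ 2 * (m + 3 * a - 1) * ((2 * m - 6 * a - 2 + 6 * i - 12 * h) - 6) -
        16 * a ^ 4 := by
  have hR := L10_R a h m i K D2
  obtain ⟨C, hC⟩ : ∃ C, C = 2 * m - 6 * a - 2 + 6 * i - 12 * h := ⟨_, rfl⟩
  obtain ⟨ν, hν⟩ : ∃ ν, ν = m + 3 * a - 1 := ⟨_, rfl⟩
  rw [← hC] at hR ⊢
  rw [← hν] at hz ⊢
  have ha0 : 0 < a := by linarith
  have hh0 : 0 < h := by linarith
  have hν0 : 0 < ν := by linarith
  have hν1 : 99 * a ≤ 10 * ν := by linarith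
  have t4 : 16 * a ≤ a ^ 2 := by nlinarith
  have e7 : 4 * h ^ 2 ≤ (a - 1) ^ 2 := by
    have := pow_le_pow_left₀ (by linarith : 0 ≤ 2 * h) (by linarith : 2 * h ≤ a - 1) 2
    linarith
  have r1 : 2 * a ^ 2 + 10 * h ≤ h * C := by
    have t1 : 0 ≤ a * (1 - i) := mul_nonneg ha0.le (by linarith)
    have t2 : 0 ≤ h * i := mul_nonneg hh0.le hi0
    nlinarith
  have i2 : i ^ 2 ≤ 1 := by nlinarith
  constructor
  · have : h * i ^ 2 < h * (C - 9) := by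
      have : h * i ^ 2 ≤ h * 1 := mul_le_mul_of_nonneg_left i2 hh0.le
      nlinarith
    exact lt_of_mul_lt_mul_left this hh0.le
  · have r3 : h * (3 * i ^ 2 * ν ^ 2) ≤ a ^ 3 * ν := by
      have u1 : i ^ 2 * ν ^ 2 ≤ 1 * ν ^ 2 := mul_le_mul_of_nonneg_right i2 (sq_nonneg ν)
      have u2 : h * (3 * (i ^ 2 * ν ^ 2)) ≤ h * (3 * ν ^ 2) := by
        apply mul_le_mul_of_nonneg_left _ hh0.le
        linarith
      have u3 : 3 * h * ν ≤ a ^ 3 := by
        have v1 : (2 * h) * (2 * ν) ≤ a * (13 / 10 * a ^ 2) := by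
          apply mul_le_mul (by linarith) _ (by linarith) ha0.le
          nlinarith
        have : 0 < a ^ 3 := by positivity
        linarith
      have u4 : ν * (3 * h * ν) ≤ ν * a ^ 3 := mul_le_mul_of_nonneg_left u3 hν0.le
      linarith
    have r3' : a ^ 3 * ν ≤ 1 / 16 * a ^ 4 * ν := by
      have : (a ^ 3 * ν) * 16 ≤ (a ^ 3 * ν) * a := mul_le_mul_of_nonneg_left ha (by positivity)
      linarith
    have r4 : h * (16 * a ^ 4) ≤ 81 / 100 * a ^ 4 * ν := by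
      have t2 : (8 * a ^ 4) * (2 * h) ≤ (8 * a ^ 4) * (10 / 99 * ν) := by
        apply mul_le_mul_of_nonneg_left (by linarith) (by positivity)
      have : 0 ≤ a ^ 4 * ν := by positivity
      linarith
    have r5 : h * (24 * a ^ 2 * ν) ≤ 3 / 4 * a ^ 4 * ν := by
      have t1 : 32 * h ≤ a ^ 2 := by nlinarith
      have t2 : (a ^ 2 * ν) * (32 * h) ≤ (a ^ 2 * ν) * a ^ 2 :=
        mul_le_mul_of_nonneg_left t1 (by positivity)
      linarith
    have r6 : (4 * a ^ 2 * ν) * (2 * a ^ 2) ≤ (4 * a ^ 2 * ν) * (h * C) := by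
      apply mul_le_mul_of_nonneg_left _ (by positivity)
      linarith
    have r7 : 0 < a ^ 4 * ν := by positivity
    have r8 : h * (3 * i ^ 2 * ν ^ 2) < h * (4 * a ^ 2 * ν * (C - 6) - 16 * a ^ 4) := by
      linarith
    exact lt_of_mul_lt_mul_left r8 hh0.le

end Pool.Agent.Lib.MP_b072d9_co
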