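import Pool.Agent.Lib.MP_b072d9_co.LImA
import Pool.Agent.Lib.MP_b072d9_co.LImBalg

set_option autoImplicit false

namespace Pool.Agent.Lib.MP_b072d9_co

variable {n : ℤ} {H : ℕ} {L : ℕ → ℤ}

/-- L10: imbalance, small label -/
theorem NF.imB (hL : IsLH n H L) {h a b : ℕ} (hN : NF n H L h a b) (hH : h + 1 ≤ H) (haH : a ≤ H)
    (hz : 2 * (n - 1) < ((a : ℤ) + 2) ^ 2) (h10 : 10 * (a : ℤ) ≤ n) (hA : 2 * h < a)
    (h3 : 3 * ((a : ℤ) + b + 2 * h) ≤ (n - 1)) :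
    ((a : ℤ) - b) ^ 2 < 2 * (n - 1) - 6 * (a + b + 2 * h) - 9 ∧
    3 * ((a : ℤ) - b) ^ 2 * (n - 1) ^ 2 <
      4 * a ^ 2 * (n - 1) * (2 * (n - 1) - 6 * (a + b + 2 * h) - 6) - 16 * (a : ℤ) ^ 4 := by
  have h1 := hN.opt.1.1
  have h1Z : (1 : ℤ) ≤ h := by exact_mod_cast h1
  have hb0 : (0 : ℤ) ≤ b := by positivity
  have ha0 : (0 : ℤ) ≤ a := by positivity
  have hbaZ : (b : ℤ) ≤ a := by exact_mod_cast hN.le
  have hAZ : 2 * (h : ℤ) + 1 ≤ a := by exact_mod_cast hA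
  have ha16 : (16 : ℤ) ≤ a := by
    by_contra hcon
    push Not at hcon
    have hn1 : 7 ≤ n := by linarith
    have : (a : ℤ) ≤ 15 := by linarith
    nlinarith
  have hba := hN.le
  obtain ⟨v, rfl⟩ : ∃ v, a = v + 1 := ⟨a - 1, by omega⟩
  push_cast at *
  have hv0 : (0 : ℤ) ≤ v := by positivity
  have ku := K_upH hL v (by linarith)
  have k0 := K_nonnegH hL v
  have d2 := D2H hL hH hN.opt
  have hmR : 7 * ((v : ℝ) + 1) ≤ (n : ℝ) - 3 * ((v : ℝ) + 1) := by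
    have : 7 * ((v : ℤ) + 1) ≤ n - 3 * (v + 1) := by linarith
    exact_mod_cast this
  have kuR : 7 * ((n : ℝ) - 3 * ((v : ℝ) + 1)) * (KK n L v : ℝ) ≤ 4 * ((v : ℝ) + 1) ^ 3 := by
    exact_mod_cast ku
  have k0R : (0 : ℝ) ≤ (KK n L v : ℝ) := by exact_mod_cast k0
  have hK : 49 * (KK n L v : ℝ) ≤ 4 * ((v : ℝ) + 1) ^ 2 :=
    K_le_sq ((v : ℝ) + 1) _ _ (by positivity) k0R hmR kuR
  have ha16R : (16 : ℝ) ≤ (v : ℝ) + 1 := by exact_mod_cast ha16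
  have hAR : 2 * (h : ℝ) + 1 ≤ (v : ℝ) + 1 := by exact_mod_cast hAZ
  have h1R : (1 : ℝ) ≤ h := by exact_mod_cast h1
  have hzR : 2 * ((n : ℝ) - 3 * ((v : ℝ) + 1) + 3 * ((v : ℝ) + 1) - 1) < (((v : ℝ) + 1) + 2) ^ 2 := by
    have : 2 * (n - 3 * ((v : ℤ) + 1) + 3 * ((v : ℤ) + 1) - 1) < (((v : ℤ) + 1) + 2) ^ 2 := by
      linarith
    exact_mod_cast this
  have d2R : 2 * ((v : ℝ) + 1) * b - (KK n L v : ℝ) ≤
      h * ((n : ℝ) - 2 - 4 * (v + 1) - 2 * b - 3 * h) := by exact_mod_cast d2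
  -- it suffices to prove the real form with `i = a - b`
  have main : (((v : ℝ) + 1) - b) ^ 2 < (2 * ((n : ℝ) - 3 * ((v : ℝ) + 1)) - 6 * ((v : ℝ) + 1) - 2 +
        6 * (((v : ℝ) + 1) - b) - 12 * h) - 9 ∧
      3 * (((v : ℝ) + 1) - b) ^ 2 * ((n : ℝ) - 3 * ((v : ℝ) + 1) + 3 * ((v : ℝ) + 1) - 1) ^ 2 <
      4 * ((v : ℝ) + 1) ^ 2 * ((n : ℝ) - 3 * ((v : ℝ) + 1) + 3 * ((v : ℝ) + 1) - 1) *
        ((2 * ((n : ℝ) - 3 * ((v : ℝ) + 1)) - 6 * ((v : ℝ) + 1) - 2 +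
        6 * (((v : ℝ) + 1) - b) - 12 * h) - 6) - 16 * ((v : ℝ) + 1) ^ 4 := by
    rcases le_or_gt (v + 1) (b + 1) with hs | hs
    · have hsR : (v : ℝ) + 1 ≤ b + 1 := by exact_mod_cast hs
      have hbR : (b : ℝ) ≤ (v : ℝ) + 1 := by exact_mod_cast hba
      apply L10_small ((v : ℝ) + 1) (h : ℝ) ((n : ℝ) - 3 * ((v : ℝ) + 1)) (((v : ℝ) + 1) - b)
        (KK n L v : ℝ) ha16R h1R hAR hmR (by linarith) (by linarith) hK hzR
      have e1 : ((v : ℝ) + 1) - (((v : ℝ) + 1) - b) = b := by ring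
      rw [e1]
      linarith
    · -- `i ≥ 2`
      have hh : 2 ≤ h := by
        by_contra hcon
        have he : h = 1 := by omega
        subst he
        have := hN.one hL
        omega
      obtain ⟨c, p, q, hc, hsc⟩ := hL.exists_opt (v + 1) (by omega)
      have im := ImbH hL hN.opt
      have kb := K_nonnegH hL b
      have hsZ : (b : ℤ) + 1 ≤ v := by
        have : b + 1 ≤ v := by omega
        exact_mod_cast this
      have hKpos : KK n L v ≠ 0 := by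
        intro hz0
        rw [hz0] at im
        have hhZ : (2 : ℤ) ≤ h := by exact_mod_cast hh
        have : 0 < ((v : ℤ) - b) * (2 * h - 2) := mul_pos (by linarith) (by linarith)
        linarith
      have hh3 : 3 ≤ h := by
        rcases node_pack hL hH hN.opt hh hba h10 hc hsc with ⟨-, h2, -⟩ | ⟨c2, ch, -⟩
        · exact absurd h2 hKpos
        · omega
      have nc : 5 * (v : ℤ) ^ 2 ≤ 4 * (h - 1) * (n - 3 * v) := by
        rcases NC hL hH hN.opt hh hba h10 with h2 | h2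
        · exact absurd h2 hKpos
        · exact h2
      obtain ⟨B1, B2⟩ := hN.two_bounds hL haH (by omega) (by push_cast; exact h10)
      push_cast at B1 B2
      obtain ⟨x, hx⟩ : ∃ x : ℝ, x = ((v : ℝ) + 1) - b - 1 := ⟨_, rfl⟩
      rw [← hx] at B1 B2
      have hx1 : 1 ≤ x := by
        have : (b : ℝ) + 1 ≤ v := by exact_mod_cast hsZ
        linarith
      have hi : ((v : ℝ) + 1) - b = x + 1 := by linarith
      rw [hi]
      have h3R : (3 : ℝ) ≤ h := by exact_mod_cast hh3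
      have ncR : 5 * (((v : ℝ) + 1) - 1) ^ 2 ≤
          2 * (2 * (h : ℝ) - 2) * (((n : ℝ) - 3 * ((v : ℝ) + 1)) + 3) := by
        have : 5 * (((v : ℤ) + 1) - 1) ^ 2 ≤ 2 * (2 * (h : ℤ) - 2) * ((n - 3 * ((v : ℤ) + 1)) + 3) := by
          linarith
        exact_mod_cast this
      have B1' : 7 * ((n : ℝ) - 3 * ((v : ℝ) + 1)) * (2 * h - 2) * x ≤ 4 * ((v : ℝ) + 1) ^ 3 := by
        linarith
      have B2' : x * (2 * (((n : ℝ) - 3 * ((v : ℝ) + 1)) + 3) * (2 * h - 2) -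
          5 * (((v : ℝ) + 1) - 1) ^ 2) ≤
          8 * (((v : ℝ) + 1) - 1) * (((n : ℝ) - 3 * ((v : ℝ) + 1)) + 3) := by
        have e2 : (n : ℝ) - 3 * ((v : ℝ) + 1) + 3 = n - 3 * ((v : ℝ) + 1 - 1) := by ring
        rw [e2]
        linarith
      have hxa := L10_x ((v : ℝ) + 1) (h : ℝ) ((n : ℝ) - 3 * ((v : ℝ) + 1)) x ha16R h3R hAR
        (by linarith) B1' ncR
      have d2x : 2 * ((v : ℝ) + 1) * (((v : ℝ) + 1) - (x + 1)) - (KK n L v : ℝ) ≤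
          h * (((n : ℝ) - 3 * ((v : ℝ) + 1)) - 2 - 3 * ((v : ℝ) + 1) + 2 * (x + 1) - 3 * h) := by
        have e1 : ((v : ℝ) + 1) - (x + 1) = b := by linarith
        have e2 : x + 1 = ((v : ℝ) + 1) - b := by linarith
        rw [e1, e2]
        linarith
      constructor
      · apply L10_G1 ((v : ℝ) + 1) (h : ℝ) ((n : ℝ) - 3 * ((v : ℝ) + 1)) x (KK n L v : ℝ)
          (by linarith) d2x
        rcases le_or_gt h 16 with h16 | h16
        · exact L10_keyA ((v : ℝ) + 1) (h : ℝ) ((n : ℝ) - 3 * ((v : ℝ) + 1)) x (KK n L v : ℝ)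
            ha16R h3R hAR hmR hx1 hxa B1' hK (by exact_mod_cast h16)
        · exact L10_keyB ((v : ℝ) + 1) (h : ℝ) ((n : ℝ) - 3 * ((v : ℝ) + 1)) x (KK n L v : ℝ)
            (by exact_mod_cast h16) hAR hmR hx1 hxa B1' B2' k0R hK kuR d2x
      · exact L10_G2 ((v : ℝ) + 1) (h : ℝ) ((n : ℝ) - 3 * ((v : ℝ) + 1)) x (KK n L v : ℝ)
          ha16R h3R hAR hmR hx1 hxa B1' hK d2x
  obtain ⟨m1, m2⟩ := main
  constructor
  · have : (((v : ℝ) + 1) - b) ^ 2 < 2 * ((n : ℝ) - 1) - 6 * (((v : ℝ) + 1) + b + 2 * h) - 9 := by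
      linarith
    exact_mod_cast this
  · have e1 : (n : ℝ) - 3 * ((v : ℝ) + 1) + 3 * ((v : ℝ) + 1) - 1 = n - 1 := by ring
    have e2 : 2 * ((n : ℝ) - 3 * ((v : ℝ) + 1)) - 6 * ((v : ℝ) + 1) - 2 +
        6 * (((v : ℝ) + 1) - b) - 12 * h = 2 * ((n : ℝ) - 1) - 6 * (((v : ℝ) + 1) + b + 2 * h) := by
      ring
    rw [e1, e2] at m2
    exact_mod_cast m2

end Pool.Agent.Lib.MP_b072d9_co
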