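import Pool.Agent.Lib.MP_b072d9_co.LNest

set_option autoImplicit false

namespace Pool.Agent.Lib.MP_b072d9_co

variable {n : ℤ} {L : ℕ → ℤ}

/-- the pure inequality behind `crude_imb` for `h₁ ≥ 3`; `I = a - b - 1`, `k = h - 1`,
`c = h₁ - 1` -/
theorem crude_alg0 (n a b k c I KA KB : ℝ) (hc : 2 ≤ c) (hk : c + 1 ≤ k)
    (hI : I = a - b - 1) (hI0 : 1 ≤ I) (hb : a - (c + 1) ≤ 2 * b)
    (hu : 10 * (a + b + (k + 1)) ≤ n + 10)
    (hJ : 2 * I * k ≤ c * (a + (c + 1)))
    (hD1 : 2 * c * (n - 3 * a) ≤ (a - (c + 1)) ^ 2 + 2 * a + 4 * c - 2)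
    (hD2 : 4 * a * b - KA - KB ≤ 2 * (k + 1) * (n - 2 - 3 * (a + b + (k + 1))))
    (hKA : 7 * (n - 3 * a) * KA ≤ 4 * a ^ 3) (hKB : KB ≤ KA) (hKA0 : 0 ≤ KA)
    (ha1 : c + 1 ≤ a) (_hb0 : 0 ≤ b)
    (hneg : 2 * a + k < 7 * I + 6) : False := by
  set N := n - 3 * a with hN
  have ha3 : 3 ≤ a := by linarith
  have N1 : 12 * a + 5 * (c + 1) ≤ N := by rw [hN]; linarith
  have N0 : 0 < N := by linarith
  set R := (a - (c + 1)) ^ 2 + 2 * a + 4 * c - 2 with hR
  have Na : 4 * N ≤ R := by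
    have : 2 * 2 * N ≤ 2 * c * N := by
      apply mul_le_mul_of_nonneg_right _ N0.le
      linarith
    linarith
  have hgg : 0 ≤ (c + 1) * (a - (c + 1)) := mul_nonneg (by linarith) (by linarith)
  have ha46 : 46 ≤ a := by
    by_contra hlt
    push Not at hlt
    have t : a * a ≤ 46 * a := mul_le_mul_of_nonneg_right hlt.le (by linarith)
    have t2 : 0 ≤ (c + 1) * a := mul_nonneg (by linarith) (by linarith)
    have t3 : 4 * (12 * a + 5 * (c + 1)) ≤ R := by linarith
    have t4 : (c + 1) * (c + 1) ≤ (c + 1) * a := mul_le_mul_of_nonneg_left (by linarith) (by linarith)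
    rw [hR] at t3
    linarith
  have R1 : R ≤ a ^ 2 := by
    have t : 0 ≤ (a - 46) * (c + 1 - 2) := mul_nonneg (by linarith) (by linarith)
    rw [hR]
    linarith
  have ca : 24 * c ≤ a := by
    have t1 : 2 * c * (12 * a) ≤ 2 * c * N := by
      apply mul_le_mul_of_nonneg_left _ (by linarith)
      linarith
    have t2 : 24 * c * a ≤ a * a := by linarith
    exact le_of_mul_le_mul_right t2 (by linarith)
  have ha47 : 47 ≤ a := by
    by_contra hlt
    push Not at hlt
    have t : a * a ≤ 47 * a := by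
      apply mul_le_mul_of_nonneg_right hlt.le (by linarith)
    have t3 : 4 * (12 * a + 5 * (c + 1)) ≤ a ^ 2 := by linarith
    linarith
  have hK : 21 * KA ≤ a ^ 2 := by
    have t1 : 7 * (12 * a) * KA ≤ 7 * N * KA := by
      apply mul_le_mul_of_nonneg_right _ hKA0
      linarith
    have t2 : (21 * KA) * a ≤ a ^ 2 * a := by linarith
    exact le_of_mul_le_mul_right t2 (by linarith)
  have hkN : 4 * a * b - 2 * KA - 2 * N ≤ 2 * k * N := by
    have t1 : 2 * (k + 1) * (n - 2 - 3 * (a + b + (k + 1))) ≤ 2 * (k + 1) * N := by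
      apply mul_le_mul_of_nonneg_left _ (by linarith)
      rw [hN]; linarith
    linarith
  have hRa : R * (a + (c + 1)) ≤ a ^ 3 := by
    -- h₁ = c + 1, R = (a-h₁)^2 + 2a + 4h₁ - 6
    set g := c + 1 with hg
    have g3 : 3 ≤ g := by linarith
    have ga : 10 * g ≤ a := by linarith
    have hR' : R = (a - g) ^ 2 + 2 * a + 4 * g - 6 := by rw [hR, hg]; ring
    rw [hR']
    -- (a-g)^2 (a+g) <= a^2 (a - g)
    have t1 : (a - g) ^ 2 * (a + g) ≤ a ^ 2 * (a - g) := by
      have : 0 ≤ (a - g) * g ^ 2 := mul_nonneg (by linarith) (sq_nonneg _)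
      nlinarith
    have t2 : (2 * a + 4 * g - 6) * (a + g) ≤ a ^ 2 * g := by
      have s1 : (2 * a + 4 * g - 6) * (a + g) ≤ (2 * a + 4 * g) * (a + g) := by
        apply mul_le_mul_of_nonneg_right _ (by linarith)
        linarith
      have s2 : (2 * a + 4 * g) * (a + g) ≤ (12 / 5 * a) * (11 / 10 * a) := by
        apply mul_le_mul _ _ (by linarith) (by linarith)
        · linarith
        · linarith
      have s3 : (12 / 5 * a) * (11 / 10 * a) ≤ a ^ 2 * g := by
        have : a ^ 2 * 3 ≤ a ^ 2 * g := mul_le_mul_of_nonneg_left g3 (sq_nonneg _)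
        have := sq_nonneg a
        linarith
      linarith
    linarith
  -- main combination
  have m1 : I * (2 * k * N) ≤ R * (a + (c + 1)) / 2 := by
    have t1 : 2 * I * k * N ≤ c * (a + (c + 1)) * N := mul_le_mul_of_nonneg_right hJ N0.le
    have t2 : 2 * c * N * (a + (c + 1)) ≤ R * (a + (c + 1)) :=
      mul_le_mul_of_nonneg_right hD1 (by linarith)
    linarith
  have m2 : I * (4 * a * b - 2 * KA - 2 * N) ≤ I * (2 * k * N) :=
    mul_le_mul_of_nonneg_left hkN (by linarith)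
  have m3 : I * (4 * a * b - 2 / 21 * a ^ 2 - a ^ 2 / 2) ≤ I * (4 * a * b - 2 * KA - 2 * N) := by
    apply mul_le_mul_of_nonneg_left _ (by linarith)
    linarith
  have m4 : I * (4 * a * (a - I - 1) - 2 / 21 * a ^ 2 - a ^ 2 / 2) ≤ a ^ 3 / 2 := by
    have : b = a - I - 1 := by linarith
    rw [this] at m3 m2
    linarith
  have m5 : I * (4 * (a - I - 1) - 2 / 21 * a - a / 2) ≤ a ^ 2 / 2 := by
    have : (I * (4 * (a - I - 1) - 2 / 21 * a - a / 2)) * a ≤ (a ^ 2 / 2) * a := by linarith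
    exact le_of_mul_le_mul_right this (by linarith)
  have l1 : 0 ≤ 7 * I - 2 * a + 3 := by linarith
  have l2 : 0 ≤ 11 / 20 * a - I := by linarith
  have l3 := mul_nonneg l1 l2
  have l4 : 47 * a ≤ a * a := mul_le_mul_of_nonneg_right ha47 (by linarith)
  have l5 : 0 ≤ a * I := mul_nonneg (by linarith) (by linarith)
  nlinarith

/-- siblings of optimal structures are balanced up to a constant factor -/
theorem crude_imb0 (hL : IsL n L) {h a b : ℕ} (ho : Opt n L h a b) (hh : 2 ≤ h)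
    (hab : b ≤ a) (hu : 10 * ((a : ℤ) + b + h) ≤ n + 10) :
    a ≤ b + 1 ∨ 6 * ((a : ℤ) - b) ≤ a + b + h := by
  by_contra hcon
  push Not at hcon
  obtain ⟨hc1, hc2⟩ := hcon
  have hapos : 1 ≤ a := by omega
  obtain ⟨h₁, p, q, ho₁, hs₁, hqp⟩ : ∃ h₁ p q : ℕ, Opt n L h₁ p q ∧ p + q + h₁ = a ∧ q ≤ p := by
    obtain ⟨h₁, p, q, ho₁, hs₁⟩ := hL.exists_opt a hapos
    rcases le_total q p with h1 | h1
    · exact ⟨h₁, p, q, ho₁, hs₁, h1⟩
    · exact ⟨h₁, q, p, ho₁.swap, by omega, h1⟩
  have hoa : Opt n L h (p + q + h₁) b := by rw [hs₁]; exact ho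
  have n1 : h₁ ≤ h := N1 hL hoa ho₁
  have n1' : h₁ < h := by
    rcases Nat.lt_or_ge h₁ h with h1 | h1
    · exact h1
    · exfalso
      have : h₁ = h := le_antisymm n1 h1
      subst this
      exact N3 hL hh hoa ho₁
  have n2 : p ≤ b := N2 hL hoa ho₁ n1'
  have hg1 := ho₁.1
  have kb := K_nonneg hL b
  obtain ⟨a', rfl⟩ := Nat.exists_eq_add_of_le' hapos
  have hI := Imb hL ho
  have z1 : (b : ℤ) + 2 ≤ a' + 1 := by exact_mod_cast (by omega : b + 2 ≤ a' + 1)
  have z2 : (2 : ℤ) ≤ h := by exact_mod_cast hh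
  have z3 : (0 : ℤ) ≤ b := by positivity
  have z4 : (h₁ : ℤ) + 1 ≤ h := by exact_mod_cast n1'
  have z5 : (p : ℤ) + q + h₁ = a' + 1 := by exact_mod_cast hs₁
  have z6 : (q : ℤ) ≤ p := by exact_mod_cast hqp
  have z7 : (p : ℤ) ≤ b := by exact_mod_cast n2
  have z8 : (1 : ℤ) ≤ h₁ := by exact_mod_cast hg1
  have z9 : (0 : ℤ) ≤ q := by positivity
  push_cast at hu hc2
  -- positivity of the left side of (Imb)
  have hpos : 0 < ((a' : ℤ) - b) * (2 * h - 2) := mul_pos (by linarith) (by linarith)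
  rcases Nat.lt_or_ge 1 h₁ with hg2 | hg2
  · obtain ⟨c, rfl⟩ := Nat.exists_eq_add_of_le' hg1
    have hc : 1 ≤ c := by omega
    have z10 : (1 : ℤ) ≤ c := by exact_mod_cast hc
    push_cast at z4 z5 z8
    have hp : 1 ≤ p := by
      rcases Nat.eq_zero_or_pos p with h0 | h0
      · exfalso
        subst h0
        have hq0 : q = 0 := by omega
        subst hq0
        have hb := Bminus hL hc ho₁
        rw [show 0 + 0 + c = a' by omega] at hb
        have ka := K_nonneg hL a'
        push_cast at hb z5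
        have : 0 < (c : ℤ) * (n + 1 - 4 * (0 + 0 + c + 1) - (c + 1)) := by
          apply mul_pos (by linarith)
          linarith
        linarith
      · exact h0
    obtain ⟨p', rfl⟩ := Nat.exists_eq_add_of_le' hp
    have hcm := Cminus hL ho₁
    rw [show p' + q + (c + 1) = a' by omega] at hcm
    have hmono : KK n L p' ≤ KK n L b := K_mono hL (by omega) (by linarith)
    push_cast at hcm z5 z6 z7
    have hJ : 2 * (((a' : ℤ) + 1) - b - 1) * (h - 1) ≤ c * (a' + 1 + (c + 1)) := by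
      have t : (c : ℤ) * (2 * (q + (c + 1))) ≤ c * (a' + 1 + (c + 1)) := by
        apply mul_le_mul_of_nonneg_left _ (by linarith)
        linarith
      linarith
    have hd1 := D1avg hL hc ho₁
    push_cast at hd1
    rcases Nat.lt_or_ge c 2 with hc3 | hc3
    · -- h₁ = 2
      have : c = 1 := by omega
      subst this
      push_cast at *
      have e1 : 4 * ((p' : ℤ) + 1) * q ≤ (a' - 1) ^ 2 := by
        have := sq_nonneg ((p' : ℤ) + 1 - q)
        have e : (a' : ℤ) - 1 = p' + 1 + q := by linarith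
        rw [e]; linarith
      have e2 : 2 * n ≤ ((a' : ℤ) + 1) ^ 2 + 4 * (a' + 1) + 6 := by
        rw [z5] at hd1
        linarith
      have e4 : 2 * ((a' : ℤ) - b) * (h - 1) ≤ a' + 3 := by linarith
      have e5 : 4 * ((a' : ℤ) - b) ≤ a' + 3 := by
        have : 2 * ((a' : ℤ) - b) * 2 ≤ 2 * (a' - b) * (h - 1) := by
          apply mul_le_mul_of_nonneg_left _ (by linarith)
          linarith
        linarith
      have e3 : (32 : ℤ) ≤ a' + 1 := by
        by_contra hlt
        push Not at hlt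
        have h5 : (a' : ℤ) + 1 ≤ 31 := by linarith
        have h6 : ((a' : ℤ) + 1) * (a' + 1) ≤ 31 * (a' + 1) :=
          mul_le_mul_of_nonneg_right h5 (by linarith)
        linarith
      rcases le_or_gt (4 : ℤ) h with h4 | h4
      · have : 2 * ((a' : ℤ) - b) * 3 ≤ 2 * (a' - b) * (h - 1) := by
          apply mul_le_mul_of_nonneg_left _ (by linarith)
          linarith
        linarith
      · have : (h : ℤ) = 3 := by linarith
        rw [this] at e4 hc2
        linarith
    · -- h₁ ≥ 3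
      have hb1 : 1 ≤ b := by omega
      obtain ⟨b', rfl⟩ := Nat.exists_eq_add_of_le' hb1
      have hd2 := D2avg hL ho
      have kup := K_up hL a' (by linarith)
      have kmono : KK n L b' ≤ KK n L a' := K_mono hL (by omega) (by linarith)
      have ka := K_nonneg hL a'
      have z11 : (2 : ℤ) ≤ c := by exact_mod_cast hc3
      push_cast at *
      have d1' : 2 * (c : ℤ) * (n - 3 * (a' + 1)) ≤
          ((a' + 1) - (c + 1)) ^ 2 + 2 * (a' + 1) + 4 * c - 2 := by
        have e : (p' : ℤ) + 1 + q + (c + 1) = a' + 1 := by linarith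
        rw [e] at hd1
        have e1 : 4 * ((p' : ℤ) + 1) * q ≤ ((a' + 1) - (c + 1)) ^ 2 := by
          have := sq_nonneg ((p' : ℤ) + 1 - q)
          have e : ((a' : ℤ) + 1) - (c + 1) = p' + 1 + q := by linarith
          rw [e]; linarith
        linarith
      refine crude_alg0 (n : ℝ) ((a' : ℝ) + 1) ((b' : ℝ) + 1) ((h : ℝ) - 1) (c : ℝ)
        ((a' : ℝ) + 1 - ((b' : ℝ) + 1) - 1) (KK n L a' : ℝ) (KK n L b' : ℝ)
        ?_ ?_ rfl ?_ ?_ ?_ ?_ ?_ ?_ ?_ ?_ ?_ ?_ ?_ ?_
      · exact_mod_cast z11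
      · have : (c : ℝ) + 1 + 1 ≤ h := by exact_mod_cast z4
        linarith
      · have : (b' : ℝ) + 1 + 2 ≤ a' + 1 := by exact_mod_cast z1
        linarith
      · have e : ((a' : ℤ) + 1) - (c + 1) ≤ 2 * (b' + 1) := by linarith
        exact_mod_cast e
      · have e : 10 * (((a' : ℤ) + 1) + (b' + 1) + ((h - 1) + 1)) ≤ n + 10 := by linarith
        exact_mod_cast e
      · have e : 2 * (((a' : ℤ) + 1) - (b' + 1) - 1) * (h - 1) ≤ c * (a' + 1 + (c + 1)) := by linarith
        exact_mod_cast e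
      · exact_mod_cast d1'
      · have e : 4 * ((a' : ℤ) + 1) * (b' + 1) - KK n L a' - KK n L b' ≤
          2 * (((h : ℤ) - 1) + 1) * (n - 2 - 3 * (a' + 1 + (b' + 1) + ((h - 1) + 1))) := by
          linarith
        exact_mod_cast e
      · exact_mod_cast kup
      · exact_mod_cast kmono
      · exact_mod_cast ka
      · have e : (c : ℤ) + 1 ≤ a' + 1 := by linarith
        exact_mod_cast e
      · positivity
      · have e : 2 * ((a' : ℤ) + 1) + (h - 1) < 7 * ((a' : ℤ) + 1 - (b' + 1) - 1) + 6 := by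
          linarith
        exact_mod_cast e
  · -- h₁ = 1
    have : h₁ = 1 := by omega
    subst this
    have hz := one_label hL (a' + 1) (by push_cast; linarith) p q ho₁ hs₁ a' (by omega)
    rw [hz] at hI
    linarith

theorem crude_imb (hL : IsL n L) (_hn : 700 ≤ n) {h a b : ℕ} (ho : Opt n L h a b) (hh : 2 ≤ h)
    (hab : b ≤ a) (hu : 10 * ((a : ℤ) + b + h) ≤ n + 10) :
    a ≤ b + 1 ∨ 6 * ((a : ℤ) - b) ≤ a + b + h :=
  crude_imb0 hL ho hh hab hu

end Pool.Agent.Lib.MP_b072d9_co
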