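import Pool.Agent.Lib.MP_b072d9_co.NodeB

set_option autoImplicit false

namespace Pool.Agent.Lib.MP_b072d9_co

/-! Real algebra for the key of case I. -/

theorem L8_alg (a b h m K : ℝ) (a41 : 41 ≤ a) (h2 : 2 ≤ h) (hb : 19 * a ≤ 30 * b)
    (m7 : 7 * a ≤ m) (m9 : m + 3 ≤ 9 * a - 8) (hK2 : 49 * K ≤ 4 * a ^ 2)
    (D2 : 2 * a * b - K ≤ h * (m - 2 - a - 2 * b - 3 * h))
    (Im : 2 * (h - 1) * (a - 1 - b) ≤ K)
    (U : 12 * (h - 1) * (m + 3) ≤ 15 * (a - 1) ^ 2 + 2 * (m + 3) * (9 * a - 8 - (m + 3))) :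
    False := by
  have ha : 0 < a := by linarith
  have h0 : 0 < h := by linarith
  obtain ⟨M, hM⟩ : ∃ M, M = m + 3 := ⟨_, rfl⟩
  have hmM : m = M - 3 := by linarith
  subst hmM
  have e3 : M - 3 + 3 = M := by ring
  rw [e3] at U m9
  have hM0 : 0 < M := by linarith
  -- linear upper bound for `h`
  have s1 : 504 * (h - 1) ≤ 916 * a - 94 * M - 672 := by
    -- `a²/M` is below its chord on `[7a, 9a]`
    have t1 : 0 ≤ (M - 7 * a) * (9 * a - M) := mul_nonneg (by linarith) (by linarith)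
    have t2 : 15 * (a - 1) ^ 2 ≤ 15 * a ^ 2 := by nlinarith
    have t3 : 63 * a ^ 2 ≤ M * (16 * a - M) := by linarith
    have t4 : M * (504 * (h - 1)) ≤ M * (916 * a - 94 * M - 672) := by nlinarith
    exact le_of_mul_le_mul_left t4 hM0
  -- lower bound for `h`
  have s2 : 19 * a ≤ 100 * h := by
    by_contra hcon
    push Not at hcon
    have t1 : 19 * a * (a + h) ≤ 30 * b * (a + h) := mul_le_mul_of_nonneg_right hb (by linarith)
    have t2 : h * (M - 3) ≤ h * (9 * a) := mul_le_mul_of_nonneg_left (by linarith) h0.le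
    have t3 : 0 ≤ (19 * a - 100 * h) * (202 * a / 30 - 57 / 100 * a - 3 * h) := by
      apply mul_nonneg (by linarith)
      linarith
    nlinarith
  -- main inequality
  have s3 : (h - 1) * (90 / 49 * a ^ 2 - 2 * a - h * ((M - 3) - 3 * a - 3 * h)) ≤
      (a + 1) * K := by
    have t1 : 2 * (h - 1) * (a - b) ≤ K + 2 * (h - 1) := by linarith
    have t2 : (a + 1) * (2 * (h - 1) * (a - b)) ≤ (a + 1) * (K + 2 * (h - 1)) :=
      mul_le_mul_of_nonneg_left t1 (by linarith)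
    have t3 : 2 * a ^ 2 ≤ 2 * (a + h) * (a - b) + K + h * ((M - 3) - 2 - 3 * a - 3 * h) := by
      linarith
    have t4 : 2 * (a + h) * (a - b) = 2 * (a + 1) * (a - b) + 2 * (h - 1) * (a - b) := by ring
    have t5 : 2 * a ^ 2 ≤ 2 * (a + 1) * (a - b) + (K + 2 * (h - 1)) + K +
        h * ((M - 3) - 2 - 3 * a - 3 * h) := by linarith
    have t6 : (h - 1) * (2 * a ^ 2) ≤ (h - 1) * (2 * (a + 1) * (a - b) + (K + 2 * (h - 1)) + K +
        h * ((M - 3) - 2 - 3 * a - 3 * h)) := mul_le_mul_of_nonneg_left t5 (by linarith)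
    have t7 : (h - 1) * (98 * K) ≤ (h - 1) * (8 * a ^ 2) :=
      mul_le_mul_of_nonneg_left (by linarith) (by linarith)
    nlinarith
  have s4 : (a + 1) * (49 * K) ≤ (a + 1) * (4 * a ^ 2) :=
    mul_le_mul_of_nonneg_left hK2 (by linarith)
  have s5 : 94 * (h * (M - 3 - 3 * a - 3 * h)) ≤ h * (634 * a - 786 * h) := by
    have : h * (94 * (M - 3 - 3 * a - 3 * h)) ≤ h * (634 * a - 786 * h) := by
      apply mul_le_mul_of_nonneg_left _ h0.le
      linarith
    linarith
  have s6 : (h - 1) * (178 / 100 * a ^ 2 - h * (634 * a - 786 * h) / 94) ≤ 84 / 1000 * a ^ 3 := by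
    have t1 : 178 / 100 * a ^ 2 ≤ 90 / 49 * a ^ 2 - 2 * a := by nlinarith
    have t2 : (h - 1) * (178 / 100 * a ^ 2 - h * (634 * a - 786 * h) / 94) ≤
        (h - 1) * (90 / 49 * a ^ 2 - 2 * a - h * ((M - 3) - 3 * a - 3 * h)) := by
      apply mul_le_mul_of_nonneg_left _ (by linarith)
      linarith
    have t3 : (a + 1) * (4 * a ^ 2) ≤ 49 * (84 / 1000 * a ^ 3) := by
      have : 0 ≤ a ^ 2 * (a - 41) := mul_nonneg (sq_nonneg a) (by linarith)
      linarith
    linarith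
  have s7 : 42 / 100 * a ^ 2 ≤ 178 / 100 * a ^ 2 - h * (634 * a - 786 * h) / 94 := by
    nlinarith [sq_nonneg (634 * a - 1572 * h)]
  have s8 : h - 1 ≤ 1 / 5 * a := by
    by_contra hcon
    push Not at hcon
    have t1 : (1 / 5 * a) * (42 / 100 * a ^ 2) < (h - 1) * (178 / 100 * a ^ 2 -
        h * (634 * a - 786 * h) / 94) := by
      apply mul_lt_mul hcon s7 (by positivity) (by linarith)
    linarith
  have s9 : 68 / 100 * a ^ 2 ≤ 178 / 100 * a ^ 2 - h * (634 * a - 786 * h) / 94 := by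
    have : 0 ≤ (225 * a - 1000 * h) * (634 * a - 786 * h - 786 * 225 / 1000 * a) := by
      apply mul_nonneg <;> linarith
    nlinarith
  have s10 : (165 / 1000 * a) * (68 / 100 * a ^ 2) ≤ (h - 1) * (178 / 100 * a ^ 2 -
        h * (634 * a - 786 * h) / 94) := by
    apply mul_le_mul (by linarith) s9 (by positivity) (by linarith)
  have : 0 < a ^ 3 := by positivity
  linarith

end Pool.Agent.Lib.MP_b072d9_co
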