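import Pool.Agent.Lib.MP_b072d9_co.LNF
import Pool.Agent.Lib.MP_b072d9_co.LNFalg

set_option autoImplicit false

namespace Pool.Agent.Lib.MP_b072d9_co

variable {n : ℤ} {H : ℕ} {L : ℕ → ℤ}

/-- the larger child of a node in normal form, outside of the zero range -/
theorem NF.pack (hL : IsLH n H L) {h v b : ℕ} (hN : NF n H L h (v + 1) b) (hH : h + 1 ≤ H)
    (hh : 2 ≤ h) (h10 : 10 * ((v : ℤ) + 1) ≤ n) (h20 : 20 ≤ v + 1) :
    KK n L v = 0 ∨ (19 * (v + 1) ≤ 30 * b ∧ 5 * (v : ℤ) ^ 2 ≤ 4 * (h - 1) * (n - 3 * v) ∧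
      0 ≤ KK n L v ∧
      2 * ((v : ℤ) + 1) * b - KK n L v ≤ h * ((n - 3 * (v + 1)) - 2 - (v + 1) - 2 * b - 3 * h) ∧
      7 * (n - 3 * ((v : ℤ) + 1)) * KK n L v ≤ 4 * ((v : ℤ) + 1) ^ 3 ∧
      2 * ((h : ℤ) - 1) * ((v + 1) - b - 1) ≤ KK n L v) := by
  obtain ⟨c, p, q, hc, hs⟩ := hL.exists_opt (v + 1) (by omega)
  rcases node_pack hL hH hN.opt hh hN.le h10 hc hs with ⟨-, h2, -⟩ |
    ⟨c2, ch, ca, hK, hN', D1, D2, KU, Im⟩
  · left; exact h2
  · rcases NC hL hH hN.opt hh hN.le h10 with h1 | h1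
    · left; exact h1
    · right
      have nb := NB hL hH hN.opt hh hN.le (by push_cast; exact h10) hc hs
      have h10c : 10 * c ≤ v + 1 := by
        rcases Nat.lt_or_ge 2 c with c3 | c3
        · have := NB_c ((v : ℝ) + 1) (c : ℝ) ((n : ℝ) - 3 * (v + 1)) (by exact_mod_cast c3)
            (by exact_mod_cast ca) (by exact_mod_cast hN') (by exact_mod_cast D1)
          exact_mod_cast this
        · omega
      refine ⟨by omega, h1, hK, D2, KU, ?_⟩
      have im := ImbH hL hN.opt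
      have kb := K_nonnegH hL b
      linarith

/-- L8: the key of case I (`a ≤ H` for WTH) -/
theorem NF.key (hL : IsLH n H L) {h a b : ℕ} (hN : NF n H L h a b) (hH : h + 1 ≤ H) (haH : a ≤ H)
    (h3 : 3 * ((a : ℤ) + b + 2 * h) ≤ 2 * (n - 1)) (V w : ℕ) (hwV : w ≤ V) (hV : V + 1 ≤ a) :
    3 * (KK n L V - KK n L w) < (n - 1) + 6 * ((V : ℤ) - w) * (h - 1) := by
  obtain ⟨v, rfl⟩ : ∃ v, a = v + 1 := ⟨a - 1, by omega⟩
  have h1 := hN.opt.1.1
  have h1Z : (1 : ℤ) ≤ h := by exact_mod_cast h1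
  have hb0 : (0 : ℤ) ≤ b := by positivity
  have hv0 : (0 : ℤ) ≤ v := by positivity
  have hwVZ : (w : ℤ) ≤ V := by exact_mod_cast hwV
  have hVv : V ≤ v := by omega
  have hVvZ : (V : ℤ) ≤ v := by exact_mod_cast hVv
  have kw := K_nonnegH hL w
  push_cast at h3
  have hpos : 0 ≤ ((V : ℤ) - w) * (h - 1) := mul_nonneg (by linarith) (by linarith)
  have fin0 : KK n L V = 0 →
      3 * (KK n L V - KK n L w) < (n - 1) + 6 * ((V : ℤ) - w) * (h - 1) := by
    intro hz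
    rw [hz]
    linarith
  have ten := hN.ten hL hH (by push_cast; exact h3)
  rcases ten with hz | h10
  · -- zero range
    apply fin0
    apply K_eq_zeroH hL V
    push_cast at hz
    have : ((V : ℤ) + 3) ^ 2 ≤ (v + 3) ^ 2 := by
      apply pow_le_pow_left₀ (by positivity) (by linarith)
    linarith
  push_cast at h10
  have zerov : KK n L v = 0 → KK n L V = 0 := by
    intro hz
    apply le_antisymm _ (K_nonnegH hL V)
    rw [← hz]
    exact K_monoH hL hVv (by linarith)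
  rcases Nat.lt_or_ge 1 h with hh | hh
  swap
  · have he : h = 1 := by omega
    subst he
    obtain ⟨c, p, q, ho, hs⟩ := hL.exists_opt (v + 1) (by omega)
    obtain ⟨hch, -, -⟩ := hN.child hL ho hs
    have hc : c = 1 := by have := ho.1.1; omega
    subst hc
    have hK := one_K hL ho
    rw [show p + q = v by omega] at hK
    exact fin0 (zerov hK)
  -- `h ≥ 2`
  have hhZ : (2 : ℤ) ≤ h := by exact_mod_cast hh
  rcases NC hL hH hN.opt hh hN.le h10 with hK0 | hnc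
  · exact fin0 (zerov hK0)
  rcases Nat.eq_or_lt_of_le hwV with he | hlt
  · subst he
    linarith
  have hltZ : (w : ℤ) + 1 ≤ V := by exact_mod_cast hlt
  have hw0 : (0 : ℤ) ≤ w := by positivity
  -- first range
  rcases lt_or_ge (12 * ((v : ℤ) + 1) ^ 3) (7 * (n - 3 * (v + 1)) * (n - 1)) with hr | hr
  · have hm : 0 < n - 3 * ((v : ℤ) + 1) := by linarith
    have ku := K_upH hL v (by linarith)
    have kmono := K_monoH hL hVv (by linarith : 5 * (v : ℤ) ≤ n + 1)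
    have e1 : 7 * (n - 3 * ((v : ℤ) + 1)) * (3 * KK n L v) <
        7 * (n - 3 * ((v : ℤ) + 1)) * (n - 1) := by linarith
    have e2 : 3 * KK n L v < n - 1 := lt_of_mul_lt_mul_left e1 (by linarith)
    linarith
  -- WTH
  have wt := WTH hL V w hwV (by linarith) (by omega)
  have hm3 : (0 : ℝ) < (n : ℝ) - 3 * v := by
    have : (0 : ℤ) < n - 3 * v := by linarith
    exact_mod_cast this
  have hm3V : (0 : ℝ) < (n : ℝ) - 3 * V := by
    have : (0 : ℤ) < n - 3 * V := by linarith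
    exact_mod_cast this
  have hVr : (0 : ℝ) ≤ (V : ℝ) := by positivity
  have hVvR : (V : ℝ) ≤ v := by exact_mod_cast hVvZ
  have hsR : (1 : ℝ) ≤ (V : ℝ) - w := by
    have : (w : ℝ) + 1 ≤ V := by exact_mod_cast hltZ
    linarith
  have mono : 5 / 2 * (V : ℝ) ^ 2 / ((n : ℝ) - 3 * V) ≤ 5 / 2 * (v : ℝ) ^ 2 / ((n : ℝ) - 3 * v) := by
    apply div_le_div₀ (by positivity) _ hm3 (by linarith)
    have : (V : ℝ) ^ 2 ≤ (v : ℝ) ^ 2 := pow_le_pow_left₀ hVr hVvR 2
    linarith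
  obtain ⟨S, hS⟩ : ∃ S : ℝ, S = 5 / 2 * (v : ℝ) ^ 2 / ((n : ℝ) - 3 * v) := ⟨_, rfl⟩
  have hSm : 2 * S * ((n : ℝ) - 3 * v) = 5 * (v : ℝ) ^ 2 := by
    rw [hS, mul_assoc, div_mul_cancel₀ _ hm3.ne']
    ring
  rw [← hS] at mono
  have wt2 : (KK n L V : ℝ) - KK n L w ≤ S * ((V : ℝ) - w) + 4 * V := by
    have : 5 / 2 * (V : ℝ) ^ 2 / ((n : ℝ) - 3 * V) * ((V : ℝ) - w) ≤ S * ((V : ℝ) - w) :=
      mul_le_mul_of_nonneg_right mono (by linarith)
    linarith
  have hS1 : S ≤ 2 * ((h : ℝ) - 1) := by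
    have e1 : 5 * (v : ℝ) ^ 2 ≤ 4 * ((h : ℝ) - 1) * ((n : ℝ) - 3 * v) := by exact_mod_cast hnc
    have e2 : S * ((n : ℝ) - 3 * v) ≤ 2 * ((h : ℝ) - 1) * ((n : ℝ) - 3 * v) := by linarith
    exact le_of_mul_le_mul_right e2 hm3
  have goalR : 3 * ((KK n L V : ℝ) - KK n L w) < ((n : ℝ) - 1) + 6 * ((V : ℝ) - w) * (h - 1) := by
    rcases lt_or_ge (12 * (V : ℤ)) (n - 1) with h12 | h12
    · have h12R : 12 * (V : ℝ) < (n : ℝ) - 1 := by exact_mod_cast h12
      have : S * ((V : ℝ) - w) ≤ 2 * ((h : ℝ) - 1) * ((V : ℝ) - w) :=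
        mul_le_mul_of_nonneg_right hS1 (by linarith)
      linarith
    · -- the last range
      have hv41 : (41 : ℤ) ≤ v + 1 := by
        by_contra hcon
        push Not at hcon
        -- 7 (n - 3a)(n-1) ≤ 12 a³ with n ≥ 10 a
        have e1 : 7 * (7 * ((v : ℤ) + 1)) * (n - 1) ≤ 7 * (n - 3 * (v + 1)) * (n - 1) := by
          apply mul_le_mul_of_nonneg_right _ (by linarith)
          linarith
        have e2 : ((v : ℤ) + 1) * (49 * (n - 1)) ≤ (v + 1) * (12 * (v + 1) ^ 2) := by linarith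
        have e3 : 49 * (n - 1) ≤ 12 * ((v : ℤ) + 1) ^ 2 :=
          le_of_mul_le_mul_left e2 (by linarith)
        have e4 : 0 ≤ ((v : ℤ) + 1) * (40 - (v + 1)) := mul_nonneg (by linarith) (by linarith)
        linarith
      rcases hN.pack hL hH hh h10 (by omega) with hK0 | ⟨p1, -, p3, p4, p5, p6⟩
      · rw [zerov hK0]
        have e1 : (0 : ℝ) ≤ (KK n L w : ℝ) := by exact_mod_cast kw
        have e2 : (0 : ℝ) ≤ ((V : ℝ) - w) * (h - 1) := by exact_mod_cast hpos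
        have e3 : (0 : ℝ) < (n : ℝ) - 1 := by
          have : (0 : ℤ) < n - 1 := by linarith
          exact_mod_cast this
        push_cast
        linarith
      have key : 2 * (4 * (v : ℝ) - ((n : ℝ) - 1) / 3) * ((n : ℝ) - 3 * v) <
          4 * ((h : ℝ) - 1) * ((n : ℝ) - 3 * v) - 5 * (v : ℝ) ^ 2 := by
        by_contra hcon
        push Not at hcon
        refine L8_alg ((v : ℝ) + 1) (b : ℝ) (h : ℝ) ((n : ℝ) - 3 * (v + 1)) (KK n L v : ℝ)
          (by exact_mod_cast hv41) (by exact_mod_cast hhZ) (by exact_mod_cast p1) ?_ ?_ ?_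
          (by exact_mod_cast p4) ?_ ?_
        · have : 7 * ((v : ℤ) + 1) ≤ n - 3 * (v + 1) := by linarith
          exact_mod_cast this
        · have : (n - 3 * ((v : ℤ) + 1)) + 3 ≤ 9 * (v + 1) - 8 := by linarith
          exact_mod_cast this
        · apply K_le_sq ((v : ℝ) + 1) ((n : ℝ) - 3 * (v + 1)) _ (by positivity)
            (by exact_mod_cast p3) _ (by exact_mod_cast p5)
          have : 7 * ((v : ℤ) + 1) ≤ n - 3 * (v + 1) := by linarith
          exact_mod_cast this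
        · have : 2 * ((h : ℤ) - 1) * ((v + 1) - 1 - b) ≤ KK n L v := by linarith
          exact_mod_cast this
        · have e1 : (v : ℝ) + 1 - 1 = v := by ring
          have e2 : (n : ℝ) - 3 * (v + 1) + 3 = n - 3 * v := by ring
          rw [e1, e2]
          linarith
      have key2 : 4 * (v : ℝ) - ((n : ℝ) - 1) / 3 < 2 * ((h : ℝ) - 1) - S := by
        have e1 : (4 * (v : ℝ) - ((n : ℝ) - 1) / 3) * ((n : ℝ) - 3 * v) <
            (2 * ((h : ℝ) - 1) - S) * ((n : ℝ) - 3 * v) := by linarith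
        exact lt_of_mul_lt_mul_right e1 hm3.le
      have h12R : (n : ℝ) - 1 ≤ 12 * (V : ℝ) := by exact_mod_cast h12
      have e2 : 2 * ((h : ℝ) - 1) - S ≤ (2 * ((h : ℝ) - 1) - S) * ((V : ℝ) - w) := by
        have : 0 ≤ (2 * ((h : ℝ) - 1) - S) * ((V : ℝ) - w - 1) := by
          apply mul_nonneg <;> linarith
        linarith
      linarith
  exact_mod_cast goalR

end Pool.Agent.Lib.MP_b072d9_co
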