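import Pool.Agent.Lib.MP_b072d9_co.LBasic

set_option autoImplicit false

namespace Pool.Agent.Lib.MP_b072d9_co

variable {n : ℤ} {L : ℕ → ℤ}

theorem K_zero (hL : IsL n L) : KK n L 0 = 0 := by
  obtain ⟨h, a, b, ⟨h1, h2⟩, h3⟩ := hL.exists_opt 1 le_rfl
  have ha : a = 0 := by omega
  have hb : b = 0 := by omega
  have hh : h = 1 := by omega
  subst ha hb hh
  have h0 := hL.zero
  unfold cst at h2
  unfold KK
  simp only [Nat.zero_add] at h2 ⊢
  rw [h2, h0]
  push_cast
  ring

theorem K_nonneg (hL : IsL n L) (u : ℕ) : 0 ≤ KK n L u := by
  induction u using Nat.strong_induction_on with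
  | _ u ih =>
    rcases Nat.eq_zero_or_pos u with h0 | h0
    · subst h0; rw [K_zero hL]
    · obtain ⟨h, a, b, ho, hu⟩ := hL.exists_opt u h0
      have h1 := Cplus hL ho
      rw [hu] at h1
      have h2 := ih a (by have := ho.1; omega)
      have h3 : (1 : ℤ) ≤ h := by exact_mod_cast ho.1
      have h4 : 0 ≤ 2 * ((h : ℤ) - 1) * (b + h) := by
        apply mul_nonneg
        · linarith
        · positivity
      linarith

theorem K_mono_succ (hL : IsL n L) (u : ℕ) (hu : 5 * ((u : ℤ) + 1) ≤ n + 1) :
    KK n L u ≤ KK n L (u + 1) := by
  induction u using Nat.strong_induction_on with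
  | _ u ih =>
    obtain ⟨h, a, b, ho, hs⟩ := hL.exists_opt (u + 1) (by omega)
    -- a case with a positive part
    have key : ∀ a b : ℕ, Opt n L h a b → a + b + h = u + 1 → 1 ≤ a →
        KK n L u ≤ KK n L (u + 1) := by
      intro a b ho hs ha
      obtain ⟨a', rfl⟩ := Nat.exists_eq_add_of_le' ha
      have h1 := Cminus hL ho
      have h2 := Cplus hL ho
      have h3 : a' + b + h = u := by omega
      rw [h3] at h1
      rw [hs] at h2
      have h4 := ih a' (by have := ho.1; omega) (by
        have : (a' : ℤ) ≤ u := by exact_mod_cast (by omega : a' ≤ u)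
        linarith)
      linarith
    rcases Nat.eq_zero_or_pos a with ha | ha
    · rcases Nat.eq_zero_or_pos b with hb | hb
      · subst ha hb
        have hh : h = u + 1 := by omega
        subst hh
        rcases Nat.eq_zero_or_pos u with h0 | h0
        · subst h0
          rw [K_zero hL]
          exact K_nonneg hL 1
        · have h1 := Bminus hL h0 ho
          have h2 := K_nonneg hL (u + 1)
          simp only [Nat.zero_add] at h1
          have h5 : (0 : ℤ) ≤ u := by positivity
          have h3 : 0 ≤ (u : ℤ) * (n + 1 - 4 * ((0 : ℕ) + (0 : ℕ) + u + 1) - (u + 1)) := by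
            apply mul_nonneg h5
            push_cast
            linarith
          push_cast at h1 h3
          linarith
      · exact key b a ho.swap (by omega) hb
    · exact key a b ho hs ha

theorem K_mono (hL : IsL n L) {v w : ℕ} (hvw : v ≤ w) (hw : 5 * (w : ℤ) ≤ n + 1) :
    KK n L v ≤ KK n L w := by
  induction w, hvw using Nat.le_induction with
  | base => exact le_rfl
  | succ w hvw ih =>
    push_cast at hw
    exact (ih (by linarith)).trans (K_mono_succ hL w hw)

/-- the defect vanishes at the beginning -/
theorem K_eq_zero (hL : IsL n L) (v : ℕ) (hv : ((v : ℤ) + 3) ^ 2 ≤ 2 * n - 2) :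
    KK n L v = 0 := by
  induction v using Nat.strong_induction_on with
  | _ v ih =>
    rcases Nat.eq_zero_or_pos v with h0 | h0
    · subst h0; exact K_zero hL
    · apply le_antisymm _ (K_nonneg hL v)
      obtain ⟨h, a, b, ho, hs⟩ := hL.exists_opt (v + 1) (by omega)
      have key : ∀ a b : ℕ, Opt n L 1 a b → a + b + 1 = v + 1 → 1 ≤ a → KK n L v ≤ 0 := by
        intro a b ho hs ha
        obtain ⟨a', rfl⟩ := Nat.exists_eq_add_of_le' ha
        have h1 := Cminus hL ho
        have h3 : a' + b + 1 = v := by omega
        rw [h3] at h1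
        have h5 : (a' : ℤ) ≤ v := by exact_mod_cast (by omega : a' ≤ v)
        have h4 := ih a' (by omega) (by nlinarith)
        rw [h4] at h1
        push_cast at h1
        linarith
      rcases Nat.lt_or_ge 1 h with hh | hh
      · obtain ⟨k, rfl⟩ := Nat.exists_eq_add_of_le' (by omega : 1 ≤ h)
        have hk : 1 ≤ k := by omega
        have h1 := Bminus hL hk ho
        have h3 : a + b + k = v := by omega
        rw [h3] at h1
        refine h1.trans ?_
        have e1 : (a : ℤ) + b = v - k := by
          have : (a : ℤ) + b + k = v := by exact_mod_cast h3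
          linarith
        have e2 : (a : ℤ) + b + k + 1 = v + 1 := by linarith
        have hk' : (1 : ℤ) ≤ k := by exact_mod_cast hk
        have hkn : k ≤ v := by omega
        have hkv : (k : ℤ) ≤ v := by exact_mod_cast hkn
        have e3 : 4 * ((a : ℤ) * b) ≤ (v - k) ^ 2 := by
          rw [← e1]; nlinarith [sq_nonneg ((a : ℤ) - b)]
        rw [e2]
        -- it suffices that (v-k)^2 <= 2k(n-4-4v-k)
        have e4 : ((v : ℤ) - k) ^ 2 ≤ 2 * k * (n - 4 - 4 * v - k) := by
          have e5 : (v : ℤ) ^ 2 - 2 * v + 3 - 2 * k ≤ 2 * (n - 4 - 4 * v - k) := by linarith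
          have e6 : (k : ℤ) * ((v : ℤ) ^ 2 - 2 * v + 3 - 2 * k) ≤ k * (2 * (n - 4 - 4 * v - k)) :=
            mul_le_mul_of_nonneg_left e5 (by linarith)
          rcases le_or_gt 3 v with hv3 | hv3
          · have hv3' : (3 : ℤ) ≤ v := by exact_mod_cast hv3
            have e7 : 0 ≤ ((k : ℤ) - 1) * ((v : ℤ) ^ 2 - 3 * k) := by
              apply mul_nonneg (by linarith)
              have := mul_le_mul_of_nonneg_right hv3' (by linarith : (0 : ℤ) ≤ v)
              linarith
            linarith
          · interval_cases v
            · interval_cases k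
              push_cast at hv ⊢
              norm_num at hv ⊢
              linarith
            · interval_cases k
              · push_cast at hv ⊢
                norm_num at hv ⊢
                linarith
              · push_cast at hv ⊢
                norm_num at hv ⊢
                omega
        linarith
      · have hh1 : h = 1 := by have := ho.1; omega
        subst hh1
        rcases Nat.eq_zero_or_pos a with ha | ha
        · rcases Nat.eq_zero_or_pos b with hb | hb
          · omega
          · exact key b a ho.swap (by omega) hb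
        · exact key a b ho hs ha

/-- cubic upper bound for the defect -/
theorem K_up (hL : IsL n L) (v : ℕ) (hv : 5 * ((v : ℤ) + 1) ≤ n + 1) :
    7 * (n - 3 * (v + 1)) * KK n L v ≤ 4 * ((v : ℤ) + 1) ^ 3 := by
  induction v using Nat.strong_induction_on with
  | _ v ih =>
    obtain ⟨h, a, b, ho, hs⟩ := hL.exists_opt (v + 1) (by omega)
    have hX := K_nonneg hL v
    have hv0 : (0 : ℤ) ≤ v := by positivity
    rcases Nat.lt_or_ge 1 h with hh | hh
    · obtain ⟨k, rfl⟩ := Nat.exists_eq_add_of_le' (by omega : 1 ≤ h)
      have hk : 1 ≤ k := by omega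
      have h1 := Bminus hL hk ho
      have h3 : a + b + k = v := by omega
      rw [h3] at h1
      have hk' : (1 : ℤ) ≤ k := by exact_mod_cast hk
      have e1 : (a : ℤ) + b + k = v := by exact_mod_cast h3
      have ha0 : (0 : ℤ) ≤ a := by positivity
      have hb0 : (0 : ℤ) ≤ b := by positivity
      rcases Nat.eq_zero_or_pos (a * b) with hab | hab
      · have hab' : (a : ℤ) * b = 0 := by exact_mod_cast hab
        have h5 : KK n L v ≤ 0 := by
          refine h1.trans ?_
          have : 0 ≤ (k : ℤ) * (n + 1 - 4 * ((a : ℤ) + b + k + 1) - (k + 1)) := by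
            apply mul_nonneg (by linarith)
            linarith
          have e : 2 * (a : ℤ) * b = 0 := by rw [mul_assoc, hab']; ring
          linarith
        have h6 : KK n L v = 0 := le_antisymm h5 hX
        rw [h6]
        have : 0 ≤ 4 * ((v : ℤ) + 1) ^ 3 := by positivity
        linarith
      · have ha : 1 ≤ a := Nat.pos_of_ne_zero (by rintro rfl; simp at hab)
        have hb : 1 ≤ b := Nat.pos_of_ne_zero (by rintro rfl; simp at hab)
        obtain ⟨a', rfl⟩ := Nat.exists_eq_add_of_le' ha
        obtain ⟨b', rfl⟩ := Nat.exists_eq_add_of_le' hb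
        have c1 := Cminus hL ho
        have c2 := Cminus hL ho.swap
        rw [show a' + (b' + 1) + (k + 1) = v by omega] at c1
        rw [show b' + (a' + 1) + (k + 1) = v by omega] at c2
        have i1 := ih a' (by omega) (by push_cast at e1; linarith)
        have i2 := ih b' (by omega) (by push_cast at e1; linarith)
        have k1 := K_nonneg hL a'
        have k2 := K_nonneg hL b'
        push_cast at *
        set X := KK n L v
        set KA := KK n L a'
        set KB := KK n L b'
        set A : ℤ := (a' : ℤ) + 1 with hA
        set B : ℤ := (b' : ℤ) + 1 with hB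
        set U : ℤ := (v : ℤ) + 1 with hU
        set H : ℤ := (k : ℤ) + 1 with hH
        have hsum : A + B + H = U := by linarith
        set Q : ℤ := n + 1 - 4 * U - H with hQ
        have hQ0 : 0 ≤ Q := by rw [hQ]; linarith
        -- combination
        have f1 : X ≤ 2 * A * B - (H - 1) * Q := by
          have : (k : ℤ) * (n + 1 - 4 * (A + B + k + 1) - (k + 1)) = (H - 1) * Q := by
            rw [hQ, ← hsum, hH]; ring
          linarith
        have f2 : X ≤ KA + 2 * (H - 1) * (B + H) := by
          rw [hH]; linarith
        have f3 : X ≤ KB + 2 * (H - 1) * (A + H) := by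
          rw [hH]; linarith
        have hUH : 0 ≤ U + H := by linarith
        have g1 : (U + H) * X ≤ (U + H) * (2 * A * B - (H - 1) * Q) :=
          mul_le_mul_of_nonneg_left f1 hUH
        have g2 : Q * (2 * X) ≤ Q * (KA + KB + 2 * (H - 1) * (U + H)) := by
          apply mul_le_mul_of_nonneg_left _ hQ0
          rw [← hsum]; linarith
        have g3 : 2 * ((n + 1 - 3 * U) * X) ≤ 4 * A * B * (U + H) + Q * (KA + KB) := by
          have : 2 * ((n + 1 - 3 * U) * X) = 2 * ((U + H) * X) + Q * (2 * X) := by
            rw [hQ]; ring
          rw [this]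
          linarith
        have j1 : 7 * (Q * KA) ≤ 4 * A ^ 3 := by
          have : Q * KA ≤ (n - 3 * A) * KA := by
            apply mul_le_mul_of_nonneg_right _ k1
            rw [hQ]; linarith
          linarith
        have j2 : 7 * (Q * KB) ≤ 4 * B ^ 3 := by
          have : Q * KB ≤ (n - 3 * B) * KB := by
            apply mul_le_mul_of_nonneg_right _ k2
            rw [hQ]; linarith
          linarith
        have g4 : 14 * ((n + 1 - 3 * U) * X) ≤ 28 * A * B * (U + H) + 4 * (A ^ 3 + B ^ 3) := by
          linarith
        have g5 : 14 * A * B * (U + H) + 2 * (A ^ 3 + B ^ 3) ≤ 4 * U ^ 3 := by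
          set s := A + B with hs'
          have hs0 : 0 ≤ s := by linarith
          have hsU : s ≤ U := by linarith
          have hP : 4 * (A * B) ≤ s ^ 2 := by rw [hs']; nlinarith [sq_nonneg (A - B)]
          have hHs : H = U - s := by linarith
          have e5 : 14 * A * B * (U + H) + 2 * (A ^ 3 + B ^ 3) =
              (A * B) * (28 * U - 20 * s) + 2 * s ^ 3 := by
            rw [hHs, hs']; ring
          rw [e5]
          have e6 : (A * B) * (28 * U - 20 * s) * 4 ≤ s ^ 2 * (28 * U - 20 * s) := by
            have : 0 ≤ 28 * U - 20 * s := by linarith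
            have := mul_le_mul_of_nonneg_right hP this
            linarith
          have e7 : 0 ≤ (U - s) * (4 * U ^ 2 + 4 * U * s - 3 * s ^ 2) := by
            apply mul_nonneg (by linarith)
            have t1 := mul_nonneg hs0 (by linarith : 0 ≤ 4 * U - 3 * s)
            have t2 := sq_nonneg U
            linarith
          linarith
        have g6 : 7 * (n - 3 * U) * X ≤ 7 * ((n + 1 - 3 * U) * X) := by linarith
        linarith
    · have hh1 : h = 1 := by have := ho.1; omega
      subst hh1
      have key : ∀ a b : ℕ, Opt n L 1 a b → a + b + 1 = v + 1 → 1 ≤ a →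
          7 * (n - 3 * (v + 1)) * KK n L v ≤ 4 * ((v : ℤ) + 1) ^ 3 := by
        intro a b ho hs ha
        obtain ⟨a', rfl⟩ := Nat.exists_eq_add_of_le' ha
        have h1 := Cminus hL ho
        have h3 : a' + b + 1 = v := by omega
        rw [h3] at h1
        push_cast at h1
        have h5 : (a' : ℤ) + 1 ≤ v := by exact_mod_cast (by omega : a' + 1 ≤ v)
        have h4 := ih a' (by omega) (by linarith)
        have k1 := K_nonneg hL a'
        have ha0 : (0 : ℤ) ≤ a' := by positivity
        have s1 : 7 * (n - 3 * (v + 1)) * KK n L v ≤ 7 * (n - 3 * (v + 1)) * KK n L a' := by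
          apply mul_le_mul_of_nonneg_left _ (by linarith)
          linarith
        have s2 : 7 * (n - 3 * ((v : ℤ) + 1)) * KK n L a' ≤ 7 * (n - 3 * ((a' : ℤ) + 1)) * KK n L a' := by
          apply mul_le_mul_of_nonneg_right _ k1
          linarith
        have s3 : ((a' : ℤ) + 1) ^ 3 ≤ ((v : ℤ) + 1) ^ 3 := by
          apply pow_le_pow_left₀ (by linarith) (by linarith)
        linarith
      rcases Nat.eq_zero_or_pos a with ha | ha
      · rcases Nat.eq_zero_or_pos b with hb | hb
        · have : v = 0 := by omega
          subst this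
          rw [K_zero hL]
          push_cast
          norm_num
        · exact key b a ho.swap (by omega) hb
      · exact key a b ho hs ha

end Pool.Agent.Lib.MP_b072d9_co
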