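import Pool.Agent.Lib.MP_b072d9_co.NodeB

set_option autoImplicit false

namespace Pool.Agent.Lib.MP_b072d9_co

/-! Real algebra for the slope inequality. -/

/-- `h` is at least twice the label of the child (real form: `h ≤ 2c - 1` is impossible) -/
theorem NC_h (a b h c N K : ℝ) (c3 : 3 ≤ c) (ch : c + 1 ≤ h) (ca : c ≤ a) (hb : 0 ≤ b)
    (hK : 0 ≤ K) (hN : 7 * a ≤ N)
    (D1 : 2 * (c - 1) * N ≤ (a - c) ^ 2 + 2 * a + 4 * c - 6)
    (D2 : 2 * a * b - K ≤ h * (N - 2 - a - 2 * b - 3 * h))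
    (KU : 7 * N * K ≤ 4 * a ^ 3)
    (NB : 2 * a - c ≤ 3 * b) : 2 * c - 1 < h := by
  by_contra hcon
  push Not at hcon
  have ha : 0 < a := by linarith
  have hc10 := NB_c a c N c3 ca hN D1
  have hK2 := K_le_sq a N K ha hK hN KU
  have hh : 2 * h ≤ 5 * (c - 1) := by linarith
  have hD : 0 ≤ (a - c) ^ 2 + 2 * a + 4 * c - 6 := by
    have := sq_nonneg (a - c)
    linarith
  have s1 : 2 * (c - 1) * (2 * a * b - K + h * (2 + a + 2 * b + 3 * h)) ≤
      h * ((a - c) ^ 2 + 2 * a + 4 * c - 6) := by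
    have e1 : 2 * (c - 1) * (2 * a * b - K) ≤
        2 * (c - 1) * (h * (N - 2 - a - 2 * b - 3 * h)) :=
      mul_le_mul_of_nonneg_left D2 (by linarith)
    have e2 : h * (2 * (c - 1) * N) ≤ h * ((a - c) ^ 2 + 2 * a + 4 * c - 6) :=
      mul_le_mul_of_nonneg_left D1 (by linarith)
    linarith
  have s2 : 2 * h * ((a - c) ^ 2 + 2 * a + 4 * c - 6) ≤
      5 * (c - 1) * ((a - c) ^ 2 + 2 * a + 4 * c - 6) := mul_le_mul_of_nonneg_right hh hD
  have s3 : 4 * (2 * a * b - K + h * (2 + a + 2 * b + 3 * h)) ≤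
      5 * ((a - c) ^ 2 + 2 * a + 4 * c - 6) := by
    have e1 : (c - 1) * (4 * (2 * a * b - K + h * (2 + a + 2 * b + 3 * h))) ≤
        (c - 1) * (5 * ((a - c) ^ 2 + 2 * a + 4 * c - 6)) := by linarith
    exact le_of_mul_le_mul_left e1 (by linarith)
  have s4 : 4 * (2 + a + 2 * b + 3 * 4) ≤ h * (2 + a + 2 * b + 3 * h) := by
    apply mul_le_mul (by linarith) (by linarith) (by linarith) (by linarith)
  have s5 : a * (2 * a - c) ≤ a * (3 * b) := mul_le_mul_of_nonneg_left NB ha.le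
  have s6 : (a - c) ^ 2 ≤ a ^ 2 - 2 * a * c + a * c := by nlinarith
  nlinarith

theorem NC_alg3 (a b h c N K : ℝ) (c3 : 3 ≤ c) (ch : c + 1 ≤ h) (ca : c ≤ a) (hb : 0 ≤ b)
    (hba : b ≤ a) (hh : 2 * c ≤ h) (hK : 0 ≤ K) (hN : 7 * a ≤ N)
    (D1 : 2 * (c - 1) * N ≤ (a - c) ^ 2 + 2 * a + 4 * c - 6)
    (D2 : 2 * a * b - K ≤ h * (N - 2 - a - 2 * b - 3 * h))
    (KU : 7 * N * K ≤ 4 * a ^ 3)
    (Im : 2 * (h - 1) * (a - b - 1) ≤ (c - 1) * (a + c)) :
    5 * (a - 1) ^ 2 ≤ 4 * (h - 1) * (N + 3) := by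
  have ha : 0 < a := by linarith
  have hK2 := K_le_sq a N K ha hK hN KU
  have h0 : 0 < h := by linarith
  have s1 : (h - 1) * (2 * a * b - K + h * (2 + a + 2 * b + 3 * h)) ≤ h * ((h - 1) * N) := by
    have e1 : (h - 1) * (2 * a * b - K) ≤ (h - 1) * (h * (N - 2 - a - 2 * b - 3 * h)) :=
      mul_le_mul_of_nonneg_left D2 (by linarith)
    linarith
  have s2 : a * (2 * (h - 1) * (a - b - 1)) ≤ a * ((c - 1) * (a + c)) :=
    mul_le_mul_of_nonneg_left Im ha.le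
  have s3 : (h - 1) * (49 * K) ≤ (h - 1) * (4 * a ^ 2) :=
    mul_le_mul_of_nonneg_left hK2 (by linarith)
  have s4 : 0 ≤ (h - 1) * (h * (2 * b)) := by
    apply mul_nonneg (by linarith)
    apply mul_nonneg h0.le (by linarith)
  -- it suffices to compare after multiplication by `h`
  have s5 : h * (5 * (a - 1) ^ 2) ≤ h * (4 * (h - 1) * (N + 3)) := by
    have t1 : 0 ≤ a ^ 2 * (2 * h / 3 - 4) := by
      apply mul_nonneg (sq_nonneg a)
      linarith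
    have t2 : 0 ≤ a ^ 2 * (h - 2 * c) := mul_nonneg (sq_nonneg a) (by linarith)
    have t3 : 0 ≤ a * ((h - c) * (h + c - 1)) := by
      apply mul_nonneg ha.le
      apply mul_nonneg <;> linarith
    have t4 : 0 ≤ (h - 1) * h * (5 + 3 * h) := by
      apply mul_nonneg _ (by linarith)
      apply mul_nonneg <;> linarith
    have t5 : 0 ≤ a * h := by positivity
    have t6 : 0 ≤ h * (h - 6) := mul_nonneg h0.le (by linarith)
    nlinarith
  exact le_of_mul_le_mul_left s5 h0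

theorem NC_alg2 (a b h N K : ℝ) (a2 : 2 ≤ a) (hb : 0 ≤ b)
    (hh : 5 ≤ h) (hK : 0 ≤ K) (hN : 7 * a ≤ N)
    (D2 : 2 * a * b - K ≤ h * (N - 2 - a - 2 * b - 3 * h))
    (KU : 7 * N * K ≤ 4 * a ^ 3)
    (Im : 2 * (h - 1) * (a - b - 1) ≤ a + 2) :
    5 * (a - 1) ^ 2 ≤ 4 * (h - 1) * (N + 3) := by
  have ha : 0 < a := by linarith
  have hK2 := K_le_sq a N K ha hK hN KU
  have h0 : 0 < h := by linarith
  have s1 : (h - 1) * (2 * a * b - K + h * (2 + a + 2 * b + 3 * h)) ≤ h * ((h - 1) * N) := by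
    have e1 : (h - 1) * (2 * a * b - K) ≤ (h - 1) * (h * (N - 2 - a - 2 * b - 3 * h)) :=
      mul_le_mul_of_nonneg_left D2 (by linarith)
    linarith
  have s2 : a * (2 * (h - 1) * (a - b - 1)) ≤ a * (a + 2) :=
    mul_le_mul_of_nonneg_left Im ha.le
  have s3 : (h - 1) * (49 * K) ≤ (h - 1) * (4 * a ^ 2) :=
    mul_le_mul_of_nonneg_left hK2 (by linarith)
  have s4 : 0 ≤ (h - 1) * (h * (2 * b)) := by
    apply mul_nonneg (by linarith)
    apply mul_nonneg h0.le (by linarith)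
  have s5 : h * (5 * (a - 1) ^ 2) ≤ h * (4 * (h - 1) * (N + 3)) := by
    have t1 : 0 ≤ a ^ 2 * (h - 5) := mul_nonneg (sq_nonneg a) (by linarith)
    have t3 : 0 ≤ a * (h * (h - 5)) := by
      apply mul_nonneg ha.le
      apply mul_nonneg <;> linarith
    have t4 : 0 ≤ (h - 1) * h * (5 + 3 * h) := by
      apply mul_nonneg _ (by linarith)
      apply mul_nonneg <;> linarith
    have t5 : 0 ≤ a * h := by positivity
    have t6 : 0 ≤ h * (h - 5) := mul_nonneg h0.le (by linarith)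
    have t7 : 0 ≤ a ^ 2 := sq_nonneg a
    nlinarith
  exact le_of_mul_le_mul_left s5 h0

theorem NC_alg24 (a b N K : ℝ) (a2 : 2 ≤ a) (hb : 0 ≤ b) (hK : 0 ≤ K) (hN : 7 * a ≤ N)
    (D2 : 2 * a * b - K ≤ 4 * (N - 2 - a - 2 * b - 12))
    (KU : 7 * N * K ≤ 4 * a ^ 3)
    (Im : 6 * (a - b - 1) ≤ a + 2) :
    5 * (a - 1) ^ 2 ≤ 12 * (N + 3) := by
  have ha : 0 < a := by linarith
  have hK2 := K_le_sq a N K ha hK hN KU
  have s1 : 5 * a ^ 2 + 24 * a - 3 * K + 136 ≤ 12 * N := by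
    have e1 : a * (6 * (a - b - 1)) ≤ a * (a + 2) := mul_le_mul_of_nonneg_left Im ha.le
    linarith
  have s2 : 39 * a ^ 2 ≤ 100 * N := by linarith
  have s3 : K ≤ 2 * a := by
    have e1 : 39 * a ^ 2 * (7 * K) ≤ 100 * N * (7 * K) :=
      mul_le_mul_of_nonneg_right s2 (by linarith)
    have e2 : a ^ 2 * (273 * K) ≤ a ^ 2 * (400 * a) := by linarith
    have e3 := le_of_mul_le_mul_left e2 (by positivity)
    linarith
  linarith

theorem NC_alg23 (a b N K : ℝ) (a2 : 2 ≤ a) (hb : 0 ≤ b) (hK : 0 ≤ K) (hN : 7 * a ≤ N)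
    (D1 : 2 * N ≤ (a - 2) ^ 2 + 2 * a + 2)
    (D2 : 2 * a * b - K ≤ 3 * (N - 2 - a - 2 * b - 9))
    (KU : 7 * N * K ≤ 4 * a ^ 3)
    (Im : 4 * (a - b - 1) ≤ a + 2) : False := by
  have ha : 0 < a := by linarith
  have hK2 := K_le_sq a N K ha hK hN KU
  have s1 : 3 * a ^ 2 / 2 + 9 / 2 * a + 24 - K ≤ 3 * N := by
    have e1 : a * (4 * (a - b - 1)) ≤ a * (a + 2) := mul_le_mul_of_nonneg_left Im ha.le
    linarith
  have s2 : 47 * a ^ 2 ≤ 100 * N := by linarith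
  have s3 : K ≤ 2 * a := by
    have e1 : 47 * a ^ 2 * (7 * K) ≤ 100 * N * (7 * K) :=
      mul_le_mul_of_nonneg_right s2 (by linarith)
    have e2 : a ^ 2 * (329 * K) ≤ a ^ 2 * (400 * a) := by linarith
    have e3 := le_of_mul_le_mul_left e2 (by positivity)
    linarith
  linarith

end Pool.Agent.Lib.MP_b072d9_co
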