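import Pool.Agent.Lib.MP_b072d9_co.NodeL
import Pool.Agent.Lib.MP_b072d9_co.NodeC

set_option autoImplicit false

namespace Pool.Agent.Lib.MP_b072d9_co

/-! Imbalance and slope of nodes whose larger child is at most `n / 10`. -/

variable {n : ℤ} {H : ℕ} {L : ℕ → ℤ}

/-- facts about the larger child, in one package (children of the child ordered) -/
theorem node_pack (hL : IsLH n H L) {h v b c p q : ℕ} (hH : h + 1 ≤ H)
    (ho : OptH n H L h (v + 1) b) (hh : 2 ≤ h) (hab : b ≤ v + 1) (h10 : 10 * ((v : ℤ) + 1) ≤ n)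
    (hc : OptH n H L c p q) (hs : p + q + c = v + 1) :
    (c = 1 ∧ KK n L v = 0 ∧ v ≤ b) ∨
    (2 ≤ c ∧ c + 1 ≤ h ∧ c ≤ v + 1 ∧ 0 ≤ KK n L v ∧
      7 * ((v : ℤ) + 1) ≤ n - 3 * (v + 1) ∧
      2 * ((c : ℤ) - 1) * (n - 3 * (v + 1)) ≤ (((v : ℤ) + 1) - c) ^ 2 + 2 * (v + 1) + 4 * c - 6 ∧
      2 * ((v : ℤ) + 1) * b - KK n L v ≤ h * ((n - 3 * (v + 1)) - 2 - (v + 1) - 2 * b - 3 * h) ∧
      7 * (n - 3 * ((v : ℤ) + 1)) * KK n L v ≤ 4 * ((v : ℤ) + 1) ^ 3 ∧
      2 * ((h : ℤ) - 1) * ((v + 1) - b - 1) ≤ ((c : ℤ) - 1) * ((v + 1) + c)) := by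
  wlog hqp : q ≤ p generalizing p q
  · exact this hc.swap (by omega) (by omega)
  obtain ⟨k1, k2, k3⟩ := node_child hL hH ho hh hc hs
  have hv0 : (0 : ℤ) ≤ v := by positivity
  have hb0 : (0 : ℤ) ≤ b := by positivity
  have hq0 : (0 : ℤ) ≤ q := by positivity
  have habZ : (b : ℤ) ≤ v + 1 := by exact_mod_cast hab
  have hqpZ : (q : ℤ) ≤ p := by exact_mod_cast hqp
  have hsZ : (p : ℤ) + q + c = v + 1 := by exact_mod_cast hs
  have hhZ : (2 : ℤ) ≤ h := by exact_mod_cast hh
  have im := node_imb hL hH ho hh hc hs (by push_cast; linarith) (by linarith)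
  have c1 := hc.1.1
  have c1Z : (1 : ℤ) ≤ c := by exact_mod_cast c1
  push_cast at im
  rcases Nat.lt_or_ge 1 c with hc2 | hc2
  · right
    have hcv : c ≤ v + 1 := by omega
    refine ⟨hc2, k1, hcv, K_nonnegH hL v, by linarith, ?_, ?_, ?_, ?_⟩
    · have d1 := node_D1 hL hc hs hc2
      push_cast at d1
      linarith
    · have d2 := D2H hL hH ho
      push_cast at d2
      linarith
    · have kup := K_upH hL v (by linarith)
      linarith
    · have e : ((c : ℤ) - 1) * (2 * (q + c)) ≤ (c - 1) * ((v + 1) + c) := by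
        apply mul_le_mul_of_nonneg_left _ (by linarith)
        linarith
      linarith
  · left
    have hc1 : c = 1 := by omega
    subst hc1
    refine ⟨rfl, one_labelH hL (v + 1) (by push_cast; linarith) p q hc (by omega) v (by omega), ?_⟩
    by_contra hlt
    push Not at hlt
    have hltZ : (b : ℤ) + 1 ≤ v := by exact_mod_cast hlt
    have e : 0 < ((h : ℤ) - 1) * (v - b) := mul_pos (by linarith) (by linarith)
    push_cast at im
    linarith

/-- imbalance -/
theorem NB (hL : IsLH n H L) {h a b c p q : ℕ} (hH : h + 1 ≤ H)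
    (ho : OptH n H L h a b) (hh : 2 ≤ h) (hab : b ≤ a) (h10 : 10 * (a : ℤ) ≤ n)
    (hc : OptH n H L c p q) (hs : p + q + c = a) : a ≤ b + 1 ∨ 3 * a ≤ 3 * b + a + c := by
  obtain ⟨v, rfl⟩ : ∃ v, a = v + 1 := ⟨a - 1, by have := hc.1.1; omega⟩
  push_cast at h10
  rcases node_pack hL hH ho hh hab h10 hc hs with ⟨-, -, h3⟩ |
    ⟨c2, ch, ca, hK, hN, D1, D2, KU, Im⟩
  · left; omega
  · right
    rcases Nat.lt_or_ge 2 c with c3 | c3
    · have key := NB_alg ((v : ℝ) + 1) (b : ℝ) (h : ℝ) (c : ℝ) ((n : ℝ) - 3 * (v + 1))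
        (KK n L v : ℝ) (by exact_mod_cast c3) (by exact_mod_cast ch) (by exact_mod_cast ca)
        (by positivity) (by exact_mod_cast hK) (by exact_mod_cast hN) (by exact_mod_cast D1)
        (by exact_mod_cast D2) (by exact_mod_cast KU) (by exact_mod_cast Im)
      have key2 : 3 * ((v : ℝ) + 1) ≤ 3 * b + ((v : ℝ) + 1) + c := by linarith
      exact_mod_cast key2
    · have hc2 : c = 2 := by omega
      subst hc2
      have chZ : (3 : ℤ) ≤ h := by exact_mod_cast ch
      push_cast at D1 Im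
      have hv : (9 : ℤ) ≤ v := by
        by_contra hlt
        push Not at hlt
        have hv0 : (0 : ℤ) ≤ v := by positivity
        nlinarith
      by_contra hcon
      push Not at hcon
      have hconZ : (3 * (b : ℤ) + (v + 1) + 2) < 3 * (v + 1) := by exact_mod_cast hcon
      have e1 : 4 * ((v : ℤ) - b) ≤ v + 3 := by
        have : 0 ≤ ((h : ℤ) - 3) * (v - b) := by
          apply mul_nonneg <;> linarith
        linarith
      linarith

/-- slope -/
theorem NC (hL : IsLH n H L) {h v b : ℕ} (hH : h + 1 ≤ H)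
    (ho : OptH n H L h (v + 1) b) (hh : 2 ≤ h) (hab : b ≤ v + 1) (h10 : 10 * ((v : ℤ) + 1) ≤ n) :
    KK n L v = 0 ∨ 5 * (v : ℤ) ^ 2 ≤ 4 * (h - 1) * (n - 3 * v) := by
  obtain ⟨c, p, q, hc, hs⟩ := hL.exists_opt (v + 1) (by omega)
  rcases node_pack hL hH ho hh hab h10 hc hs with ⟨-, h2, -⟩ |
    ⟨c2, ch, ca, hK, hN, D1, D2, KU, Im⟩
  · left; exact h2
  · right
    have goal : 5 * (((v : ℝ) + 1) - 1) ^ 2 ≤ 4 * ((h : ℝ) - 1) * (((n : ℝ) - 3 * (v + 1)) + 3) := by
      rcases Nat.lt_or_ge 2 c with c3 | c3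
      · have nb := NB hL hH ho hh hab (by push_cast; exact h10) hc hs
        have nb' : 2 * (v + 1) ≤ 3 * b + c := by omega
        have h2c : 2 * c ≤ h := by
          have := NC_h ((v : ℝ) + 1) (b : ℝ) (h : ℝ) (c : ℝ) ((n : ℝ) - 3 * (v + 1))
            (KK n L v : ℝ) (by exact_mod_cast c3) (by exact_mod_cast ch) (by exact_mod_cast ca)
            (by positivity) (by exact_mod_cast hK) (by exact_mod_cast hN) (by exact_mod_cast D1)
            (by exact_mod_cast D2) (by exact_mod_cast KU)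
            (by
              have : 2 * ((v : ℝ) + 1) ≤ 3 * b + c := by exact_mod_cast nb'
              linarith)
          have e : (2 * (c : ℝ)) < h + 1 := by linarith
          have e' : 2 * c < h + 1 := by exact_mod_cast e
          omega
        exact NC_alg3 ((v : ℝ) + 1) (b : ℝ) (h : ℝ) (c : ℝ) ((n : ℝ) - 3 * (v + 1))
          (KK n L v : ℝ) (by exact_mod_cast c3) (by exact_mod_cast ch) (by exact_mod_cast ca)
          (by positivity) (by exact_mod_cast hab) (by exact_mod_cast h2c)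
          (by exact_mod_cast hK) (by exact_mod_cast hN) (by exact_mod_cast D1)
          (by exact_mod_cast D2) (by exact_mod_cast KU) (by exact_mod_cast Im)
      · have hc2 : c = 2 := by omega
        subst hc2
        push_cast at D1 Im
        have a2 : (2 : ℝ) ≤ (v : ℝ) + 1 := by exact_mod_cast ca
        have D1' : 2 * ((n : ℝ) - 3 * (v + 1)) ≤ (((v : ℝ) + 1) - 2) ^ 2 + 2 * ((v : ℝ) + 1) + 2 := by
          have e : 2 * (n - 3 * ((v : ℤ) + 1)) ≤ (((v : ℤ) + 1) - 2) ^ 2 + 2 * ((v : ℤ) + 1) + 2 := by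
            linarith
          exact_mod_cast e
        have Im' : 2 * ((h : ℝ) - 1) * (((v : ℝ) + 1) - b - 1) ≤ ((v : ℝ) + 1) + 2 := by
          have e : 2 * ((h : ℤ) - 1) * (((v : ℤ) + 1) - b - 1) ≤ ((v : ℤ) + 1) + 2 := by
            linarith
          exact_mod_cast e
        have D2' : 2 * ((v : ℝ) + 1) * b - (KK n L v : ℝ) ≤
            h * (((n : ℝ) - 3 * (v + 1)) - 2 - (v + 1) - 2 * b - 3 * h) := by exact_mod_cast D2
        have KU' : 7 * ((n : ℝ) - 3 * ((v : ℝ) + 1)) * (KK n L v : ℝ) ≤ 4 * ((v : ℝ) + 1) ^ 3 := by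
          exact_mod_cast KU
        have hN' : 7 * ((v : ℝ) + 1) ≤ (n : ℝ) - 3 * (v + 1) := by exact_mod_cast hN
        have hK' : (0 : ℝ) ≤ (KK n L v : ℝ) := by exact_mod_cast hK
        rcases Nat.lt_or_ge h 5 with h5 | h5
        · obtain h3 | h4 : h = 3 ∨ h = 4 := by omega
          · exfalso
            subst h3
            push_cast at Im' D2'
            exact NC_alg23 ((v : ℝ) + 1) (b : ℝ) ((n : ℝ) - 3 * (v + 1)) (KK n L v : ℝ) a2
              (by positivity) hK' hN' D1' (by linarith) KU' (by linarith)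
          · subst h4
            push_cast at Im' D2' ⊢
            have := NC_alg24 ((v : ℝ) + 1) (b : ℝ) ((n : ℝ) - 3 * (v + 1)) (KK n L v : ℝ) a2
              (by positivity) hK' hN' (by linarith) KU' (by linarith)
            linarith
        · exact NC_alg2 ((v : ℝ) + 1) (b : ℝ) (h : ℝ) ((n : ℝ) - 3 * (v + 1)) (KK n L v : ℝ) a2
            (by positivity) (by exact_mod_cast h5) hK' hN' D2' KU' Im'
    have goal2 : 5 * (v : ℝ) ^ 2 ≤ 4 * ((h : ℝ) - 1) * ((n : ℝ) - 3 * v) := by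
      have e1 : ((v : ℝ) + 1) - 1 = v := by ring
      have e2 : ((n : ℝ) - 3 * (v + 1)) + 3 = n - 3 * v := by ring
      rw [e1, e2] at goal
      exact goal
    exact_mod_cast goal2

end Pool.Agent.Lib.MP_b072d9_co
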