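import Pool.Agent.Lib.MP_b072d9_co.NDefs
import Pool.Agent.Lib.MP_b072d9_co.LEx
import Pool.Agent.Lib.MP_b072d9_co.NodeN

set_option autoImplicit false

namespace Pool.Agent.Lib.MP_b072d9_co

/-! Nodes in normal form. -/

variable {n : ℤ} {H : ℕ} {L : ℕ → ℤ}

/-- L0 -/
theorem exists_NF {h a b : ℕ} (ho : OptH n H L h a b) :
    ∃ a' b' : ℕ, NF n H L h a' b' ∧ a' + b' = a + b := by
  classical
  wlog hab : b ≤ a generalizing a b
  · obtain ⟨a', b', h1, h2⟩ := this ho.swap (by omega)
    exact ⟨a', b', h1, by omega⟩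
  have hex : ∃ x, ∃ y, OptH n H L h x y ∧ y ≤ x ∧ x + y = a + b := ⟨a, b, ho, hab, rfl⟩
  obtain ⟨y, h1, h2, h3⟩ := Nat.find_spec hex
  refine ⟨Nat.find hex, y, ⟨h1, h2, ?_⟩, h3⟩
  intro a' b' g1 g2 g3
  exact Nat.find_min' hex ⟨b', g1, g2, by omega⟩

/-- L1 (rotation of equal labels uses minimality of the larger part) -/
theorem NF.child (hL : IsLH n H L) {h a b h₁ p q : ℕ} (hN : NF n H L h a b)
    (ho : OptH n H L h₁ p q) (hs : p + q + h₁ = a) : h₁ ≤ h ∧ p ≤ b ∧ q ≤ b := by
  have hoa : OptH n H L h (p + q + h₁) b := by rw [hs]; exact hN.opt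
  have n1 := N1H hL hoa ho
  rcases Nat.lt_or_ge h₁ h with h1 | h1
  · refine ⟨n1, N2H hL hoa ho h1, ?_⟩
    have hoa' : OptH n H L h (q + p + h₁) b := by
      rw [show q + p + h₁ = a by omega]; exact hN.opt
    exact N2H hL hoa' ho.swap h1
  · have he : h₁ = h := le_antisymm n1 h1
    subst he
    have h1' := ho.1.1
    -- (h; q + b + h, p) is optimal, so `p ≤ b`
    have key : ∀ p q : ℕ, OptH n H L h₁ p q → p + q + h₁ = a → p ≤ b := by
      intro p q ho hs
      have hoa : OptH n H L h₁ (p + q + h₁) b := by rw [hs]; exact hN.opt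
      obtain ⟨r1, -⟩ := rot_eqH hL hoa ho
      rcases le_total p (q + b + h₁) with h2 | h2
      · have := hN.min _ _ r1 h2 (by omega)
        omega
      · have := hN.min _ _ r1.swap h2 (by omega)
        omega
    exact ⟨le_rfl, key p q ho hs, key q p ho.swap (by omega)⟩

/-- L1' -/
theorem NF.child' (hL : IsLH n H L) {h a b h₁ p q : ℕ} (hN : NF n H L h a b)
    (ho : OptH n H L h₁ p q) (hs : p + q + h₁ = b) : h₁ ≤ h := by
  have hob : OptH n H L h (p + q + h₁) a := by rw [hs]; exact hN.opt.swap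
  exact N1H hL hob ho

/-- L2 -/
theorem NF.le2 (hL : IsLH n H L) {h a b : ℕ} (hN : NF n H L h a b) : a ≤ 2 * b + h := by
  rcases Nat.eq_zero_or_pos a with h0 | h0
  · omega
  · obtain ⟨h₁, p, q, ho, hs⟩ := hL.exists_opt a h0
    obtain ⟨k1, k2, k3⟩ := hN.child hL ho hs
    omega

/-- values below a node with label one -/
theorem one_val (hL : IsLH n H L) (u : ℕ) : ∀ a b : ℕ, OptH n H L 1 a b → a + b + 1 = u →
    6 * L u = (u : ℤ) * (u + 1) * (3 * n - 7 - 2 * u) := by
  induction u using Nat.strong_induction_on with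
  | _ u ih =>
    intro a b ho hs
    have key : ∀ a b : ℕ, OptH n H L 1 a b → a + b + 1 = u →
        6 * L a = (a : ℤ) * (a + 1) * (3 * n - 7 - 2 * a) := by
      intro a b ho hs
      rcases Nat.eq_zero_or_pos a with h0 | h0
      · subst h0
        rw [hL.zero]
        push_cast
        ring
      · obtain ⟨h₁, p, q, ho₁, hs₁⟩ := hL.exists_opt a h0
        have h1 : h₁ = 1 := by
          have t := N1H hL (h := 1) (h₁ := h₁) (p := p) (q := q) (r := b)
            (by rw [hs₁]; exact ho) ho₁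
          have := ho₁.1
          omega
        subst h1
        exact ih a (by omega) p q ho₁ hs₁
    have e1 := key a b ho hs
    have e2 := key b a ho.swap (by omega)
    have e3 := ho.2
    rw [hs] at e3
    have e4 : (u : ℤ) = a + b + 1 := by rw [← hs]; push_cast; ring
    rw [e3, e4]
    unfold cst
    push_cast
    linarith

theorem L_le_broomH (hL : IsLH n H L) (hH : 1 ≤ H) (u : ℕ) :
    6 * L u ≤ (u : ℤ) * (u + 1) * (3 * n - 7 - 2 * u) := by
  induction u with
  | zero => rw [hL.zero]; simp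
  | succ u ih =>
    have h1 := hL.le 1 0 u ⟨le_rfl, hH⟩
    rw [show 0 + u + 1 = u + 1 by ring, hL.zero] at h1
    unfold cst at h1
    push_cast at h1 ⊢
    linarith

/-- the defect vanishes below a node with label one -/
theorem one_K (hL : IsLH n H L) {a b : ℕ} (ho : OptH n H L 1 a b) : KK n L (a + b) = 0 := by
  apply le_antisymm _ (K_nonnegH hL _)
  have e1 := one_val hL (a + b + 1) a b ho rfl
  have e2 := L_le_broomH hL (ho.1.1.trans ho.1.2) (a + b)
  unfold KK
  push_cast at *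
  linarith

/-- L3 (label one: everything below is a broom, all splits are optimal) -/
theorem NF.one (hL : IsLH n H L) {a b : ℕ} (hN : NF n H L 1 a b) : a ≤ b + 1 := by
  have ho := hN.opt
  have hab := hN.le
  have e1 := one_val hL (a + b + 1) a b ho rfl
  obtain ⟨x, y, hx, hyx, hxy⟩ : ∃ x y : ℕ, x + y = a + b ∧ y ≤ x ∧ x ≤ y + 1 :=
    ⟨(a + b + 1) / 2, (a + b) / 2, by omega, by omega, by omega⟩
  have e2 := L_le_broomH hL (ho.1.1.trans ho.1.2) x
  have e3 := L_le_broomH hL (ho.1.1.trans ho.1.2) y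
  have e4 := hL.le 1 x y ho.1
  have e5 : (a : ℤ) + b = x + y := by exact_mod_cast hx.symm
  have ho' : OptH n H L 1 x y := by
    refine ⟨ho.1, le_antisymm e4 ?_⟩
    rw [hx]
    unfold cst at *
    push_cast at *
    have e6 : (a : ℤ) = x + y - b := by linarith
    rw [e6] at e1
    linarith
  have := hN.min x y ho' hyx hx
  omega

/-- upper bound of the defect by the optimal node -/
theorem K_node (hL : IsLH n H L) {v c p q : ℕ} (ho : OptH n H L c p q) (hs : p + q + c = v + 1) :
    KK n L v ≤ 2 * (p : ℤ) * q - ((c : ℤ) - 1) * (n + 1 - 4 * (v + 1) - c) := by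
  rcases Nat.lt_or_ge 1 c with hc | hc
  · obtain ⟨d, rfl⟩ := Nat.exists_eq_add_of_le' ho.1.1
    have h1 := BminusH hL (by omega : 1 ≤ d) ho
    rw [show p + q + d = v by omega] at h1
    have e : (v : ℤ) = p + q + d := by
      have : v = p + q + d := by omega
      exact_mod_cast this
    push_cast at h1 ⊢
    rw [e]
    linarith
  · have hc1 : c = 1 := by have := ho.1; omega
    subst hc1
    have h1 := one_K hL ho
    rw [show p + q = v by omega] at h1
    rw [h1]
    have : (0 : ℤ) ≤ 2 * p * q := by positivity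
    push_cast
    linarith

/-- the increments in terms of the optimal node -/
theorem D_node (hL : IsLH n H L) {v c p q : ℕ} (ho : OptH n H L c p q) (hs : p + q + c = v + 1) :
    2 * ((v : ℤ) + 1 + c - 1) * (n + 1 - (v + 1 + c)) - (v + 1 + c) ^ 2 ≤
      2 * (((v : ℤ) + 1) * (n - 3 - v) - KK n L v) := by
  have h1 := K_node hL ho hs
  have e : (p : ℤ) + q + c = v + 1 := by exact_mod_cast hs
  have e1 : 4 * (p : ℤ) * q ≤ ((v + 1) - c) ^ 2 := by
    have := sq_nonneg ((p : ℤ) - q)
    have e : ((v : ℤ) + 1) - c = p + q := by linarith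
    rw [e]; linarith
  linarith

/-- L4: 10 b < n - 1 (cheap bound, D2 at b) -/
theorem NF.small (hL : IsLH n H L) {h a b : ℕ} (hN : NF n H L h a b) (hH : h + 1 ≤ H)
    (h3 : 3 * ((a : ℤ) + b + 2 * h) ≤ 2 * (n - 1)) (hb : 1 ≤ b) : 10 * (b : ℤ) < n - 1 := by
  obtain ⟨v, rfl⟩ := Nat.exists_eq_add_of_le' hb
  obtain ⟨c, p, q, ho, hs⟩ := hL.exists_opt (v + 1) (by omega)
  have hch := hN.child' hL ho hs
  have c1 := ho.1.1
  have hle := hN.le
  have d2 := D2H hL hH hN.opt.swap
  have dn := D_node hL ho hs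
  have chZ : (c : ℤ) ≤ h := by exact_mod_cast hch
  have c1Z : (1 : ℤ) ≤ c := by exact_mod_cast c1
  have hleZ : (v : ℤ) + 1 ≤ a := by exact_mod_cast hle
  have hv0 : (0 : ℤ) ≤ v := by positivity
  by_contra hcon
  push_cast at hcon d2 h3
  push Not at hcon
  generalize KK n L v = K at d2 dn
  set B : ℤ := (v : ℤ) + 1 with hB
  set ν : ℤ := n - 1 with hν
  have hn : n = ν + 1 := by rw [hν]; ring
  have hvB : (v : ℤ) = B - 1 := by rw [hB]; ring
  rw [hn] at d2 dn
  rw [hvB] at dn
  -- monotonicity of the node bound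
  have e1 : 0 ≤ ((c : ℤ) - 1) * (2 * ν + 6 - 3 * (2 * B + c + 1)) := by
    apply mul_nonneg (by linarith)
    linarith
  have e2 : 2 * B * (ν - B + 1) - (B + 1) ^ 2 ≤
      2 * (B * (ν - 1 - B) - K) := by
    have : 2 * (B + c - 1) * (ν + 1 + 1 - (B + c)) - (B + c) ^ 2 ≤
        2 * (B * (ν - 1 - B) - K) := by
      have e : B * (ν + 1 - 3 - (B - 1)) = B * (ν - 1 - B) := by ring
      rw [← e]
      linarith
    linarith
  have e3 : B * (ν - 1 - B) - K ≤ (B + h) * (ν - 1 - 3 * (B + h)) := by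
    have t1 : 0 ≤ (B + h) * (a - B) := by
      apply mul_nonneg <;> linarith
    linarith
  have e4 : 12 * ((B + h) * (ν - 1 - 3 * (B + h))) ≤ (ν - 1) ^ 2 := by
    have := sq_nonneg (ν - 1 - 6 * (B + h))
    linarith
  have e5 : 0 ≤ (10 * B - ν) * (ν - 3 * B) := mul_nonneg (by linarith) (by linarith)
  have e6 : 0 ≤ ν * (10 * B - ν) := mul_nonneg (by linarith) (by linarith)
  have e7 : 0 ≤ ν * (ν - 6) := mul_nonneg (by linarith) (by linarith)
  linarith

/-- L5: 6 a < n - 1 or a in the zero range -/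
theorem NF.six (hL : IsLH n H L) {h a b : ℕ} (hN : NF n H L h a b) (hH : h + 1 ≤ H)
    (h3 : 3 * ((a : ℤ) + b + 2 * h) ≤ 2 * (n - 1)) :
    ((a : ℤ) + 2) ^ 2 ≤ 2 * (n - 1) ∨ 6 * (a : ℤ) < n - 1 := by
  have h1 : (1 : ℤ) ≤ h := by exact_mod_cast hN.opt.1.1
  have hb0 : (0 : ℤ) ≤ b := by positivity
  have ha0 : (0 : ℤ) ≤ a := by positivity
  rcases Nat.eq_zero_or_pos a with h0 | h0
  · left
    subst h0
    push_cast at *
    linarith
  · obtain ⟨v, rfl⟩ := Nat.exists_eq_add_of_le' h0
    obtain ⟨c, p, q, ho, hs⟩ := hL.exists_opt (v + 1) (by omega)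
    obtain ⟨hch, -, -⟩ := hN.child hL ho hs
    have hle2 := hN.le2 hL
    have c1 := ho.1.1
    have d2 := D2H hL hH hN.opt
    have dn := D_node hL ho hs
    have chZ : (c : ℤ) ≤ h := by exact_mod_cast hch
    have c1Z : (1 : ℤ) ≤ c := by exact_mod_cast c1
    have hle2Z : (v : ℤ) + 1 ≤ 2 * b + h := by exact_mod_cast hle2
    have hv0 : (0 : ℤ) ≤ v := by positivity
    by_contra hcon
    push_cast at hcon d2 h3
    push Not at hcon
    obtain ⟨hc1, hc2⟩ := hcon
    generalize KK n L v = K at d2 dn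
    set A : ℤ := (v : ℤ) + 1 with hA
    set ν : ℤ := n - 1 with hν
    have hn : n = ν + 1 := by rw [hν]; ring
    have hvA : (v : ℤ) = A - 1 := by rw [hA]; ring
    rw [hn] at d2 dn
    rw [hvA] at dn
    have dn' : 2 * (A + c - 1) * (ν + 1 + 1 - (A + c)) - (A + c) ^ 2 ≤
        2 * (A * (ν - 1 - A) - K) := by
      have e : A * (ν + 1 - 3 - (A - 1)) = A * (ν - 1 - A) := by ring
      rw [← e]
      linarith
    have e3 : A * (ν - 1 - A) - K ≤ (A + h) * (ν - 1 - 2 * (A + h)) := by
      have t1 : 0 ≤ (A + h) * (2 * b + h - A) := by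
        apply mul_nonneg <;> linarith
      linarith
    rcases le_total (3 * (2 * A + c + 1)) (2 * ν + 6) with h4 | h4
    · have e1 : 0 ≤ ((c : ℤ) - 1) * (2 * ν + 6 - 3 * (2 * A + c + 1)) := by
        apply mul_nonneg (by linarith)
        linarith
      have e4 : 8 * ((A + h) * (ν - 1 - 2 * (A + h))) ≤ (ν - 1) ^ 2 := by
        have := sq_nonneg (ν - 1 - 4 * (A + h))
        linarith
      have e5 : 0 ≤ (ν - 2 * A) * (6 * A - ν) := mul_nonneg (by linarith) (by linarith)
      linarith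
    · have e1 : 0 ≤ ((h : ℤ) - c) * (3 * (2 * A + c + h) - 2 * ν - 6) := by
        apply mul_nonneg (by linarith)
        linarith
      have e6 : 0 ≤ ((h : ℤ) - 1) * (2 * A + h + 9) := mul_nonneg (by linarith) (by linarith)
      nlinarith

/-- L6: the node lemma, all n -/
theorem NF.ten (hL : IsLH n H L) {h a b : ℕ} (hN : NF n H L h a b) (hH : h + 1 ≤ H)
    (h3 : 3 * ((a : ℤ) + b + 2 * h) ≤ 2 * (n - 1)) :
    ((a : ℤ) + 2) ^ 2 ≤ 2 * (n - 1) ∨ 10 * (a : ℤ) ≤ n := by
  by_contra hcon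
  push Not at hcon
  obtain ⟨hc1, hc2⟩ := hcon
  have h1 := hN.opt.1.1
  have h1Z : (1 : ℤ) ≤ h := by exact_mod_cast h1
  have hb0 : (0 : ℤ) ≤ b := by positivity
  have ha0 : (0 : ℤ) ≤ a := by positivity
  have h6 : 6 * (a : ℤ) < n - 1 := by
    rcases hN.six hL hH h3 with h | h
    · exact absurd h (by push Not; exact hc1)
    · exact h
  have ha1 : 1 ≤ a := by
    by_contra h0
    have : a = 0 := by omega
    subst this
    push_cast at *
    linarith
  rcases Nat.lt_or_ge 1 h with hh | hh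
  · have h10b : 10 * (b : ℤ) < n := by
      rcases Nat.eq_zero_or_pos b with h0 | h0
      · subst h0
        push_cast
        linarith
      · have := hN.small hL hH h3 h0
        linarith
    have := NA_core hL hH hN.opt hh h10b (by linarith) (by linarith)
    linarith
  · have he : h = 1 := by omega
    subst he
    have hone := hN.one hL
    have honeZ : (a : ℤ) ≤ b + 1 := by exact_mod_cast hone
    obtain ⟨v, rfl⟩ := Nat.exists_eq_add_of_le' ha1
    obtain ⟨c, p, q, ho, hs⟩ := hL.exists_opt (v + 1) (by omega)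
    obtain ⟨hch, -, -⟩ := hN.child hL ho hs
    have hc : c = 1 := by have := ho.1.1; omega
    subst hc
    have hK := one_K hL ho
    rw [show p + q = v by omega] at hK
    have d2 := D2H hL hH hN.opt
    rw [hK] at d2
    push_cast at d2 hc1 honeZ
    have hv0 : (0 : ℤ) ≤ v := by positivity
    have e1 : ((v : ℤ) + 1) * v ≤ (v + 1) * b := mul_le_mul_of_nonneg_left (by linarith) (by linarith)
    have e2 : 0 ≤ (v : ℤ) * v := mul_nonneg hv0 hv0
    linarith

/-- L7: zero range -/
theorem NF.bal (hL : IsLH n H L) {h a b : ℕ} (hN : NF n H L h a b)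
    (hz : ((a : ℤ) + 2) ^ 2 ≤ 2 * (n - 1)) : a ≤ b + 1 := by
  have h1 := hN.opt.1.1
  rcases Nat.lt_or_ge 1 h with hh | hh
  · rcases Nat.eq_zero_or_pos a with h0 | h0
    · omega
    · obtain ⟨v, rfl⟩ := Nat.exists_eq_add_of_le' h0
      have hK := K_eq_zeroH hL v (by push_cast at hz; linarith)
      have im := ImbH hL hN.opt
      rw [hK] at im
      have kb := K_nonnegH hL b
      have hhZ : (2 : ℤ) ≤ h := by exact_mod_cast hh
      by_contra hcon
      push Not at hcon
      have hconZ : (b : ℤ) + 1 < v + 1 := by exact_mod_cast hcon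
      have e : 0 < ((v : ℤ) + 1 - b - 1) * (h - 1) := mul_pos (by linarith) (by linarith)
      linarith
  · have he : h = 1 := by omega
    subst he
    exact hN.one hL

end Pool.Agent.Lib.MP_b072d9_co
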