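import Pool.Agent.Lib.MP_b072d9_co.LMono

set_option autoImplicit false

namespace Pool.Agent.Lib.MP_b072d9_co

variable {n : ℤ} {L : ℕ → ℤ}

/-- rotation of equal labels -/
theorem rot_eq (hL : IsL n L) {h p q r : ℕ} (ho : Opt n L h (p + q + h) r)
    (ho₁ : Opt n L h p q) : Opt n L h (q + r + h) p ∧ Opt n L h q r := by
  obtain ⟨h1, h2⟩ := ho
  obtain ⟨g1, g2⟩ := ho₁
  have h3 := hL.le h (q + r + h) p h1
  have h4 := hL.le h q r h1
  rw [show q + r + h + p + h = p + q + h + r + h by ring, h2, g2] at h3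
  have e : cst n h (p + q + h) r + cst n h p q = cst n h (q + r + h) p + cst n h q r := by
    unfold cst; push_cast; ring
  refine ⟨⟨h1, ?_⟩, ⟨h1, ?_⟩⟩
  · rw [show q + r + h + p + h = p + q + h + r + h by ring, h2, g2]
    linarith
  · linarith

/-- three parts with the same label `≥ 2` are impossible, sorted case -/
theorem N3core (hL : IsL n L) {k p q r : ℕ} (hk : 1 ≤ k) (ho : Opt n L (k + 1) (q + r + (k + 1)) p)
    (ho₁ : Opt n L (k + 1) q r) (hpq : q ≤ p) (hqr : r ≤ q) : False := by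
  have d1 := D1 hL hk ho₁
  have kq := K_nonneg hL q
  obtain ⟨-, h2⟩ := ho
  obtain ⟨-, g2⟩ := ho₁
  have h3 := hL.le (k + 2) p (q + r + k) (by omega)
  have h4 := hL.le k q r hk
  rw [show p + (q + r + k) + (k + 2) = q + r + (k + 1) + p + (k + 1) by ring, h2, g2] at h3
  unfold cst at h3 h4
  push_cast at h3 h4 d1
  have ek : (1 : ℤ) ≤ k := by exact_mod_cast hk
  have ep : (q : ℤ) ≤ p := by exact_mod_cast hpq
  have eq' : (r : ℤ) ≤ q := by exact_mod_cast hqr
  have er : (0 : ℤ) ≤ r := by positivity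
  -- (M1)
  have m1 : 2 * (p : ℤ) * (q + r) - 2 * q * r + 4 * p * (k + 1) + 4 * (q + r) + 2 * (k + 1) ^ 2
      + 8 * (k + 1) - 1 ≤ n := by linarith
  have m2 : 2 * (q : ℤ) ^ 2 + 4 * q * (k + 1) + 4 * (q + r) + 2 * (k + 1) ^ 2
      + 8 * (k + 1) - 1 ≤ n := by
    have t1 : 0 ≤ ((p : ℤ) - q) * (q + r) := mul_nonneg (by linarith) (by linarith)
    have t2 : 0 ≤ ((p : ℤ) - q) * (k + 1) := mul_nonneg (by linarith) (by linarith)
    linarith
  have m3 : (k : ℤ) * (2 * (q : ℤ) ^ 2 + 4 * q * (k + 1) + 4 * r + 2 * (k + 1) ^ 2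
      + 8 * (k + 1) - 1) ≤ k * (n - 4 * q) := by
    apply mul_le_mul_of_nonneg_left _ (by linarith)
    linarith
  have m4 : 2 * (q : ℤ) ^ 2 + 4 * q * (k + 1) + 4 * r + 2 * (k + 1) ^ 2
      + 8 * (k + 1) - 1 + ((k : ℤ) - 1) * (2 * (k + 1) ^ 2 + 8 * (k + 1) - 1) ≤
      (k : ℤ) * (2 * (q : ℤ) ^ 2 + 4 * q * (k + 1) + 4 * r + 2 * (k + 1) ^ 2
      + 8 * (k + 1) - 1) := by
    have t3 : 0 ≤ ((k : ℤ) - 1) * (2 * (q : ℤ) ^ 2 + 4 * q * (k + 1) + 4 * r) := by
      apply mul_nonneg (by linarith)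
      have : 0 ≤ (q : ℤ) * (k + 1) := mul_nonneg (by linarith) (by linarith)
      have := sq_nonneg (q : ℤ)
      linarith
    linarith
  have m5 : 0 ≤ (q : ℤ) * (q - r) := mul_nonneg (by linarith) (by linarith)
  have m6 : 0 ≤ ((k : ℤ) + 1) * (q - r) := mul_nonneg (by linarith) (by linarith)
  have m7 : 0 ≤ (q : ℤ) * (k + 1) := mul_nonneg (by linarith) (by linarith)
  have m8 : 0 ≤ ((k : ℤ) - 1) * (k ^ 2) := mul_nonneg (by linarith) (sq_nonneg _)
  have m9 : 0 ≤ ((k : ℤ) - 1) * k := mul_nonneg (by linarith) (by linarith)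
  linarith

/-- (N3) the label of a child is strictly smaller if it is at least two -/
theorem N3 (hL : IsL n L) {h p q r : ℕ} (hh : 2 ≤ h) (ho : Opt n L h (p + q + h) r)
    (ho₁ : Opt n L h p q) : False := by
  obtain ⟨k, rfl⟩ := Nat.exists_eq_add_of_le' (by omega : 1 ≤ h)
  have hk : 1 ≤ k := by omega
  -- all arrangements
  obtain ⟨a1, a2⟩ := rot_eq hL ho ho₁
  obtain ⟨b1, b2⟩ := rot_eq hL a1 a2
  have sw : ∀ x y z : ℕ, Opt n L (k + 1) (x + y + (k + 1)) z → Opt n L (k + 1) x y →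
      Opt n L (k + 1) (y + x + (k + 1)) z ∧ Opt n L (k + 1) y x := by
    intro x y z hx hy
    refine ⟨?_, hy.swap⟩
    rwa [show y + x = x + y by ring]
  have gen : ∀ x y z : ℕ, Opt n L (k + 1) (x + y + (k + 1)) z → Opt n L (k + 1) x y →
      x ≤ z → y ≤ z → False := by
    intro x y z hx hy h1 h2
    rcases le_total x y with h3 | h3
    · obtain ⟨c1, c2⟩ := sw x y z hx hy
      exact N3core hL hk c1 c2 h2 h3
    · exact N3core hL hk hx hy h1 h3
  rcases le_total p r with h1 | h1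
  · rcases le_total q r with h2 | h2
    · exact gen p q r ho ho₁ h1 h2
    · exact gen r p q b1 b2 h2 (h1.trans h2)
  · rcases le_total q p with h2 | h2
    · exact gen q r p a1 a2 h2 h1
    · exact gen r p q b1 b2 (h1.trans h2) h2

/-- structures with label one only exist as long as the defect vanishes -/
theorem one_label (hL : IsL n L) (u : ℕ) (hu : 5 * (u : ℤ) ≤ n + 1) (a b : ℕ)
    (ho : Opt n L 1 a b) (hs : a + b + 1 = u) : ∀ t < u, KK n L t = 0 := by
  induction u using Nat.strong_induction_on generalizing a b with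
  | _ u ih =>
    have key : ∀ a b : ℕ, Opt n L 1 a b → a + b + 1 = u → 1 ≤ a → KK n L (u - 1) ≤ 0 := by
      intro a b ho hs ha
      obtain ⟨h₁, p, q, ho₁, hs₁⟩ := hL.exists_opt a ha
      have h1 : h₁ = 1 := by
        have t := N1 hL (h := 1) (h₁ := h₁) (p := p) (q := q) (r := b) (by rw [hs₁]; exact ho) ho₁
        have := ho₁.1
        omega
      subst h1
      have h2 := ih a (by omega) (by
        have : (a : ℤ) ≤ u := by exact_mod_cast (by omega : a ≤ u)
        linarith) p q ho₁ hs₁ (a - 1) (by omega)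
      obtain ⟨a', rfl⟩ := Nat.exists_eq_add_of_le' ha
      have h3 := Cminus hL ho
      rw [show a' + b + 1 = u - 1 by omega] at h3
      simp only [Nat.add_sub_cancel] at h2
      rw [h2] at h3
      push_cast at h3
      linarith
    have h0 : KK n L (u - 1) ≤ 0 := by
      rcases Nat.eq_zero_or_pos a with ha | ha
      · rcases Nat.eq_zero_or_pos b with hb | hb
        · have : u = 1 := by omega
          subst this
          simp only [Nat.sub_self]
          rw [K_zero hL]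
        · exact key b a ho.swap (by omega) hb
      · exact key a b ho hs ha
    intro t ht
    apply le_antisymm _ (K_nonneg hL t)
    refine le_trans (K_mono hL (by omega : t ≤ u - 1) ?_) h0
    have : ((u - 1 : ℕ) : ℤ) ≤ u := by exact_mod_cast Nat.sub_le u 1
    linarith

theorem L_broom (hL : IsL n L) (t : ℕ) (ht : ∀ s < t, KK n L s = 0) :
    6 * L t = (t : ℤ) * (t + 1) * (3 * n - 7 - 2 * t) := by
  induction t with
  | zero => rw [hL.zero]; push_cast; ring
  | succ t ih =>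
    have h1 := ih (fun s hs => ht s (by omega))
    have h2 := ht t (by omega)
    rw [L_succ n L t, h2]
    push_cast
    linarith

/-- canonical optimal structures -/
theorem exists_canon (hL : IsL n L) (u : ℕ) (h1 : 1 ≤ u) (hu : 5 * (u : ℤ) ≤ n + 1) :
    ∃ h a b : ℕ, Opt n L h a b ∧ a + b + h = u ∧ b ≤ a ∧
      (2 ≤ h ∨ (h = 1 ∧ a ≤ b + 1 ∧ ∀ t < u, KK n L t = 0)) := by
  obtain ⟨h, a, b, ho, hs⟩ := hL.exists_opt u h1
  rcases Nat.lt_or_ge 1 h with hh | hh
  · rcases le_total b a with hab | hab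
    · exact ⟨h, a, b, ho, hs, hab, Or.inl hh⟩
    · exact ⟨h, b, a, ho.swap, by omega, hab, Or.inl hh⟩
  · have h2 : h = 1 := by have := ho.1; omega
    subst h2
    have hK := one_label hL u hu a b ho hs
    refine ⟨1, u / 2, u - 1 - u / 2, ?_, by omega, by omega, Or.inr ⟨rfl, by omega, hK⟩⟩
    refine ⟨le_rfl, ?_⟩
    set x := u / 2 with hx
    set y := u - 1 - u / 2 with hy
    have hxy : x + y + 1 = u := by omega
    have e1 := L_broom hL (x + y + 1) (fun s hs => hK s (by omega))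
    have e2 := L_broom hL x (fun s hs => hK s (by omega))
    have e3 := L_broom hL y (fun s hs => hK s (by omega))
    unfold cst
    push_cast at e1 ⊢
    linarith

/-- average of (D1) -/
theorem D1avg (hL : IsL n L) {k a b : ℕ} (h1 : 1 ≤ k) (ho : Opt n L (k + 1) a b) :
    2 * (k : ℤ) * (n - 3 * (a + b + (k + 1))) ≤ 4 * a * b + 2 * (a + b + (k + 1)) + 4 * k - 2 := by
  have e1 := D1 hL h1 ho
  have e2 := D1 hL h1 ho.swap
  have k1 := K_nonneg hL a
  have k2 := K_nonneg hL b
  push_cast at e1 e2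
  linarith

/-- average of (D2) -/
theorem D2avg (hL : IsL n L) {h a b : ℕ} (ho : Opt n L h (a + 1) (b + 1)) :
    4 * ((a : ℤ) + 1) * (b + 1) - KK n L a - KK n L b ≤
      2 * h * (n - 2 - 3 * (a + 1 + (b + 1) + h)) := by
  have e1 := D2 hL ho
  have e2 := D2 hL ho.swap
  push_cast at e1 e2
  linarith

end Pool.Agent.Lib.MP_b072d9_co
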