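import Pool.Agent.Lib.MP_b072d9_co.LImb
import Pool.Agent.Lib.MP_b072d9_co.LAlgD

set_option autoImplicit false

namespace Pool.Agent.Lib.MP_b072d9_co

variable {n : ℤ} {L : ℕ → ℤ}

/-- the first difference in the size of the root label -/
theorem v_large (n V K : ℤ) (hn : 700 ≤ n) (hV : 1 ≤ V) (hVn : 10 * V ≤ n) (hK : 7 * V < 2 * K)
    (hup : 7 * (n - 3 * (V + 1)) * K ≤ 4 * (V + 1) ^ 3) : 57 ≤ V + 1 := by
  by_contra hc
  push Not at hc
  have hV2 : V ≤ 55 := by linarith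
  have h1 : 7 * (n - 3 * (V + 1)) * (7 * V) ≤ 7 * (n - 3 * (V + 1)) * (2 * K) := by
    apply mul_le_mul_of_nonneg_left hK.le
    linarith
  have h2 : 7 * (700 - 3 * (V + 1)) * (7 * V) ≤ 7 * (n - 3 * (V + 1)) * (7 * V) := by
    apply mul_le_mul_of_nonneg_right _ (by linarith)
    linarith
  have h3 : 49 * V * (700 - 3 * (V + 1)) ≤ 8 * (V + 1) ^ 3 := by linarith
  have hV3 : 0 ≤ V := by linarith
  interval_cases V <;> norm_num at h3

/-- induction step for the window theorem, main case -/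
theorem WTstep (hL : IsL n L) (hn : 700 ≤ n) (V : ℕ) (hV : 10 * (V : ℤ) ≤ n)
    (ih : ∀ m < V, ∀ w ≤ m, (KK n L m : ℝ) - KK n L w ≤
      5 / 2 * (m : ℝ) ^ 2 / (n - 3 * m) * (m - w) + 7 / 2 * m)
    (w : ℕ) (hw : 1 ≤ w) (hwV : w < V) (hK : 7 * (V : ℤ) < 2 * KK n L V) :
    (KK n L V : ℝ) - KK n L w ≤ 5 / 2 * (V : ℝ) ^ 2 / (n - 3 * V) * (V - w) + 7 / 2 * V := by
  have hV1 : (1 : ℤ) ≤ V := by exact_mod_cast (by omega : 1 ≤ V)
  have hup := K_up hL V (by linarith)
  have hv57 := v_large n V (KK n L V) hn hV1 hV hK hup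
  obtain ⟨h, a, b, ho, hs, hab, hcase⟩ := exists_canon hL (V + 1) (by omega) (by push_cast; linarith)
  have hh : 2 ≤ h := by
    rcases hcase with h1 | ⟨-, -, h1⟩
    · exact h1
    · exfalso
      have := h1 V (by omega)
      rw [this] at hK
      linarith
  obtain ⟨k, rfl⟩ := Nat.exists_eq_add_of_le' (by omega : 1 ≤ h)
  have hk : 1 ≤ k := by omega
  -- the structure at `w`
  obtain ⟨h', a', b', ho', hs', hab', hcase'⟩ := exists_canon hL w hw (by
    have : (w : ℤ) ≤ V := by exact_mod_cast hwV.le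
    linarith)
  have hsZ : (a : ℤ) + b + (k + 1) = V + 1 := by exact_mod_cast hs
  have hsZ' : (a' : ℤ) + b' + h' = w := by exact_mod_cast hs'
  have hwVZ : (w : ℤ) < V := by exact_mod_cast hwV
  have habZ : (b : ℤ) ≤ a := by exact_mod_cast hab
  have habZ' : (b' : ℤ) ≤ a' := by exact_mod_cast hab'
  -- imbalance
  have hi6 : 6 * ((a : ℤ) - b) ≤ V + 1 := by
    rcases crude_imb hL hn ho hh hab (by push_cast; linarith) with h1 | h1
    · have : (a : ℤ) ≤ b + 1 := by exact_mod_cast h1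
      linarith
    · push_cast at h1; linarith
  have hj6 : 6 * ((a' : ℤ) - b') ≤ V + 1 := by
    have small : a' ≤ b' + 1 → 6 * ((a' : ℤ) - b') ≤ V + 1 := by
      intro h1
      have : (a' : ℤ) ≤ b' + 1 := by exact_mod_cast h1
      linarith
    rcases hcase' with h1 | ⟨-, h1, -⟩
    · rcases crude_imb hL hn ho' h1 hab' (by linarith) with h2 | h2
      · exact small h2
      · linarith
    · exact small h1
  -- facts
  have fD1 := D1avg hL hk ho
  have fBm := Bminus hL hk ho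
  rw [show a + b + k = V by omega] at fBm
  have fBp := Bplus hL ho'
  rw [show a' + b' + h' = w by omega] at fBp
  have fmono := K_mono hL hwV.le (by linarith : 5 * (V : ℤ) ≤ n + 1)
  -- real variables
  have hnR : (700 : ℝ) ≤ n := by exact_mod_cast hn
  have hVR : 10 * (V : ℝ) ≤ n := by exact_mod_cast hV
  have hkR : (1 : ℝ) ≤ k := by exact_mod_cast hk
  have hsR : (a : ℝ) + b + (k + 1) = V + 1 := by exact_mod_cast hs
  have hsR' : (a' : ℝ) + b' + h' = w := by exact_mod_cast hs'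
  have hwVR : (w : ℝ) + 1 ≤ V := by exact_mod_cast hwV
  have habR : (b : ℝ) ≤ a := by exact_mod_cast hab
  have habR' : (b' : ℝ) ≤ a' := by exact_mod_cast hab'
  have hi6R : 6 * ((a : ℝ) - b) ≤ V + 1 := by exact_mod_cast hi6
  have hj6R : 6 * ((a' : ℝ) - b') ≤ V + 1 := by exact_mod_cast hj6
  have hb0R : (0 : ℝ) ≤ b := by positivity
  have hb0R' : (0 : ℝ) ≤ b' := by positivity
  have hv57R : (57 : ℝ) ≤ V + 1 := by exact_mod_cast hv57
  have fD1R : 2 * (k : ℝ) * (n - 3 * (a + b + (k + 1))) ≤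
      4 * a * b + 2 * (a + b + (k + 1)) + 4 * k - 2 := by exact_mod_cast fD1
  obtain ⟨v, hv⟩ : ∃ v : ℝ, v = V + 1 := ⟨_, rfl⟩
  obtain ⟨N, hN⟩ : ∃ N : ℝ, N = n - 3 * v := ⟨_, rfl⟩
  obtain ⟨i, hi⟩ : ∃ i : ℝ, i = a - b := ⟨_, rfl⟩
  obtain ⟨j, hj⟩ : ∃ j : ℝ, j = a' - b' := ⟨_, rfl⟩
  obtain ⟨μ, hμ⟩ : ∃ μ : ℝ, μ = V - w := ⟨_, rfl⟩
  have ha_eq : (a : ℝ) = (v - k - 1 + i) / 2 := by rw [hi, hv]; linarith
  have hb_eq : (b : ℝ) = (v - k - 1 - i) / 2 := by rw [hi, hv]; linarith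
  have hv57' : 57 ≤ v := by rw [hv]; exact hv57R
  have hN68 : 34 / 5 * v ≤ N := by rw [hN, hv]; linarith
  have hi0 : 0 ≤ i := by rw [hi]; linarith
  have hj0 : 0 ≤ j := by rw [hj]; linarith
  have hi6' : 6 * i ≤ v := by rw [hi, hv]; linarith
  have hj6' : 6 * j ≤ v := by rw [hj, hv]; linarith
  have hμ1 : 1 ≤ μ := by rw [hμ]; linarith
  have hkv : (k : ℝ) ≤ v := by rw [hv]; linarith
  have fab4 : 4 * (a : ℝ) * b = (v - k - 1) ^ 2 - i ^ 2 := by rw [ha_eq, hb_eq]; ring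
  obtain ⟨hk77, hkN⟩ := kbound v N k i hv57' hN68 hkR hkv (by
    rw [hsR, ← hv, fab4] at fD1R
    rw [hN]; linarith)
  -- `1 ≤ b`
  have hbpos : 1 ≤ b := by
    have : (0 : ℝ) < b := by rw [hb_eq]; linarith
    have : 0 < b := by exact_mod_cast this
    omega
  obtain ⟨b₁, rfl⟩ := Nat.exists_eq_add_of_le' hbpos
  obtain ⟨a₁, rfl⟩ := Nat.exists_eq_add_of_le' (by omega : 1 ≤ a)
  have ha1V : a₁ < V := by omega
  have hb1V : b₁ < V := by omega
  have ha1Z : (a₁ : ℤ) < V := by exact_mod_cast ha1V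
  have hb1Z : (b₁ : ℤ) < V := by exact_mod_cast hb1V
  have fD2 := D2avg hL ho
  have fKa := K_up hL a₁ (by linarith)
  have fKb := K_up hL b₁ (by linarith)
  have hKa0 := K_nonneg hL a₁
  have hKb0 := K_nonneg hL b₁
  push_cast at ha_eq hb_eq hi hsR
  have hD : 55 / 56 * (v - k - 1) ^ 2 - 59 / 56 * i ^ 2 ≤ 2 * ((k : ℝ) + 1) * (N - 2) := by
    apply dbound v N k i (a₁ + 1) (b₁ + 1) (KK n L a₁) (KK n L b₁) hv57' hN68 hkR hk77 hi0 hi6'
      ha_eq hb_eq (by exact_mod_cast hKa0) (by exact_mod_cast hKb0)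
    · rw [show N + 3 * v - 3 * ((a₁ : ℝ) + 1) = n - 3 * (a₁ + 1) by rw [hN]; ring]
      exact_mod_cast fKa
    · rw [show N + 3 * v - 3 * ((b₁ : ℝ) + 1) = n - 3 * (b₁ + 1) by rw [hN]; ring]
      exact_mod_cast fKb
    · have : 4 * ((a₁ : ℝ) + 1) * (b₁ + 1) - KK n L a₁ - KK n L b₁ ≤
          2 * ((k : ℝ) + 1) * (n - 2 - 3 * (a₁ + 1 + (b₁ + 1) + (k + 1))) := by
        exact_mod_cast fD2
      rw [hsR] at this
      rw [hN, hv]; linarith
  -- (Bp)
  have fBR : 2 * (a' : ℝ) * b' - h' * (n - 4 - 4 * (a' + b' + h') - h') ≤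
      2 * ((a₁ : ℝ) + 1) * (b₁ + 1) - k * (n + 1 - 4 * (a₁ + 1 + (b₁ + 1) + k + 1) - (k + 1)) := by
    have := (fBp.trans fmono).trans fBm
    exact_mod_cast this
  -- the windows for the children
  have child : ∀ x x' : ℕ, x < V → x' ≤ V → ∀ M : ℝ, 0 ≤ M → (x : ℝ) - x' ≤ M →
      (KK n L x : ℝ) - KK n L x' ≤ 5 / 2 * (x : ℝ) ^ 2 / (n - 3 * x) * M + 7 / 2 * x := by
    intro x x' hx hx' M hM hxM
    have hxR : (x : ℝ) < V := by exact_mod_cast hx
    have hx0 : (0 : ℝ) ≤ x := by positivity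
    have hS0 : 0 ≤ 5 / 2 * (x : ℝ) ^ 2 / (n - 3 * x) := by
      apply div_nonneg (by positivity)
      linarith
    rcases le_total x' x with h1 | h1
    · have h2 := ih x hx x' h1
      have h3 := mul_le_mul_of_nonneg_left hxM hS0
      linarith
    · have hx'V : KK n L x ≤ KK n L x' :=
        K_mono hL h1 (by
            have : (x' : ℤ) ≤ V := by exact_mod_cast hx'
            linarith)
      have h3 : (KK n L x : ℝ) ≤ KK n L x' := by exact_mod_cast hx'V
      have h4 := mul_nonneg hS0 hM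
      linarith
  have ea : (a₁ : ℝ) = (v - k - 3 + i) / 2 := by linarith
  have eb : (b₁ : ℝ) = (v - k - 3 - i) / 2 := by linarith
  have eV : (V : ℝ) = v - 1 := by rw [hv]; ring
  have ew : (w : ℝ) = v - 1 - μ := by rw [hμ, eV]; ring
  have en : (n : ℝ) = N + 3 * v := by rw [hN]; ring
  have ha'V : a' ≤ V := by omega
  have hb'V : b' ≤ V := by omega
  have goal_eq : 5 / 2 * (V : ℝ) ^ 2 / (n - 3 * V) * (V - w) + 7 / 2 * V =
      5 / 2 * (v - 1) ^ 2 / (N + 3) * μ + 7 / 2 * (v - 1) := by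
    rw [eV, ew, en]
    rw [show N + 3 * v - 3 * (v - 1) = N + 3 by ring]
    ring
  rw [goal_eq]
  have eh' : (h' : ℝ) = w - a' - b' := by linarith
  have fBR2 := fBR
  -- C-inequalities
  have fCa := Cminus hL ho
  rw [show a₁ + (b₁ + 1) + (k + 1) = V by omega] at fCa
  have fCb := Cminus hL ho.swap
  rw [show b₁ + (a₁ + 1) + (k + 1) = V by omega] at fCb
  have fPa := Cplus hL ho'
  rw [show a' + b' + h' = w by omega] at fPa
  have fPb := Cplus hL ho'.swap
  rw [show b' + a' + h' = w by omega] at fPb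
  have fCaR : (KK n L V : ℝ) ≤ KK n L a₁ + 2 * k * (b₁ + 1 + (k + 1)) := by
    have : KK n L V ≤ KK n L a₁ + 2 * k * (b₁ + 1 + (k + 1)) := by
      push_cast at fCa; linarith
    exact_mod_cast this
  have fCbR : (KK n L V : ℝ) ≤ KK n L b₁ + 2 * k * (a₁ + 1 + (k + 1)) := by
    have : KK n L V ≤ KK n L b₁ + 2 * k * (a₁ + 1 + (k + 1)) := by
      push_cast at fCb; linarith
    exact_mod_cast this
  have fPaR : (KK n L a' : ℝ) + 2 * (h' - 1) * (b' + h') ≤ KK n L w := by exact_mod_cast fPa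
  have fPbR : (KK n L b' : ℝ) + 2 * (h' - 1) * (a' + h') ≤ KK n L w := by exact_mod_cast fPb
  obtain ⟨r, hr⟩ : ∃ r : ℝ, r = k - h' := ⟨_, rfl⟩
  have e3 : (h' : ℝ) = k - r := by rw [hr]; ring
  have e4 : (a' : ℝ) = (v - 1 - μ - k + r + j) / 2 := by linarith
  have e5 : (b' : ℝ) = (v - 1 - μ - k + r - j) / 2 := by linarith
  have h'1 : (1 : ℝ) ≤ h' := by exact_mod_cast ho'.1
  have hB : r * (N - 1 - 3 * k + 3 * μ + 3 / 2 * r) ≤
      μ * (v + 3 * k - 1 - μ / 2) + (j ^ 2 - i ^ 2) / 2 := by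
    rw [ea, eb, e4, e5, e3, en] at fBR
    linarith
  rcases le_total j i with hji | hij
  · -- case P
    obtain ⟨S, hS⟩ : ∃ S : ℝ, S = 5 / 2 * (a₁ : ℝ) ^ 2 / (N + 3 * v - 3 * a₁) := ⟨_, rfl⟩
    obtain ⟨hS0, hS1⟩ := SPbound v N k i a₁ S hv57' hN68 hkR hk77 hi0 hi6' ea hS
    have hSn : 5 / 2 * (a₁ : ℝ) ^ 2 / (n - 3 * a₁) = S := by rw [hS, en]
    rcases le_or_gt 0 r with hr0 | hr0
    · have c1 := child a₁ a' ha1V ha'V (μ / 2 + (i - j) / 2) (by linarith) (by
        rw [ea, e4]; linarith)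
      rw [hSn] at c1
      have c2 := closeP v N k i j μ r S hv57' hN68 hkR hk77 hkN hj0 hji hi6' hS1
        hS0 (by linarith) hr0 hD hB
      have c3 : 2 * (k : ℝ) * (b₁ + 1 + (k + 1)) - 2 * (h' - 1) * (b' + h') =
          k * (2 - (i - j) + μ + r) + (1 + r) * (v + k - 1 - μ - r - j) := by
        rw [eb, e3, e5]; ring
      rw [ea] at c1
      linarith
    · have hq1 : (k : ℝ) + 1 ≤ h' := by
        have : (k : ℝ) < h' := by linarith
        have h2 : k < h' := by exact_mod_cast this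
        exact_mod_cast h2
      obtain ⟨q, hq⟩ : ∃ q : ℝ, q = h' - k - 1 := ⟨_, rfl⟩
      have hq0 : 0 ≤ q := by linarith
      have hrq : r = -1 - q := by linarith
      have c1 := child a₁ a' ha1V ha'V ((μ + q) / 2 + (i - j) / 2) (by linarith) (by
        rw [ea, e4, hrq]; linarith)
      rw [hSn] at c1
      have m1 := mainP v N k i S hv57' hN68 hkR hk77 hkN hi0 hi6' hS1
      have m2 := smallP v N k i S hv57' hN68 hkR hk77 hi0 hi6' hS1 hD
      have hT0 : 0 ≤ (v + 3 * k - 1) * (v + 2 * k - 2) / (N - 1 - 3 * k) := by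
        apply div_nonneg _ (by linarith)
        apply mul_nonneg <;> linarith
      have c2 := closeR v k ((i - j) / 2) μ q S (5 / 2 * (v - 1) ^ 2 / (N + 3)) a₁ (b' + h')
        hv57' hk77 (by linarith) (by linarith) (by rw [ea]; linarith) (by linarith) hq0
        (by linarith) (by linarith) m2
      have c3 : 2 * (k : ℝ) * (b₁ + 1 + (k + 1)) - 2 * (h' - 1) * (b' + h') =
          k * (μ + 1 - q - 2 * ((i - j) / 2)) - 2 * q * (b' + h') := by
        rw [eb, e5, e3, hrq]; ring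
      linarith
  · -- case Q
    obtain ⟨S, hS⟩ : ∃ S : ℝ, S = 5 / 2 * (b₁ : ℝ) ^ 2 / (N + 3 * v - 3 * b₁) := ⟨_, rfl⟩
    obtain ⟨hS0, hS1⟩ := SQbound v N k i b₁ S hv57' hN68 hkR hk77 hi0 hi6' eb hS
    have hSn : 5 / 2 * (b₁ : ℝ) ^ 2 / (n - 3 * b₁) = S := by rw [hS, en]
    rcases le_or_gt 0 r with hr0 | hr0
    · have c1 := child b₁ b' hb1V hb'V (μ / 2 + (j - i) / 2) (by linarith) (by
        rw [eb, e5]; linarith)
      rw [hSn] at c1
      have c2 := closeQ v N k i j μ r S hv57' hN68 hkR hk77 hkN hi0 hij hj6' hS1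
        hS0 (by linarith) hr0 hD hB
      have c3 : 2 * (k : ℝ) * (a₁ + 1 + (k + 1)) - 2 * (h' - 1) * (a' + h') =
          k * (2 - (j - i) + μ + r) + (1 + r) * (v + k - 1 - μ - r + j) := by
        rw [ea, e3, e4]; ring
      rw [eb] at c1
      linarith
    · have hq1 : (k : ℝ) + 1 ≤ h' := by
        have : (k : ℝ) < h' := by linarith
        have h2 : k < h' := by exact_mod_cast this
        exact_mod_cast h2
      obtain ⟨q, hq⟩ : ∃ q : ℝ, q = h' - k - 1 := ⟨_, rfl⟩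
      have hq0 : 0 ≤ q := by linarith
      have hrq : r = -1 - q := by linarith
      have c1 := child b₁ b' hb1V hb'V ((μ + q) / 2 + (j - i) / 2) (by linarith) (by
        rw [eb, e5, hrq]; linarith)
      rw [hSn] at c1
      have m1 := mainQ v N k i j S hv57' hN68 hkR hk77 hkN hi0 hi6' hj0 hj6' hS1
      have m2 := smallQ v N k i j S hv57' hN68 hkR hk77 hkN hi0 hij hj6' hS1 hS0 hD
      have hT0 : 0 ≤ (v + 3 * k - 1) * (v + 2 * k - 2 + j) / (N - 1 - 3 * k) := by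
        apply div_nonneg _ (by linarith)
        apply mul_nonneg <;> linarith
      have hT1 : 0 ≤ (i + j) * (v + 2 * k - 2 + j) / (N - 1 - 3 * k) := by
        apply div_nonneg _ (by linarith)
        apply mul_nonneg <;> linarith
      have c2 := closeR v k ((j - i) / 2) μ q S (5 / 2 * (v - 1) ^ 2 / (N + 3)) b₁ (a' + h')
        hv57' hk77 (by linarith) (by linarith) (by rw [eb]; linarith) (by linarith) hq0
        (by linarith) (by linarith) (by linarith)
      have c3 : 2 * (k : ℝ) * (a₁ + 1 + (k + 1)) - 2 * (h' - 1) * (a' + h') =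
          k * (μ + 1 - q - 2 * ((j - i) / 2)) - 2 * q * (a' + h') := by
        rw [ea, e4, e3, hrq]; ring
      linarith

/-- the window theorem -/
theorem WT (hL : IsL n L) (hn : 700 ≤ n) (V w : ℕ) (hwV : w ≤ V) (hV : 10 * (V : ℤ) ≤ n) :
    (KK n L V : ℝ) - KK n L w ≤ 5 / 2 * (V : ℝ) ^ 2 / (n - 3 * V) * (V - w) + 7 / 2 * V := by
  induction V using Nat.strong_induction_on generalizing w with
  | _ V ih =>
    have ih' : ∀ m < V, ∀ w ≤ m, (KK n L m : ℝ) - KK n L w ≤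
        5 / 2 * (m : ℝ) ^ 2 / (n - 3 * m) * (m - w) + 7 / 2 * m := by
      intro m hm w hw
      apply ih m hm w hw
      have : (m : ℤ) < V := by exact_mod_cast hm
      linarith
    have hnR : (700 : ℝ) ≤ n := by exact_mod_cast hn
    have hVR : 10 * (V : ℝ) ≤ n := by exact_mod_cast hV
    have hV0 : (0 : ℝ) ≤ V := by positivity
    have hS0 : 0 ≤ 5 / 2 * (V : ℝ) ^ 2 / (n - 3 * V) := by
      apply div_nonneg (by positivity)
      linarith
    have pos : ∀ w, 1 ≤ w → w ≤ V → (KK n L V : ℝ) - KK n L w ≤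
        5 / 2 * (V : ℝ) ^ 2 / (n - 3 * V) * (V - w) + 7 / 2 * V := by
      intro w h1 h2
      have hwR : (w : ℝ) ≤ V := by exact_mod_cast h2
      have hpos := mul_nonneg hS0 (sub_nonneg.2 hwR)
      rcases h2.eq_or_lt with h3 | h3
      · subst h3
        have : 0 ≤ 7 / 2 * (w : ℝ) := by positivity
        linarith
      · rcases le_or_gt (2 * KK n L V) (7 * (V : ℤ)) with h4 | h4
        · have h5 := K_nonneg hL w
          have h6 : (0 : ℝ) ≤ KK n L w := by exact_mod_cast h5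
          have h7 : 2 * (KK n L V : ℝ) ≤ 7 * V := by exact_mod_cast h4
          linarith
        · exact WTstep hL hn V hV ih' w h1 h3 h4
    rcases Nat.eq_zero_or_pos w with h0 | h0
    · subst h0
      rcases Nat.eq_zero_or_pos V with h1 | h1
      · subst h1
        simp
      · have h2 := pos 1 le_rfl h1
        have h3 : KK n L 1 = 0 := K_eq_zero hL 1 (by push_cast; linarith)
        rw [h3] at h2
        rw [K_zero hL]
        push_cast at h2 ⊢
        have h4 : 5 / 2 * (V : ℝ) ^ 2 / (n - 3 * V) * (V - 1) ≤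
            5 / 2 * (V : ℝ) ^ 2 / (n - 3 * V) * (V - 0) := by
          apply mul_le_mul_of_nonneg_left _ hS0
          linarith
        linarith
    · exact pos w h0 hwV

end Pool.Agent.Lib.MP_b072d9_co
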