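import Pool.Agent.Lib.MP_b072d9_co.NDefs

set_option autoImplicit false

namespace Pool.Agent.Lib.MP_b072d9_co

variable {n : ℤ} {H : ℕ} {L : ℕ → ℤ}

/-- label zero is allowed in competitors -/
theorem le0 (hL : IsLH n H L) (a b : ℕ) : L (a + b) ≤ L a + L b + cst n 0 a b := by
  induction a using Nat.strong_induction_on generalizing b with
  | _ a ih =>
    rcases Nat.eq_zero_or_pos a with h0 | h0
    · subst h0
      rw [hL.zero, Nat.zero_add]
      unfold cst
      push_cast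
      linarith
    · obtain ⟨h₁, p, q, ho, hs⟩ := hL.exists_opt a h0
      obtain ⟨⟨g1, g2⟩, g3⟩ := ho
      rw [hs] at g3
      have e1 := hL.le h₁ p (q + b) ⟨g1, g2⟩
      have e2 := ih q (by omega) b
      rw [show p + (q + b) + h₁ = a + b by omega] at e1
      have ha : (a : ℤ) = p + q + h₁ := by rw [← hs]; push_cast; ring
      have e3 : 0 ≤ ((p : ℤ) + h₁) * (b * h₁) := by positivity
      unfold cst at *
      rw [ha]
      push_cast at *
      linarith

/-- every label at most `H`, also zero, is allowed -/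
theorem leAll (hL : IsLH n H L) (h a b : ℕ) (hh : h ≤ H) :
    L (a + b + h) ≤ L a + L b + cst n h a b := by
  rcases Nat.eq_zero_or_pos h with h0 | h0
  · subst h0
    exact le0 hL a b
  · exact hL.le h a b ⟨h0, hh⟩

/-- (D1), all labels: `D(a) ≥ A (n - A - 2 B)` -/
theorem D1all (hL : IsLH n H L) {h a b : ℕ} (ho : OptH n H L h a b) :
    ((a : ℤ) + h) * (n - (a + h) - 2 * (b + h)) + KK n L a ≤ (a + 1) * (n - 3 - a) := by
  obtain ⟨⟨h1, h2⟩, h3⟩ := ho
  obtain ⟨g, rfl⟩ := Nat.exists_eq_add_of_le' h1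
  have e1 := leAll hL g (a + 1) b (by omega)
  rw [show a + 1 + b + g = a + b + (g + 1) by ring, h3, L_succ n L a] at e1
  unfold cst at e1
  push_cast at *
  linarith

/-- (D2): `D(a) ≤ A (n - 2 - A - 2 B)` with `A = a + 1 + h` -/
theorem D2all (hL : IsLH n H L) {h a b : ℕ} (hH : h + 1 ≤ H) (ho : OptH n H L h (a + 1) b) :
    ((a : ℤ) + 1) * (n - 3 - a) ≤
      (a + 1 + h) * (n - 2 - (a + 1 + h) - 2 * (b + h)) + KK n L a := by
  obtain ⟨⟨h1, h2⟩, h3⟩ := ho
  have e1 := hL.le (h + 1) a b ⟨by omega, hH⟩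
  rw [show a + b + (h + 1) = a + 1 + b + h by ring, h3, L_succ n L a] at e1
  unfold cst at e1
  push_cast at *
  linarith

/-- cheap lower bound for increments: `D(a + b + h - 1) ≥ (N - 1)(n - N + 1) - 2 A B` -/
theorem cheap (hL : IsLH n H L) {h a b u : ℕ} (ho : OptH n H L h a b) (hu : a + b + h = u + 1) :
    ((a : ℤ) + b + 2 * h - 1) * (n + 1 - (a + b + 2 * h)) - 2 * ((a : ℤ) + h) * (b + h) +
      KK n L u ≤ (u + 1) * (n - 3 - u) := by
  obtain ⟨⟨h1, h2⟩, h3⟩ := ho
  obtain ⟨g, rfl⟩ := Nat.exists_eq_add_of_le' h1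
  have e1 := leAll hL g a b (by omega)
  have hu' : a + b + g = u := by omega
  have hu2 : (u : ℤ) = a + b + g := by rw [← hu']; push_cast; ring
  rw [hu] at h3
  rw [hu'] at e1
  have e2 := L_succ n L u
  rw [h3] at e2
  unfold cst at e1 e2
  push_cast at *
  rw [hu2] at e2 ⊢
  linarith

/-- move of one vertex from a child of `X` to a child of `Y` -/
theorem Umove (hL : IsLH n H L) {h x x' k y y' : ℕ} (hX : OptH n H L h (x + 1) x')
    (hY : OptH n H L k y y')
    (hm : ∀ u v, u + v = (x + 1 + x' + h) + (y + y' + k) →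
      L (x + 1 + x' + h) + L (y + y' + k) ≤ L u + L v) :
    ((x : ℤ) + 1) * (n - 3 - x) - KK n L x + (x' + h) * (n - (x + 1 + x' + 2 * h) - (x + 1 + h)) ≤
      (y + 1) * (n - 3 - y) - KK n L y + (y' + k) * (n - 2 - (y + y' + 2 * k) - (y + k)) := by
  obtain ⟨h1, h2⟩ := hX
  obtain ⟨k1, k2⟩ := hY
  have e1 := hL.le h x x' h1
  have e2 := hL.le k (y + 1) y' k1
  have e3 := hm (x + x' + h) (y + 1 + y' + k) (by ring)
  rw [h2, k2] at e3
  rw [L_succ n L x] at e3
  rw [L_succ n L y] at e2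
  unfold cst at *
  push_cast at *
  linarith

/-- shift of a label unit from `X` to `Y` -/
theorem shiftDown (hL : IsLH n H L) {h x₁ x₂ k y₁ y₂ : ℕ} (hX : OptH n H L h x₁ x₂)
    (hY : L (y₁ + y₂ + k) = L y₁ + L y₂ + cst n k y₁ y₂) (hk : k + 1 ≤ H)
    (hm : ∀ u v, u + v = (x₁ + x₂ + h) + (y₁ + y₂ + k) →
      L (x₁ + x₂ + h) + L (y₁ + y₂ + k) ≤ L u + L v) :
    ((x₁ : ℤ) + x₂ + 2 * h - (y₁ + y₂ + 2 * k) - 2) *
        (2 * (n - 1) - 3 * ((x₁ + x₂ + 2 * h) + (y₁ + y₂ + 2 * k))) + ((x₁ : ℤ) - x₂) ^ 2 ≤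
      ((y₁ : ℤ) - y₂) ^ 2 := by
  obtain ⟨⟨h1, h2⟩, h3⟩ := hX
  obtain ⟨g, rfl⟩ := Nat.exists_eq_add_of_le' h1
  have e1 := leAll hL g x₁ x₂ (by omega)
  have e2 := hL.le (k + 1) y₁ y₂ ⟨by omega, hk⟩
  have e3 := hm (x₁ + x₂ + g) (y₁ + y₂ + (k + 1)) (by ring)
  rw [h3, hY] at e3
  unfold cst at *
  push_cast at *
  linarith

/-- shift of a label unit from `Y` to `X` -/
theorem shiftUp (hL : IsLH n H L) {h x₁ x₂ k y₁ y₂ : ℕ} (hX : OptH n H L h x₁ x₂)
    (hY : OptH n H L k y₁ y₂) (hh : h + 1 ≤ H)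
    (hm : ∀ u v, u + v = (x₁ + x₂ + h) + (y₁ + y₂ + k) →
      L (x₁ + x₂ + h) + L (y₁ + y₂ + k) ≤ L u + L v) :
    ((y₁ : ℤ) - y₂) ^ 2 ≤ ((x₁ : ℤ) + x₂ + 2 * h - (y₁ + y₂ + 2 * k) + 2) *
        (2 * (n - 1) - 3 * ((x₁ + x₂ + 2 * h) + (y₁ + y₂ + 2 * k))) + ((x₁ : ℤ) - x₂) ^ 2 := by
  obtain ⟨⟨h1, h2⟩, h3⟩ := hX
  obtain ⟨⟨k1, k2⟩, k3⟩ := hY
  obtain ⟨g, rfl⟩ := Nat.exists_eq_add_of_le' k1
  have e1 := hL.le (h + 1) x₁ x₂ ⟨by omega, hh⟩
  have e2 := leAll hL g y₁ y₂ (by omega)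
  have e3 := hm (x₁ + x₂ + (h + 1)) (y₁ + y₂ + g) (by ring)
  rw [h3, k3] at e3
  unfold cst at *
  push_cast at *
  linarith

/-- the last increment of a path node -/
theorem K_path (hL : IsLH n H L) {h u : ℕ} (ho : OptH n H L h 0 0) (hu : h = u + 1) :
    KK n L u ≤ (h - 1) * (5 * h - 1 - n) := by
  have e := cheap hL ho (by omega : 0 + 0 + h = u + 1)
  have hu' : (h : ℤ) = u + 1 := by exact_mod_cast hu
  push_cast at e
  have hu2 : (u : ℤ) = h - 1 := by linarith
  rw [hu2] at e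
  linarith

/-- growth of the defect through labels -/
theorem KC (hL : IsLH n H L) (u : ℕ) : ∀ h a b : ℕ, OptH n H L h a b → a + b + h = u + 1 →
    3 * (h : ℤ) ≤ n + 1 → KK n L u ≤ 2 * ((h : ℤ) - 1) * (u + 1) := by
  induction u using Nat.strong_induction_on with
  | _ u ih =>
    intro h a b ho hs h3
    have key : ∀ a b : ℕ, OptH n H L h a b → a + b + h = u + 1 → 1 ≤ a →
        KK n L u ≤ 2 * ((h : ℤ) - 1) * (u + 1) := by
      intro a b ho hs ha
      obtain ⟨a', rfl⟩ := Nat.exists_eq_add_of_le' ha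
      have e1 := CminusH hL ho
      rw [show a' + b + h = u by omega] at e1
      obtain ⟨h₁, p, q, ho₁, hs₁⟩ := hL.exists_opt (a' + 1) (by omega)
      have hle : h₁ ≤ h := N1H hL (h := h) (h₁ := h₁) (p := p) (q := q) (r := b)
        (by rw [hs₁]; exact ho) ho₁
      have hle' : (h₁ : ℤ) ≤ h := by exact_mod_cast hle
      have h1 : 1 ≤ h := ho.1.1
      have e2 := ih a' (by omega) h₁ p q ho₁ hs₁ (by linarith)
      have e3 : (u : ℤ) = a' + b + h := by
        have : u = a' + b + h := by omega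
        rw [this]; push_cast; ring
      have e4 : 0 ≤ ((h : ℤ) - h₁) * (a' + 1) := mul_nonneg (by linarith) (by positivity)
      rw [e3]
      linarith
    rcases Nat.eq_zero_or_pos a with ha | ha
    · rcases Nat.eq_zero_or_pos b with hb | hb
      · subst ha hb
        have e := K_path hL (u := u) ho (by omega)
        have h1 : 1 ≤ h := ho.1.1
        have e3 : (u : ℤ) + 1 = h := by
          have : u + 1 = h := by omega
          exact_mod_cast this
        have h1' : (1 : ℤ) ≤ h := by exact_mod_cast h1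
        rw [e3]
        have : 0 ≤ ((h : ℤ) - 1) * (n + 1 - 3 * h) := mul_nonneg (by linarith) (by linarith)
        linarith
      · exact key b a ho.swap (by omega) hb
    · exact key a b ho hs ha

/-- the defect is monotone if the labels are at most `(n+1)/3` -/
theorem K_mono3 (hL : IsLH n H L) (h3 : 3 * (H : ℤ) ≤ n + 1) (u : ℕ) :
    KK n L u ≤ KK n L (u + 1) := by
  induction u using Nat.strong_induction_on with
  | _ u ih =>
    obtain ⟨h, a, b, ho, hs⟩ := hL.exists_opt (u + 1) (by omega)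
    have key : ∀ a b : ℕ, OptH n H L h a b → a + b + h = u + 1 → 1 ≤ a →
        KK n L u ≤ KK n L (u + 1) := by
      intro a b ho hs ha
      obtain ⟨a', rfl⟩ := Nat.exists_eq_add_of_le' ha
      have e1 := CminusH hL ho
      have e2 := CplusH hL ho
      rw [show a' + b + h = u by omega] at e1
      rw [show a' + 1 + b + h = u + 1 by omega] at e2
      have e3 := ih a' (by have := ho.1.1; omega)
      linarith
    rcases Nat.eq_zero_or_pos a with ha | ha
    · rcases Nat.eq_zero_or_pos b with hb | hb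
      · subst ha hb
        have e := K_path hL (u := u) ho (by omega)
        have e2 := CplusH hL ho
        rw [show 0 + 0 + h = u + 1 by omega, K_zeroH hL] at e2
        have h1 : (1 : ℤ) ≤ h := by exact_mod_cast ho.1.1
        have h2 : (h : ℤ) ≤ H := by exact_mod_cast ho.1.2
        have : 0 ≤ ((h : ℤ) - 1) * (n + 1 - 3 * h) := mul_nonneg (by linarith) (by linarith)
        push_cast at e2
        linarith
      · exact key b a ho.swap (by omega) hb
    · exact key a b ho hs ha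

end Pool.Agent.Lib.MP_b072d9_co
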