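import Pool.Agent.Lib.MP_b072d9_co.NBase

set_option autoImplicit false

namespace Pool.Agent.Lib.MP_b072d9_co

/-- an optimal pair: nodes `(h; x₁, x₂)` and `(k; y₁, y₂)` in normal form, the first one heavy -/
structure Cfg (ν r p : ℕ) (L : ℕ → ℤ) (h x₁ x₂ k y₁ y₂ : ℕ) : Prop where
  hp : p ≤ 1
  hL : IsLH ((ν : ℤ) + 1) r L
  X : NF ((ν : ℤ) + 1) r L h x₁ x₂
  Y : NF ((ν : ℤ) + 1) r L k y₁ y₂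
  hr : h + 1 ≤ r
  tot : ν = x₁ + x₂ + h + (y₁ + y₂ + k) + 2 * r + p
  big : y₁ + y₂ + k + 2 + p ≤ x₁ + x₂ + h
  min : ∀ u v : ℕ, u + v = x₁ + x₂ + h + (y₁ + y₂ + k) →
    L (x₁ + x₂ + h) + L (y₁ + y₂ + k) ≤ L u + L v

variable {ν r p : ℕ} {L : ℕ → ℤ} {h x₁ x₂ k y₁ y₂ : ℕ}

theorem Cfg.h1 (C : Cfg ν r p L h x₁ x₂ k y₁ y₂) : 1 ≤ h := C.X.opt.1.1
theorem Cfg.k1 (C : Cfg ν r p L h x₁ x₂ k y₁ y₂) : 1 ≤ k := C.Y.opt.1.1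
theorem Cfg.kr (C : Cfg ν r p L h x₁ x₂ k y₁ y₂) : k ≤ r := C.Y.opt.1.2

/-- shift from `X` to `Y` -/
theorem Cfg.down (C : Cfg ν r p L h x₁ x₂ k y₁ y₂) (hk : k + 1 ≤ r) :
    ((x₁ : ℤ) + x₂ + 2 * h - (y₁ + y₂ + 2 * k) - 2) *
        (2 * ν - 3 * ((x₁ + x₂ + 2 * h) + (y₁ + y₂ + 2 * k))) + ((x₁ : ℤ) - x₂) ^ 2 ≤
      ((y₁ : ℤ) - y₂) ^ 2 := by
  have e := shiftDown C.hL C.X.opt C.Y.opt.2 hk C.min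
  rw [show (ν : ℤ) + 1 - 1 = ν by ring] at e
  exact e

/-- shift from `Y` to `X` -/
theorem Cfg.up (C : Cfg ν r p L h x₁ x₂ k y₁ y₂) :
    ((y₁ : ℤ) - y₂) ^ 2 ≤ ((x₁ : ℤ) + x₂ + 2 * h - (y₁ + y₂ + 2 * k) + 2) *
        (2 * ν - 3 * ((x₁ + x₂ + 2 * h) + (y₁ + y₂ + 2 * k))) + ((x₁ : ℤ) - x₂) ^ 2 := by
  have e := shiftUp C.hL C.X.opt C.Y.opt C.hr C.min
  rw [show (ν : ℤ) + 1 - 1 = ν by ring] at e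
  exact e

/-- `Λ ≥ 0` -/
theorem Cfg.lam (C : Cfg ν r p L h x₁ x₂ k y₁ y₂) (hk : k + 1 ≤ r) :
    3 * ((x₁ + x₂ + 2 * h) + (y₁ + y₂ + 2 * k)) ≤ 2 * ν := by
  have e1 := C.down hk
  have e2 := C.up
  have e3 : (0 : ℤ) ≤ 2 * ν - 3 * ((x₁ + x₂ + 2 * h) + (y₁ + y₂ + 2 * k)) := by linarith
  zify
  linarith

/-- the radius is at least `ν / 6` -/
theorem Cfg.rad (C : Cfg ν r p L h x₁ x₂ k y₁ y₂) (hk : k + 1 ≤ r) : ν + 3 ≤ 6 * r := by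
  have e1 := C.lam hk
  have e2 := C.tot
  have e3 := C.hp
  have e4 := C.h1
  have e5 := C.k1
  omega

end Pool.Agent.Lib.MP_b072d9_co
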