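import Pool.Agent.Lib.MP_b072d9_co.TDefs
import Pool.Agent.Lib.MP_b072d9_co.LCap

set_option autoImplicit false

namespace Pool.Agent.Lib.MP_b072d9_co

/-- normal form of an optimal node: ordered parts, the larger part minimal for its label -/
structure NF (n : ℤ) (H : ℕ) (L : ℕ → ℤ) (h a b : ℕ) : Prop where
  opt : OptH n H L h a b
  le : b ≤ a
  min : ∀ a' b' : ℕ, OptH n H L h a' b' → b' ≤ a' → a' + b' = a + b → a ≤ a'

/-- the numerical statement: `n = ν + 1`, excesses `a + b + h` and `F`, `p` the parity -/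
def NumericMain : Prop :=
  ∀ (ν r p : ℕ) (L : ℕ → ℤ), p ≤ 1 → IsLH ((ν : ℤ) + 1) r L → ∀ h a b F : ℕ, 1 ≤ h → h + 1 ≤ r →
    L (a + b + h) = L a + L b + cst ((ν : ℤ) + 1) h a b →
    ν = a + b + h + F + 2 * r + p → F + 2 + p ≤ a + b + h →
    (∀ u v : ℕ, u + v = a + b + h + F → L (a + b + h) + L F ≤ L u + L v) → False

namespace BT

/-- an optimal tree has no heavy branch at its centre -/
def NoHeavy : Prop :=
  ∀ (n r p : ℕ) (X R : BT), p ≤ 1 → Lev X → Lev R → ht X + 1 = r → ht R = r →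
    sz X + sz R + p = n → n < 2 * sz X →
    (∀ R₁ R₂ : BT, ht R₁ = r → ht R₂ = r → sz R₁ + sz R₂ + p = n + 1 →
        cost n X + cost n R ≤ cost n R₁ + cost n R₂) → False

end BT

/-- eccentricity of a vertex -/
noncomputable def ecc {n : ℕ} (T : SimpleGraph (Fin n)) (v : Fin n) : ℕ :=
  Finset.univ.sup (fun u => T.dist v u)

/-- `v` belongs to the centre -/
def IsCenter {n : ℕ} (T : SimpleGraph (Fin n)) (v : Fin n) : Prop := ∀ u, ecc T v ≤ ecc T u

/-- the distance (status) of a vertex -/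
noncomputable def status {n : ℕ} (T : SimpleGraph (Fin n)) (v : Fin n) : ℕ := ∑ u, T.dist v u

/-- `v` belongs to the median -/
def IsMedian {n : ℕ} (T : SimpleGraph (Fin n)) (v : Fin n) : Prop :=
  ∀ u, status T v ≤ status T u

/-- the Wiener index: sum over the unordered pairs of distinct vertices -/
noncomputable def wiener {n : ℕ} (T : SimpleGraph (Fin n)) : ℕ :=
  ∑ u, ∑ v, if u < v then T.dist u v else 0

/-- the diameter is `d` -/
def HasDiam {n : ℕ} (T : SimpleGraph (Fin n)) (d : ℕ) : Prop :=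
  (∀ u v, T.dist u v ≤ d) ∧ ∃ u v, T.dist u v = d

/-- `T` is maximal in the class of trees on `n` vertices with diameter `d` -/
def IsMaximal {n : ℕ} (T : SimpleGraph (Fin n)) (d : ℕ) : Prop :=
  T.IsTree ∧ HasDiam T d ∧
    ∀ T' : SimpleGraph (Fin n), T'.IsTree → HasDiam T' d → wiener T' ≤ wiener T

/-- the full statement of the problem -/
def CenterMedian : Prop :=
  ∀ (n d : ℕ), 1 ≤ d → d ≤ n - 1 → ∀ T : SimpleGraph (Fin n), IsMaximal T d →
    ∃ v, IsCenter T v ∧ IsMedian T v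

end Pool.Agent.Lib.MP_b072d9_co
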