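import Pool.Agent.Lib.MP_b072d9_co.NCfg

set_option autoImplicit false

namespace Pool.Agent.Lib.MP_b072d9_co

/-- child property of a normal form (will be `NF.child`) -/
def ChildProp (n : ℤ) (H : ℕ) (L : ℕ → ℤ) (h a b : ℕ) : Prop :=
  ∀ h₁ q₁ q₂ : ℕ, OptH n H L h₁ q₁ q₂ → q₁ + q₂ + h₁ = a → h₁ ≤ h ∧ q₁ ≤ b ∧ q₂ ≤ b

/-- P1: no optimal pair with empty second part -/
theorem bare_case (ν r p : ℕ) (L : ℕ → ℤ) (hp : p ≤ 1) (hL : IsLH ((ν : ℤ) + 1) r L)
    (h a b : ℕ) (hN : NF ((ν : ℤ) + 1) r L h a b) (hc : ChildProp ((ν : ℤ) + 1) r L h a b)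
    (hr : h + 1 ≤ r) (htot : ν = a + b + h + 2 * r + p) (hbig : 2 + p ≤ a + b + h)
    (hmin : ∀ u v : ℕ, u + v = a + b + h → L (a + b + h) ≤ L u + L v) : False := by
  have hh1 : 1 ≤ h := hN.opt.1.1
  have hba : b ≤ a := hN.le
  have hL0 : L 0 = 0 := hL.zero
  -- Step 1
  have s1 := shiftDown (k := 0) (y₁ := 0) (y₂ := 0) hL hN.opt
    (by simp [hL0, cst]) (by omega) (fun u v huv => by
      have := hmin u v (by simpa using huv)
      simpa [hL0] using this)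
  have hν : (ν : ℤ) = a + b + h + 2 * r + p := by rw [htot]; push_cast; ring
  have zh : (1 : ℤ) ≤ h := by exact_mod_cast hh1
  have zr : (h : ℤ) + 1 ≤ r := by exact_mod_cast hr
  have zbig : (2 : ℤ) + p ≤ a + b + h := by exact_mod_cast hbig
  have zp : (0 : ℤ) ≤ p := by positivity
  have za : (0 : ℤ) ≤ a := by positivity
  have zb : (0 : ℤ) ≤ b := by positivity
  have zba : (b : ℤ) ≤ a := by exact_mod_cast hba
  have s2 : 2 * (ν : ℤ) ≤ 3 * (a + b + 2 * h) := by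
    by_contra hcon
    push Not at hcon
    have h1 : 0 < ((a : ℤ) + b + 2 * h - 2) * (2 * ν - 3 * (a + b + 2 * h)) :=
      mul_pos (by linarith) (by linarith)
    have h2 := sq_nonneg ((a : ℤ) - b)
    push_cast at s1
    linarith
  have s3 : (a : ℤ) + b + 2 * h + h + 2 + p ≤ ν := by linarith
  have s4 : 3 * ((h : ℤ) + 2) ≤ ν := by linarith
  rcases Nat.eq_zero_or_pos b with hb | hb
  · subst hb
    rcases Nat.lt_or_ge a 2 with ha | ha
    · have : (a : ℤ) ≤ 1 := by exact_mod_cast (by omega : a ≤ 1)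
      push_cast at *
      linarith
    · obtain ⟨h₁, q₁, q₂, ho₁, hs₁⟩ := hL.exists_opt a (by omega)
      obtain ⟨c1, c2, c3⟩ := hc h₁ q₁ q₂ ho₁ hs₁
      have hq1 : q₁ = 0 := by omega
      have hq2 : q₂ = 0 := by omega
      subst hq1 hq2
      have hh : h₁ = a := by omega
      subst hh
      obtain ⟨g, rfl⟩ := Nat.exists_eq_add_of_le' (by omega : 1 ≤ h₁)
      have e1 := ho₁.2
      have e2 := hN.opt.2
      have e3 := hL.le h g 1 hN.opt.1
      have e4 := leAll hL g 0 0 (by have := hN.opt.1.2; omega)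
      have e5 := leAll hL 1 0 0 (by omega)
      rw [show 0 + 0 + (g + 1) = g + 1 by ring, hL0] at e1
      rw [show 0 + 0 + g = g by ring, hL0] at e4
      rw [show 0 + 0 + 1 = 1 by ring, hL0] at e5
      rw [show g + 1 + 0 + h = g + 1 + h by ring, hL0, e1] at e2
      rw [e2] at e3
      unfold cst at e3 e4 e5
      push_cast at *
      have zg : (1 : ℤ) ≤ g := by exact_mod_cast (by omega : 1 ≤ g)
      have zgh : (g : ℤ) + 1 ≤ h := by exact_mod_cast c1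
      have key : 0 < (g : ℤ) * (ν - 5 * (g + 1) + 2 * h) := mul_pos (by linarith) (by linarith)
      nlinarith
  · obtain ⟨b', rfl⟩ := Nat.exists_eq_add_of_le' hb
    have d2 := D2all hL hr hN.opt.swap
    obtain ⟨h₁, q₁, q₂, ho₁, hs₁⟩ := hL.exists_opt (b' + 1) (by omega)
    have hle : h₁ ≤ h := N1H hL (h := h) (h₁ := h₁) (p := q₁) (q := q₂) (r := a)
      (by rw [hs₁]; exact hN.opt.swap) ho₁
    have ch := cheap hL ho₁ hs₁
    have z1 : (q₁ : ℤ) + q₂ + h₁ = b' + 1 := by exact_mod_cast hs₁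
    have z2 : (h₁ : ℤ) ≤ h := by exact_mod_cast hle
    have z3 : (1 : ℤ) ≤ h₁ := by exact_mod_cast ho₁.1.1
    push_cast at *
    set N₁ : ℤ := b' + 1 + h₁ with hN₁
    have n1 : (2 : ℤ) ≤ N₁ := by linarith [(by positivity : (0 : ℤ) ≤ b')]
    have n2 : 2 * N₁ ≤ ν := by linarith
    have m1 : 2 * (2 * ((q₁ : ℤ) + h₁) * (q₂ + h₁)) ≤ N₁ ^ 2 := by
      have e : N₁ = (q₁ + h₁) + (q₂ + h₁) := by rw [hN₁]; linarith
      rw [e]
      nlinarith [sq_nonneg ((q₁ : ℤ) + h₁ - (q₂ + h₁))]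
    have e2 : (q₁ : ℤ) + q₂ + 2 * h₁ = N₁ := by rw [hN₁]; linarith
    rw [e2] at ch
    have m2 : 0 ≤ (N₁ - 1) * (ν - 2 * N₁) := mul_nonneg (by linarith) (by linarith)
    have m3 : 0 ≤ ((b' : ℤ) + 1 + h) * ((b' + 1 + h) + 2 * (a + h) - ν) :=
      mul_nonneg (by linarith) (by linarith)
    nlinarith

end Pool.Agent.Lib.MP_b072d9_co
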