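import Pool.Agent.Lib.MP_b072d9_co.NCfg

/-!
# Pieces P5 and P7 (helper28)
-/

set_option autoImplicit false

namespace Pool.Agent.Lib.MP_b072d9_co

/-- P5: comparison with the three-legged tree (any split of `Z = ν - 3 r - p`) -/
theorem T3_ineq {ν r p : ℕ} {L : ℕ → ℤ} {h x₁ x₂ k y₁ y₂ : ℕ}
    (C : Cfg ν r p L h x₁ x₂ k y₁ y₂) (z₁ z₂ z₃ : ℕ) (hz : z₁ + z₂ + z₃ + 3 * r + p = ν) :
    L (x₁ + x₂ + h) + L (y₁ + y₂ + k) ≤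
      L z₁ + L z₂ + L z₃ + ((z₁ : ℤ) + r + p) * (z₂ + r) * (z₃ + r) := by
  have h1 := C.tot
  have h2 := C.min z₁ (z₂ + z₃ + r) (by omega)
  have h3 := C.hL.le r z₂ z₃ ⟨by have := C.hr; omega, le_rfl⟩
  have h4 : (ν : ℤ) = z₁ + z₂ + z₃ + 3 * r + p := by exact_mod_cast hz.symm
  have h5 : cst ((ν : ℤ) + 1) r z₂ z₃ = ((z₁ : ℤ) + r + p) * (z₂ + r) * (z₃ + r) := by
    unfold cst
    rw [h4]
    ring
  rw [h5] at h3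
  linarith

/-- P7: the children of `X` are not much smaller than those of `Y` (sum of D1 for X, sum of D2 for Y) -/
theorem X_vs_Y {ν r p : ℕ} {L : ℕ → ℤ} {h x₁ x₂ k y₁ y₂ : ℕ}
    (C : Cfg ν r p L h x₁ x₂ k y₁ y₂) (hk : k + 1 ≤ r) (hkh : k < h) (hy2 : 1 ≤ y₂) :
    ((x₁ : ℤ) + x₂ + 2) * (2 * (ν - 2) - (x₁ + x₂)) + 2 * ((y₁ : ℤ) - y₂) ^ 2 +
        2 * (KK ((ν : ℤ) + 1) L (y₁ - 1) + KK ((ν : ℤ) + 1) L (y₂ - 1)) ≥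
      (y₁ + y₂) * (2 * (ν - 1) - (y₁ + y₂)) +
        2 * ((x₁ + x₂ + 2 * h) + (y₁ + y₂ + 2 * k)) := by
  have hlam := C.lam hk
  have hbig := C.big
  have a1 := D1all C.hL C.X.opt
  have a2 := D1all C.hL C.X.opt.swap
  have k1 := K_nonnegH C.hL x₁
  have k2 := K_nonnegH C.hL x₂
  have hyle : y₂ ≤ y₁ := C.Y.le
  obtain ⟨u, rfl⟩ := Nat.exists_eq_add_of_le' hy2
  obtain ⟨v, rfl⟩ := Nat.exists_eq_add_of_le' (hy2.trans hyle)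
  have b1 := D2all C.hL hk C.Y.opt
  have b2 := D2all C.hL hk C.Y.opt.swap
  simp only [Nat.add_sub_cancel]
  have hρ : (0 : ℤ) ≤ ((x₁ : ℤ) + x₂ + 2 * h) - ((v + 1) + (u + 1) + 2 * k) := by
    have h1 : ((v : ℤ) + 1 + (u + 1) + k + 2 + p) ≤ x₁ + x₂ + h := by exact_mod_cast hbig
    have h2 : (k : ℤ) < h := by exact_mod_cast hkh
    have h3 : (0 : ℤ) ≤ p := by positivity
    linarith
  have hΛ : (0 : ℤ) ≤ 2 * ν - 3 * (((x₁ : ℤ) + x₂ + 2 * h) + ((v + 1) + (u + 1) + 2 * k)) := by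
    have h1 : 3 * (((x₁ : ℤ) + x₂ + 2 * h) + ((v + 1) + (u + 1) + 2 * k)) ≤ 2 * ν := by
      exact_mod_cast hlam
    linarith
  have hm := mul_nonneg hρ hΛ
  push_cast at *
  linarith [sq_nonneg ((x₁ : ℤ) - x₂)]

end Pool.Agent.Lib.MP_b072d9_co
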