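import Pool.Agent.Lib.MP_b072d9_co.PBroom
import Pool.Agent.Lib.MP_b072d9_co.PIneq

/-!
# Piece P6: comparison with the three-legged tree for large children (helper99)
-/

set_option autoImplicit false

namespace Pool.Agent.Lib.MP_b072d9_co

namespace T3B

/-- six times the broom function -/
noncomputable def BB (ν z : ℝ) : ℝ := (3 * ν - 6) * z ^ 2 + (3 * ν - 4) * z - 2 * z ^ 3

theorem L_le_BB {ν H : ℕ} {L : ℕ → ℤ} (hL : IsLH ((ν : ℤ) + 1) H L) (z : ℕ) :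
    6 * (L z : ℝ) ≤ BB ν z := by
  have h1 := L_le_broom hL z
  have h2 : (6 * (L z : ℝ)) ≤ (z : ℝ) * (z + 1) * (3 * ((ν : ℝ) + 1) - 7 - 2 * z) := by
    exact_mod_cast h1
  unfold BB
  linarith

theorem split (ν : ℝ) (hν : 0 ≤ ν) (L : ℕ → ℤ) (hL : ∀ z : ℕ, 6 * (L z : ℝ) ≤ BB ν z) (Z : ℕ) :
    ∃ z₁ z₂ z₃ : ℕ, z₁ + z₂ + z₃ = Z ∧
      6 * ((L z₁ : ℝ) + L z₂ + L z₃) ≤ 3 * BB ν ((Z : ℝ) / 3) + 2 * ν := by
  obtain ⟨q, j, hj, hZ⟩ : ∃ q j : ℕ, j < 3 ∧ Z = 3 * q + j := ⟨Z / 3, Z % 3, by omega, by omega⟩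
  have hq : (0 : ℝ) ≤ q := Nat.cast_nonneg q
  interval_cases j
  · refine ⟨q, q, q, by omega, ?_⟩
    have h1 := hL q
    have h2 : (Z : ℝ) / 3 = q := by rw [hZ]; push_cast; ring
    rw [h2]
    linarith
  · refine ⟨q, q, q + 1, by omega, ?_⟩
    have h1 := hL q
    have h3 := hL (q + 1)
    have h2 : (Z : ℝ) / 3 = q + 1 / 3 := by rw [hZ]; push_cast; ring
    rw [h2]
    unfold BB at *
    push_cast at *
    nlinarith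
  · refine ⟨q, q + 1, q + 1, by omega, ?_⟩
    have h1 := hL q
    have h3 := hL (q + 1)
    have h2 : (Z : ℝ) / 3 = q + 2 / 3 := by rw [hZ]; push_cast; ring
    rw [h2]
    unfold BB at *
    push_cast at *
    nlinarith

theorem amgm {a b c : ℝ} (ha : 0 ≤ a) (hb : 0 ≤ b) (hc : 0 ≤ c) :
    27 * (a * b * c) ≤ (a + b + c) ^ 3 := by
  nlinarith [mul_nonneg ha (sq_nonneg (b - c)), mul_nonneg hb (sq_nonneg (c - a)),
    mul_nonneg hc (sq_nonneg (a - b)), mul_nonneg ha (sq_nonneg (a - b)),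
    mul_nonneg ha (sq_nonneg (a - c)), mul_nonneg hb (sq_nonneg (b - c)),
    mul_nonneg hb (sq_nonneg (a - b)), mul_nonneg hc (sq_nonneg (b - c)),
    mul_nonneg hc (sq_nonneg (c - a))]

theorem BB_mono {ν u w : ℝ} (hν : 156 ≤ ν) (h0 : 0 ≤ w) (huw : w ≤ u) (hu : u ≤ ν / 5) :
    BB ν w ≤ BB ν u := by
  have e : BB ν u - BB ν w =
      (u - w) * ((3 * ν - 6) * (u + w) + (3 * ν - 4) - 2 * (u ^ 2 + u * w + w ^ 2)) := by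
    unfold BB; ring
  have h1 : 0 ≤ (3 * ν - 6) * (u + w) + (3 * ν - 4) - 2 * (u ^ 2 + u * w + w ^ 2) := by
    have h2 : u ^ 2 + u * w + w ^ 2 ≤ (u + w) * (u + w) := by nlinarith
    have h3 : (u + w) * (u + w) ≤ (u + w) * ν := by
      apply mul_le_mul_of_nonneg_left <;> linarith
    have h4 : 0 ≤ (u + w) * (ν - 6) := mul_nonneg (by linarith) (by linarith)
    nlinarith
  have h2 : 0 ≤ (u - w) * ((3 * ν - 6) * (u + w) + (3 * ν - 4) - 2 * (u ^ 2 + u * w + w ^ 2)) :=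
    mul_nonneg (by linarith) h1
  linarith

theorem BB_step {ν t : ℝ} (ht : 0 ≤ t) :
    BB ν (t + 1 / 6) ≤ BB ν t + ν * t + 7 / 12 * ν := by
  unfold BB
  nlinarith [sq_nonneg t]

/-- broom defect -/
theorem defect {ν H : ℕ} {L : ℕ → ℤ} (hL : IsLH ((ν : ℤ) + 1) H L) (hν : 156 ≤ ν) (x : ℕ)
    (hx : 10 * x ≤ ν + 1) : BB ν x - ν * (x : ℝ) ^ 2 / 70 ≤ 6 * (L x : ℝ) := by
  have h1 := broom_le_L hL x (by omega)
  have h2 : 7 * ((ν : ℝ) + 1 - 3 * x) * ((x : ℝ) * (x + 1) * (3 * ((ν : ℝ) + 1) - 7 - 2 * x) - 6 * L x) ≤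
      6 * (x : ℝ) ^ 2 * (x + 1) ^ 2 := by exact_mod_cast h1
  have e : (x : ℝ) * (x + 1) * (3 * ((ν : ℝ) + 1) - 7 - 2 * x) = BB ν x := by unfold BB; ring
  rw [e] at h2
  have hν' : (156 : ℝ) ≤ ν := by exact_mod_cast hν
  have hx' : 10 * (x : ℝ) ≤ ν + 1 := by exact_mod_cast hx
  have hx0 : (0 : ℝ) ≤ x := Nat.cast_nonneg x
  have hpos : 0 < 7 * ((ν : ℝ) + 1 - 3 * x) := by linarith
  have h3 : 60 * ((x : ℝ) + 1) ^ 2 ≤ ν * ((ν : ℝ) + 1 - 3 * x) := by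
    have h4 : ((x : ℝ) + 1) ^ 2 ≤ (((ν : ℝ) + 11) / 10) ^ 2 := by
      apply pow_le_pow_left₀ (by linarith); linarith
    have h5 : (ν : ℝ) * (7 / 10 * (ν + 1)) ≤ ν * ((ν : ℝ) + 1 - 3 * x) := by
      apply mul_le_mul_of_nonneg_left <;> linarith
    nlinarith
  have h6 : 6 * (x : ℝ) ^ 2 * (x + 1) ^ 2 ≤ 7 * ((ν : ℝ) + 1 - 3 * x) * (ν * (x : ℝ) ^ 2 / 70) := by
    have := mul_le_mul_of_nonneg_left h3 (by positivity : 0 ≤ (x : ℝ) ^ 2 / 10)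
    linarith
  have h7 := h2.trans h6
  have h8 := le_of_mul_le_mul_left h7 hpos
  linarith

/-- final numerical estimate -/
theorem fin_est {ν t x₁ x₂ y₁ y₂ : ℝ} (hν : 156 ≤ ν) (ht : 2 ≤ t) (hs : x₁ + x₂ + y₁ + y₂ = 4 * t)
    (h1 : 0 ≤ x₁) (h2 : 0 ≤ x₂) (h3 : 0 ≤ y₁) (h4 : 0 ≤ y₂) (g1 : 10 * x₁ ≤ ν + 1)
    (g2 : 10 * x₂ ≤ ν + 1) (g3 : 10 * y₁ ≤ ν + 1) (g4 : 10 * y₂ ≤ ν + 1) :
    12 * (t * (t + 1) * (t + 2)) + 6 / 70 * ν * (x₁ ^ 2 + x₂ ^ 2 + y₁ ^ 2 + y₂ ^ 2) ≤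
      2 * ν * t ^ 2 := by
  have ht1 : 10 * t ≤ ν + 1 := by linarith
  rcases le_total (40 * t) (ν + 1) with hc | hc
  · have q : x₁ ^ 2 + x₂ ^ 2 + y₁ ^ 2 + y₂ ^ 2 ≤ 16 * t ^ 2 := by
      have : (x₁ + x₂ + y₁ + y₂) ^ 2 = 16 * t ^ 2 := by rw [hs]; ring
      nlinarith [mul_nonneg h1 h2, mul_nonneg h1 h3, mul_nonneg h1 h4, mul_nonneg h2 h3,
        mul_nonneg h2 h4, mul_nonneg h3 h4]
    have q2 : ν * (x₁ ^ 2 + x₂ ^ 2 + y₁ ^ 2 + y₂ ^ 2) ≤ ν * (16 * t ^ 2) :=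
      mul_le_mul_of_nonneg_left q (by linarith)
    have q3 : 210 * ((t + 1) * (t + 2)) ≤ 11 * (ν * t) := by
      rcases le_total t 4 with h | h
      · nlinarith
      · nlinarith
    have q4 := mul_le_mul_of_nonneg_left q3 (by linarith : 0 ≤ t)
    nlinarith
  · have q : x₁ ^ 2 + x₂ ^ 2 + y₁ ^ 2 + y₂ ^ 2 ≤ (ν + 1) / 10 * (4 * t) := by
      rw [← hs]
      nlinarith [mul_nonneg h1 (by linarith : 0 ≤ ν + 1 - 10 * x₁),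
        mul_nonneg h2 (by linarith : 0 ≤ ν + 1 - 10 * x₂),
        mul_nonneg h3 (by linarith : 0 ≤ ν + 1 - 10 * y₁),
        mul_nonneg h4 (by linarith : 0 ≤ ν + 1 - 10 * y₂)]
    have q2 : ν * (x₁ ^ 2 + x₂ ^ 2 + y₁ ^ 2 + y₂ ^ 2) ≤ ν * ((ν + 1) / 10 * (4 * t)) :=
      mul_le_mul_of_nonneg_left q (by linarith)
    have q3 : 2100 * ((t + 1) * (t + 2)) + 6 * (ν * (ν + 1)) ≤ 350 * (ν * t) := by
      nlinarith [mul_nonneg (by linarith : 0 ≤ 40 * t - (ν + 1)) (by linarith : 0 ≤ ν + 1 - 10 * t)]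
    have q4 := mul_le_mul_of_nonneg_left q3 (by linarith : 0 ≤ t)
    nlinarith

/-- the lower bound for the two nodes -/
theorem lower {V x₁ x₂ h y₁ y₂ k Λ : ℝ} (hV : 156 ≤ V) (gh : 1 ≤ h) (gk : 1 ≤ k) (f1 : 10 * x₁ ≤ V + 1) (f2 : 10 * x₂ ≤ V + 1)
    (f3 : 10 * y₁ ≤ V + 1) (f4 : 10 * y₂ ≤ V + 1)
    (hΛ : Λ = 2 * V - 3 * ((x₁ + x₂ + 2 * h) + (y₁ + y₂ + 2 * k))) (hΛ0 : 0 ≤ Λ) :
    4 * BB V ((x₁ + x₂ + y₁ + y₂) / 4) + 2 / 9 * V ^ 3 - Λ * V ^ 2 / 6 ≤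
      BB V x₁ + BB V x₂ + BB V y₁ + BB V y₂ + 6 * ((x₁ + h) * (x₂ + h) * (V - x₁ - x₂ - 2 * h) +
          (y₁ + k) * (y₂ + k) * (V - y₁ - y₂ - 2 * k)) := by
  have ident : 432 * ((x₁ + h) * (x₂ + h) * (V - x₁ - x₂ - 2 * h) +
      (y₁ + k) * (y₂ + k) * (V - y₁ - y₂ - 2 * k)) =
      16 * V ^ 3 - 12 * Λ * V ^ 2 + (27 * Λ * ((x₁ + x₂ + 2 * h) - (y₁ + y₂ + 2 * k)) ^ 2 + Λ ^ 3) -
      108 * ((x₁ - x₂) ^ 2 * (V - x₁ - x₂ - 2 * h) + (y₁ - y₂) ^ 2 * (V - y₁ - y₂ - 2 * k)) := by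
    rw [hΛ]; ring
  have hΛρ : 0 ≤ 27 * Λ * ((x₁ + x₂ + 2 * h) - (y₁ + y₂ + 2 * k)) ^ 2 + Λ ^ 3 := by positivity
  have bx : BB V x₁ + BB V x₂ = 2 * BB V ((x₁ + x₂) / 2) +
      (3 / 2 * ((x₁ - x₂) ^ 2 * (V - x₁ - x₂ - 2 * h)) + 3 * ((x₁ - x₂) ^ 2 * (h - 1))) := by
    unfold BB; ring
  have by' : BB V y₁ + BB V y₂ = 2 * BB V ((y₁ + y₂) / 2) +
      (3 / 2 * ((y₁ - y₂) ^ 2 * (V - y₁ - y₂ - 2 * k)) + 3 * ((y₁ - y₂) ^ 2 * (k - 1))) := by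
    unfold BB; ring
  have bb : 2 * BB V ((x₁ + x₂) / 2) + 2 * BB V ((y₁ + y₂) / 2) =
      4 * BB V ((x₁ + x₂ + y₁ + y₂) / 4) + 1 / 4 * (x₁ + x₂ - y₁ - y₂) ^ 2 *
        (3 * V - 6 - 6 * ((x₁ + x₂ + y₁ + y₂) / 4)) := by
    unfold BB; ring
  have bb0 : 0 ≤ 1 / 4 * (x₁ + x₂ - y₁ - y₂) ^ 2 * (3 * V - 6 - 6 * ((x₁ + x₂ + y₁ + y₂) / 4)) :=
    mul_nonneg (by positivity) (by linarith)
  have ix0 : 0 ≤ (x₁ - x₂) ^ 2 * (h - 1) := mul_nonneg (sq_nonneg _) (by linarith)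
  have iy0 : 0 ≤ (y₁ - y₂) ^ 2 * (k - 1) := mul_nonneg (sq_nonneg _) (by linarith)
  generalize (x₁ - x₂) ^ 2 * (h - 1) = a1 at *
  generalize (y₁ - y₂) ^ 2 * (k - 1) = a2 at *
  generalize (x₁ - x₂) ^ 2 * (V - x₁ - x₂ - 2 * h) = a3 at *
  generalize (y₁ - y₂) ^ 2 * (V - y₁ - y₂ - 2 * k) = a4 at *
  generalize (x₁ + h) * (x₂ + h) * (V - x₁ - x₂ - 2 * h) = a5 at *
  generalize (y₁ + k) * (y₂ + k) * (V - y₁ - y₂ - 2 * k) = a6 at *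
  generalize 27 * Λ * ((x₁ + x₂ + 2 * h) - (y₁ + y₂ + 2 * k)) ^ 2 + Λ ^ 3 = a7 at *
  generalize 1 / 4 * (x₁ + x₂ - y₁ - y₂) ^ 2 * (3 * V - 6 - 6 * ((x₁ + x₂ + y₁ + y₂) / 4)) = a8 at *
  linarith only [ident, hΛρ, bx, by', bb, bb0, ix0, iy0]

/-- the final deduction -/
theorem deduce {V S Λ Q : ℝ} (hV : 156 ≤ V)
    (main : BB V (S / 4) - 3 * V * (S / 4) - 7 / 4 * V ≤ Λ * V ^ 2 / 6 + 2 * V + V / 70 * Q)
    (fe : 12 * (S / 4 * (S / 4 + 1) * (S / 4 + 2)) + 6 / 70 * V * Q ≤ 2 * V * (S / 4) ^ 2) :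
    S ^ 2 ≤ Λ * V + 24 := by
  have eB : BB V (S / 4) =
      3 * V * ((S / 4) ^ 2 + S / 4) - 2 * (S / 4 * (S / 4 + 1) * (S / 4 + 2)) := by
    unfold BB; ring
  rw [eB] at main
  have fin : V * S ^ 2 ≤ V * (Λ * V + 24) := by
    have e : Λ * V ^ 2 = V * (Λ * V) := by ring
    rw [e] at main
    have e3 : V * (Λ * V + 24) = V * (Λ * V) + 24 * V := by ring
    rw [e3]
    generalize V * (Λ * V) = a at *
    have e2 : V * S ^ 2 = 16 * (V * (S / 4) ^ 2) := by ring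
    rw [e2]
    generalize S / 4 * (S / 4 + 1) * (S / 4 + 2) = b at *
    have m1 : 3 * (V * (S / 4) ^ 2) - 2 * b - 7 / 4 * V ≤ a / 6 + 2 * V + 1 / 70 * (V * Q) := by
      linarith only [main]
    have m2 : 12 * b + 6 / 70 * (V * Q) ≤ 2 * (V * (S / 4) ^ 2) := by linarith only [fe]
    generalize V * (S / 4) ^ 2 = c at *
    generalize V * Q = d at *
    linarith only [m1, m2, hV]
  exact le_of_mul_le_mul_left fin (by linarith)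

end T3B

open T3B in
/-- P6: large children: `(Σ children)² ≤ Λ ν + 24` -/
theorem T3_big {ν r p : ℕ} {L : ℕ → ℤ} {h x₁ x₂ k y₁ y₂ : ℕ}
    (C : Cfg ν r p L h x₁ x₂ k y₁ y₂) (hk : k + 1 ≤ r) (hν : 156 ≤ ν)
    (hx1 : 10 * x₁ ≤ ν + 1) (hy1 : 10 * y₁ ≤ ν + 1) (hS : 8 ≤ x₁ + x₂ + y₁ + y₂) :
    ((x₁ : ℤ) + x₂ + y₁ + y₂) ^ 2 ≤
      (2 * ν - 3 * ((x₁ + x₂ + 2 * h) + (y₁ + y₂ + 2 * k))) * ν + 24 := by
  have htot := C.tot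
  have hlam := C.lam hk
  have hp := C.hp
  have hxx := C.X.le
  have hyy := C.Y.le
  have h1 := C.h1
  have k1 := C.k1
  have hx2 : 10 * x₂ ≤ ν + 1 := by omega
  have hy2 : 10 * y₂ ≤ ν + 1 := by omega
  -- real quantities
  have hΛ0 : (0 : ℝ) ≤ 2 * ν - 3 * ((x₁ + x₂ + 2 * h) + (y₁ + y₂ + 2 * k)) := by
    have : (3 * (((x₁ : ℝ) + x₂ + 2 * h) + (y₁ + y₂ + 2 * k))) ≤ 2 * ν := by exact_mod_cast hlam
    linarith
  have hV156 : (156 : ℝ) ≤ ν := by exact_mod_cast hν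
  have hS8 : 8 ≤ (x₁ : ℝ) + x₂ + y₁ + y₂ := by exact_mod_cast hS
  have f1 : 10 * (x₁ : ℝ) ≤ ν + 1 := by exact_mod_cast hx1
  have f2 : 10 * (x₂ : ℝ) ≤ ν + 1 := by exact_mod_cast hx2
  have f3 : 10 * (y₁ : ℝ) ≤ ν + 1 := by exact_mod_cast hy1
  have f4 : 10 * (y₂ : ℝ) ≤ ν + 1 := by exact_mod_cast hy2
  have g1 : (0 : ℝ) ≤ x₁ := Nat.cast_nonneg _
  have g2 : (0 : ℝ) ≤ x₂ := Nat.cast_nonneg _
  have g3 : (0 : ℝ) ≤ y₁ := Nat.cast_nonneg _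
  have g4 : (0 : ℝ) ≤ y₂ := Nat.cast_nonneg _
  have gh : (1 : ℝ) ≤ h := by exact_mod_cast h1
  have gk : (1 : ℝ) ≤ k := by exact_mod_cast k1
  have gp : (p : ℝ) ≤ 1 := by exact_mod_cast hp
  have gp0 : (0 : ℝ) ≤ p := Nat.cast_nonneg _
  have gr0 : (0 : ℝ) ≤ r := Nat.cast_nonneg _
  have htotR : (ν : ℝ) = x₁ + x₂ + h + (y₁ + y₂ + k) + 2 * r + p := by exact_mod_cast htot
  have goalR : ((x₁ : ℝ) + x₂ + y₁ + y₂) ^ 2 ≤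
      (2 * (ν : ℝ) - 3 * ((x₁ + x₂ + 2 * h) + (y₁ + y₂ + 2 * k))) * ν + 24 := by
    rcases Nat.lt_or_ge ν (3 * r + p) with hZ | hZ
    · have hZR : (ν : ℝ) + 1 ≤ 3 * r + p := by exact_mod_cast hZ
      generalize hSd : (x₁ : ℝ) + x₂ + y₁ + y₂ = S at *
      generalize hΛd : 2 * (ν : ℝ) - 3 * ((x₁ + x₂ + 2 * h) + (y₁ + y₂ + 2 * k)) = Λ at *
      have e1 : 3 * S ≤ Λ := by linarith
      have e2 : S ≤ ν := by linarith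
      have e3 : S ^ 2 ≤ S * ν := by rw [sq]; exact mul_le_mul_of_nonneg_left e2 (by linarith)
      have e4 : 3 * S * ν ≤ Λ * ν := mul_le_mul_of_nonneg_right e1 (by linarith)
      have e5 : 0 ≤ S * ν := mul_nonneg (by linarith) (by linarith)
      linarith
    · obtain ⟨Z, hZe⟩ := Nat.exists_eq_add_of_le hZ
      obtain ⟨z₁, z₂, z₃, hz, hLz⟩ := split (ν : ℝ) (by linarith) L (fun z => L_le_BB C.hL z) Z
      have hT := T3_ineq C z₁ z₂ z₃ (by omega)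
      have hTR : (L (x₁ + x₂ + h) : ℝ) + L (y₁ + y₂ + k) ≤
          L z₁ + L z₂ + L z₃ + ((z₁ : ℝ) + r + p) * (z₂ + r) * (z₃ + r) := by exact_mod_cast hT
      have hsum : ((z₁ : ℝ) + r + p) + (z₂ + r) + (z₃ + r) = ν := by
        have : z₁ + r + p + (z₂ + r) + (z₃ + r) = ν := by omega
        rw [← this]; push_cast; ring
      have hprod : 27 * (((z₁ : ℝ) + r + p) * (z₂ + r) * (z₃ + r)) ≤ (ν : ℝ) ^ 3 := by
        rw [← hsum]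
        exact amgm (by positivity) (by positivity) (by positivity)
      have hZR : (Z : ℝ) = ν - 3 * r - p := by
        rw [hZe]; push_cast; ring
      have hw0 : (0 : ℝ) ≤ (Z : ℝ) / 3 := by positivity
      have hwt : (Z : ℝ) / 3 ≤ ((x₁ : ℝ) + x₂ + y₁ + y₂) / 4 + 1 / 6 := by
        rw [hZR]
        linarith
      have hS4 : ((x₁ : ℝ) + x₂ + y₁ + y₂) / 4 ≤ (ν + 1) / 10 := by linarith
      have hBw : BB ν ((Z : ℝ) / 3) ≤ BB ν (((x₁ : ℝ) + x₂ + y₁ + y₂) / 4 + 1 / 6) :=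
        BB_mono hV156 hw0 hwt (by linarith)
      have hBs := BB_step (ν := (ν : ℝ)) (t := ((x₁ : ℝ) + x₂ + y₁ + y₂) / 4) (by linarith)
      -- the two nodes
      have hX := C.X.opt.2
      have hY := C.Y.opt.2
      have hXR : (L (x₁ + x₂ + h) : ℝ) =
          L x₁ + L x₂ + ((x₁ : ℝ) + h) * (x₂ + h) * (ν - x₁ - x₂ - 2 * h) := by
        rw [hX]; unfold cst; push_cast; ring
      have hYR : (L (y₁ + y₂ + k) : ℝ) =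
          L y₁ + L y₂ + ((y₁ : ℝ) + k) * (y₂ + k) * (ν - y₁ - y₂ - 2 * k) := by
        rw [hY]; unfold cst; push_cast; ring
      have d1 := defect C.hL hν x₁ hx1
      have d2 := defect C.hL hν x₂ hx2
      have d3 := defect C.hL hν y₁ hy1
      have d4 := defect C.hL hν y₂ hy2
      have lo := lower hV156 gh gk f1 f2 f3 f4 rfl hΛ0
      have fe := fin_est (ν := (ν : ℝ)) (t := ((x₁ : ℝ) + x₂ + y₁ + y₂) / 4) hV156 (by linarith)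
        (by ring) g1 g2 g3 g4 f1 f2 f3 f4
      refine deduce hV156 ?_ fe
      generalize 2 * (ν : ℝ) - 3 * ((x₁ + x₂ + 2 * h) + (y₁ + y₂ + 2 * k)) = Λ at *
      generalize ((x₁ : ℝ) + x₂ + y₁ + y₂) / 4 = t at *
      generalize ((x₁ : ℝ) + h) * (x₂ + h) * (ν - x₁ - x₂ - 2 * h) = pX at *
      generalize ((y₁ : ℝ) + k) * (y₂ + k) * (ν - y₁ - y₂ - 2 * k) = pY at *
      generalize ((z₁ : ℝ) + r + p) * (z₂ + r) * (z₃ + r) = P at *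
      linarith only [hTR, hXR, hYR, hLz, hprod, hBw, hBs, d1, d2, d3, d4, lo]
  exact_mod_cast goalR

end Pool.Agent.Lib.MP_b072d9_co
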