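import Pool.Agent.Lib.MP_b072d9_co.NCfg

/-!
# Piece P4: comparison of `L` with brooms (helper28)
-/

set_option autoImplicit false

namespace Pool.Agent.Lib.MP_b072d9_co

/-- P4a: upper bound by brooms (from `K ≥ 0`) -/
theorem L_le_broom {n : ℤ} {H : ℕ} {L : ℕ → ℤ} (hL : IsLH n H L) (z : ℕ) :
    6 * L z ≤ (z : ℤ) * (z + 1) * (3 * n - 7 - 2 * z) := by
  induction z with
  | zero => rw [hL.zero]; push_cast; linarith
  | succ z ih =>
    have h1 := K_nonnegH hL z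
    have h2 := L_succ n L z
    rw [h2]
    push_cast
    nlinarith

/-- P4b: lower bound by brooms -/
theorem broom_le_L {n : ℤ} {H : ℕ} {L : ℕ → ℤ} (hL : IsLH n H L) (x : ℕ) (hx : 5 * (x : ℤ) ≤ n + 1) :
    7 * (n - 3 * x) * ((x : ℤ) * (x + 1) * (3 * n - 7 - 2 * x) - 6 * L x) ≤
      6 * (x : ℤ) ^ 2 * (x + 1) ^ 2 := by
  have key : ∀ m : ℕ, m ≤ x →
      7 * (n - 3 * x) * ((m : ℤ) * (m + 1) * (3 * n - 7 - 2 * m) - 6 * L m) ≤
        6 * (m : ℤ) ^ 2 * (m + 1) ^ 2 := by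
    intro m
    induction m with
    | zero => intro _; rw [hL.zero]; push_cast; linarith
    | succ m ih =>
      intro hm
      have h1 := ih (by omega)
      have h2 := K_nonnegH hL m
      have hmx : ((m : ℤ) + 1) ≤ x := by exact_mod_cast hm
      have h3 := K_upH hL m (by linarith)
      have h4 : 7 * (n - 3 * x) * KK n L m ≤ 4 * ((m : ℤ) + 1) ^ 3 := by
        refine le_trans ?_ h3
        exact mul_le_mul_of_nonneg_right (by linarith) h2
      have h5 : (((m + 1 : ℕ) : ℤ) * ((m + 1 : ℕ) + 1) * (3 * n - 7 - 2 * ((m + 1 : ℕ) : ℤ)) -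
          6 * L (m + 1)) = ((m : ℤ) * (m + 1) * (3 * n - 7 - 2 * m) - 6 * L m) + 6 * KK n L m := by
        rw [L_succ n L m]
        push_cast
        ring
      rw [h5]
      push_cast
      have h6 : 7 * (n - 3 * x) * (((m : ℤ) * (m + 1) * (3 * n - 7 - 2 * m) - 6 * L m) +
          6 * KK n L m) = 7 * (n - 3 * x) * ((m : ℤ) * (m + 1) * (3 * n - 7 - 2 * m) - 6 * L m) +
          6 * (7 * (n - 3 * x) * KK n L m) := by ring
      have h7 : 6 * ((m : ℤ) + 1) ^ 2 * (m + 1 + 1) ^ 2 =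
          6 * (m : ℤ) ^ 2 * (m + 1) ^ 2 + 6 * (4 * ((m : ℤ) + 1) ^ 3) := by ring
      rw [h6, h7]
      linarith
  exact key x le_rfl

/-- P4c: exact broom value in the zero range -/
theorem L_eq_broom {n : ℤ} {H : ℕ} {L : ℕ → ℤ} (hL : IsLH n H L) (x : ℕ)
    (hx : ((x : ℤ) + 2) ^ 2 ≤ 2 * (n - 1)) :
    6 * L x = (x : ℤ) * (x + 1) * (3 * n - 7 - 2 * x) := by
  refine L_broomH hL x fun s hs => K_eq_zeroH hL s ?_
  have h1 : ((s : ℤ) + 1) ≤ x := by exact_mod_cast hs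
  have h2 : (0 : ℤ) ≤ s := by positivity
  nlinarith

end Pool.Agent.Lib.MP_b072d9_co
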