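import Pool.Agent.Lib.MP_b072d9_co.NCfg

set_option autoImplicit false

namespace Pool.Agent.Lib.MP_b072d9_co

/-- the core of P3 for a suitable ordering of the children -/
theorem case_one_core {n : ℤ} {ν r : ℕ} {L : ℕ → ℤ} {h x x' k y y' : ℕ} (hn : n = (ν : ℤ) + 1)
    (hL : IsLH n r L) (hX : OptH n r L h (x + 1) x') (hY : OptH n r L k y y') (hhk : h ≤ k)
    (hyx : y ≤ x) (hbig : y + y' + k + 2 ≤ x + 1 + x' + h)
    (hlam : 3 * ((x + 1 + x' + 2 * h) + (y + y' + 2 * k)) ≤ 2 * ν)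
    (hmin : ∀ u v : ℕ, u + v = (x + 1 + x' + h) + (y + y' + k) →
      L (x + 1 + x' + h) + L (y + y' + k) ≤ L u + L v)
    (hkey : 3 * (KK n L x - KK n L y) < ν + 6 * ((x : ℤ) - y) * (h - 1)) : False := by
  have e := Umove hL hX hY hmin
  subst hn
  obtain ⟨η, rfl⟩ := Nat.exists_eq_add_of_le hhk
  zify at hyx hbig hlam
  have hh : (0 : ℤ) ≤ h := by positivity
  have hη : (0 : ℤ) ≤ η := by positivity
  have hy' : (0 : ℤ) ≤ y' := by positivity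
  have hS : ∃ S : ℤ, S = (ν : ℤ) - (x + 1 + x' + 2 * h) - (y + y' + 2 * (h + η)) := ⟨_, rfl⟩
  obtain ⟨S, hS⟩ := hS
  have hQ : ∃ Q : ℤ, Q = (ν : ℤ) - 2 * y - h - (h + η) := ⟨_, rfl⟩
  obtain ⟨Q, hQ⟩ := hQ
  have hρ : ∃ ρ : ℤ, ρ = ((x : ℤ) + 1 + x' + 2 * h) - (y + y' + 2 * (h + η)) := ⟨_, rfl⟩
  obtain ⟨ρ, hρ⟩ := hρ
  push_cast at e
  have key : ((η : ℤ) - 1) * Q + 2 * (y' + (h + η)) + ρ * (S + 1) + 2 * ((x : ℤ) - y) * (h - 1) ≤
      KK ((ν : ℤ) + 1) L x - KK ((ν : ℤ) + 1) L y := by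
    rw [hS, hQ, hρ]
    linarith
  have hS3 : (ν : ℤ) ≤ 3 * S := by rw [hS]; linarith
  have hS0 : 0 ≤ S := by
    have : (0 : ℤ) ≤ ν := by positivity
    linarith
  have hQS : S + 2 * y' + 2 * (h + η) + 2 ≤ Q := by rw [hS, hQ]; linarith
  have hE : S ≤ ((η : ℤ) - 1) * Q + 2 * (y' + (h + η)) + ρ * (S + 1) := by
    rcases Nat.eq_zero_or_pos η with h0 | h0
    · subst h0
      push_cast at *
      have e1 : 2 ≤ ρ := by rw [hρ]; linarith
      have e2 : ((0 : ℤ) - 1) * Q + 2 * (y' + (h + 0)) + ρ * (S + 1) = (ρ - 1) * S := by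
        have : Q - 2 * (y' + (h + 0)) = S + ρ := by rw [hS, hQ, hρ]; ring
        linarith
      have e3 : S ≤ (ρ - 1) * S := by nlinarith
      linarith
    · have h1 : (1 : ℤ) ≤ η := by exact_mod_cast h0
      rcases le_or_gt 1 ρ with h2 | h2
      · have t1 : 0 ≤ ((η : ℤ) - 1) * Q := mul_nonneg (by linarith) (by linarith)
        have t2 : S + 1 ≤ ρ * (S + 1) := by nlinarith
        linarith
      · have h3 : -ρ ≤ (η : ℤ) - 2 := by rw [hρ]; linarith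
        have t1 : ((η : ℤ) - 1) * (S + 1) ≤ ((η : ℤ) - 1) * Q :=
          mul_le_mul_of_nonneg_left (by linarith) (by linarith)
        have t2 : -((η : ℤ) - 2) * (S + 1) ≤ ρ * (S + 1) :=
          mul_le_mul_of_nonneg_right (by linarith) (by linarith)
        linarith
  linarith

/-- P3 -/
theorem case_one {ν r p : ℕ} {L : ℕ → ℤ} {h x₁ x₂ k y₁ y₂ : ℕ}
    (C : Cfg ν r p L h x₁ x₂ k y₁ y₂) (hk : k + 1 ≤ r) (hhk : h ≤ k)
    (hkey : ∀ V w : ℕ, w ≤ V → V + 1 ≤ x₁ →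
      3 * (KK ((ν : ℤ) + 1) L V - KK ((ν : ℤ) + 1) L w) < ν + 6 * ((V : ℤ) - w) * (h - 1)) :
    False := by
  have hlam := C.lam hk
  have hbig := C.big
  have hxle := C.X.le
  have hyle := C.Y.le
  by_cases hc : x₂ + y₁ ≤ x₁ + y₂
  · obtain ⟨x, hx⟩ : ∃ x, x₁ = x + 1 := ⟨x₁ - 1, by omega⟩
    subst hx
    exact case_one_core rfl C.hL C.X.opt C.Y.opt hhk (by omega) (by omega) (by omega) C.min
      (hkey x y₁ (by omega) le_rfl)
  · obtain ⟨x, hx⟩ : ∃ x, x₂ = x + 1 := ⟨x₂ - 1, by omega⟩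
    subst hx
    have hmin : ∀ u v : ℕ, u + v = (x + 1 + x₁ + h) + (y₂ + y₁ + k) →
        L (x + 1 + x₁ + h) + L (y₂ + y₁ + k) ≤ L u + L v := by
      intro u v huv
      have := C.min u v (by omega)
      rwa [show x₁ + (x + 1) + h = x + 1 + x₁ + h by ring,
        show y₁ + y₂ + k = y₂ + y₁ + k by ring] at this
    exact case_one_core rfl C.hL C.X.opt.swap C.Y.opt.swap hhk (by omega) (by omega) (by omega)
      hmin (hkey x y₂ (by omega) (by omega))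

end Pool.Agent.Lib.MP_b072d9_co
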