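import Pool.Agent.Lib.MP_b072d9_co.NCfg

set_option autoImplicit false

namespace Pool.Agent.Lib.MP_b072d9_co

/-- P2: the case of a light node with the largest label -/
theorem special_case {ν r p : ℕ} {L : ℕ → ℤ} {h x₁ x₂ k y₁ y₂ : ℕ}
    (C : Cfg ν r p L h x₁ x₂ k y₁ y₂) (hk : k = r) : False := by
  subst hk
  obtain ⟨hp, hL, X, Y, hr, tot, big, hmin⟩ := C
  have h1 : 1 ≤ h := X.opt.1.1
  have hxle := X.le
  have hyle := Y.le
  have hXe := X.opt.2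
  -- `K` is monotone
  have h3r : 3 * (k : ℤ) ≤ (ν : ℤ) + 1 + 1 := by
    have : 3 * k ≤ ν + 1 + 1 := by omega
    exact_mod_cast this
  -- (b)
  have hb : 3 * (x₁ + x₂ + h) ≤ (y₁ + y₂ + k) + 6 * (k - h) + 3 * p - 2 := by
    obtain ⟨g, rfl⟩ := Nat.exists_eq_add_of_le' h1
    obtain ⟨w, hw⟩ : ∃ w, y₁ + y₂ + k = w + 1 := ⟨y₁ + y₂ + k - 1, by omega⟩
    have e1 := hL.le (g + 1 + 1) x₁ x₂ ⟨by omega, hr⟩
    have e2 := leAll hL g x₁ x₂ (by omega)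
    have m1 := hmin (x₁ + x₂ + (g + 1 + 1)) w (by omega)
    have m2 := hmin (x₁ + x₂ + g) (w + 1 + 1) (by omega)
    rw [hw] at m1 m2
    have mono := K_mono3 hL h3r w
    have s1 := L_succ ((ν : ℤ) + 1) L w
    have s2 := L_succ ((ν : ℤ) + 1) L (w + 1)
    have hwz : (y₁ : ℤ) + y₂ + k = w + 1 := by exact_mod_cast hw
    have htz : (ν : ℤ) = x₁ + x₂ + (g + 1) + (y₁ + y₂ + k) + 2 * k + p := by exact_mod_cast tot
    have key : 6 * ((x₁ : ℤ) + x₂ + 2 * (g + 1)) + 2 * (w + 1) ≤ 3 * ν - 2 := by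
      unfold cst at *
      push_cast at *
      linarith
    have : 3 * ((x₁ : ℤ) + x₂ + (g + 1)) ≤ (y₁ + y₂ + k) + 6 * (k - (g + 1)) + 3 * p - 2 := by
      linarith
    omega
  -- the child `x₁` is not empty
  have hx1 : 1 ≤ x₁ := by omega
  obtain ⟨x, rfl⟩ := Nat.exists_eq_add_of_le' hx1
  have hU := Umove hL X.opt Y.opt.swap (by
    intro u v huv
    have e := hmin u v (by omega)
    rw [show y₂ + y₁ + k = y₁ + y₂ + k by ring]
    exact e)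
  have hKx : KK ((ν : ℤ) + 1) L x ≤ 2 * ((h : ℤ) - 1) * (x + 1) := by
    obtain ⟨h₁, a, b, ho₁, hs₁⟩ := hL.exists_opt (x + 1) (by omega)
    have hle : h₁ ≤ h := N1H hL (h := h) (h₁ := h₁) (p := a) (q := b) (r := x₂)
      (by rw [hs₁]; exact X.opt) ho₁
    have h31 : 3 * (h₁ : ℤ) ≤ (ν : ℤ) + 1 + 1 := by
      have : (h₁ : ℤ) ≤ k := by exact_mod_cast (by omega : h₁ ≤ k)
      linarith
    have e := KC hL x h₁ a b ho₁ hs₁ h31
    have hle' : (h₁ : ℤ) ≤ h := by exact_mod_cast hle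
    have : 0 ≤ ((h : ℤ) - h₁) * (x + 1) := mul_nonneg (by linarith) (by positivity)
    linarith
  have hKy := K_nonnegH hL y₂
  have htz : (ν : ℤ) = (x + 1) + x₂ + h + (y₁ + y₂ + k) + 2 * k + p := by exact_mod_cast tot
  have hpz : (0 : ℤ) ≤ p := by positivity
  have hpz1 : (p : ℤ) ≤ 1 := by exact_mod_cast hp
  have hbigz : (y₁ : ℤ) + y₂ + k + 2 + p ≤ (x + 1) + x₂ + h := by exact_mod_cast big
  have hyz : (y₂ : ℤ) ≤ y₁ := by exact_mod_cast hyle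
  have hy0 : (0 : ℤ) ≤ y₂ := by positivity
  have hhz : (1 : ℤ) ≤ h := by exact_mod_cast h1
  have hrz : (h : ℤ) + 1 ≤ k := by exact_mod_cast hr
  have hbz : 3 * (((x : ℤ) + 1) + x₂ + h) ≤ (y₁ + y₂ + k) + 6 * (k - h) + 3 * p - 2 := by
    omega
  -- abbreviations
  obtain ⟨e, he⟩ : ∃ e : ℤ, e = k - h := ⟨_, rfl⟩
  obtain ⟨E, hE⟩ : ∃ E : ℤ, E = (x + 1) + x₂ + h := ⟨_, rfl⟩
  obtain ⟨t, ht⟩ : ∃ t : ℤ, t = E - (y₁ + y₂ + k) := ⟨_, rfl⟩
  have hmain : 2 * ((x : ℤ) - y₂) * (h - 1) + e * (E + t + k - 2 + y₁ - y₂) + p * (t - 1) ≤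
      KK ((ν : ℤ) + 1) L x - KK ((ν : ℤ) + 1) L y₂ := by
    rw [ht, hE, he]
    generalize KK ((ν : ℤ) + 1) L x = K1 at hU ⊢
    generalize KK ((ν : ℤ) + 1) L y₂ = K2 at hU ⊢
    rw [htz] at hU
    linear_combination hU
  have he1 : 1 ≤ e := by linarith
  have ht2 : 2 ≤ t := by linarith
  have q1 : 0 ≤ e * (t - 2 + (y₁ - y₂)) := mul_nonneg (by linarith) (by linarith)
  have q2 : 0 ≤ (p : ℤ) * (t - 1) := mul_nonneg hpz (by linarith)
  have hA : e * (E + k) ≤ 2 * (1 + (y₂ : ℤ)) * (h - 1) := by linarith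
  have hB : 2 * (1 + (y₂ : ℤ)) * (h - 1) ≤ (E - k) * (h - 1) :=
    mul_le_mul_of_nonneg_right (by linarith) (by linarith)
  have hC : E * (2 * e - k + 1) + (k : ℤ) ^ 2 - k ≤ 0 := by
    have hh : (h : ℤ) = k - e := by linarith
    rw [hh] at hB
    rw [hh] at hA
    linarith
  have hE0 : 0 ≤ E := by
    rw [hE]; positivity
  have hE3 : E ≤ 3 * e - 1 := by linarith
  have hk2 : (2 : ℤ) ≤ k := by linarith
  have h7 : 0 < (k : ℤ) * (k - 1) := mul_pos (by linarith) (by linarith)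
  clear hmain hA hB hbz hKx hKy hU q1 q2
  rcases le_or_gt ((k : ℤ) - 1) (2 * e) with h5 | h5
  · have h6 : 0 ≤ E * (2 * e - k + 1) := mul_nonneg hE0 (by linarith)
    linarith
  · have h6 : E * ((k : ℤ) - 1 - 2 * e) ≤ (3 * e - 1) * ((k : ℤ) - 1 - 2 * e) :=
      mul_le_mul_of_nonneg_right hE3 (by linarith)
    have h8 : 0 ≤ ((k : ℤ) - 1 - 4 * e) ^ 2 := sq_nonneg _
    have h9 : 0 ≤ ((k : ℤ) - 1) * ((k : ℤ) - 1) := mul_self_nonneg _
    linarith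

end Pool.Agent.Lib.MP_b072d9_co
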