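import Pool.Agent.Lib.MP_b072d9_co.NCfg

set_option autoImplicit false

namespace Pool.Agent.Lib.MP_b072d9_co

namespace PTwoBig

/-- the defect at a label `z - 1` -/
theorem K_le {ν r : ℕ} {L : ℕ → ℤ} (hL : IsLH ((ν : ℤ) + 1) r L) (z : ℕ)
    (hz : 10 * z ≤ ν + 1) : 49 * KK ((ν : ℤ) + 1) L (z - 1) ≤ 4 * (z : ℤ) ^ 2 := by
  rcases Nat.eq_zero_or_pos z with h0 | h0
  · subst h0
    rw [K_zeroH hL]
    norm_num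
  · obtain ⟨v, rfl⟩ := Nat.exists_eq_add_of_le' h0
    rw [Nat.add_sub_cancel]
    have hz' : 10 * ((v : ℤ) + 1) ≤ ν + 1 := by exact_mod_cast hz
    have hv0 : (0 : ℤ) ≤ v := by positivity
    have e1 := K_upH hL v (by linarith)
    have e2 := K_nonnegH hL v
    push_cast
    have e3 : 49 * ((v : ℤ) + 1) * KK ((ν : ℤ) + 1) L v ≤
        7 * ((ν : ℤ) + 1 - 3 * (v + 1)) * KK ((ν : ℤ) + 1) L v :=
      mul_le_mul_of_nonneg_right (by linarith) e2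
    have e4 : ((v : ℤ) + 1) * (49 * KK ((ν : ℤ) + 1) L v) ≤ (v + 1) * (4 * ((v : ℤ) + 1) ^ 2) := by
      have : ((v : ℤ) + 1) * (4 * ((v : ℤ) + 1) ^ 2) = 4 * ((v : ℤ) + 1) ^ 3 := by ring
      rw [this]
      linarith
    exact le_of_mul_le_mul_left e4 (by linarith)

/-- the consequence of `XY` -/
theorem xy1 {ν a b σ h k KA KB : ℤ} (hh : 2 ≤ h) (hk : 1 ≤ k)
    (XY : (σ + 2) * (2 * (ν - 2) - σ) + 2 * (a - b) ^ 2 + 2 * (KA + KB) ≥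
      (a + b) * (2 * (ν - 1) - (a + b)) + 2 * ((σ + 2 * h) + (a + b + 2 * k))) :
    2 * (ν - (a + b)) * (a + b - σ - 2) ≤
      -4 * (a + b) - 4 + 2 * (a - b) ^ 2 + 2 * (KA + KB) := by
  nlinarith [sq_nonneg (a + b - σ - 4), XY, hh, hk]

theorem boundB {ν a b σ KA KB : ℤ} (ha : 16 ≤ a) (hb0 : 0 ≤ b) (hba : b ≤ a)
    (hν : 10 * a ≤ ν + 1) (hKA : 49 * KA ≤ 4 * a ^ 2) (hKB : 49 * KB ≤ 4 * a ^ 2)
    (hi : 4 * (a - b) ≤ 3 * a)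
    (h1 : 2 * (ν - (a + b)) * (a + b - σ - 2) ≤
      -4 * (a + b) - 4 + 2 * (a - b) ^ 2 + 2 * (KA + KB)) :
    4 * (a + b - σ) ≤ a := by
  by_contra hc
  push Not at hc
  have e1 : a ≤ 8 * (a + b - σ - 2) := by linarith
  have e2 : 16 * a - 2 ≤ 2 * (ν - (a + b)) := by linarith
  have e3 : (16 * a - 2) * a ≤ 2 * (ν - (a + b)) * (8 * (a + b - σ - 2)) :=
    mul_le_mul e2 e1 (by linarith) (by linarith)
  have e4 : 16 * (a - b) ^ 2 ≤ 9 * a ^ 2 := by nlinarith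
  nlinarith

theorem boundA {ν a b σ KA KB : ℤ} (ha : 16 ≤ a) (hb0 : 0 ≤ b) (hba : b ≤ a)
    (hν : 10 * a ≤ ν + 1) (hKA : 49 * KA ≤ 4 * a ^ 2) (hKB : 49 * KB ≤ 4 * a ^ 2)
    (hi : 4 * (a - b) ≤ a)
    (h1 : 2 * (ν - (a + b)) * (a + b - σ - 2) ≤
      -4 * (a + b) - 4 + 2 * (a - b) ^ 2 + 2 * (KA + KB)) :
    6 * (a + b - σ) ≤ a := by
  by_contra hc
  push Not at hc
  have e1 : a ≤ 24 * (a + b - σ - 2) := by linarith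
  have e2 : 16 * a - 2 ≤ 2 * (ν - (a + b)) := by linarith
  have e3 : (16 * a - 2) * a ≤ 2 * (ν - (a + b)) * (24 * (a + b - σ - 2)) :=
    mul_le_mul e2 e1 (by linarith) (by linarith)
  have e4 : 16 * (a - b) ^ 2 ≤ a ^ 2 := by nlinarith
  nlinarith

/-- the concavity argument -/
theorem conc {ν a i2 Cc Λ : ℤ} (hν : 0 < ν) (h1 : 4 * a ^ 2 ≤ Λ * ν) (h2 : Λ ≤ Cc - 9)
    (h3 : Λ * (Cc - 6 - Λ) ≤ 3 * i2) (h4 : i2 < Cc - 9)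
    (h5 : 3 * i2 * ν ^ 2 < 4 * a ^ 2 * ν * (Cc - 6) - 16 * a ^ 4) : False := by
  have e1 : 0 ≤ (Λ * ν - 4 * a ^ 2) * (Cc - 9 - Λ) :=
    mul_nonneg (by linarith) (by linarith)
  rcases le_total (4 * a ^ 2) (3 * ν) with hc | hc
  · have e2 : 0 ≤ (Λ * ν - 4 * a ^ 2) * (3 * ν - 4 * a ^ 2) :=
      mul_nonneg (by linarith) (by linarith)
    have e3 := mul_nonneg hν.le e1
    have e4 : Λ * (Cc - 6 - Λ) * ν ^ 2 ≤ 3 * i2 * ν ^ 2 :=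
      mul_le_mul_of_nonneg_right h3 (sq_nonneg ν)
    linarith
  · have e2 : 0 ≤ (Cc - 9 - Λ) * (4 * a ^ 2 - 3 * ν) :=
      mul_nonneg (by linarith) (by linarith)
    have e4 : Λ * (Cc - 6 - Λ) * ν ≤ 3 * i2 * ν := mul_le_mul_of_nonneg_right h3 hν.le
    have e5 : i2 * ν < (Cc - 9) * ν := mul_lt_mul_of_pos_right h4 hν
    linarith

end PTwoBig

open PTwoBig in
/-- P8: case II, `Y` beyond the zero range -/
theorem case_two_big {ν r p : ℕ} {L : ℕ → ℤ} {h x₁ x₂ k y₁ y₂ : ℕ}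
    (C : Cfg ν r p L h x₁ x₂ k y₁ y₂) (hk : k + 1 ≤ r) (hkh : k < h)
    (hx : 10 * x₁ ≤ ν + 1) (hy : 10 * y₁ ≤ ν + 1) (hz : 2 * (ν : ℤ) < ((y₁ : ℤ) + 2) ^ 2)
    (hle2 : y₁ ≤ 2 * y₂ + k)
    (imA : y₁ ≤ 2 * k → ((y₁ : ℤ) - y₂) ^ 2 * ν < 10 * y₁ ^ 2)
    (imB : 2 * k < y₁ → ((y₁ : ℤ) - y₂) ^ 2 < 2 * ν - 6 * (y₁ + y₂ + 2 * k) - 9 ∧
      3 * ((y₁ : ℤ) - y₂) ^ 2 * ν ^ 2 <
        4 * y₁ ^ 2 * ν * (2 * ν - 6 * (y₁ + y₂ + 2 * k) - 6) - 16 * (y₁ : ℤ) ^ 4)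
    (T3 : ((x₁ : ℤ) + x₂ + y₁ + y₂) ^ 2 ≤
      (2 * ν - 3 * ((x₁ + x₂ + 2 * h) + (y₁ + y₂ + 2 * k))) * ν + 24)
    (XY : ((x₁ : ℤ) + x₂ + 2) * (2 * (ν - 2) - (x₁ + x₂)) + 2 * ((y₁ : ℤ) - y₂) ^ 2 +
        2 * (KK ((ν : ℤ) + 1) L (y₁ - 1) + KK ((ν : ℤ) + 1) L (y₂ - 1)) ≥
      (y₁ + y₂) * (2 * (ν - 1) - (y₁ + y₂)) +
        2 * ((x₁ + x₂ + 2 * h) + (y₁ + y₂ + 2 * k))) : False := by
  have hle : y₂ ≤ y₁ := C.Y.le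
  have hKA := K_le C.hL y₁ hy
  have hKB0 := K_le C.hL y₂ (by omega)
  have hdown := C.down hk
  have hlam := C.lam hk
  have hk1 := C.k1
  have hbig := C.big
  have htot := C.tot
  have hr := C.hr
  generalize KK ((ν : ℤ) + 1) L (y₁ - 1) = KA at *
  generalize KK ((ν : ℤ) + 1) L (y₂ - 1) = KB at *
  have ha16 : 16 ≤ y₁ := by
    have hν9 : 9 ≤ ν := by omega
    by_contra hc
    push Not at hc
    have hy' : 10 * (y₁ : ℤ) ≤ ν + 1 := by exact_mod_cast hy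
    have hν' : (9 : ℤ) ≤ ν := by exact_mod_cast hν9
    have hc' : (y₁ : ℤ) ≤ 15 := by exact_mod_cast Nat.lt_succ_iff.1 hc
    have hy0 : (0 : ℤ) ≤ y₁ := by positivity
    rcases Nat.eq_zero_or_pos y₁ with h0 | h0
    · subst h0
      push_cast at hz
      linarith
    · have h1 : (1 : ℤ) ≤ y₁ := by exact_mod_cast h0
      have h2 : 0 ≤ ((y₁ : ℤ) - 1) * (15 - y₁) := mul_nonneg (by linarith) (by linarith)
      linarith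
  zify at hle hk1 hbig htot hr ha16 hy hk hkh hle2 hlam hx
  have hy20 : (0 : ℤ) ≤ y₂ := by positivity
  have hx10 : (0 : ℤ) ≤ x₁ := by positivity
  have hx20 : (0 : ℤ) ≤ x₂ := by positivity
  have hp0 : (0 : ℤ) ≤ p := by positivity
  have hkh' : (k : ℤ) + 1 ≤ h := by exact_mod_cast hkh
  have hKB : 49 * KB ≤ 4 * (y₁ : ℤ) ^ 2 := by
    have : (y₂ : ℤ) ^ 2 ≤ (y₁ : ℤ) ^ 2 := pow_le_pow_left₀ hy20 hle 2
    linarith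
  have h1 := xy1 (ν := ν) (a := y₁) (b := y₂) (σ := (x₁ : ℤ) + x₂) (h := h) (k := k)
    (KA := KA) (KB := KB) (by linarith) hk1 XY
  set Λ : ℤ := 2 * ν - 3 * ((x₁ + x₂ + 2 * h) + (y₁ + y₂ + 2 * k)) with hΛ
  have hΛ0 : 0 ≤ Λ := by rw [hΛ]; linarith
  set ρ : ℤ := (x₁ : ℤ) + x₂ + 2 * h - (y₁ + y₂ + 2 * k) with hρ
  have hρ3 : 3 ≤ ρ := by rw [hρ]; linarith
  have hρΛ : (ρ - 2) * Λ ≤ ((y₁ : ℤ) - y₂) ^ 2 := by
    have := sq_nonneg ((x₁ : ℤ) - x₂)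
    linarith
  have hν0 : (0 : ℤ) < ν := by linarith
  rcases le_or_gt y₁ (2 * k) with hc | hc
  · have hA := imA hc
    have e1 : Λ ≤ ((y₁ : ℤ) - y₂) ^ 2 := by
      have : 0 ≤ (ρ - 3) * Λ := mul_nonneg (by linarith) hΛ0
      linarith
    have e2 : Λ * ν ≤ ((y₁ : ℤ) - y₂) ^ 2 * ν := mul_le_mul_of_nonneg_right e1 hν0.le
    -- the imbalance is small
    have e3 : ((y₁ : ℤ) - y₂) ^ 2 ≤ y₁ := by
      by_contra hcon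
      push Not at hcon
      have h5 : ((y₁ : ℤ) + 1) * (10 * y₁ - 1) ≤ ((y₁ : ℤ) - y₂) ^ 2 * ν :=
        mul_le_mul (by linarith) (by linarith) (by linarith) (sq_nonneg _)
      linarith
    have e4 : 4 * ((y₁ : ℤ) - y₂) ≤ y₁ := by
      have h6 : 0 ≤ (y₁ : ℤ) * (y₁ - 16) := mul_nonneg (by linarith) (by linarith)
      have h5 : (4 * ((y₁ : ℤ) - y₂)) ^ 2 ≤ (y₁ : ℤ) ^ 2 := by linarith
      exact abs_le_of_sq_le_sq' h5 (by linarith) |>.2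
    have e5 := boundA ha16 hy20 hle hy hKA hKB e4 h1
    have e6 : 10 * (y₁ : ℤ) ≤ 3 * ((x₁ : ℤ) + x₂ + y₁ + y₂) := by linarith
    have e7 : (10 * (y₁ : ℤ)) ^ 2 ≤ (3 * ((x₁ : ℤ) + x₂ + y₁ + y₂)) ^ 2 :=
      pow_le_pow_left₀ (by linarith) e6 2
    have e8 : (16 : ℤ) ^ 2 ≤ (y₁ : ℤ) ^ 2 := pow_le_pow_left₀ (by norm_num) ha16 2
    linarith
  · obtain ⟨hB1, hB2⟩ := imB hc
    zify at hc
    have e4 : 4 * ((y₁ : ℤ) - y₂) ≤ 3 * y₁ := by linarith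
    have e5 := boundB ha16 hy20 hle hy hKA hKB e4 h1
    have e6 : 9 * (y₁ : ℤ) ≤ 4 * ((x₁ : ℤ) + x₂ + y₁ + y₂) := by linarith
    have e7 : (9 * (y₁ : ℤ)) ^ 2 ≤ (4 * ((x₁ : ℤ) + x₂ + y₁ + y₂)) ^ 2 :=
      pow_le_pow_left₀ (by linarith) e6 2
    have e10 : (16 : ℤ) ^ 2 ≤ (y₁ : ℤ) ^ 2 := pow_le_pow_left₀ (by norm_num) ha16 2
    have e8 : 4 * (y₁ : ℤ) ^ 2 ≤ Λ * ν := by linarith
    refine conc (Cc := 2 * ν - 6 * (y₁ + y₂ + 2 * k)) hν0 e8 ?_ ?_ hB1 hB2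
    · rw [hΛ]; rw [hρ] at hρ3; linarith
    · have e9 : (2 * (ν : ℤ) - 6 * (y₁ + y₂ + 2 * k)) - 6 - Λ = 3 * (ρ - 2) := by
        rw [hΛ, hρ]; ring
      rw [e9]
      linarith

end Pool.Agent.Lib.MP_b072d9_co
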