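import Pool.Agent.Lib.MP_b072d9_co.NCfg

set_option autoImplicit false

namespace Pool.Agent.Lib.MP_b072d9_co

private theorem P11_small {A B D E : ℤ} (hA : 1 ≤ A) (hB : 1 ≤ B) (hE0 : 0 ≤ E) (hE1 : E ≤ 1)
    (d : A * B + D ^ 2 ≤ E ^ 2) : A = 1 ∧ B = 1 ∧ D = 0 ∧ E = 1 := by
  have hE : E = 0 ∨ E = 1 := by omega
  have h1 : 1 ≤ A * B := by nlinarith
  have h2 : 0 ≤ D ^ 2 := sq_nonneg D
  rcases hE with rfl | rfl
  · exfalso; linarith
  · have h3 : A * B ≤ 1 := by linarith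
    have h4 : D ^ 2 ≤ 0 := by linarith
    refine ⟨?_, ?_, ?_, rfl⟩
    · nlinarith
    · nlinarith
    · exact pow_eq_zero_iff (two_ne_zero) |>.1 (le_antisymm h4 h2)

private theorem P11_final {l κ y : ℤ} (k1 : 1 ≤ κ) (y0 : 0 ≤ y)
    (hbr : 6 * l = (y + 1) * (y + 2) * (3 * (6 * y + 6 * κ + 8) - 6 - 2 * y))
    (t : l * 1 ≤ (y + κ + 1) * (y + κ + 2))
    (d : 3 * ((y + κ + 2) * (y + κ + 1)) ≤ (y + 2) * (6 * (y + κ) + 5 - y)) : False := by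
  have h1 : (y + 1) * (y + 2) * (3 * (6 * y + 6 * κ + 8) - 6 - 2 * y) ≤
      2 * ((y + 2) * (6 * (y + κ) + 5 - y)) := by linarith
  have h2 : 0 ≤ y * κ := by positivity
  have h3 : 0 ≤ y * y := by positivity
  have h4 : 0 ≤ y * y * κ := by positivity
  have h5 : 0 ≤ y * y * y := by positivity
  nlinarith

/-- P11: case II, both in the zero range, `Λ = 1` -/
theorem case_two_one {ν r p : ℕ} {L : ℕ → ℤ} {h x₁ x₂ k y₁ y₂ : ℕ}
    (C : Cfg ν r p L h x₁ x₂ k y₁ y₂) (hk : k + 1 ≤ r) (hkh : k < h)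
    (hx : ((x₁ : ℤ) + 2) ^ 2 ≤ 2 * ν) (hy : ((y₁ : ℤ) + 2) ^ 2 ≤ 2 * ν)
    (hxb : x₁ ≤ x₂ + 1) (hyb : y₁ ≤ y₂ + 1)
    (hΛ : 3 * ((x₁ + x₂ + 2 * h) + (y₁ + y₂ + 2 * k)) + 1 ≤ 2 * ν) : False := by
  have d := C.down hk
  have hp := C.hp
  have tot := C.tot
  have big := C.big
  have hyl := C.Y.le
  have k1 := C.k1
  -- the small case
  obtain ⟨hA1, hB1, hxx, hyy⟩ := P11_small (by omega) (by omega) (by omega) (by omega) d
  have e1 : x₂ = x₁ := by omega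
  subst e1
  have hy1 : y₁ = y₂ + 1 := by omega
  subst hy1
  have e2 : x₂ = y₂ + 1 := by omega
  subst e2
  have e3 : h = k + 1 := by omega
  subst e3
  have e4 : p = 0 := by omega
  subst e4
  have e5 : ν = 6 * y₂ + 6 * k + 8 := by omega
  have e6 : r = y₂ + 2 * k + 2 := by omega
  subst e6
  have hL := C.hL
  have ox := C.X.opt
  have oy := C.Y.opt
  -- comparison with the three-legged tree
  have t1 := C.min y₂ (y₂ + 1 + (y₂ + 1) + (y₂ + 2 * k + 2)) (by omega)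
  have t2 := hL.le (y₂ + 2 * k + 2) (y₂ + 1) (y₂ + 1) ⟨by omega, le_rfl⟩
  rw [ox.2, oy.2] at t1
  -- the broom value
  have hbr : 6 * L (y₂ + 1) = ((y₂ + 1 : ℕ) : ℤ) * ((y₂ + 1 : ℕ) + 1) *
      (3 * ((ν : ℤ) + 1) - 7 - 2 * (y₂ + 1 : ℕ)) := by
    refine L_broomH hL (y₂ + 1) fun s hs => K_eq_zeroH hL s ?_
    have h1 : (s : ℤ) ≤ y₂ := by omega
    have h2 : (0 : ℤ) ≤ s := by positivity
    have h3 : ((s : ℤ) + 3) ^ 2 ≤ (((y₂ + 1 : ℕ) : ℤ) + 2) ^ 2 := by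
      apply pow_le_pow_left₀ (by linarith)
      push_cast
      linarith
    linarith
  -- D1 at the child of X
  have hd := D1all hL ox
  have hK := K_nonnegH hL (y₂ + 1)
  subst e5
  unfold cst at t1 t2
  have k1' : (1 : ℤ) ≤ k := by exact_mod_cast k1
  have y0 : (0 : ℤ) ≤ y₂ := by positivity
  refine P11_final (l := L (y₂ + 1)) k1' y0 ?_ ?_ ?_
  · push_cast at hbr
    linarith
  · push_cast at t1 t2
    linarith
  · push_cast at hd hK
    linarith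

end Pool.Agent.Lib.MP_b072d9_co
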