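import Pool.Agent.Lib.MP_b072d9_co.PBroom
import Pool.Agent.Lib.MP_b072d9_co.PIneq

set_option autoImplicit false

namespace Pool.Agent.Lib.MP_b072d9_co

private theorem p9_a {x ν : ℤ} (h0 : 0 ≤ x) (h1 : 10 * x ≤ ν + 1) (h2 : 2 * ν < (x + 2) ^ 2)
    (h3 : 6 ≤ ν) : 16 ≤ x := by
  by_contra hc
  push Not at hc
  rcases h0.eq_or_lt with h | h
  · rw [← h] at h2
    norm_num at h2
    linarith
  · have h4 : 0 ≤ (x - 1) * (15 - x) := mul_nonneg (by linarith) (by linarith)
    have h5 : (x + 2) ^ 2 = x * x + 4 * x + 4 := by ring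
    linarith

private theorem p9_b {x x' y y' ν lam ρ : ℤ} (hx : 16 ≤ x) (hx' : 0 ≤ x') (hy : 0 ≤ y)
    (hy' : 0 ≤ y') (hl : lam = 0 ∨ lam = 1) (hρ : 1 ≤ ρ) (h1 : ρ * lam + (x - x') ^ 2 ≤ 1)
    (h2 : 2 * ν < (x + 2) ^ 2) (h3 : (x + x' + y + y') ^ 2 ≤ lam * ν + 24) : False := by
  rcases hl with hl | hl
  · rw [hl] at h3
    have h4 : 16 * 16 ≤ (x + x' + y + y') * (x + x' + y + y') :=
      mul_le_mul (by linarith) (by linarith) (by norm_num) (by linarith)
    have h5 : (x + x' + y + y') ^ 2 = (x + x' + y + y') * (x + x' + y + y') := sq _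
    linarith
  · rw [hl] at h1 h3
    have h4 : (x - x') ^ 2 ≤ 0 := by linarith
    have h5 : x - x' = 0 := pow_eq_zero_iff (two_ne_zero) |>.1 (le_antisymm h4 (sq_nonneg _))
    have h6 : (2 * x) * (2 * x) ≤ (x + x' + y + y') * (x + x' + y + y') :=
      mul_le_mul (by linarith) (by linarith) (by linarith) (by linarith)
    have h7 : (x + x' + y + y') ^ 2 = (x + x' + y + y') * (x + x' + y + y') := sq _
    have h8 : 0 ≤ (x - 16) * (7 * x) := mul_nonneg (by linarith) (by linarith)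
    have h9 : (x + 2) ^ 2 = x * x + 4 * x + 4 := by ring
    linarith

/-- P9: case II, `Y` in the zero range, `X` beyond -/
theorem case_two_mid {ν r p : ℕ} {L : ℕ → ℤ} {h x₁ x₂ k y₁ y₂ : ℕ}
    (C : Cfg ν r p L h x₁ x₂ k y₁ y₂) (hk : k + 1 ≤ r) (hkh : k < h)
    (hx : 10 * x₁ ≤ ν + 1) (hxz : 2 * (ν : ℤ) < ((x₁ : ℤ) + 2) ^ 2) (hi : y₁ ≤ y₂ + 1)
    (T3 : ((x₁ : ℤ) + x₂ + y₁ + y₂) ^ 2 ≤
      (2 * ν - 3 * ((x₁ + x₂ + 2 * h) + (y₁ + y₂ + 2 * k))) * ν + 24) : False := by
  have e1 := C.down hk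
  have e2 := C.lam hk
  have e3 := C.tot
  have e4 := C.big
  have e5 := C.hr
  have e6 := C.k1
  have e7 := C.Y.le
  obtain ⟨lam, hlam⟩ : ∃ lam : ℕ, 3 * ((x₁ + x₂ + 2 * h) + (y₁ + y₂ + 2 * k)) + lam = 2 * ν :=
    ⟨2 * ν - 3 * ((x₁ + x₂ + 2 * h) + (y₁ + y₂ + 2 * k)), by omega⟩
  have hlam' : (2 * (ν : ℤ) - 3 * ((x₁ + x₂ + 2 * h) + (y₁ + y₂ + 2 * k))) = lam := by
    have : ((3 * ((x₁ + x₂ + 2 * h) + (y₁ + y₂ + 2 * k)) + lam : ℕ) : ℤ) = ((2 * ν : ℕ) : ℤ) := by
      rw [hlam]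
    push_cast at this
    linarith
  rw [hlam'] at e1 T3
  have h1 : (0 : ℤ) ≤ (y₁ : ℤ) - y₂ := by
    have : (y₂ : ℤ) ≤ y₁ := by exact_mod_cast e7
    linarith
  have h2 : (y₁ : ℤ) - y₂ ≤ 1 := by
    have : (y₁ : ℤ) ≤ y₂ + 1 := by exact_mod_cast hi
    linarith
  have e8 : ((y₁ : ℤ) - y₂) ^ 2 ≤ 1 := by
    have := pow_le_pow_left₀ h1 h2 2
    linarith
  have hx16 : (16 : ℤ) ≤ x₁ := p9_a (ν := ν) (Int.natCast_nonneg _) (by exact_mod_cast hx) hxz
    (by have : 6 ≤ ν := by omega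
        exact_mod_cast this)
  have hrho : (1 : ℤ) ≤ (x₁ : ℤ) + x₂ + 2 * h - (y₁ + y₂ + 2 * k) - 2 := by
    have : y₁ + y₂ + 2 * k + 2 + 1 ≤ x₁ + x₂ + 2 * h := by omega
    zify at this
    linarith
  have hl0 : (0 : ℤ) ≤ lam := Int.natCast_nonneg _
  have hsq : (0 : ℤ) ≤ ((x₁ : ℤ) - x₂) ^ 2 := sq_nonneg _
  have hl1 : (lam : ℤ) ≤ 1 := by
    have h3 : 1 * (lam : ℤ) ≤ ((x₁ : ℤ) + x₂ + 2 * h - (y₁ + y₂ + 2 * k) - 2) * lam :=
      mul_le_mul_of_nonneg_right hrho hl0
    linarith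
  have hl : lam = 0 ∨ lam = 1 := by
    have : lam ≤ 1 := by exact_mod_cast hl1
    omega
  exact p9_b hx16 (Int.natCast_nonneg _) (Int.natCast_nonneg _) (Int.natCast_nonneg _)
    (by rcases hl with hl | hl
        · exact Or.inl (by rw [hl]; rfl)
        · exact Or.inr (by rw [hl]; rfl)) hrho (e1.trans e8) hxz T3

/-! ### the case `Λ = 0` -/

/-- six times the broom value -/
private def b6 (ν z : ℤ) : ℤ := z * (z + 1) * (3 * ν - 4 - 2 * z)

private theorem b6_sym (ν z e : ℤ) :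
    b6 ν (z + e) + b6 ν (z - e) = 2 * b6 ν z + 6 * e ^ 2 * (ν - 2 - 2 * z) := by
  unfold b6; ring

private theorem b6_pos {ν z : ℤ} (hz : 1 ≤ z) (hν : 4 * z + 9 ≤ ν) : 6 * ν ≤ b6 ν z + 8 + 4 * z := by
  unfold b6
  have h1 : 0 ≤ (z - 1) * (z + 2) := mul_nonneg (by linarith) (by linarith)
  have h2 : 0 ≤ ((z - 1) * (z + 2)) * (3 * ν - 4 - 2 * z) := mul_nonneg h1 (by linarith)
  have h3 : z * (z + 1) = (z - 1) * (z + 2) + 2 := by ring
  rw [h3, add_mul]
  linarith

/-- equal children, even total -/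
private theorem p10_a {ν x y z : ℤ} (hxy : x + y = 2 * z) (hz : 1 ≤ z) (hν : 4 * z + 9 ≤ ν)
    (h : 2 * b6 ν x + 2 * b6 ν y ≤ 3 * b6 ν z) : False := by
  have e := b6_sym ν z (x - z)
  rw [show z + (x - z) = x by ring, show z - (x - z) = y by linarith] at e
  have h1 : 0 ≤ 6 * (x - z) ^ 2 * (ν - 2 - 2 * z) :=
    mul_nonneg (by positivity) (by linarith)
  have h2 := b6_pos hz hν
  linarith

/-- different children, total `4 z` -/
private theorem p10_b {ν x y z : ℤ} (hxy : x + y = 2 * z - 1) (hz : 1 ≤ z) (hν : 4 * z + 9 ≤ ν)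
    (h : b6 ν x + b6 ν (x + 1) + b6 ν y + b6 ν (y + 1) - 2 * ν ≤ 3 * b6 ν z) : False := by
  have e := b6_sym ν z (x - z)
  have e' := b6_sym ν z (x + 1 - z)
  rw [show z + (x - z) = x by ring, show z - (x - z) = y + 1 by linarith] at e
  rw [show z + (x + 1 - z) = x + 1 by ring, show z - (x + 1 - z) = y by linarith] at e'
  have h0 : (1 : ℤ) ≤ (x - z) ^ 2 + (x + 1 - z) ^ 2 := by
    have h3 : 0 ≤ (x - z) * (x - z + 1) := by
      rcases le_or_gt 0 (x - z) with h4 | h4
      · exact mul_nonneg h4 (by linarith)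
      · exact mul_nonneg_of_nonpos_of_nonpos h4.le (by omega)
    nlinarith
  have h1 : 1 * (6 * (ν - 2 - 2 * z)) ≤ ((x - z) ^ 2 + (x + 1 - z) ^ 2) * (6 * (ν - 2 - 2 * z)) :=
    mul_le_mul_of_nonneg_right h0 (by linarith)
  have h2 := b6_pos hz hν
  linarith

/-- equal children, total `4 m + 2` -/
private theorem p10_c {ν x y m : ℤ} (hxy : x + y = 2 * m + 1) (hm : 1 ≤ m) (hν : 4 * m + 9 ≤ ν)
    (h : 2 * b6 ν x + 2 * b6 ν y ≤ b6 ν m + 2 * b6 ν (m + 1)) : False := by
  have e : b6 ν x + b6 ν y = b6 ν m + b6 ν (m + 1) +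
      6 * ((x - m) * (x - m - 1)) * (ν - 3 - 2 * m) := by
    have hy : y = 2 * m + 1 - x := by linarith
    rw [hy]; unfold b6; ring
  have h3 : 0 ≤ (x - m) * (x - m - 1) := by
    rcases le_or_gt 1 (x - m) with h4 | h4
    · exact mul_nonneg (by linarith) (by linarith)
    · exact mul_nonneg_of_nonpos_of_nonpos (by omega) (by omega)
  have h4 : 0 ≤ 6 * ((x - m) * (x - m - 1)) * (ν - 3 - 2 * m) :=
    mul_nonneg (mul_nonneg (by norm_num) h3) (by linarith)
  have h2 := b6_pos hm hν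
  linarith

/-- different children, total `4 m + 2` -/
private theorem p10_d {ν x y m : ℤ} (hxy : x + y = 2 * m) (hm : 1 ≤ m) (hν : 4 * m + 9 ≤ ν)
    (h : b6 ν x + b6 ν (x + 1) + b6 ν y + b6 ν (y + 1) - 2 * ν ≤ b6 ν m + 2 * b6 ν (m + 1)) :
    False := by
  have e := b6_sym ν m (x - m)
  have e' := b6_sym ν (m + 1) (x - m)
  rw [show m + (x - m) = x by ring, show m - (x - m) = y by linarith] at e
  rw [show m + 1 + (x - m) = x + 1 by ring, show m + 1 - (x - m) = y + 1 by linarith] at e'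
  have h1 : 0 ≤ 6 * (x - m) ^ 2 * (ν - 2 - 2 * m) :=
    mul_nonneg (by positivity) (by linarith)
  have h3 : 0 ≤ 6 * (x - m) ^ 2 * (ν - 2 - 2 * (m + 1)) :=
    mul_nonneg (by positivity) (by linarith)
  have h2 := b6_pos hm hν
  linarith

/-- P10: case II, both in the zero range, `Λ = 0` -/
theorem case_two_zero {ν r p : ℕ} {L : ℕ → ℤ} {h x₁ x₂ k y₁ y₂ : ℕ}
    (C : Cfg ν r p L h x₁ x₂ k y₁ y₂) (hk : k + 1 ≤ r) (hkh : k < h)
    (hx : ((x₁ : ℤ) + 2) ^ 2 ≤ 2 * ν) (hy : ((y₁ : ℤ) + 2) ^ 2 ≤ 2 * ν)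
    (hxb : x₁ ≤ x₂ + 1) (hyb : y₁ ≤ y₂ + 1)
    (hΛ : 3 * ((x₁ + x₂ + 2 * h) + (y₁ + y₂ + 2 * k)) = 2 * ν) : False := by
  have e1 := C.down hk
  have e2 := C.up
  have e3 := C.tot
  have e4 := C.big
  have e5 := C.hr
  have e6 := C.k1
  have e7 := C.Y.le
  have e8 := C.X.le
  have e9 := C.hp
  have hΛ' : (2 * (ν : ℤ) - 3 * ((x₁ + x₂ + 2 * h) + (y₁ + y₂ + 2 * k))) = 0 := by
    have : ((3 * ((x₁ + x₂ + 2 * h) + (y₁ + y₂ + 2 * k)) : ℕ) : ℤ) = ((2 * ν : ℕ) : ℤ) := by
      rw [hΛ]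
    push_cast at this
    linarith
  rw [hΛ'] at e1 e2
  -- the four broom values
  have aux : ∀ x w : ℕ, x ≤ w → ((w : ℤ) + 2) ^ 2 ≤ 2 * ν → 6 * L x = b6 ν x := by
    intro x w hxx hw
    have h1 : (x : ℤ) ≤ w := by exact_mod_cast hxx
    have h0 : (0 : ℤ) ≤ x := Int.natCast_nonneg _
    have h3 : ((x : ℤ) + 2) ^ 2 ≤ ((w : ℤ) + 2) ^ 2 :=
      pow_le_pow_left₀ (by linarith) (by linarith) 2
    have h2 := L_eq_broom C.hL x (by linarith)
    rw [h2]; unfold b6; ring
  have bx : ∀ x : ℕ, x ≤ x₁ → 6 * L x = b6 ν x := fun x hx' => aux x _ hx' hx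
  have by' : ∀ x : ℕ, x ≤ y₁ → 6 * L x = b6 ν x := fun x hx' => aux x _ hx' hy
  have hb : ∀ z : ℕ, 6 * L z ≤ b6 ν z := by
    intro z
    have h2 := L_le_broom C.hL z
    unfold b6
    linarith
  have hX := C.X.opt.2
  have hY := C.Y.opt.2
  unfold cst at hX hY
  have hT := fun z₁ z₂ z₃ hz => T3_ineq C z₁ z₂ z₃ hz
  have dX := D1all C.hL C.X.opt
  have dX' := D1all C.hL C.X.opt.swap
  have dY := D1all C.hL C.Y.opt
  have kX := K_nonnegH C.hL x₁
  have kX' := K_nonnegH C.hL x₂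
  have kY := K_nonnegH C.hL y₁
  have hk1 : (1 : ℤ) ≤ k := by exact_mod_cast e6
  have hp0 : p = 0 ∨ p = 1 := by omega
  -- common difference of the children
  rcases (by omega : x₁ = x₂ ∨ x₁ = x₂ + 1) with hxe | hxe
  · rcases (by omega : y₁ = y₂ ∨ y₁ = y₂ + 1) with hye | hye
    · -- equal children
      subst hxe hye
      have b1 := bx x₁ le_rfl
      have b2 := by' y₁ le_rfl
      have hwz : (ν : ℤ) = 3 * (x₁ + h + (y₁ + k)) := by
        have : ν = 3 * (x₁ + h + (y₁ + k)) := by omega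
        rw [this]; push_cast; ring
      have hsum : 6 * (L (x₁ + x₁ + h) + L (y₁ + y₁ + k)) =
          2 * b6 ν x₁ + 2 * b6 ν y₁ + 6 * ((x₁ : ℤ) + h + (y₁ + k)) ^ 3 := by
        rw [hX, hY]
        linear_combination 2 * b1 + 2 * b2 +
          6 * (((x₁ : ℤ) + h) ^ 2 + ((y₁ : ℤ) + k) ^ 2) * hwz
      rcases hp0 with hp0 | hp0
      · -- total `4 z`
        obtain ⟨z, hz⟩ : ∃ z : ℕ, x₁ + y₁ = 2 * z := ⟨(x₁ + y₁) / 2, by omega⟩
        have hzz : (x₁ : ℤ) + y₁ = 2 * z := by exact_mod_cast hz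
        rcases Nat.eq_zero_or_pos z with hz0 | hz0
        · have hx0 : x₁ = 0 := by omega
          have hy0 : y₁ = 0 := by omega
          have hh3 : (3 : ℤ) ≤ h := by
            have : 3 ≤ h := by omega
            exact_mod_cast this
          rw [hx0] at dX kX
          rw [hx0, hy0] at hwz
          push_cast at dX hwz
          have h1 : 0 ≤ ((h : ℤ) - 3) * (3 * k - 2) := mul_nonneg (by linarith) (by linarith)
          have h2 : (h : ℤ) * (ν + 1 - h - 2 * h) ≤ ν + 1 - 3 := by linarith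
          have h3 : (h : ℤ) * (ν + 1 - h - 2 * h) = (h : ℤ) * (3 * k + 1) := by rw [hwz]; ring
          linarith
        · have t := hT z z z (by omega)
          have b3 := hb z
          have hr' : (z : ℤ) + r = x₁ + h + (y₁ + k) := by
            have : z + r = x₁ + h + (y₁ + k) := by omega
            exact_mod_cast this
          refine p10_a (ν := ν) hzz (by exact_mod_cast hz0) (by
            have : 4 * z + 9 ≤ ν := by omega
            exact_mod_cast this) ?_
          rw [hp0] at t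
          have h1 : ((z : ℤ) + r + ((0 : ℕ) : ℤ)) * (z + r) * (z + r) =
              ((x₁ : ℤ) + h + (y₁ + k)) ^ 3 := by
            rw [← hr']; push_cast; ring
          rw [h1] at t
          linarith
      · -- total `4 m + 2`
        obtain ⟨m, hm⟩ : ∃ m : ℕ, x₁ + y₁ = 2 * m + 1 := ⟨(x₁ + y₁) / 2, by omega⟩
        have hmm : (x₁ : ℤ) + y₁ = 2 * m + 1 := by exact_mod_cast hm
        rcases Nat.eq_zero_or_pos m with hm0 | hm0
        · rcases (by omega : (x₁ = 0 ∧ y₁ = 1) ∨ (x₁ = 1 ∧ y₁ = 0)) with ⟨hx0, hy0⟩ | ⟨hx0, hy0⟩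
          · have hh3 : (3 : ℤ) ≤ h := by
              have : 3 ≤ h := by omega
              exact_mod_cast this
            rw [hx0] at dX kX
            rw [hx0, hy0] at hwz
            push_cast at dX hwz
            have h1 : 0 ≤ ((h : ℤ) - 3) * (3 * k + 1) := mul_nonneg (by linarith) (by linarith)
            have h2 : (h : ℤ) * (ν + 1 - h - 2 * h) ≤ ν + 1 - 3 := by linarith
            have h3 : (h : ℤ) * (ν + 1 - h - 2 * h) = (h : ℤ) * (3 * k + 4) := by rw [hwz]; ring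
            linarith
          · have hh : (k : ℤ) + 1 ≤ h := by
              have : k + 1 ≤ h := by omega
              exact_mod_cast this
            rcases (by omega : k = 1 ∨ 2 ≤ k) with hk1' | hk2
            · have o : OptH ((ν : ℤ) + 1) r L h (0 + 1) 1 := by
                have := C.X.opt
                rw [hx0] at this
                exact this
              have d2 := D2all C.hL C.hr o
              rw [K_zeroH C.hL] at d2
              rw [hx0, hy0, hk1'] at hwz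
              push_cast at d2 hwz
              rw [hwz] at d2
              have h1 : (0 : ℤ) ≤ h * h := mul_self_nonneg _
              linarith
            · rw [hy0] at dY kY
              rw [hx0, hy0] at hwz
              push_cast at dY hwz
              have hk2' : (2 : ℤ) ≤ k := by exact_mod_cast hk2
              have h1 : 0 ≤ ((k : ℤ) - 2) * (3 * h + 1) := mul_nonneg (by linarith) (by linarith)
              have h2 : (k : ℤ) * (ν + 1 - k - 2 * k) ≤ ν + 1 - 3 := by linarith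
              have h3 : (k : ℤ) * (ν + 1 - k - 2 * k) = (k : ℤ) * (3 * h + 4) := by rw [hwz]; ring
              linarith
        · have t := hT m (m + 1) (m + 1) (by omega)
          have b3 := hb m
          have b4 := hb (m + 1)
          have hr' : (m : ℤ) + r + 1 = x₁ + h + (y₁ + k) := by
            have : m + r + 1 = x₁ + h + (y₁ + k) := by omega
            exact_mod_cast this
          refine p10_c (ν := ν) hmm (by exact_mod_cast hm0) (by
            have : 4 * m + 9 ≤ ν := by omega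
            exact_mod_cast this) ?_
          rw [hp0] at t
          have h1 : ((m : ℤ) + r + ((1 : ℕ) : ℤ)) * (((m + 1 : ℕ) : ℤ) + r) *
              (((m + 1 : ℕ) : ℤ) + r) = ((x₁ : ℤ) + h + (y₁ + k)) ^ 3 := by
            rw [← hr']; push_cast; ring
          rw [h1] at t
          push_cast at b4
          linarith
    · exfalso
      subst hxe hye
      push_cast at e2
      linarith
  · rcases (by omega : y₁ = y₂ ∨ y₁ = y₂ + 1) with hye | hye
    · exfalso
      subst hxe hye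
      push_cast at e1
      linarith
    · -- different children
      subst hxe hye
      have b1 := bx (x₂ + 1) le_rfl
      have b1' := bx x₂ (by omega)
      have b2 := by' (y₂ + 1) le_rfl
      have b2' := by' y₂ (by omega)
      have hwz : (ν : ℤ) = 3 * (x₂ + h + (y₂ + k) + 1) := by
        have : ν = 3 * (x₂ + h + (y₂ + k) + 1) := by omega
        rw [this]; push_cast; ring
      push_cast at b1 b2 hX hY
      have hsum : 6 * (L (x₂ + 1 + x₂ + h) + L (y₂ + 1 + y₂ + k)) =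
          b6 ν x₂ + b6 ν (x₂ + 1) + b6 ν y₂ + b6 ν (y₂ + 1) - 2 * ν +
            6 * ((x₂ : ℤ) + h + (y₂ + k) + 1) ^ 3 := by
        rw [hX, hY]
        linear_combination b1 + b2 + b1' + b2' +
          (6 * ((x₂ : ℤ) + h) * (x₂ + h + 1) + 6 * ((y₂ : ℤ) + k) * (y₂ + k + 1) + 2) * hwz
      rcases hp0 with hp0 | hp0
      · -- total `4 z`
        obtain ⟨z, hz⟩ : ∃ z : ℕ, x₂ + y₂ + 1 = 2 * z := ⟨(x₂ + y₂ + 1) / 2, by omega⟩
        have hzz : (x₂ : ℤ) + y₂ = 2 * z - 1 := by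
          have : (x₂ : ℤ) + y₂ + 1 = 2 * z := by exact_mod_cast hz
          linarith
        have hz0 : 1 ≤ z := by omega
        have t := hT z z z (by omega)
        have b3 := hb z
        have hr' : (z : ℤ) + r = x₂ + h + (y₂ + k) + 1 := by
          have : z + r = x₂ + h + (y₂ + k) + 1 := by omega
          exact_mod_cast this
        refine p10_b (ν := ν) hzz (by exact_mod_cast hz0) (by
          have : 4 * z + 9 ≤ ν := by omega
          exact_mod_cast this) ?_
        rw [hp0] at t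
        have h1 : ((z : ℤ) + r + ((0 : ℕ) : ℤ)) * (z + r) * (z + r) =
            ((x₂ : ℤ) + h + (y₂ + k) + 1) ^ 3 := by
          rw [← hr']; push_cast; ring
        rw [h1] at t
        linarith
      · -- total `4 m + 2`
        obtain ⟨m, hm⟩ : ∃ m : ℕ, x₂ + y₂ = 2 * m := ⟨(x₂ + y₂) / 2, by omega⟩
        have hmm : (x₂ : ℤ) + y₂ = 2 * m := by exact_mod_cast hm
        rcases Nat.eq_zero_or_pos m with hm0 | hm0
        · have hx0 : x₂ = 0 := by omega
          have hy0 : y₂ = 0 := by omega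
          have hh3 : (3 : ℤ) ≤ h := by
            have : 3 ≤ h := by omega
            exact_mod_cast this
          rw [hx0] at dX' kX'
          rw [hx0, hy0] at hwz
          push_cast at dX' hwz
          have h1 : 0 ≤ ((h : ℤ) - 3) * (3 * k - 1) := mul_nonneg (by linarith) (by linarith)
          have h2 : (h : ℤ) * (ν + 1 - h - 2 * (1 + h)) ≤ ν + 1 - 3 := by linarith
          have h3 : (h : ℤ) * (ν + 1 - h - 2 * (1 + h)) = (h : ℤ) * (3 * k + 2) := by
            rw [hwz]; ring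
          linarith
        · have t := hT m (m + 1) (m + 1) (by omega)
          have b3 := hb m
          have b4 := hb (m + 1)
          have hr' : (m : ℤ) + r + 1 = x₂ + h + (y₂ + k) + 1 := by
            have : m + r = x₂ + h + (y₂ + k) := by omega
            have : (m : ℤ) + r = x₂ + h + (y₂ + k) := by exact_mod_cast this
            linarith
          refine p10_d (ν := ν) hmm (by exact_mod_cast hm0) (by
            have : 4 * m + 9 ≤ ν := by omega
            exact_mod_cast this) ?_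
          rw [hp0] at t
          have h1 : ((m : ℤ) + r + ((1 : ℕ) : ℤ)) * (((m + 1 : ℕ) : ℤ) + r) *
              (((m + 1 : ℕ) : ℤ) + r) = ((x₂ : ℤ) + h + (y₂ + k) + 1) ^ 3 := by
            rw [← hr']; push_cast; ring
          rw [h1] at t
          push_cast at b4
          linarith

end Pool.Agent.Lib.MP_b072d9_co
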