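import Pool.Agent.Lib.MP_b072d9_co.NCfg
import Pool.Agent.Lib.MP_b072d9_co.LImB
import Pool.Agent.Lib.MP_b072d9_co.PBare
import Pool.Agent.Lib.MP_b072d9_co.PSpec
import Pool.Agent.Lib.MP_b072d9_co.POne
import Pool.Agent.Lib.MP_b072d9_co.PBroom
import Pool.Agent.Lib.MP_b072d9_co.PIneq
import Pool.Agent.Lib.MP_b072d9_co.PBig
import Pool.Agent.Lib.MP_b072d9_co.PTwoBig
import Pool.Agent.Lib.MP_b072d9_co.PTwoZero
import Pool.Agent.Lib.MP_b072d9_co.PTwoOne

/-!
# MP_b072d9_co: the numerical statement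
-/

set_option autoImplicit false

namespace Pool.Agent.Lib.MP_b072d9_co

theorem sixteen {ν y : ℕ} (h1 : 10 * y ≤ ν + 1) (h2 : 2 * (ν : ℤ) < ((y : ℤ) + 2) ^ 2)
    (h3 : 8 ≤ ν) : 16 ≤ y := by
  by_contra hcon
  push Not at hcon
  interval_cases y <;> norm_num at h2 <;> omega

theorem tenth {ν y : ℕ} (h1 : ((y : ℤ) + 2) ^ 2 ≤ 2 * ν) (h3 : 156 ≤ ν) : 10 * y ≤ ν + 1 := by
  by_contra hcon
  push Not at hcon
  have h4 : (ν : ℤ) + 2 ≤ 10 * y := by exact_mod_cast hcon
  have h5 : (156 : ℤ) ≤ ν := by exact_mod_cast h3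
  nlinarith

theorem case_two {ν r p : ℕ} {L : ℕ → ℤ} {h x₁ x₂ k y₁ y₂ : ℕ}
    (C : Cfg ν r p L h x₁ x₂ k y₁ y₂) (hk : k + 1 ≤ r) (hkh : k < h) : False := by
  have hlam := C.lam hk
  have hrad := C.rad hk
  have hbig := C.big
  have e1 : (3 : ℤ) * ((x₁ : ℤ) + x₂ + 2 * h) ≤ 2 * (((ν : ℤ) + 1) - 1) := by omega
  have e2 : (3 : ℤ) * ((y₁ : ℤ) + y₂ + 2 * k) ≤ 2 * (((ν : ℤ) + 1) - 1) := by omega
  have e3 : (3 : ℤ) * ((y₁ : ℤ) + y₂ + 2 * k) ≤ (((ν : ℤ) + 1) - 1) := by omega
  have tx := C.X.ten C.hL C.hr e1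
  have ty := C.Y.ten C.hL hk e2
  have s1 : ((ν : ℤ) + 1) - 1 = ν := by ring
  rw [s1] at tx ty
  have hS : ((x₁ : ℤ) + x₂ + y₁ + y₂) ^ 2 = ((x₁ : ℤ) + x₂ + y₁ + y₂) ^ 2 := rfl
  by_cases hyz : ((y₁ : ℤ) + 2) ^ 2 ≤ 2 * ν
  · have hyb : y₁ ≤ y₂ + 1 := C.Y.bal C.hL (by rw [s1]; exact hyz)
    by_cases hxz : ((x₁ : ℤ) + 2) ^ 2 ≤ 2 * ν
    · have hxb : x₁ ≤ x₂ + 1 := C.X.bal C.hL (by rw [s1]; exact hxz)
      rcases Nat.lt_or_ge (3 * ((x₁ + x₂ + 2 * h) + (y₁ + y₂ + 2 * k))) (2 * ν) with hc | hc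
      · exact case_two_one C hk hkh hxz hyz hxb hyb (by zify at hc ⊢; linarith)
      · exact case_two_zero C hk hkh hxz hyz hxb hyb (by omega)
    · have hx10 : 10 * x₁ ≤ ν + 1 := by
        rcases tx with tx | tx
        · exact absurd tx hxz
        · exact_mod_cast tx
      push Not at hxz
      have hx16 : 16 ≤ x₁ := sixteen hx10 hxz (by
        have h5 := C.h1
        have h6 := C.k1
        have h7 := C.hr
        have h8 := C.tot
        omega)
      have hν : 156 ≤ ν := by omega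
      have hy10 : 10 * y₁ ≤ ν + 1 := by
        rcases ty with ty | ty
        · exact tenth ty hν
        · exact_mod_cast ty
      exact case_two_mid C hk hkh hx10 hxz hyb (T3_big C hk hν hx10 hy10 (by omega))
  · have hy10 : 10 * y₁ ≤ ν + 1 := by
      rcases ty with ty | ty
      · exact absurd ty hyz
      · exact_mod_cast ty
    push Not at hyz
    have hy16 : 16 ≤ y₁ := sixteen hy10 hyz (by
      have h5 := C.h1
      have h6 := C.k1
      have h7 := C.hr
      have h8 := C.tot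
      omega)
    have hν : 156 ≤ ν := by omega
    have hx10 : 10 * x₁ ≤ ν + 1 := by
      rcases tx with tx | tx
      · exact tenth tx hν
      · exact_mod_cast tx
    have hle2 := C.Y.le2 C.hL
    have hyH : y₁ ≤ r := by omega
    have imA : y₁ ≤ 2 * k → ((y₁ : ℤ) - y₂) ^ 2 * ν < 10 * y₁ ^ 2 := by
      intro hA
      have := C.Y.imA C.hL hk hyH (by rw [s1]; exact hyz) (by exact_mod_cast hy10) hA e3
      rwa [s1] at this
    have imB : 2 * k < y₁ → ((y₁ : ℤ) - y₂) ^ 2 < 2 * ν - 6 * (y₁ + y₂ + 2 * k) - 9 ∧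
        3 * ((y₁ : ℤ) - y₂) ^ 2 * ν ^ 2 <
          4 * y₁ ^ 2 * ν * (2 * ν - 6 * (y₁ + y₂ + 2 * k) - 6) - 16 * (y₁ : ℤ) ^ 4 := by
      intro hA
      have := C.Y.imB C.hL hk hyH (by rw [s1]; exact hyz) (by exact_mod_cast hy10) hA e3
      rwa [s1] at this
    have hy2 : 1 ≤ y₂ := by
      rcases Nat.eq_zero_or_pos y₂ with h0 | h0
      · exfalso
        subst h0
        have hk2 : y₁ ≤ k := by omega
        have := imA (by omega)
        have h9 : (156 : ℤ) ≤ ν := by exact_mod_cast hν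
        have h10 : (16 : ℤ) ≤ y₁ := by exact_mod_cast hy16
        push_cast at this
        nlinarith
      · exact h0
    exact case_two_big C hk hkh hx10 hy10 hyz hle2 imA imB
      (T3_big C hk hν hx10 hy10 (by omega)) (X_vs_Y C hk hkh hy2)

theorem numeric_main : NumericMain := by
  intro ν r p L hp hL h a b F h1 h2 hE hν hF hmin
  obtain ⟨x₁, x₂, hX, hXs⟩ := exists_NF (n := (ν : ℤ) + 1) (H := r) (L := L) (h := h) (a := a)
    (b := b) ⟨⟨h1, by omega⟩, hE⟩
  have eX : x₁ + x₂ + h = a + b + h := by omega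
  rw [← eX] at hmin
  rcases Nat.eq_zero_or_pos F with hF0 | hF0
  · subst hF0
    refine bare_case ν r p L hp hL h x₁ x₂ hX (fun h₁ q₁ q₂ ho hs => hX.child hL ho hs) h2
      (by omega) (by omega) ?_
    intro u v huv
    have := hmin u v (by omega)
    rw [hL.zero] at this
    linarith
  · obtain ⟨k, c, d, ho, hs⟩ := hL.exists_opt F hF0
    obtain ⟨y₁, y₂, hY, hYs⟩ := exists_NF ho
    have eY : y₁ + y₂ + k = F := by omega
    have C : Cfg ν r p L h x₁ x₂ k y₁ y₂ :=
      { hp := hp, hL := hL, X := hX, Y := hY, hr := h2, tot := by omega, big := by omega,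
        min := by
          intro u v huv
          rw [eY]
          exact hmin u v (by omega) }
    rcases Nat.lt_or_ge k r with hkr | hkr
    · rcases Nat.lt_or_ge k h with hkh | hkh
      · exact case_two C hkr hkh
      · by_cases hxz : ((x₁ : ℤ) + 2) ^ 2 ≤ 2 * ν
        · refine case_one C hkr hkh ?_
          intro V w hwV hV
          have hV2 : KK ((ν : ℤ) + 1) L V = 0 := by
            apply K_eq_zeroH hL
            have : (V : ℤ) + 1 ≤ x₁ := by exact_mod_cast hV
            have hV0 : (0 : ℤ) ≤ V := by positivity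
            nlinarith
          have hw := K_nonnegH hL w
          have e1 : (0 : ℤ) ≤ 6 * ((V : ℤ) - w) * (h - 1) := by
            have t1 : (w : ℤ) ≤ V := by exact_mod_cast hwV
            have t2 : (1 : ℤ) ≤ h := by exact_mod_cast h1
            have := mul_nonneg (sub_nonneg.mpr t1) (sub_nonneg.mpr t2)
            linarith
          have e2 : (0 : ℤ) < ν := by
            have := C.tot
            omega
          rw [hV2]
          linarith
        · refine case_one C hkr hkh ?_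
          intro V w hwV hV
          have hlam := C.lam hkr
          have hrad := C.rad hkr
          have e1 : (3 : ℤ) * ((x₁ : ℤ) + x₂ + 2 * h) ≤ 2 * (((ν : ℤ) + 1) - 1) := by
            omega
          have tx := hX.ten hL h2 e1
          have s1 : ((ν : ℤ) + 1) - 1 = ν := by ring
          rw [s1] at tx
          have hx10 : 10 * x₁ ≤ ν + 1 := by
            rcases tx with tx | tx
            · exact absurd tx hxz
            · exact_mod_cast tx
          have := hX.key hL h2 (by omega) e1 V w hwV hV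
          rwa [s1] at this
    · exact special_case C (le_antisymm C.kr hkr)

end Pool.Agent.Lib.MP_b072d9_co
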