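import Mathlib

set_option autoImplicit false

namespace Pool.Agent.Lib.MP_b072d9_co

/-! The algebra behind `10 a ≤ n` for large nodes. `N = n - 3 a`, `x = h - 1`, `z = a - b - 1`. -/

theorem NA_g (a g N : ℝ) (ha : 16 ≤ a) (hg : 2 ≤ g) (hga : g ≤ a)
    (c1 : 2 * (g - 1) * N ≤ (a - g) ^ 2 + 2 * a + 4 * g - 6) (c5 : 2 * a ≤ N) :
    4 * g ≤ a := by
  by_contra hc
  push Not at hc
  have h1 : 2 * (g - 1) * (2 * a) ≤ 2 * (g - 1) * N :=
    mul_le_mul_of_nonneg_left c5 (by linarith)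
  have h2 : 0 ≤ (4 * g - a) * (6 * a - g - a / 4 - 4) := mul_nonneg (by linarith) (by linarith)
  nlinarith

theorem NA_R (a g : ℝ) (ha : 16 ≤ a) (hg : 2 ≤ g) (hga : 4 * g ≤ a) :
    ((a - g) ^ 2 + 2 * a + 4 * g - 6) * (a + g) ≤ a ^ 3 + 2 * a + 12 := by
  have h1 : 0 ≤ (g - 2) * (-g ^ 2 + (a - 6) * g + a ^ 2 - 4 * a - 6) := by
    apply mul_nonneg (by linarith)
    have : g ^ 2 ≤ (a / 4) ^ 2 := pow_le_pow_left₀ (by linarith) (by linarith) 2
    have : 0 ≤ (a - 6) * g := mul_nonneg (by linarith) (by linarith)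
    nlinarith
  linarith

/-- reduction to `a, N` -/
theorem NA_xz (a g N x z : ℝ) (ha : 16 ≤ a) (hg : 2 ≤ g) (hga : 4 * g ≤ a) (hN : 0 ≤ N)
    (c1 : 2 * (g - 1) * N ≤ (a - g) ^ 2 + 2 * a + 4 * g - 6)
    (c4 : 2 * x * z ≤ (g - 1) * (a + g)) :
    x * z * N ≤ 2527 / 10000 * a ^ 3 := by
  have h1 : 2 * x * z * N ≤ (g - 1) * (a + g) * N := mul_le_mul_of_nonneg_right c4 hN
  have h2 : 2 * (g - 1) * N * (a + g) ≤ ((a - g) ^ 2 + 2 * a + 4 * g - 6) * (a + g) :=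
    mul_le_mul_of_nonneg_right c1 (by linarith)
  have h3 := NA_R a g ha hg hga
  have h4 : 16 * (16 * a) ≤ a * (a * a) := by
    have : 16 * a ≤ a * a := mul_le_mul_of_nonneg_right ha (by linarith)
    exact mul_le_mul ha this (by linarith) (by linarith)
  nlinarith

theorem NA_U (a N U : ℝ) (ha : 16 ≤ a) (c5 : 2 * a ≤ N) (c6 : N + 1 ≤ 7 * a)
    (hU : U * N ≤ 1077 / 1000 * a ^ 3) : U ≤ 1077 / 14000 * (a * (9 * a - N)) := by
  have h1 : 0 ≤ (N - 2 * a) * (7 * a - N) := mul_nonneg (by linarith) (by linarith)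
  have h2 : U * N ≤ (1077 / 14000 * (a * (9 * a - N))) * N := by
    have : 0 ≤ a * ((N - 2 * a) * (7 * a - N)) := mul_nonneg (by linarith) h1
    nlinarith
  exact le_of_mul_le_mul_right h2 (by linarith)

theorem NA_caseA (a N x z U : ℝ) (ha : 16 ≤ a) (c5 : 2 * a ≤ N) (c6 : N + 1 ≤ 7 * a)
    (hU : U ≤ 1077 / 14000 * (a * (9 * a - N))) (hz : z ≤ 9 / 50 * a)
    (E : 2 * a ^ 2 ≤ 2 * a * z + 2 * a + 2 * z + U + (x * (N - 3 * a) - 3 * x ^ 2 - 6 * x) +
      (N - 3 * a) - 3) : False := by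
  obtain ⟨P, hP⟩ : ∃ P, P = N - 3 * a := ⟨_, rfl⟩
  have hN : N = P + 3 * a := by linarith
  subst hN
  have h1 : x * P - 3 * x ^ 2 - 6 * x ≤ (P - 6) ^ 2 / 12 := by
    nlinarith [sq_nonneg (P - 6 - 6 * x)]
  have h2 : 2 * a * z ≤ 2 * a * (9 / 50 * a) := mul_le_mul_of_nonneg_left hz (by linarith)
  have h3 : 0 ≤ (4 * a - 1 - P) * (P + a) := mul_nonneg (by linarith) (by linarith)
  have e : P + 3 * a - 3 * a = P := by ring
  rw [e] at E
  have h4 : 0 ≤ a * (4 * a - 1 - P) := mul_nonneg (by linarith) (by linarith)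
  have h5 : 16 * a ≤ a * a := mul_le_mul_of_nonneg_right ha (by linarith)
  nlinarith

theorem NA_caseB (a N x z U : ℝ) (ha : 16 ≤ a) (c5 : 2 * a ≤ N) (c6 : N + 1 ≤ 7 * a)
    (hx : 2 ≤ x) (hxz : x * z * N ≤ 2527 / 10000 * a ^ 3)
    (hU : U * N ≤ 1077 / 1000 * a ^ 3) (hz : 9 / 50 * a ≤ z) (hz2 : z ≤ 33 / 100 * a)
    (E : 2 * a ^ 2 ≤ 2 * a * z + 2 * a + 2 * z + U + (x * (N - 3 * a) - 3 * x ^ 2 - 6 * x) +
      (N - 3 * a) - 3) : False := by
  have hN : 0 < N := by linarith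
  have a0 : 0 < a := by linarith
  have hxN : x * N ≤ 1404 / 1000 * a ^ 2 := by
    have h1 : x * N * (9 / 50 * a) ≤ x * N * z :=
      mul_le_mul_of_nonneg_left hz (mul_nonneg (by linarith) hN.le)
    have h2 : (x * N) * a ≤ (1404 / 1000 * a ^ 2) * a := by nlinarith
    exact le_of_mul_le_mul_right h2 a0
  have h2 : 2 * a * z ≤ 2 * a * (33 / 100 * a) := mul_le_mul_of_nonneg_left hz2 (by linarith)
  have h3 : 24 ≤ 3 * x ^ 2 + 6 * x := by nlinarith
  have E2 : 67 / 50 * a ^ 2 ≤ 133 / 50 * a + U + x * (N - 3 * a) + (N - 3 * a) - 27 := by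
    linarith
  have E3 : 67 / 50 * a ^ 2 * N ≤ 133 / 50 * a * N + U * N + x * N * (N - 3 * a) +
      (N - 3 * a - 27) * N := by
    have := mul_le_mul_of_nonneg_right E2 hN.le
    linarith
  have h16 : 16 * a ≤ a * a := mul_le_mul_of_nonneg_right ha a0.le
  have h16b : 16 * (a * a) ≤ a * (a * a) := mul_le_mul_of_nonneg_right ha (by positivity)
  rcases le_total (3 * a) N with hc | hc
  · have h4 : x * N * (N - 3 * a) ≤ 1404 / 1000 * a ^ 2 * (N - 3 * a) :=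
      mul_le_mul_of_nonneg_right hxN (by linarith)
    have h5 : N * N ≤ 7 * a * N := mul_le_mul_of_nonneg_right (by linarith) hN.le
    have h6 : N * (64 / 1000 * a ^ 2 + 666 / 100 * a - 27) ≤
        (7 * a) * (64 / 1000 * a ^ 2 + 666 / 100 * a - 27) := by
      apply mul_le_mul_of_nonneg_right (by linarith)
      nlinarith
    have h7 : 0 ≤ (a - 16) * (a * a) := mul_nonneg (by linarith) (by positivity)
    have h8 : 0 ≤ (a - 16) * a := mul_nonneg (by linarith) a0.le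
    nlinarith
  · have h4 : x * N * (N - 3 * a) ≤ 0 :=
      mul_nonpos_of_nonneg_of_nonpos (mul_nonneg (by linarith) hN.le) (by linarith)
    have h5 : (2 * a) * (67 / 50 * a ^ 2 - 133 / 50 * a) ≤ N * (67 / 50 * a ^ 2 - 133 / 50 * a) := by
      apply mul_le_mul_of_nonneg_right c5
      nlinarith
    have h6 : (N - 3 * a - 27) * N ≤ 0 :=
      mul_nonpos_of_nonpos_of_nonneg (by linarith) hN.le
    nlinarith

theorem NA_caseC (a N x z U g : ℝ) (ha : 16 ≤ a) (c5 : 2 * a ≤ N) (c6 : N + 1 ≤ 7 * a)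
    (hx : 2 ≤ x) (hg : 2 ≤ g) (hga : 4 * g ≤ a)
    (hxz : x * z * N ≤ 2527 / 10000 * a ^ 3)
    (c1 : 2 * (g - 1) * N ≤ (a - g) ^ 2 + 2 * a + 4 * g - 6)
    (hU : U * N ≤ 1077 / 1000 * a ^ 3) (hz : 33 / 100 * a ≤ z) (hz2 : 2 * z ≤ a + g - 2)
    (E : 2 * a ^ 2 ≤ 2 * a * z + 2 * a + 2 * z + U + (x * (N - 3 * a) - 3 * x ^ 2 - 6 * x) +
      (N - 3 * a) - 3) : False := by
  have hN : 0 < N := by linarith
  have a0 : 0 < a := by linarith
  have hxN : x * N ≤ 766 / 1000 * a ^ 2 := by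
    have h1 : x * N * (33 / 100 * a) ≤ x * N * z :=
      mul_le_mul_of_nonneg_left hz (mul_nonneg (by linarith) hN.le)
    have h2 : (x * N) * a ≤ (766 / 1000 * a ^ 2) * a := by nlinarith
    exact le_of_mul_le_mul_right h2 a0
  have hgN : 2 * (g * N) ≤ 2 * N + a ^ 2 - 2 * a + 6 := by
    have : 0 ≤ (g - 2) * (2 * a - g - 6) := mul_nonneg (by linarith) (by linarith)
    nlinarith
  have h2 : a * (2 * z) ≤ a * (a + g - 2) := mul_le_mul_of_nonneg_left hz2 a0.le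
  have h3 : 24 ≤ 3 * x ^ 2 + 6 * x := by nlinarith
  have E2 : a ^ 2 ≤ a * g + a + g + U + x * (N - 3 * a) + (N - 3 * a) - 29 := by
    linarith
  have E3 : a ^ 2 * N ≤ a * (g * N) + a * N + g * N + U * N + x * N * (N - 3 * a) +
      (N - 3 * a - 29) * N := by
    have := mul_le_mul_of_nonneg_right E2 hN.le
    linarith
  have E4 : a ^ 2 * N ≤ (a * N + a ^ 3 / 2 - a ^ 2 + 3 * a) + a * N + (N + a ^ 2 / 2 - a + 3) +
      1077 / 1000 * a ^ 3 + x * N * (N - 3 * a) + (N - 3 * a - 29) * N := by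
    have := mul_le_mul_of_nonneg_left hgN a0.le
    linarith
  rcases le_total (3 * a) N with hc | hc
  · have h4 : x * N * (N - 3 * a) ≤ 766 / 1000 * a ^ 2 * (N - 3 * a) :=
      mul_le_mul_of_nonneg_right hxN (by linarith)
    have h5 : N * N ≤ 7 * a * N := mul_le_mul_of_nonneg_right (by linarith) hN.le
    -- 0.234 a^2 N + 0.721 a^3 <= (6a - 28) N
    rcases le_total (234 / 1000 * a ^ 2) (6 * a - 28) with h6 | h6
    · have h7 : N * (6 * a - 28 - 234 / 1000 * a ^ 2) ≤ (7 * a) * (6 * a - 28 - 234 / 1000 * a ^ 2) := by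
        apply mul_le_mul_of_nonneg_right (by linarith) (by linarith)
      have h8 : 0 ≤ (a - 16) * (a * a) := mul_nonneg (by linarith) (by positivity)
      have h9 : 0 ≤ (a - 16) * a := mul_nonneg (by linarith) a0.le
      nlinarith
    · have h7 : N * (6 * a - 28 - 234 / 1000 * a ^ 2) ≤ 0 :=
        mul_nonpos_of_nonneg_of_nonpos hN.le (by linarith)
      have h8 : 0 ≤ (a - 16) * (a * a) := mul_nonneg (by linarith) (by positivity)
      have h9 : 0 ≤ (a - 16) * a := mul_nonneg (by linarith) a0.le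
      nlinarith
  · have h4 : x * N * (N - 3 * a) ≤ 0 :=
      mul_nonpos_of_nonneg_of_nonpos (mul_nonneg (by linarith) hN.le) (by linarith)
    have h5 : (2 * a) * (a ^ 2 - 2 * a + 28) ≤ N * (a ^ 2 - 2 * a + 28) := by
      apply mul_le_mul_of_nonneg_right c5
      nlinarith
    have h6 : (N - 3 * a) * N ≤ 0 :=
      mul_nonpos_of_nonpos_of_nonneg (by linarith) hN.le
    have h8 : 0 ≤ (a - 16) * (a * a) := mul_nonneg (by linarith) (by positivity)
    have h9 : 0 ≤ (a - 16) * a := mul_nonneg (by linarith) a0.le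
    nlinarith

/-- the algebra behind `10 a ≤ n`, for `a ≥ 16` -/
theorem NA_alg (a b h g N K : ℝ) (ha : 16 ≤ a) (hg : 2 ≤ g) (hgh : g + 1 ≤ h) (hga : g ≤ a)
    (c1 : 2 * (g - 1) * N ≤ (a - g) ^ 2 + 2 * a + 4 * g - 6)
    (c2 : 2 * a * b - K ≤ h * (N - 2 - a - 2 * b - 3 * h))
    (cK : 7 * N * K ≤ 4 * a ^ 3) (c3 : a - g ≤ 2 * b)
    (c4 : 2 * (h - 1) * (a - b - 1) ≤ (g - 1) * (a + g)) (c5 : 2 * a ≤ N)
    (c6 : N + 1 ≤ 7 * a) : False := by
  have hg4 := NA_g a g N ha hg hga c1 c5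
  obtain ⟨x, hx⟩ : ∃ x, x = h - 1 := ⟨_, rfl⟩
  obtain ⟨z, hz⟩ : ∃ z, z = a - b - 1 := ⟨_, rfl⟩
  have hN : 0 ≤ N := by linarith
  have hxz := NA_xz a g N x z ha hg hg4 hN c1 (by rw [hx, hz]; exact c4)
  have hh : h = x + 1 := by linarith
  have hb : b = a - z - 1 := by linarith
  have hx2 : 2 ≤ x := by linarith
  have E : 2 * a ^ 2 ≤ 2 * a * z + 2 * a + 2 * z + (K + 2 * x * z) +
      (x * (N - 3 * a) - 3 * x ^ 2 - 6 * x) + (N - 3 * a) - 3 := by
    rw [hh, hb] at c2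
    linarith
  have hU : (K + 2 * x * z) * N ≤ 1077 / 1000 * a ^ 3 := by
    have : 0 ≤ a ^ 3 := by positivity
    linarith
  have hU2 := NA_U a N (K + 2 * x * z) ha c5 c6 hU
  rcases le_total z (9 / 50 * a) with h1 | h1
  · exact NA_caseA a N x z _ ha c5 c6 hU2 h1 E
  · rcases le_total z (33 / 100 * a) with h2 | h2
    · exact NA_caseB a N x z _ ha c5 c6 hx2 hxz hU h1 h2 E
    · exact NA_caseC a N x z _ g ha c5 c6 hx2 hg hg4 hxz c1 hU h2 (by linarith) E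

end Pool.Agent.Lib.MP_b072d9_co
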