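import Mathlib

set_option autoImplicit false

namespace Pool.Agent.Lib.MP_b072d9_co

/-! Real algebra for the imbalance and the slope of nodes whose larger child is below `n / 10`. -/

/-- the label of the larger child is small -/
theorem NB_c (a c N : ℝ) (c3 : 3 ≤ c) (ca : c ≤ a) (hN : 7 * a ≤ N)
    (D1 : 2 * (c - 1) * N ≤ (a - c) ^ 2 + 2 * a + 4 * c - 6) : 10 * c ≤ a := by
  by_contra hcon
  push Not at hcon
  have e1 : 2 * (c - 1) * (7 * a) ≤ 2 * (c - 1) * N :=
    mul_le_mul_of_nonneg_left hN (by linarith)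
  -- a² - 16 a (c-1) + c² + 4c - 6 ≥ 0, convex, negative at a = c and at a = 10 c
  have e2 : 0 ≤ (a - c) * (10 * c - a) := mul_nonneg (by linarith) (by linarith)
  have e3 : 0 ≤ (a - c) * (c - 3) := mul_nonneg (by linarith) (by linarith)
  have e4 : 0 ≤ (c - 3) ^ 2 := sq_nonneg _
  nlinarith

theorem K_le_sq (a N K : ℝ) (ha : 0 < a) (hK : 0 ≤ K) (hN : 7 * a ≤ N)
    (KU : 7 * N * K ≤ 4 * a ^ 3) : 49 * K ≤ 4 * a ^ 2 := by
  have h1 : 7 * (7 * a) * K ≤ 7 * N * K := by
    apply mul_le_mul_of_nonneg_right _ hK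
    linarith
  have h2 : a * (49 * K) ≤ a * (4 * a ^ 2) := by linarith
  exact le_of_mul_le_mul_left h2 ha

theorem NB_alg (a b h c N K : ℝ) (c3 : 3 ≤ c) (ch : c + 1 ≤ h) (ca : c ≤ a) (hb : 0 ≤ b)
    (hK : 0 ≤ K) (hN : 7 * a ≤ N)
    (D1 : 2 * (c - 1) * N ≤ (a - c) ^ 2 + 2 * a + 4 * c - 6)
    (D2 : 2 * a * b - K ≤ h * (N - 2 - a - 2 * b - 3 * h))
    (KU : 7 * N * K ≤ 4 * a ^ 3)
    (Im : 2 * (h - 1) * (a - b - 1) ≤ (c - 1) * (a + c)) : 3 * (a - b) ≤ a + c := by
  by_contra hcon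
  push Not at hcon
  have ha : 0 < a := by linarith
  have hc10 := NB_c a c N c3 ca hN D1
  have hK2 := K_le_sq a N K ha hK hN KU
  obtain ⟨E, hE⟩ : ∃ E, E = a - b - 1 := ⟨_, rfl⟩
  have hbE : b = a - 1 - E := by linarith
  subst hbE
  have hE1 : a < 3 * E := by linarith
  have hE0 : 0 < E := by linarith
  have hE2 : 2 * E < a + c := by
    have e1 : 2 * c * E ≤ 2 * (h - 1) * E := by
      apply mul_le_mul_of_nonneg_right _ hE0.le
      linarith
    have e2 : 2 * (h - 1) * (a - (a - 1 - E) - 1) = 2 * (h - 1) * E := by ring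
    rw [e2] at Im
    by_contra h2
    push Not at h2
    have e3 : c * (a + c) ≤ c * (2 * E) := mul_le_mul_of_nonneg_left h2 (by linarith)
    linarith
  have Im' : 2 * (h - 1) * E ≤ (c - 1) * (a + c) := by
    have e2 : 2 * (h - 1) * (a - (a - 1 - E) - 1) = 2 * (h - 1) * E := by ring
    linarith
  -- the bracket
  obtain ⟨B, hB⟩ : ∃ B, B = (a - c) ^ 2 + 2 * a + 4 * c - 6 -
    2 * (c - 1) * (2 + a + 2 * (a - 1 - E) + 3 * h) := ⟨_, rfl⟩
  have s1 : 2 * (c - 1) * (2 * a * (a - 1 - E) - K) ≤ h * B := by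
    have e1 : 2 * (c - 1) * (2 * a * (a - 1 - E) - K) ≤
        2 * (c - 1) * (h * (N - 2 - a - 2 * (a - 1 - E) - 3 * h)) :=
      mul_le_mul_of_nonneg_left D2 (by linarith)
    have e2 : h * (2 * (c - 1) * N) ≤ h * ((a - c) ^ 2 + 2 * a + 4 * c - 6) :=
      mul_le_mul_of_nonneg_left D1 (by linarith)
    rw [hB]
    linarith
  have s2 : B ≤ a * (a - 12) := by
    have e1 : 4 * (2 * a + 2 * c + 3) ≤ 2 * (c - 1) * (2 + a + 2 * (a - 1 - E) + 3 * h) := by
      apply mul_le_mul (by linarith) (by linarith) (by linarith) (by linarith)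
    have e2 : (a - c) ^ 2 ≤ (a - 3) ^ 2 := by
      apply pow_le_pow_left₀ (by linarith) (by linarith)
    rw [hB]
    nlinarith
  have s3 : 0 ≤ 2 * a * (a - 1 - E) - K := by
    nlinarith
  have s4 : 0 ≤ B := by
    by_contra h4
    push Not at h4
    have e1 : h * B < 0 := mul_neg_of_pos_of_neg (by linarith) h4
    have e2 : 0 ≤ 2 * (c - 1) * (2 * a * (a - 1 - E) - K) := mul_nonneg (by linarith) s3
    linarith
  have s5 : E * (2 * (c - 1) * (2 * a * (a - 1 - E) - K)) ≤ (c - 1) * (E + (a + c)) / 2 * B := by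
    have e1 : E * (2 * (c - 1) * (2 * a * (a - 1 - E) - K)) ≤ E * (h * B) :=
      mul_le_mul_of_nonneg_left s1 hE0.le
    have e2 : E * h ≤ (c - 1) * (E + (a + c)) / 2 := by
      have : 0 ≤ (c - 3) * E := mul_nonneg (by linarith) hE0.le
      linarith
    have e3 : E * h * B ≤ (c - 1) * (E + (a + c)) / 2 * B := mul_le_mul_of_nonneg_right e2 s4
    linarith
  have s6 : (c - 1) * (E + (a + c)) / 2 * B ≤ (c - 1) * (E + (a + c)) / 2 * (a * (a - 12)) := by
    apply mul_le_mul_of_nonneg_left s2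
    apply div_nonneg _ (by norm_num)
    apply mul_nonneg <;> linarith
  have s7 : 4 * E * (2 * a * (a - 1 - E) - K) ≤ (E + (a + c)) * (a * (a - 12)) := by
    have e1 : (c - 1) * (4 * E * (2 * a * (a - 1 - E) - K)) ≤
        (c - 1) * ((E + (a + c)) * (a * (a - 12))) := by linarith
    exact le_of_mul_le_mul_left e1 (by linarith)
  have s8 : 4 * E * (2 * (a - 1 - E) - 4 * a / 49) ≤ (E + 11 / 10 * a) * (a - 12) := by
    have e1 : 4 * E * (2 * a * (a - 1 - E) - 4 * a ^ 2 / 49) ≤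
        4 * E * (2 * a * (a - 1 - E) - K) := by
      apply mul_le_mul_of_nonneg_left _ (by linarith)
      linarith
    have e2 : (E + (a + c)) * (a * (a - 12)) ≤ (E + 11 / 10 * a) * (a * (a - 12)) := by
      apply mul_le_mul_of_nonneg_right (by linarith)
      apply mul_nonneg (by linarith) (by linarith)
    have e3 : a * (4 * E * (2 * (a - 1 - E) - 4 * a / 49)) ≤ a * ((E + 11 / 10 * a) * (a - 12)) := by
      linarith
    exact le_of_mul_le_mul_left e3 ha
  have s9 : 0 ≤ (3 * E - a) * (11 * a - 20 * E) := mul_nonneg (by linarith) (by linarith)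
  nlinarith

end Pool.Agent.Lib.MP_b072d9_co
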