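import Mathlib

set_option autoImplicit false

namespace Pool.Agent.Lib.MP_b072d9_co

/-! Finite check for `10 a ≤ n`, small nodes. -/

def chkNAi (a N g : ℕ) : Bool :=
  (List.range a).all fun b => (List.range (3 * a)).all fun h =>
    !(Nat.ble (g + 1) h && Nat.ble a (2 * b + g) &&
      Nat.ble (2 * (h - 1) * (a - b - 1)) ((g - 1) * (a + g)) &&
      Nat.ble (2 * a * b + 3 * h * h + h * (2 + a + 2 * b)) (h * N + 4 * a * a * a / (7 * N)))

def chkNA : Bool :=
  (List.range 16).all fun a => (List.range 105).all fun N => (List.range 16).all fun g =>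
    !(Nat.ble (2 * a + 1) N && Nat.ble (N + 1) (7 * a) && Nat.ble 2 g && Nat.ble g a &&
      Nat.ble (2 * (g - 1) * N + 6) ((a - g) * (a - g) + 2 * a + 4 * g)) || chkNAi a N g

theorem chkNA_true : chkNA = true := by decide +kernel

theorem NA_small (a N g b h K : ℕ) (ha : a ≤ 15) (c5 : 2 * a + 1 ≤ N) (c6 : N + 1 ≤ 7 * a)
    (hg : 2 ≤ g) (hga : g ≤ a) (hgh : g + 1 ≤ h) (hb : b + 1 ≤ a) (hh : h < 3 * a)
    (c1 : 2 * (g - 1) * N + 6 ≤ (a - g) * (a - g) + 2 * a + 4 * g)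
    (c2 : 2 * a * b + 3 * h * h + h * (2 + a + 2 * b) ≤ h * N + K)
    (cK : 7 * N * K ≤ 4 * a * a * a) (c3 : a ≤ 2 * b + g)
    (c4 : 2 * (h - 1) * (a - b - 1) ≤ (g - 1) * (a + g)) : False := by
  have h1 := chkNA_true
  unfold chkNA at h1
  rw [List.all_eq_true] at h1
  have h2 := h1 a (List.mem_range.2 (by omega))
  rw [List.all_eq_true] at h2
  have h3 := h2 N (List.mem_range.2 (by omega))
  rw [List.all_eq_true] at h3
  have h4 := h3 g (List.mem_range.2 (by omega))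
  have h5 : (Nat.ble (2 * a + 1) N && Nat.ble (N + 1) (7 * a) && Nat.ble 2 g && Nat.ble g a &&
      Nat.ble (2 * (g - 1) * N + 6) ((a - g) * (a - g) + 2 * a + 4 * g)) = true := by
    simp only [Bool.and_eq_true, Nat.ble_eq]
    exact ⟨⟨⟨⟨c5, c6⟩, hg⟩, hga⟩, c1⟩
  rw [h5] at h4
  simp only [Bool.not_true, Bool.false_or] at h4
  unfold chkNAi at h4
  rw [List.all_eq_true] at h4
  have h6 := h4 b (List.mem_range.2 (by omega))
  rw [List.all_eq_true] at h6
  have h7 := h6 h (List.mem_range.2 hh)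
  have hK : K ≤ 4 * a * a * a / (7 * N) := by
    rw [Nat.le_div_iff_mul_le (by omega)]
    calc K * (7 * N) = 7 * N * K := by ring
      _ ≤ _ := cK
  have h8 : (Nat.ble (g + 1) h && Nat.ble a (2 * b + g) &&
      Nat.ble (2 * (h - 1) * (a - b - 1)) ((g - 1) * (a + g)) &&
      Nat.ble (2 * a * b + 3 * h * h + h * (2 + a + 2 * b))
        (h * N + 4 * a * a * a / (7 * N))) = true := by
    simp only [Bool.and_eq_true, Nat.ble_eq]
    exact ⟨⟨⟨hgh, c3⟩, c4⟩, by omega⟩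
  rw [h8] at h7
  simp at h7

end Pool.Agent.Lib.MP_b072d9_co
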