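import Pool.Agent.Lib.MP_b072d9_co.LCap
import Pool.Agent.Lib.MP_b072d9_co.NodeA
import Pool.Agent.Lib.MP_b072d9_co.NodeS

set_option autoImplicit false

namespace Pool.Agent.Lib.MP_b072d9_co

/-! Nodes of the capped structure of excess at most `0.27 n`. -/

variable {n : ℤ} {H : ℕ} {L : ℕ → ℤ}

/-- first step: the smaller child is below `n / 10` -/
theorem node_small_child (hL : IsLH n H L) {h a b : ℕ} (hH : h + 1 ≤ H) (ho : OptH n H L h a b)
    (hab : b ≤ a) (hu : 100 * ((a : ℤ) + b + h) ≤ 27 * n) : 10 * (b : ℤ) < n := by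
  have h1 : (1 : ℤ) ≤ h := by exact_mod_cast ho.1.1
  have ha0 : (0 : ℤ) ≤ a := by positivity
  have hb0 : (0 : ℤ) ≤ b := by positivity
  have hn : 0 < n := by linarith
  by_contra hc
  push Not at hc
  have habZ : (b : ℤ) ≤ a := by exact_mod_cast hab
  have hapos : 1 ≤ a := by
    have : (0 : ℤ) < b := by linarith
    have : 0 < b := by exact_mod_cast this
    omega
  obtain ⟨a₁, rfl⟩ := Nat.exists_eq_add_of_le' hapos
  have d2 := D2H hL hH ho
  have kup := K_upH hL a₁ (by push_cast at hu; linarith)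
  have k0 := K_nonnegH hL a₁
  push_cast at *
  set A : ℤ := (a₁ : ℤ) + 1 with hA
  set K := KK n L a₁ with hK
  have hA17 : 100 * A ≤ 17 * n := by linarith
  -- K ≤ 0.0338 n A
  have e1 : 343 * n * K ≤ 4 * 289 / 100 * n ^ 2 * A + 343 * n * K - 7 * 100 * (n - 3 * A) * K +
      0 + (7 * 100 * (n - 3 * A) * K - 343 * n * K) + (343 * n * K - 4 * 289 / 100 * n ^ 2 * A) := by
    linarith
  clear e1
  have e2 : 49 * n * (100 * (7 * K)) ≤ 100 * (n - 3 * A) * (100 * (7 * K)) := by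
    apply mul_le_mul_of_nonneg_right _ (by linarith)
    linarith
  have e3 : 10000 * A ^ 3 ≤ 289 * n ^ 2 * A := by
    have t1 : (100 * A) * (100 * A) ≤ (17 * n) * (17 * n) :=
      mul_le_mul hA17 hA17 (by linarith) (by linarith)
    have := mul_le_mul_of_nonneg_right t1 (by linarith : 0 ≤ A)
    linarith
  have e4 : 34300 * K * n ≤ 1156 * (n * A) * n := by
    linarith
  have e5 : 34300 * K ≤ 1156 * (n * A) := le_of_mul_le_mul_right e4 hn
  -- right-hand side
  have e6 : (h : ℤ) * (n - 2 - 4 * A - 2 * b - 3 * h) * 75 ≤ n ^ 2 := by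
    have t1 : (h : ℤ) * (n - 2 - 4 * A - 2 * b - 3 * h) * 5 ≤ h * (2 * n - 15 * h) := by
      have : (n - 2 - 4 * A - 2 * b - 3 * h) * 5 ≤ 2 * n - 15 * h := by linarith
      have := mul_le_mul_of_nonneg_left this (by linarith : (0 : ℤ) ≤ h)
      linarith
    nlinarith [sq_nonneg (n - 15 * h)]
  have e7 : A * (n - 10 * b) ≤ 0 := mul_nonpos_of_nonneg_of_nonpos (by linarith) (by linarith)
  have e8 : n * (n - 10 * A) ≤ 0 := mul_nonpos_of_nonneg_of_nonpos (by linarith) (by linarith)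
  have e9 : 0 < n ^ 2 := by positivity
  linarith

/-- facts about the larger child -/
theorem node_child (hL : IsLH n H L) {h a b c p q : ℕ} (hH : h + 1 ≤ H) (ho : OptH n H L h a b)
    (hh : 2 ≤ h) (hc : OptH n H L c p q) (hs : p + q + c = a) :
    c + 1 ≤ h ∧ p ≤ b ∧ q ≤ b := by
  have ho' : OptH n H L h (p + q + c) b := by rw [hs]; exact ho
  have n1 := N1H hL ho' hc
  have n1' : c < h := by
    rcases Nat.lt_or_ge c h with h1 | h1
    · exact h1
    · exfalso
      have : c = h := le_antisymm n1 h1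
      subst this
      exact N3H hL hh hH ho' hc
  refine ⟨n1', N2H hL ho' hc n1', ?_⟩
  have ho'' : OptH n H L h (q + p + c) b := by
    rw [show q + p + c = a by omega]; exact ho
  exact N2H hL ho'' hc.swap n1'

/-- the raw imbalance bound -/
theorem node_imb (hL : IsLH n H L) {h a b c p q : ℕ} (hH : h + 1 ≤ H) (ho : OptH n H L h a b)
    (hh : 2 ≤ h) (hc : OptH n H L c p q) (hs : p + q + c = a) (h5a : 5 * (a : ℤ) ≤ n + 1)
    (h5b : 5 * (b : ℤ) ≤ n + 1) :
    2 * ((h : ℤ) - 1) * (a - b - 1) ≤ 2 * ((c : ℤ) - 1) * (q + c) := by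
  obtain ⟨k1, k2, k3⟩ := node_child hL hH ho hh hc hs
  have hapos : 1 ≤ a := by have := hc.1; omega
  obtain ⟨a₁, rfl⟩ := Nat.exists_eq_add_of_le' hapos
  have im := ImbH hL ho
  rcases Nat.lt_or_ge 1 c with hc2 | hc2
  · rcases Nat.eq_zero_or_pos p with hp | hp
    · -- `p = 0`
      subst hp
      obtain ⟨d, rfl⟩ := Nat.exists_eq_add_of_le' hc.1.1
      have hd : 1 ≤ d := by omega
      have hb := BminusH hL hd hc
      rw [show 0 + q + d = a₁ by omega] at hb
      have k := K_nonnegH hL b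
      have e1 : (0 : ℤ) + q + (d + 1) = a₁ + 1 := by exact_mod_cast hs
      have e2 : (1 : ℤ) ≤ d := by exact_mod_cast hd
      have e3 : (0 : ℤ) ≤ q := by positivity
      push_cast at hb h5a im ⊢
      have e4 : 0 ≤ (d : ℤ) * (n + 1 - 4 * (0 + q + d + 1) - (d + 1)) := by
        apply mul_nonneg (by linarith)
        linarith
      have e5 : 0 ≤ 2 * ((d : ℤ) + 1 - 1) * (q + (d + 1)) := by
        apply mul_nonneg <;> linarith
      linarith
    · obtain ⟨p', rfl⟩ := Nat.exists_eq_add_of_le' hp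
      have cm := CminusH hL hc
      rw [show p' + q + c = a₁ by omega] at cm
      have hmono : KK n L p' ≤ KK n L b := K_monoH hL (by omega) h5b
      push_cast
      linarith
  · have hc1 : c = 1 := by have := hc.1; omega
    subst hc1
    have hz := one_labelH hL (a₁ + 1) (by push_cast at h5a ⊢; linarith) p q hc (by omega) a₁ (by omega)
    have k := K_nonnegH hL b
    rw [hz] at im
    push_cast at im ⊢
    linarith

/-- (D1) for the larger child -/
theorem node_D1 (hL : IsLH n H L) {a c p q : ℕ} (hc : OptH n H L c p q) (hs : p + q + c = a)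
    (hc2 : 2 ≤ c) :
    2 * ((c : ℤ) - 1) * (n - 3 * a) ≤ ((a : ℤ) - c) ^ 2 + 2 * a + 4 * c - 6 := by
  obtain ⟨d, rfl⟩ := Nat.exists_eq_add_of_le' hc.1.1
  have hd1 := D1avgH hL (by omega : 1 ≤ d) hc
  have e : (p : ℤ) + q + (d + 1) = a := by exact_mod_cast hs
  rw [e] at hd1
  have e1 : 4 * (p : ℤ) * q ≤ ((a : ℤ) - (d + 1)) ^ 2 := by
    have := sq_nonneg ((p : ℤ) - q)
    have e : (a : ℤ) - (d + 1) = p + q := by linarith
    rw [e]; linarith
  push_cast
  linarith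

/-- the larger child is below `n / 10` as soon as it is below `n / 5` and the smaller one is
below `n / 10` -/
theorem NA_core (hL : IsLH n H L) {h a b : ℕ} (hH : h + 1 ≤ H) (ho : OptH n H L h a b)
    (hh : 2 ≤ h) (h10b : 10 * (b : ℤ) < n) (h5a : 5 * (a : ℤ) < n) (h3a : (h : ℤ) < 3 * a) :
    10 * (a : ℤ) ≤ n := by
  by_contra hcon
  push Not at hcon
  have hh2 : (2 : ℤ) ≤ h := by exact_mod_cast hh
  have ha0 : (0 : ℤ) ≤ a := by positivity
  have hb0 : (0 : ℤ) ≤ b := by positivity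
  have hn : 0 < n := by linarith
  have hlt : b < a := by
    have : (b : ℤ) < a := by linarith
    exact_mod_cast this
  have hapos : 1 ≤ a := by omega
  obtain ⟨c, p₀, q₀, hc₀, hs₀⟩ := hL.exists_opt a hapos
  obtain ⟨p, q, hc, hs, hqp⟩ : ∃ p q : ℕ, OptH n H L c p q ∧ p + q + c = a ∧ q ≤ p := by
    rcases le_total q₀ p₀ with h1 | h1
    · exact ⟨p₀, q₀, hc₀, hs₀, h1⟩
    · exact ⟨q₀, p₀, hc₀.swap, by omega, h1⟩
  obtain ⟨k1, k2, k3⟩ := node_child hL hH ho hh hc hs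
  have k1Z : (c : ℤ) + 1 ≤ h := by exact_mod_cast k1
  have k2Z : (p : ℤ) ≤ b := by exact_mod_cast k2
  have k3Z : (q : ℤ) ≤ b := by exact_mod_cast k3
  have hqpZ : (q : ℤ) ≤ p := by exact_mod_cast hqp
  have hsZ : (p : ℤ) + q + c = a := by exact_mod_cast hs
  have hltZ : (b : ℤ) + 1 ≤ a := by exact_mod_cast hlt
  have c1Z : (1 : ℤ) ≤ c := by exact_mod_cast hc.1.1
  have im := node_imb hL hH ho hh hc hs (by linarith) (by linarith)
  obtain ⟨a₁, rfl⟩ := Nat.exists_eq_add_of_le' hapos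
  have d2 := D2H hL hH ho
  have kup := K_upH hL a₁ (by push_cast at h5a; linarith)
  have k0 := K_nonnegH hL a₁
  rcases Nat.lt_or_ge 1 c with hc2 | hc2
  · have c2Z : (2 : ℤ) ≤ c := by exact_mod_cast hc2
    have d1 := node_D1 hL hc hs hc2
    have im' : 2 * ((h : ℤ) - 1) * ((a₁ + 1 : ℕ) - b - 1) ≤ ((c : ℤ) - 1) * ((a₁ + 1 : ℕ) + c) := by
      have : ((c : ℤ) - 1) * (2 * (q + c)) ≤ (c - 1) * ((a₁ + 1 : ℕ) + c) := by
        apply mul_le_mul_of_nonneg_left _ (by linarith)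
        linarith
      linarith
    rcases Nat.lt_or_ge 15 (a₁ + 1) with h15 | h15
    · -- large nodes
      have h16 : (16 : ℤ) ≤ (a₁ + 1 : ℕ) := by exact_mod_cast h15
      refine NA_alg ((a₁ + 1 : ℕ) : ℝ) (b : ℝ) (h : ℝ) (c : ℝ) ((n : ℝ) - 3 * (a₁ + 1 : ℕ))
        (KK n L a₁ : ℝ) ?_ ?_ ?_ ?_ ?_ ?_ ?_ ?_ ?_ ?_ ?_
      · exact_mod_cast h16
      · exact_mod_cast c2Z
      · exact_mod_cast k1
      · have : (c : ℤ) ≤ (a₁ + 1 : ℕ) := by
          have : (0 : ℤ) ≤ q := by positivity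
          linarith
        exact_mod_cast this
      · exact_mod_cast d1
      · have e : 2 * (((a₁ + 1 : ℕ) : ℤ)) * b - KK n L a₁ ≤
            h * ((n - 3 * ((a₁ + 1 : ℕ) : ℤ)) - 2 - (a₁ + 1 : ℕ) - 2 * b - 3 * h) := by
          push_cast at d2 ⊢
          linarith
        exact_mod_cast e
      · have e : 7 * (n - 3 * ((a₁ + 1 : ℕ) : ℤ)) * KK n L a₁ ≤ 4 * ((a₁ + 1 : ℕ) : ℤ) ^ 3 := by
          push_cast at kup ⊢
          linarith
        exact_mod_cast e
      · have e : ((a₁ + 1 : ℕ) : ℤ) - c ≤ 2 * b := by linarith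
        exact_mod_cast e
      · exact_mod_cast im'
      · have e : 2 * ((a₁ + 1 : ℕ) : ℤ) ≤ n - 3 * ((a₁ + 1 : ℕ) : ℤ) := by linarith
        exact_mod_cast e
      · have e : n - 3 * ((a₁ + 1 : ℕ) : ℤ) + 1 ≤ 7 * ((a₁ + 1 : ℕ) : ℤ) := by linarith
        exact_mod_cast e
    · -- small nodes
      obtain ⟨N, hN⟩ : ∃ N : ℕ, (N : ℤ) = n - 3 * ((a₁ + 1 : ℕ) : ℤ) :=
        ⟨(n - 3 * ((a₁ + 1 : ℕ) : ℤ)).toNat, Int.toNat_of_nonneg (by linarith)⟩
      obtain ⟨K, hK⟩ : ∃ K : ℕ, (K : ℤ) = KK n L a₁ := ⟨(KK n L a₁).toNat, Int.toNat_of_nonneg k0⟩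
      obtain ⟨c', rfl⟩ : ∃ c', c = c' + 1 := ⟨c - 1, by omega⟩
      obtain ⟨h', rfl⟩ : ∃ h', h = h' + 1 := ⟨h - 1, by omega⟩
      obtain ⟨z, hz⟩ : ∃ z, a₁ = b + z := ⟨a₁ - b, by omega⟩
      have hq0 : (0 : ℤ) ≤ q := by positivity
      have hca : c' ≤ a₁ := by
        have : (c' : ℤ) ≤ a₁ := by push_cast at hsZ; linarith
        exact_mod_cast this
      obtain ⟨w, hw⟩ : ∃ w, a₁ = c' + w := ⟨a₁ - c', by omega⟩
      refine NA_small (a₁ + 1) N (c' + 1) b (h' + 1) K h15 ?_ ?_ hc2 (by omega) k1 (by omega) ?_ ?_ ?_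
        ?_ ?_ ?_
      · have : 2 * ((a₁ + 1 : ℕ) : ℤ) + 1 ≤ N := by rw [hN]; linarith
        exact_mod_cast this
      · have : (N : ℤ) + 1 ≤ 7 * ((a₁ + 1 : ℕ) : ℤ) := by rw [hN]; linarith
        exact_mod_cast this
      · have : ((h' + 1 : ℕ) : ℤ) < 3 * ((a₁ + 1 : ℕ) : ℤ) := by linarith
        exact_mod_cast this
      · rw [show c' + 1 - 1 = c' by omega, show a₁ + 1 - (c' + 1) = w by omega]
        have hwZ : (a₁ : ℤ) = c' + w := by exact_mod_cast hw
        have : 2 * (c' : ℤ) * N + 6 ≤ w * w + 2 * ((a₁ + 1 : ℕ) : ℤ) + 4 * ((c' + 1 : ℕ) : ℤ) := by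
          rw [hN]
          push_cast at d1 ⊢
          rw [hwZ] at d1 ⊢
          linarith
        exact_mod_cast this
      · have : 2 * ((a₁ + 1 : ℕ) : ℤ) * b + 3 * ((h' + 1 : ℕ) : ℤ) * ((h' + 1 : ℕ) : ℤ) +
            ((h' + 1 : ℕ) : ℤ) * (2 + ((a₁ + 1 : ℕ) : ℤ) + 2 * b) ≤ ((h' + 1 : ℕ) : ℤ) * N + K := by
          rw [hN, hK]
          push_cast at d2 ⊢
          linarith
        exact_mod_cast this
      · have : 7 * (N : ℤ) * K ≤ 4 * ((a₁ + 1 : ℕ) : ℤ) * ((a₁ + 1 : ℕ) : ℤ) * ((a₁ + 1 : ℕ) : ℤ) := by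
          rw [hN, hK]
          push_cast at kup ⊢
          linarith
        exact_mod_cast this
      · have : ((a₁ + 1 : ℕ) : ℤ) ≤ 2 * b + ((c' + 1 : ℕ) : ℤ) := by linarith
        exact_mod_cast this
      · rw [show h' + 1 - 1 = h' by omega, show a₁ + 1 - b - 1 = z by omega,
          show c' + 1 - 1 = c' by omega]
        have hzZ : (a₁ : ℤ) = b + z := by exact_mod_cast hz
        have : 2 * (h' : ℤ) * z ≤ c' * (((a₁ + 1 : ℕ) : ℤ) + ((c' + 1 : ℕ) : ℤ)) := by
          push_cast at im' ⊢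
          rw [hzZ] at im' ⊢
          linarith
        exact_mod_cast this
  · -- label one
    have hc1 : c = 1 := by have := hc.1; omega
    subst hc1
    have hz := one_labelH hL (a₁ + 1) (by push_cast at h5a ⊢; linarith) p q hc (by omega) a₁ (by omega)
    rw [hz] at d2
    push_cast at im d2 hcon h10b hltZ
    have hle : (a₁ : ℤ) ≤ b := by
      by_contra hlt2
      push Not at hlt2
      have : 0 < ((h : ℤ) - 1) * (a₁ - b) := mul_pos (by linarith) (by linarith)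
      linarith
    have hbe : (b : ℤ) = a₁ := by linarith
    rw [hbe] at d2 h10b
    -- 2 (a₁+1) a₁ ≤ h (n - 6 a₁ - 6 - 3h) with n ≤ 10 a₁ + 9
    have e1 : (h : ℤ) * (n - 2 - 4 * (a₁ + 1) - 2 * a₁ - 3 * h) ≤ h * (4 * a₁ + 3 - 3 * h) := by
      apply mul_le_mul_of_nonneg_left _ (by linarith)
      linarith
    rcases Nat.lt_or_ge a₁ 2 with h3 | h3
    · interval_cases a₁
      · push_cast at *
        nlinarith
      · push_cast at *
        nlinarith
    · have h3Z : (2 : ℤ) ≤ a₁ := by exact_mod_cast h3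
      nlinarith [sq_nonneg (4 * (a₁ : ℤ) + 3 - 6 * h)]

/-- the children of nodes of excess at most `0.27 n` are below `n / 10` -/
theorem NA (hL : IsLH n H L) {h a b : ℕ} (hH : h + 1 ≤ H) (ho : OptH n H L h a b)
    (hh : 2 ≤ h) (hab : b ≤ a) (hu : 100 * ((a : ℤ) + b + h) ≤ 27 * n) : 10 * (a : ℤ) ≤ n := by
  by_contra hcon
  push Not at hcon
  have h10b := node_small_child hL hH ho hab hu
  have hb0 : (0 : ℤ) ≤ b := by positivity
  have ha0 : (0 : ℤ) ≤ a := by positivity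
  have hhZ : (2 : ℤ) ≤ h := by exact_mod_cast hh
  have habZ : (b : ℤ) ≤ a := by exact_mod_cast hab
  have h3a : (h : ℤ) < 3 * a := by linarith
  have h5a : 5 * (a : ℤ) < n := by
    -- the nesting facts bound `a` by `2 b + c` with `c < h`
    have hapos : 1 ≤ a := by
      have : (0 : ℤ) < a := by linarith
      exact_mod_cast this
    obtain ⟨c, p, q, hc, hs⟩ := hL.exists_opt a hapos
    obtain ⟨k1, k2, k3⟩ := node_child hL hH ho hh hc hs
    have k1Z : (c : ℤ) + 1 ≤ h := by exact_mod_cast k1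
    have k2Z : (p : ℤ) ≤ b := by exact_mod_cast k2
    have k3Z : (q : ℤ) ≤ b := by exact_mod_cast k3
    have hsZ : (p : ℤ) + q + c = a := by exact_mod_cast hs
    by_contra h5
    push Not at h5
    linarith
  exact absurd (NA_core hL hH ho hh h10b h5a h3a) (by push Not; exact hcon)

end Pool.Agent.Lib.MP_b072d9_co
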