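import Pool.Agent.Lib.MP_b072d9_co.TLev

/-!
# MP_b072d9_co, piece T2: structure of an optimal tree with a heavy child
-/

set_option autoImplicit false

namespace Pool.Agent.Lib.MP_b072d9_co
namespace BT

/-- merging the roots -/
def mg (a : BT) : BT → BT
  | pt => a
  | jn b c => jn (mg a b) c

namespace T2

theorem sz_mg (a b : BT) : sz (mg a b) + 1 = sz a + sz b := by
  induction b with
  | pt => rfl
  | jn b c ihb _ => simp only [mg, sz_jn]; omega

theorem ht_mg (a b : BT) : ht (mg a b) = max (ht a) (ht b) := by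
  induction b with
  | pt => simp [mg]
  | jn b c ihb _ => simp only [mg, ht_jn, ihb]; omega

theorem dm_mg (a b : BT) : dm (mg a b) = max (max (dm a) (dm b)) (ht a + ht b) := by
  induction b with
  | pt => have := ht_le_dm a; simp only [mg, dm_pt, ht_pt]; omega
  | jn b c ihb _ => simp only [mg, dm_jn, ihb, ht_jn, ht_mg]; omega

theorem cost_mg (n : ℤ) (a b : BT) : cost n (mg a b) =
    cost n a + cost n b + ((sz a : ℤ) - 1) * ((sz b : ℤ) - 1) * (n - sz a - sz b + 1) := by
  induction b with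
  | pt => simp [mg]
  | jn b c ihb _ =>
    have h : (sz (mg a b) : ℤ) = sz a + sz b - 1 := by
      have := sz_mg a b
      omega
    simp only [mg, cost_jn, ihb, h, sz_jn]
    push_cast
    ring

theorem dm_lt_sz (t : BT) : dm t + 1 ≤ sz t := by
  induction t with
  | pt => simp
  | jn a b iha ihb =>
    have h1 := ht_lt_sz a
    have h2 := ht_lt_sz b
    simp only [dm_jn, sz_jn]
    omega

/-- remove a leaf -/
def rm : BT → BT
  | pt => pt
  | jn a pt => a
  | jn a (jn b c) => jn a (rm (jn b c))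

theorem sz_rm (t : BT) (h : 2 ≤ sz t) : sz (rm t) + 1 = sz t := by
  induction t with
  | pt => simp at h
  | jn a b _ ihb =>
    cases b with
    | pt => simp [rm]
    | jn b c =>
      have h2 : 2 ≤ sz (jn b c) := by
        have := sz_pos b
        have := sz_pos c
        simp only [sz_jn]; omega
      have := ihb h2
      simp only [rm, sz_jn] at this ⊢
      omega

theorem ht_rm (t : BT) : ht (rm t) ≤ ht t := by
  induction t with
  | pt => simp [rm]
  | jn a b _ ihb =>
    cases b with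
    | pt => simp [rm]
    | jn b c =>
      simp only [rm, ht_jn] at ihb ⊢
      omega

theorem cost_rm (n : ℤ) (hn : 1 ≤ n) (t : BT) (h : 2 ≤ sz t) :
    cost n (rm t) + ((sz t : ℤ) - 1) * (n - sz t + 1) ≤ cost n t + ht t * (n - 1) := by
  induction t with
  | pt => simp at h
  | jn a b _ ihb =>
    cases b with
    | pt =>
      have h1 : (1 : ℤ) ≤ (ht (jn a pt) : ℕ) := by
        simp only [ht_jn]
        push_cast
        omega
      have h2 : 0 ≤ ((ht (jn a pt) : ℕ) - 1 : ℤ) * (n - 1) :=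
        mul_nonneg (by linarith) (by linarith)
      simp only [rm, sz_jn, cost_jn, sz_pt, cost_pt]
      push_cast
      nlinarith [h2]
    | jn b c =>
      have hB : 2 ≤ sz (jn b c) := by
        have := sz_pos b
        have := sz_pos c
        simp only [sz_jn]; omega
      have ih := ihb hB
      have hs := sz_rm (jn b c) hB
      obtain ⟨B, hBe⟩ : ∃ B, B = jn b c := ⟨_, rfl⟩
      have hrm : rm (jn a (jn b c)) = jn a (rm (jn b c)) := rfl
      rw [hrm]
      rw [← hBe] at ih hs hB ⊢
      have hsr : (sz (rm B) : ℤ) = sz B - 1 := by omega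
      have hh : (ht B : ℤ) + 1 ≤ (ht (jn a B) : ℕ) := by
        simp only [ht_jn]
        push_cast
        omega
      have hh2 : ((ht B : ℤ) + 1) * (n - 1) ≤ (ht (jn a B) : ℕ) * (n - 1) :=
        mul_le_mul_of_nonneg_right hh (by linarith)
      have hB' : (2 : ℤ) ≤ sz B := by exact_mod_cast hB
      simp only [cost_jn, sz_jn, hsr]
      push_cast
      nlinarith [hh2, ih]

/-- shortening a heavy child is profitable if it is not of full height -/
theorem rm_gain (n r : ℕ) (X : BT) (hX2 : n < 2 * sz X) (hX : ht X + 2 ≤ r)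
    (hs : sz X + 2 * r + 1 ≤ n) (hX1 : 2 ≤ sz X) : cost n (rm X) < cost n X := by
  have h := cost_rm n (by omega) X hX1
  have h1 : (n : ℤ) - 1 ≤ 2 * ((sz X : ℤ) - 1) := by omega
  have h2 : (2 : ℤ) * r + 2 ≤ n - sz X + 1 := by omega
  have h3 : (ht X : ℤ) + 2 ≤ r := by exact_mod_cast hX
  have h4 : (1 : ℤ) ≤ (n : ℤ) - 1 := by omega
  have h5 : ((n : ℤ) - 1) * (2 * r + 2) ≤ 2 * ((sz X : ℤ) - 1) * (n - sz X + 1) :=
    mul_le_mul h1 h2 (by positivity) (by linarith)
  have h6 : 2 * ((ht X : ℤ) * (n - 1)) < ((n : ℤ) - 1) * (2 * r + 2) := by nlinarith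
  linarith

/-- the children of an optimal light tree have equal heights -/
theorem kids_eq (n : ℤ) (R : BT) (hR : TOpt n R) (h2 : 2 * (sz R : ℤ) < n) :
    ∀ X ∈ kids R, ∀ Y ∈ kids R, ht X = ht Y := by
  have key : ∀ X ∈ kids R, ∀ Y ∈ kids R, ¬ ht Y < ht X := by
    intro X hX Y hY hlt
    obtain ⟨R', hR', hp'⟩ := pull R Y hY
    have hX' : X ∈ kids R' := by
      have h3 : X ∈ Y :: kids R' := hp'.mem_iff.1 hX
      rcases List.mem_cons.1 h3 with h4 | h4
      · rw [h4] at hlt
        exact absurd hlt (lt_irrefl _)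
      · exact h4
    obtain ⟨R0, hR0, -⟩ := pull R' X hX'
    have hiso : Iso R (jn (jn R0 X) Y) := hR'.trans (Iso.jn_jn hR0 (Iso.refl Y))
    have hT := hR.iso hiso
    have hsz : sz (jn R0 (jn X Y)) = sz (jn (jn R0 X) Y) := by simp only [sz_jn]; omega
    have hht : ht (jn R0 (jn X Y)) = ht (jn (jn R0 X) Y) := by simp only [ht_jn]; omega
    have h5 := hT _ hsz hht
    have h6 := cost_down n R0 X Y
    have h7 : sz (jn (jn R0 X) Y) = sz R := hiso.toU.sz_eq
    simp only [sz_jn] at h7
    have h8 : (1 : ℤ) ≤ sz Y := by exact_mod_cast sz_pos Y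
    have h9 : (0 : ℤ) < n - 2 * sz X - sz Y := by
      have h10 := sz_pos R0
      omega
    nlinarith [mul_pos (lt_of_lt_of_le zero_lt_one h8) h9]
  intro X hX Y hY
  exact le_antisymm (not_lt.1 (key X hX Y hY)) (not_lt.1 (key Y hY X hX))

theorem lev_light (n : ℤ) (R : BT) (hR : TOpt n R) (h2 : 2 * (sz R : ℤ) < n) : Lev R :=
  lev_of_kids R (kid_lev hR) (kids_eq n R hR h2)

theorem cost_full (n : ℕ) (a b : BT) (h : sz a + sz b = n) :
    cost n (jn a b) = cost n a + cost n b := by
  have : (n : ℤ) - sz a - sz b = 0 := by omega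
  rw [cost_jn, this]
  ring

theorem cost_mg_full (n : ℕ) (a b : BT) (h : sz a + sz b = n + 1) :
    cost n (mg a b) = cost n a + cost n b := by
  have : (n : ℤ) - sz a - sz b + 1 = 0 := by omega
  rw [cost_mg, this]
  ring

end T2

open T2

/-- even diameter -/
theorem even_struct (n r : ℕ) (t X : BT) (hn : sz t = n) (hh : ht t = r) (hd : dm t = 2 * r)
    (hX : X ∈ kids t) (hX2 : n < 2 * sz X)
    (hopt : ∀ t' : BT, sz t' = n → dm t' = 2 * r → cost n t ≤ cost n t') :
    ∃ X R : BT, Lev X ∧ Lev R ∧ ht X + 1 = r ∧ ht R = r ∧ sz X + sz R = n ∧ n < 2 * sz X ∧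
      ∀ R₁ R₂ : BT, ht R₁ = r → ht R₂ = r → sz R₁ + sz R₂ = n + 1 →
        cost n X + cost n R ≤ cost n R₁ + cost n R₂ := by
  obtain ⟨R, hiso, -⟩ := pull t X hX
  have hs : sz R + sz X = n := by rw [← hn, ← hiso.toU.sz_eq, sz_jn]
  have hh' : max (ht R) (ht X + 1) = r := by rw [← hh, ← hiso.ht_eq, ht_jn]
  have hd' : max (max (dm R) (dm X)) (ht R + 1 + ht X) = 2 * r := by
    rw [← hd, ← hiso.toU.dm_eq, dm_jn]
  have hcost : cost n t = cost n R + cost n X := by
    rw [← hiso.cost_eq, cost_full n R X hs]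
  have hdX := dm_le X
  have hdR := dm_le R
  have hszR := sz_pos R
  -- the heavy child has full height
  have h1 : ht X + 1 = r := by
    by_contra hne
    have hlt : ht X + 2 ≤ r := by omega
    have hR : ht R = r := by omega
    have hdR' : dm R = 2 * r := by omega
    have h2 := dm_lt_sz R
    have hX1 : 2 ≤ sz X := by omega
    have h3 := sz_rm X hX1
    have h4 := ht_rm X
    have h5 := rm_gain n r X hX2 hlt (by omega) hX1
    have h6 := dm_le (jn pt (rm X))
    have h7 : ht (jn pt (rm X)) = ht (rm X) + 1 := by simp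
    have h8 := hopt (jn R (jn pt (rm X))) (by simp only [sz_jn, sz_pt]; omega)
      (by rw [dm_jn, h7]; omega)
    rw [hcost, cost_full n R (jn pt (rm X)) (by simp only [sz_jn, sz_pt]; omega)] at h8
    have h9 : cost n (jn pt (rm X)) = cost n (rm X) := by simp
    rw [h9] at h8
    linarith
  have hR : ht R = r := by omega
  -- merging
  have hmg : ∀ R₁ R₂ : BT, ht R₁ = r → ht R₂ = r → sz R₁ + sz R₂ = n + 1 →
      cost n X + cost n R ≤ cost n R₁ + cost n R₂ := by
    intro R₁ R₂ e1 e2 e3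
    have h2 := sz_mg R₁ R₂
    have h3 := dm_mg R₁ R₂
    have h4 := dm_le R₁
    have h5 := dm_le R₂
    have h6 := hopt (mg R₁ R₂) (by omega) (by omega)
    rw [hcost, cost_mg_full n R₁ R₂ e3] at h6
    linarith
  have hTR : TOpt n R := by
    intro R' e1 e2
    have h2 := dm_le R'
    have h3 := hopt (jn R' X) (by rw [sz_jn]; omega) (by rw [dm_jn]; omega)
    rw [hcost, cost_full n R' X (by omega)] at h3
    linarith
  have hTX : TOpt n (jn pt X) := by
    intro t' e1 e2
    have h2 := hmg R t' hR (by rw [e2]; simp; omega) (by rw [e1]; simp only [sz_jn, sz_pt]; omega)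
    have h3 : cost n (jn pt X) = cost n X := by simp
    rw [h3]
    linarith
  refine ⟨X, R, kid_lev hTX X (by simp), lev_light n R hTR (by omega), h1, hR, by omega, hX2,
    hmg⟩

/-- odd diameter -/
theorem odd_struct (n r : ℕ) (R₁ R₂ X : BT) (hn : sz R₁ + sz R₂ = n) (h1 : ht R₁ = r)
    (h2 : ht R₂ = r) (hX : X ∈ kids R₁) (hX2 : n < 2 * sz X)
    (hopt : ∀ t' : BT, sz t' = n → dm t' = 2 * r + 1 → cost n (jn R₁ R₂) ≤ cost n t') :
    ∃ X R : BT, Lev X ∧ Lev R ∧ ht X + 1 = r ∧ ht R = r ∧ sz X + sz R + 1 = n ∧ n < 2 * sz X ∧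
      ∀ R₁ R₂ : BT, ht R₁ = r → ht R₂ = r → sz R₁ + sz R₂ = n →
        cost n X + cost n R ≤ cost n R₁ + cost n R₂ := by
  -- general competitors
  have hcomp : ∀ S₁ S₂ : BT, ht S₁ = r → ht S₂ = r → sz S₁ + sz S₂ = n →
      cost n R₁ + cost n R₂ ≤ cost n S₁ + cost n S₂ := by
    intro S₁ S₂ e1 e2 e3
    have h4 := dm_le S₁
    have h5 := dm_le S₂
    have h6 := hopt (jn S₁ S₂) (by rw [sz_jn]; omega) (by rw [dm_jn]; omega)
    rwa [cost_full n R₁ R₂ hn, cost_full n S₁ S₂ e3] at h6
  obtain ⟨S, hiso, -⟩ := pull R₁ X hX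
  have hs : sz S + sz X = sz R₁ := by rw [← hiso.toU.sz_eq, sz_jn]
  have hh' : max (ht S) (ht X + 1) = r := by rw [← h1, ← hiso.ht_eq, ht_jn]
  have hcost : cost n R₁ = cost n (jn S X) := (hiso.cost_eq n).symm
  have hszR2 := ht_lt_sz R₂
  have hszS := ht_lt_sz S
  -- the heavy child has full height
  have h3 : ht X + 1 = r := by
    by_contra hne
    have hlt : ht X + 2 ≤ r := by omega
    have hS : ht S = r := by omega
    have hX1 : 2 ≤ sz X := by omega
    have h4 := sz_rm X hX1
    have h5 := ht_rm X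
    have h6 := rm_gain n r X hX2 hlt (by omega) hX1
    have h7 := hcomp (jn S (jn pt (rm X))) R₂ (by simp only [ht_jn, ht_pt]; omega) h2
      (by simp only [sz_jn, sz_pt]; omega)
    rw [hcost] at h7
    have h8 : cost n (jn pt (rm X)) = cost n (rm X) := by simp
    have h9 : sz (jn pt (rm X)) = sz X := by simp only [sz_jn, sz_pt]; omega
    rw [cost_jn, cost_jn, h8, h9] at h7
    linarith
  -- `X` is the only child
  have hSpt : S = pt := by
    cases hSe : S with
    | pt => rfl
    | jn R0 A =>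
      exfalso
      rw [hSe] at hs hcost hh'
      simp only [sz_jn] at hs
      simp only [ht_jn] at hh'
      have h4 : cost n (jn (jn R0 A) X) = cost n (jn (jn R0 X) A) :=
        ((Iso_swap R0 A X).cost_eq n).symm
      have h5 := hcomp (jn R0 X) (jn R₂ A) (by simp only [ht_jn]; omega)
        (by simp only [ht_jn]; omega) (by simp only [sz_jn]; omega)
      rw [hcost, h4, cost_jn n (jn R0 X) A, cost_jn n R₂ A] at h5
      have hA := sz_pos A
      have hR0 := sz_pos R0
      have hn' : (n : ℤ) = sz R0 + sz A + sz X + sz R₂ := by omega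
      have h6 : (sz R₂ : ℤ) < sz R0 + sz X := by omega
      have hA' : (1 : ℤ) ≤ sz A := by exact_mod_cast hA
      have e1 : (n : ℤ) - sz (jn R0 X) - sz A = sz R₂ := by
        simp only [sz_jn]; push_cast; linarith
      have e2 : (n : ℤ) - sz R₂ - sz A = sz R0 + sz X := by linarith
      rw [e1, e2] at h5
      simp only [sz_jn] at h5
      push_cast at h5
      nlinarith [mul_pos (lt_of_lt_of_le zero_lt_one hA') (sub_pos.2 h6)]
  rw [hSpt] at hs hcost hiso
  simp only [sz_pt] at hs
  have hcX : cost n R₁ = cost n X := by rw [hcost]; simp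
  have hTR2 : TOpt n R₂ := by
    intro R' e1 e2
    have := hcomp R₁ R' h1 (by omega) (by omega)
    linarith
  have hTR1 : TOpt n R₁ := by
    intro R' e1 e2
    have := hcomp R' R₂ (by omega) h2 (by omega)
    linarith
  have hTX : TOpt n (jn pt X) := hTR1.iso hiso
  refine ⟨X, R₂, kid_lev hTX X (by simp), lev_light n R₂ hTR2 (by omega), h3, h2, by omega, hX2,
    fun S₁ S₂ e1 e2 e3 => ?_⟩
  rw [← hcX]
  exact hcomp S₁ S₂ e1 e2 e3

end BT
end Pool.Agent.Lib.MP_b072d9_co
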