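import Pool.Agent.Lib.MP_b072d9_co.NDefs
import Pool.Agent.Lib.MP_b072d9_co.TStruct
import Pool.Agent.Lib.MP_b072d9_co.GTree
import Pool.Agent.Lib.MP_b072d9_co.GReal
import Pool.Agent.Lib.MP_b072d9_co.GMed
import Pool.Agent.Lib.MP_b072d9_co.GIso

/-!
# MP_b072d9_co, piece R: the final reduction
-/

set_option autoImplicit false

namespace Pool.Agent.Lib.MP_b072d9_co
namespace BT

/-- `e` identifies the vertices of `t` with those of `T`, isometrically -/
def Rep {n : ℕ} (T : SimpleGraph (Fin n)) (t : BT) (e : V t ≃ Fin n) : Prop :=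
  ∀ x y, T.dist (e x) (e y) = ds t x y

theorem sz_of_equiv {n : ℕ} {t : BT} (e : V t ≃ Fin n) : sz t = n := by
  rw [← card_V t, Fintype.card_congr e, Fintype.card_fin]

theorem Rep.ecc_root {n : ℕ} {T : SimpleGraph (Fin n)} {t : BT} {e : V t ≃ Fin n}
    (h : Rep T t e) : ecc T (e (root t)) = ht t := by
  unfold ecc
  apply le_antisymm
  · apply Finset.sup_le
    intro u _
    obtain ⟨y, rfl⟩ := e.surjective u
    rw [h]
    exact ds_root_le t y
  · obtain ⟨y, hy⟩ := exists_ht t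
    rw [← hy, ← h]
    exact Finset.le_sup (f := fun u => T.dist (e (root t)) u) (Finset.mem_univ _)

theorem Rep.status_eq {n : ℕ} {T : SimpleGraph (Fin n)} {t : BT} {e : V t ≃ Fin n}
    (h : Rep T t e) (x : V t) : status T (e x) = ∑ y, ds t x y := by
  unfold status
  rw [← Equiv.sum_comp e]
  exact Finset.sum_congr rfl fun y _ => h x y

theorem Rep.hasDiam {n : ℕ} {T : SimpleGraph (Fin n)} {t : BT} {e : V t ≃ Fin n}
    (h : Rep T t e) : HasDiam T (dm t) := by
  refine ⟨?_, ?_⟩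
  · intro u v
    obtain ⟨x, rfl⟩ := e.surjective u
    obtain ⟨y, rfl⟩ := e.surjective v
    rw [h]
    exact ds_le_dm t x y
  · obtain ⟨x, y, hxy⟩ := exists_dm t
    exact ⟨e x, e y, by rw [h, hxy]⟩

theorem Rep.dm_eq {n d : ℕ} {T : SimpleGraph (Fin n)} {t : BT} {e : V t ≃ Fin n}
    (h : Rep T t e) (hd : HasDiam T d) : dm t = d := by
  obtain ⟨h1, u, v, h2⟩ := h.hasDiam
  obtain ⟨h3, u', v', h4⟩ := hd
  apply le_antisymm
  · rw [← h2]; exact h3 u v
  · rw [← h4]; exact h1 u' v'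

theorem two_wiener {n : ℕ} (T : SimpleGraph (Fin n)) :
    2 * wiener T = ∑ u, ∑ v, T.dist u v := by
  have h1 : wiener T = ∑ u, ∑ v, if v < u then T.dist u v else 0 := by
    unfold wiener
    rw [Finset.sum_comm]
    refine Finset.sum_congr rfl fun u _ => Finset.sum_congr rfl fun v _ => ?_
    rw [SimpleGraph.dist_comm]
  rw [two_mul]
  nth_rewrite 2 [h1]
  unfold wiener
  rw [← Finset.sum_add_distrib]
  refine Finset.sum_congr rfl fun u _ => ?_
  rw [← Finset.sum_add_distrib]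
  refine Finset.sum_congr rfl fun v _ => ?_
  rcases lt_trichotomy u v with h | h | h
  · rw [if_pos h, if_neg (not_lt.mpr h.le), add_zero]
  · subst h
    simp
  · rw [if_pos h, if_neg (not_lt.mpr h.le), zero_add]

theorem Rep.wiener_eq {n : ℕ} {T : SimpleGraph (Fin n)} {t : BT} {e : V t ≃ Fin n}
    (h : Rep T t e) : wiener T = wi t := by
  have h1 := two_wiener T
  have h2 := sum_all t
  have h3 : ∑ u, ∑ v, T.dist u v = ∑ x, ∑ y, ds t x y := by
    rw [← Equiv.sum_comp e]
    refine Finset.sum_congr rfl fun x _ => ?_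
    rw [← Equiv.sum_comp e]
    exact Finset.sum_congr rfl fun y _ => h x y
  omega

theorem Rep.isoU {n : ℕ} {T : SimpleGraph (Fin n)} {t t' : BT} {e : V t ≃ Fin n}
    (h : Rep T t e) (hi : IsoU t t') : ∃ e' : V t' ≃ Fin n, Rep T t' e' := by
  obtain ⟨f, hf⟩ := hi
  refine ⟨f.symm.trans e, fun x y => ?_⟩
  rw [Equiv.trans_apply, Equiv.trans_apply, h, ← hf, Equiv.apply_symm_apply,
    Equiv.apply_symm_apply]

theorem Rep.median {n : ℕ} {T : SimpleGraph (Fin n)} {t : BT} {e : V t ≃ Fin n}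
    (h : Rep T t e) (hk : ∀ X ∈ kids t, 2 * sz X ≤ n) : IsMedian T (e (root t)) := by
  intro u
  obtain ⟨x, rfl⟩ := e.surjective u
  rw [h.status_eq, h.status_eq, sum_root]
  have h1 : sz t = n := sz_of_equiv e
  have := median_root t 0 (fun X hX => by have := hk X hX; omega) x
  simpa using this

/-- the cost of a maximal tree is minimal -/
theorem Rep.cost_le {n d : ℕ} {T : SimpleGraph (Fin n)} {t : BT} {e : V t ≃ Fin n}
    (h : Rep T t e)
    (hmax : ∀ T' : SimpleGraph (Fin n), T'.IsTree → HasDiam T' d → wiener T' ≤ wiener T) :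
    ∀ t' : BT, sz t' = n → dm t' = d → cost n t ≤ cost n t' := by
  intro t' h1 h2
  obtain ⟨T', e', hT', he'⟩ := realise t' n h1
  have hr : Rep T' t' e' := he'
  have h3 := hmax T' hT' (h2 ▸ hr.hasDiam)
  rw [hr.wiener_eq, h.wiener_eq] at h3
  have h4 : sz t = n := sz_of_equiv e
  have h5 := cost_wi n t
  have h6 := cost_wi n t'
  rw [h4, sub_self, zero_mul, add_zero] at h5
  rw [h1, sub_self, zero_mul, add_zero] at h6
  have h7 : (wi t' : ℤ) ≤ wi t := by exact_mod_cast h3
  linarith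

/-- the final reduction -/
theorem center_median_of (hnh : NoHeavy) : CenterMedian := by
  intro n d hd hdn T hTmax
  obtain ⟨hT, hD, hmax⟩ := hTmax
  have : Nonempty (Fin n) := ⟨⟨0, by omega⟩⟩
  obtain ⟨c, hc⟩ := Finite.exists_min (ecc T)
  obtain ⟨t, e, hst, hroot, hds⟩ := tree_BT n T hT c
  have hrep : Rep T t e := hds
  have hecc : ecc T c = ht t := by rw [← hroot, hrep.ecc_root]
  have hdm : dm t = d := hrep.dm_eq hD
  have hopt := hrep.cost_le hmax
  have hdl := dm_le t
  by_contra hcon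
  push Not at hcon
  -- a heavy kid at the root of every representation rooted at a centre
  have hheavy : ∀ (s : BT) (f : V s ≃ Fin n), Rep T s f → ht s = ht t →
      ∃ X ∈ kids s, n < 2 * sz X := by
    intro s f hs hh
    by_contra hno
    push Not at hno
    refine hcon (f (root s)) ?_ (hs.median hno)
    intro u
    rw [hs.ecc_root, hh, ← hecc]
    exact hc u
  obtain ⟨X, hX, hX2⟩ := hheavy t e hrep rfl
  obtain ⟨b, hb, hb2⟩ := exists_kid t (by omega)
  obtain ⟨a, hiso, hperm⟩ := pull t b hb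
  have hab : sz a + sz b = n := by rw [← hst, ← hiso.toU.sz_eq, sz_jn]
  have hhab : max (ht a) (ht b + 1) = ht t := by rw [← hiso.ht_eq, ht_jn]
  have hdab : max (max (dm a) (dm b)) (ht a + 1 + ht b) = d := by
    rw [← hdm, ← hiso.toU.dm_eq, dm_jn]
  obtain ⟨e₂, hrep₂⟩ := hrep.isoU (hiso.toU.trans (IsoU_jn a b))
  have hmin : ht t ≤ ht (jn b a) := by
    rw [← hrep₂.ecc_root, ← hecc]
    exact hc _
  rw [ht_jn] at hmin
  have hca : cost n (jn a b) = cost n t := hiso.cost_eq n
  have hcb : cost n (jn b a) = cost n t := by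
    rw [← hca]
    exact (IsoU_jn a b).cost_eq n (by rw [sz_jn, hab])
  rcases (by omega : d = 2 * ht t ∨ d + 1 = 2 * ht t) with hE | hO
  · -- even diameter
    obtain ⟨X', R', g1, g2, g3, g4, g5, g6, g7⟩ := even_struct n (ht t) t X hst rfl
      (by omega) hX hX2 (fun t' h1 h2 => hopt t' h1 (by omega))
    exact hnh n (ht t) 0 X' R' (by omega) g1 g2 g3 g4 (by omega) g6
      (fun R₁ R₂ h1 h2 h3 => g7 R₁ R₂ h1 h2 (by omega))
  · -- odd diameter
    have hha : ht a = ht t - 1 := by omega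
    have hhb : ht b = ht t - 1 := by omega
    have hXm : X ∈ b :: kids a := hperm.mem_iff.mp hX
    rcases List.mem_cons.mp hXm with hXb | hXa
    · subst hXb
      obtain ⟨Y, hY, hY2⟩ := hheavy (jn X a) e₂ hrep₂ (by rw [ht_jn]; omega)
      rw [kids_jn] at hY
      rcases List.mem_cons.mp hY with hYa | hYb
      · subst hYa
        omega
      · obtain ⟨X', R', g1, g2, g3, g4, g5, g6, g7⟩ := odd_struct n (ht t - 1) X a Y
          (by omega) hhb hha hYb hY2 (fun t' h1 h2 => by rw [hcb]; exact hopt t' h1 (by omega))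
        exact hnh n (ht t - 1) 1 X' R' (by omega) g1 g2 g3 g4 (by omega) g6
          (fun R₁ R₂ h1 h2 h3 => g7 R₁ R₂ h1 h2 (by omega))
    · obtain ⟨X', R', g1, g2, g3, g4, g5, g6, g7⟩ := odd_struct n (ht t - 1) a b X
        hab hha hhb hXa hX2 (fun t' h1 h2 => by rw [hca]; exact hopt t' h1 (by omega))
      exact hnh n (ht t - 1) 1 X' R' (by omega) g1 g2 g3 g4 (by omega) g6
        (fun R₁ R₂ h1 h2 h3 => g7 R₁ R₂ h1 h2 (by omega))

end BT
end Pool.Agent.Lib.MP_b072d9_co
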