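import Pool.Agent.Lib.MP_b072d9_co.TDefs
import Pool.Agent.Lib.MP_b072d9_co.LBasic

/-!
# MP_b072d9_co : piece T3, the capped cost function and rooted trees
-/

set_option autoImplicit false

namespace Pool.Agent.Lib.MP_b072d9_co
namespace BT

/-- `L` is the minimal cost function of labelled binary structures with labels at most `H` -/
structure IsLH (n : ℤ) (H : ℕ) (L : ℕ → ℤ) : Prop where
  zero : L 0 = 0
  le : ∀ h a b : ℕ, 1 ≤ h → h ≤ H → L (a + b + h) ≤ L a + L b + cst n h a b
  ex : ∀ u : ℕ, 1 ≤ u → ∃ h a b : ℕ, 1 ≤ h ∧ h ≤ H ∧ a + b + h = u ∧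
    L u = L a + L b + cst n h a b

/-- the function, by recursion -/
noncomputable def LH (n : ℤ) (H : ℕ) (u : ℕ) : ℤ :=
  if u = 0 then 0 else
    sInf (Set.range (fun x : {x : ℕ × ℕ × ℕ // 1 ≤ x.1 ∧ x.1 ≤ H ∧ x.2.1 + x.2.2 + x.1 = u} =>
      LH n H x.1.2.1 + LH n H x.1.2.2 + cst n x.1.1 x.1.2.1 x.1.2.2))
termination_by u
decreasing_by
  all_goals
    have := x.2
    omega

theorem LH_zero (n : ℤ) (H : ℕ) : LH n H 0 = 0 := by
  rw [LH]; simp

theorem LH_pos (n : ℤ) (H : ℕ) (u : ℕ) (hu : 1 ≤ u) : LH n H u =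
    sInf (Set.range (fun x : {x : ℕ × ℕ × ℕ // 1 ≤ x.1 ∧ x.1 ≤ H ∧ x.2.1 + x.2.2 + x.1 = u} =>
      LH n H x.1.2.1 + LH n H x.1.2.2 + cst n x.1.1 x.1.2.1 x.1.2.2)) := by
  rw [LH, if_neg (by omega)]

theorem finite_nodes (H u : ℕ) :
    Finite {x : ℕ × ℕ × ℕ // 1 ≤ x.1 ∧ x.1 ≤ H ∧ x.2.1 + x.2.2 + x.1 = u} := by
  have h : Set.Finite {x : ℕ × ℕ × ℕ | 1 ≤ x.1 ∧ x.1 ≤ H ∧ x.2.1 + x.2.2 + x.1 = u} := by
    apply Set.Finite.subset (Finset.finite_toSet
      (Finset.range (u + 1) ×ˢ (Finset.range (u + 1) ×ˢ Finset.range (u + 1))))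
    rintro ⟨h, a, b⟩ ⟨h1, h2, h3⟩
    simp only at h1 h2 h3
    simp only [Finset.coe_product, Set.mem_prod, Finset.mem_coe, Finset.mem_range]
    omega
  exact h.to_subtype

theorem exists_IsLH (n : ℤ) (H : ℕ) (hH : 1 ≤ H) : ∃ L, IsLH n H L := by
  refine ⟨LH n H, LH_zero n H, ?_, ?_⟩
  · intro h a b h1 h2
    rw [LH_pos n H (a + b + h) (by omega)]
    have := finite_nodes H (a + b + h)
    exact csInf_le (Set.finite_range _).bddBelow ⟨⟨(h, a, b), h1, h2, rfl⟩, rfl⟩
  · intro u hu
    have hf := finite_nodes H u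
    have hne : (Set.range (fun x : {x : ℕ × ℕ × ℕ // 1 ≤ x.1 ∧ x.1 ≤ H ∧
        x.2.1 + x.2.2 + x.1 = u} =>
        LH n H x.1.2.1 + LH n H x.1.2.2 + cst n x.1.1 x.1.2.1 x.1.2.2)).Nonempty :=
      ⟨_, ⟨⟨(1, u - 1, 0), le_rfl, hH, by simp only; omega⟩, rfl⟩⟩
    have hm := Int.csInf_mem hne (Set.finite_range _).bddBelow
    obtain ⟨⟨⟨h, a, b⟩, h1, h2, h3⟩, hx⟩ := hm
    simp only at h1 h2 h3 hx
    refine ⟨h, a, b, h1, h2, h3, ?_⟩
    rw [LH_pos n H u hu]
    exact hx.symm

theorem IsLH_mono {n : ℤ} {H H' : ℕ} {L L' : ℕ → ℤ} (hL : IsLH n H L) (hL' : IsLH n H' L')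
    (h : H ≤ H') (u : ℕ) : L' u ≤ L u := by
  induction u using Nat.strong_induction_on with
  | _ u ih =>
    rcases Nat.eq_zero_or_pos u with hu | hu
    · subst hu; rw [hL.zero, hL'.zero]
    · obtain ⟨g, a, b, h1, h2, h3, h4⟩ := hL.ex u hu
      have ha := ih a (by omega)
      have hb := ih b (by omega)
      have hc := hL'.le g a b h1 (h2.trans h)
      rw [h3] at hc
      linarith

/-- labels decrease from the root -/
theorem NH1 {n : ℤ} {H : ℕ} {L : ℕ → ℤ} (hL : IsLH n H L) {h h₁ p q r : ℕ} (h1 : 1 ≤ h)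
    (h1' : h ≤ H) (h2 : L (p + q + h₁ + r + h) = L (p + q + h₁) + L r + cst n h (p + q + h₁) r)
    (g1 : 1 ≤ h₁) (g1' : h₁ ≤ H) (g2 : L (p + q + h₁) = L p + L q + cst n h₁ p q) : h₁ ≤ h := by
  by_contra hc
  push Not at hc
  have h3 := hL.le h₁ p (q + r + h) g1 g1'
  have h4 := hL.le h q r h1 h1'
  rw [show p + (q + r + h) + h₁ = p + q + h₁ + r + h by ring, h2, g2] at h3
  unfold cst at h3 h4
  push_cast at h3 h4
  have h5 : (0 : ℤ) < 2 * (p + h₁) * (r + h) * (h₁ - h) := by
    have e1 : (1 : ℤ) ≤ h := by exact_mod_cast h1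
    have e2 : (h : ℤ) < h₁ := by exact_mod_cast hc
    have e3 : (0 : ℤ) ≤ p := by positivity
    have e4 : (0 : ℤ) ≤ r := by positivity
    have : (0 : ℤ) < p + h₁ := by linarith
    have : (0 : ℤ) < r + h := by linarith
    have : (0 : ℤ) < h₁ - h := by linarith
    positivity
  linarith

theorem cst_comm (n : ℤ) (h a b : ℕ) : cst n h a b = cst n h b a := by
  unfold cst; ring

/-- an optimal node with label at most `h` has an optimal structure with all labels at most `h` -/
theorem cap_le {n : ℤ} {H h : ℕ} {L L' : ℕ → ℤ} (hL : IsLH n H L) (hL' : IsLH n h L') :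
    ∀ v g p q : ℕ, 1 ≤ g → g ≤ H → g ≤ h → p + q + g = v → L v = L p + L q + cst n g p q →
      L' v ≤ L v := by
  intro v
  induction v using Nat.strong_induction_on with
  | _ v ih =>
    intro g p q g1 g2 g3 g4 g5
    have key : ∀ p q : ℕ, p + q + g = v → L v = L p + L q + cst n g p q → L' p ≤ L p := by
      intro p q k4 k5
      rcases Nat.eq_zero_or_pos p with hp | hp
      · subst hp; rw [hL.zero, hL'.zero]
      · obtain ⟨f, p', q', f1, f2, f3, f4⟩ := hL.ex p hp
        subst f3
        have hf : f ≤ g := by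
          apply NH1 hL g1 g2 (r := q) _ f1 f2 f4
          rw [k4]; exact k5
        exact ih (p' + q' + f) (by omega) f p' q' f1 f2 (hf.trans g3) rfl f4
    have h1 := key p q g4 g5
    have h2 := key q p (by omega) (by rw [g5, cst_comm]; ring)
    have h3 := hL'.le g p q g1 g3
    rw [g4] at h3
    linarith

/-- a path attached on top -/
def stick : ℕ → BT → BT
  | 0, t => t
  | k + 1, t => jn pt (stick k t)

theorem stick_ht (k : ℕ) (t : BT) : ht (stick k t) = k + ht t := by
  induction k with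
  | zero => simp [stick]
  | succ k ih => simp only [stick, ht_jn, ht_pt, ih]; omega

theorem stick_sz (k : ℕ) (t : BT) : sz (stick k t) = k + sz t := by
  induction k with
  | zero => simp [stick]
  | succ k ih => simp only [stick, sz_jn, sz_pt, ih]; omega

theorem stick_cost (n : ℤ) (k : ℕ) (t : BT) : cost n (stick k t) = cost n t := by
  induction k with
  | zero => simp [stick]
  | succ k ih => simp only [stick, cost_jn, cost_pt, sz_pt, ih]; push_cast; ring

/-- every value of `L` is reached by a rooted tree of height exactly `H` -/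
theorem real_L {n : ℤ} {H : ℕ} {L : ℕ → ℤ} (hH : 1 ≤ H) (hL : IsLH n H L) (u : ℕ) :
    ∃ Z : BT, ht Z = H ∧ sz Z = H + 1 + u ∧ cost n Z ≤ L u := by
  induction u using Nat.strong_induction_on generalizing H L with
  | _ u ih =>
    rcases Nat.eq_zero_or_pos u with hu | hu
    · subst hu
      refine ⟨stick H pt, ?_, ?_, ?_⟩
      · rw [stick_ht]; simp
      · rw [stick_sz]; simp
      · rw [stick_cost, hL.zero]; simp
    · -- optimal node with the least `b`
      classical
      have hex : ∃ b h a : ℕ, 1 ≤ h ∧ h ≤ H ∧ a + b + h = u ∧ L u = L a + L b + cst n h a b := by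
        obtain ⟨h, a, b, h1, h2, h3, h4⟩ := hL.ex u hu
        exact ⟨b, h, a, h1, h2, h3, h4⟩
      obtain ⟨h, a, h1, h2, h3, h4⟩ := Nat.find_spec hex
      have hmin := fun m => Nat.find_min hex (m := m)
      set b := Nat.find hex with hb
      -- the part `a`
      have hA : ∃ A : BT, ht A = h ∧ sz A = h + 1 + a ∧ cost n A ≤ L a := by
        obtain ⟨L', hL'⟩ := exists_IsLH n h h1
        obtain ⟨A, hA1, hA2, hA3⟩ := ih a (by omega) h1 hL'
        refine ⟨A, hA1, hA2, hA3.trans ?_⟩
        rcases Nat.eq_zero_or_pos a with ha | ha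
        · rw [ha, hL.zero, hL'.zero]
        · obtain ⟨f, p, q, f1, f2, f3, f4⟩ := hL.ex a ha
          have hf : f ≤ h := by
            apply NH1 hL h1 h2 (r := b) (p := p) (q := q) _ f1 f2
            · rw [f3]; exact f4
            · rw [f3, h3]; exact h4
          exact cap_le hL hL' a f p q f1 f2 hf f3 f4
      have hB : ∃ B : BT, ht B = h - 1 ∧ sz B = h + b ∧ cost n B ≤ L b := by
        rcases Nat.eq_zero_or_pos b with hb0 | hb0
        · refine ⟨stick (h - 1) pt, ?_, ?_, ?_⟩
          · rw [stick_ht]; simp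
          · rw [stick_sz, sz_pt, hb0]; omega
          · rw [stick_cost, hb0, hL.zero]; simp
        · obtain ⟨f, p, q, f1, f2, f3, f4⟩ := hL.ex b hb0
          have hf : f ≤ h := by
            apply NH1 hL h1 h2 (r := a) (p := p) (q := q) _ f1 f2
            · rw [f3]; exact f4
            · rw [f3, show b + a + h = u by omega, h4, cst_comm]; ring
          have hne : f ≠ h := by
            intro hfh
            subst hfh
            apply hmin q (by omega)
            refine ⟨f, a + p + f, h1, h2, by omega, ?_⟩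
            have k1 := hL.le f a p h1 h2
            have k2 := hL.le f (a + p + f) q h1 h2
            rw [show a + p + f + q + f = u by omega] at k2
            have k3 : cst n f (a + p + f) q + cst n f a p = cst n f a b + cst n f p q := by
              rw [← f3]; unfold cst; push_cast; ring
            linarith
          have hh2 : 1 ≤ h - 1 := by omega
          obtain ⟨L', hL'⟩ := exists_IsLH n (h - 1) hh2
          obtain ⟨B, hB1, hB2, hB3⟩ := ih b (by omega) hh2 hL'
          refine ⟨B, hB1, by rw [hB2]; omega, hB3.trans ?_⟩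
          exact cap_le hL hL' b f p q f1 f2 (by omega) f3 f4
      obtain ⟨A, hA1, hA2, hA3⟩ := hA
      obtain ⟨B, hB1, hB2, hB3⟩ := hB
      refine ⟨stick (H - h) (jn A B), ?_, ?_, ?_⟩
      · rw [stick_ht, ht_jn, hA1, hB1]; omega
      · rw [stick_sz, sz_jn, hA2, hB2]; omega
      · rw [stick_cost, cost_jn, hA2, hB2, h4]
        have k : (((h + 1 + a : ℕ) : ℤ) - 1) * ((h + b : ℕ) : ℤ)
            * (n - ((h + 1 + a : ℕ) : ℤ) - ((h + b : ℕ) : ℤ)) = cst n h a b := by
          unfold cst; push_cast; ring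
        rw [k]
        linarith

/-- lower bound for level trees -/
theorem lower_L {n : ℤ} {H : ℕ} {L : ℕ → ℤ} (hL : IsLH n H L) (Z : BT) (hZ : Lev Z)
    (hH : 1 ≤ H) (hh : ht Z ≤ H) : ∀ u, sz Z = ht Z + 1 + u → L u ≤ cost n Z := by
  induction Z with
  | pt =>
    intro u hu
    simp only [sz_pt, ht_pt] at hu
    have : u = 0 := by omega
    subst this
    rw [hL.zero]; simp
  | jn a b iha ihb =>
    intro u hu
    obtain ⟨ha, hb, hab⟩ := hZ
    simp only [ht_jn] at hh hu
    simp only [sz_jn] at hu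
    rcases hab with hpt | hlev
    · subst hpt
      simp only [ht_pt, sz_pt] at hh hu
      have h1 := ihb hb (by omega) u (by omega)
      simp only [cost_jn, cost_pt, sz_pt]
      push_cast
      linarith
    · have hma := ht_lt_sz a
      have hmb := ht_lt_sz b
      have hht : max (ht a) (ht b + 1) = ht a := by omega
      rw [hht] at hh hu
      obtain ⟨ea, hea⟩ : ∃ ea, sz a = ht a + 1 + ea := ⟨sz a - (ht a + 1), by omega⟩
      obtain ⟨eb, heb⟩ : ∃ eb, sz b = ht b + 1 + eb := ⟨sz b - (ht b + 1), by omega⟩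
      have h1 := iha ha hh ea hea
      have h2 := ihb hb (by omega) eb heb
      have h3 := hL.le (ht a) ea eb (by omega) hh
      have hu' : ea + eb + ht a = u := by omega
      rw [hu'] at h3
      rw [cost_jn]
      have k : ((sz a : ℤ) - 1) * sz b * (n - sz a - sz b) = cst n (ht a) ea eb := by
        unfold cst
        rw [hea, heb, hlev]; push_cast; ring
      rw [k]
      linarith

end BT
end Pool.Agent.Lib.MP_b072d9_co
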