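import Pool.Agent.Lib.MP_b072d9_co.NodeN
import Pool.Agent.Lib.MP_b072d9_co.LEx
import Pool.Agent.Lib.MP_b072d9_co.TReal

set_option autoImplicit false

namespace Pool.Agent.Lib.MP_b072d9_co

/-- the two forms of the capped structure agree -/
theorem BT.IsLH.toIsLH {n : ℤ} {H : ℕ} {L : ℕ → ℤ} (hL : BT.IsLH n H L) :
    Pool.Agent.Lib.MP_b072d9_co.IsLH n H L where
  zero := hL.zero
  le := fun h a b hh => hL.le h a b hh.1 hh.2
  ex := fun u hu => by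
    obtain ⟨h, a, b, h1, h2, h3, h4⟩ := hL.ex u hu
    exact ⟨h, a, b, ⟨h1, h2⟩, h3, h4⟩

theorem IsLH.toBT {n : ℤ} {H : ℕ} {L : ℕ → ℤ} (hL : IsLH n H L) : BT.IsLH n H L where
  zero := hL.zero
  le := fun h a b h1 h2 => hL.le h a b ⟨h1, h2⟩
  ex := fun u hu => by
    obtain ⟨h, a, b, ⟨h1, h2⟩, h3, h4⟩ := hL.ex u hu
    exact ⟨h, a, b, h1, h2, h3, h4⟩

/-- the optimal node of `numeric_main` -/
theorem optH_mk {n : ℤ} {H : ℕ} {L : ℕ → ℤ} {h a b : ℕ} (h1 : 1 ≤ h) (h2 : h ≤ H)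
    (hE : L (a + b + h) = L a + L b + cst n h a b) : OptH n H L h a b := ⟨⟨h1, h2⟩, hE⟩

end Pool.Agent.Lib.MP_b072d9_co
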