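import Mathlib

set_option autoImplicit false

namespace Pool.Agent.Lib.MP_b072d9_co

/-- rooted trees: `jn a b` attaches the root of `b` as a new child of the root of `a` -/
inductive BT : Type
  | pt : BT
  | jn : BT → BT → BT

namespace BT

/-- number of vertices -/
def sz : BT → ℕ
  | pt => 1
  | jn a b => sz a + sz b

/-- height (in edges) -/
def ht : BT → ℕ
  | pt => 0
  | jn a b => max (ht a) (ht b + 1)

/-- diameter -/
def dm : BT → ℕ
  | pt => 0
  | jn a b => max (max (dm a) (dm b)) (ht a + 1 + ht b)

/-- sum of the distances to the root -/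
def sig : BT → ℕ
  | pt => 0
  | jn a b => sig a + sig b + sz b

/-- Wiener index -/
def wi : BT → ℕ
  | pt => 0
  | jn a b => wi a + wi b + sz a * (sig b + sz b) + sz b * sig a

/-- cost: loss of the Wiener index against a path, inside a tree of total size `n` -/
def cost (n : ℤ) : BT → ℤ
  | pt => 0
  | jn a b => cost n a + cost n b + ((sz a : ℤ) - 1) * sz b * (n - sz a - sz b)

/-- the children of the root -/
def kids : BT → List BT
  | pt => []
  | jn a b => b :: kids a

/-- level trees: the children of every vertex have equal heights -/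
def Lev : BT → Prop
  | pt => True
  | jn a b => Lev a ∧ Lev b ∧ (a = pt ∨ ht a = ht b + 1)

/-- vertices -/
def V : BT → Type
  | pt => Unit
  | jn a b => V a ⊕ V b

/-- the root -/
def root : (t : BT) → V t
  | pt => ()
  | jn a _ => Sum.inl (root a)

/-- distance of two vertices -/
def ds : (t : BT) → V t → V t → ℕ
  | pt, _, _ => 0
  | jn a _, Sum.inl x, Sum.inl y => ds a x y
  | jn _ b, Sum.inr x, Sum.inr y => ds b x y
  | jn a b, Sum.inl x, Sum.inr y => ds a x (root a) + 1 + ds b (root b) y
  | jn a b, Sum.inr x, Sum.inl y => ds b x (root b) + 1 + ds a (root a) y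

instance instFintypeV : (t : BT) → Fintype (V t)
  | pt => inferInstanceAs (Fintype Unit)
  | jn a b => @instFintypeSum (V a) (V b) (instFintypeV a) (instFintypeV b)

instance instDecidableEqV : (t : BT) → DecidableEq (V t)
  | pt => inferInstanceAs (DecidableEq Unit)
  | jn a b => @instDecidableEqSum (V a) (V b) (instDecidableEqV a) (instDecidableEqV b)

/-- rooted isometry -/
def Iso (t t' : BT) : Prop :=
  ∃ e : V t ≃ V t', e (root t) = root t' ∧ ∀ x y, ds t' (e x) (e y) = ds t x y

/-- isometry, not necessarily respecting the root -/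
def IsoU (t t' : BT) : Prop :=
  ∃ e : V t ≃ V t', ∀ x y, ds t' (e x) (e y) = ds t x y

/-- optimal among the rooted trees of the same size and height -/
def TOpt (n : ℤ) (t : BT) : Prop :=
  ∀ t' : BT, sz t' = sz t → ht t' = ht t → cost n t ≤ cost n t'

@[simp] theorem sz_pt : sz pt = 1 := rfl
@[simp] theorem sz_jn (a b : BT) : sz (jn a b) = sz a + sz b := rfl
@[simp] theorem ht_pt : ht pt = 0 := rfl
@[simp] theorem ht_jn (a b : BT) : ht (jn a b) = max (ht a) (ht b + 1) := rfl
@[simp] theorem dm_pt : dm pt = 0 := rfl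
@[simp] theorem dm_jn (a b : BT) :
    dm (jn a b) = max (max (dm a) (dm b)) (ht a + 1 + ht b) := rfl
@[simp] theorem sig_pt : sig pt = 0 := rfl
@[simp] theorem sig_jn (a b : BT) : sig (jn a b) = sig a + sig b + sz b := rfl
@[simp] theorem wi_pt : wi pt = 0 := rfl
@[simp] theorem wi_jn (a b : BT) :
    wi (jn a b) = wi a + wi b + sz a * (sig b + sz b) + sz b * sig a := rfl
@[simp] theorem cost_pt (n : ℤ) : cost n pt = 0 := rfl
@[simp] theorem cost_jn (n : ℤ) (a b : BT) :
    cost n (jn a b) = cost n a + cost n b + ((sz a : ℤ) - 1) * sz b * (n - sz a - sz b) := rfl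
@[simp] theorem kids_pt : kids pt = [] := rfl
@[simp] theorem kids_jn (a b : BT) : kids (jn a b) = b :: kids a := rfl
@[simp] theorem lev_pt : Lev pt = True := rfl
@[simp] theorem lev_jn (a b : BT) :
    Lev (jn a b) = (Lev a ∧ Lev b ∧ (a = pt ∨ ht a = ht b + 1)) := rfl
@[simp] theorem root_jn (a b : BT) : root (jn a b) = Sum.inl (root a) := rfl
@[simp] theorem ds_pt (x y : V pt) : ds pt x y = 0 := rfl
@[simp] theorem ds_ll (a b : BT) (x y : V a) :
    ds (jn a b) (Sum.inl x) (Sum.inl y) = ds a x y := rfl
@[simp] theorem ds_rr (a b : BT) (x y : V b) :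
    ds (jn a b) (Sum.inr x) (Sum.inr y) = ds b x y := rfl
@[simp] theorem ds_lr (a b : BT) (x : V a) (y : V b) :
    ds (jn a b) (Sum.inl x) (Sum.inr y) = ds a x (root a) + 1 + ds b (root b) y := rfl
@[simp] theorem ds_rl (a b : BT) (x : V b) (y : V a) :
    ds (jn a b) (Sum.inr x) (Sum.inl y) = ds b x (root b) + 1 + ds a (root a) y := rfl

theorem sz_pos (t : BT) : 1 ≤ sz t := by
  induction t with
  | pt => simp
  | jn a b iha ihb => simp only [sz_jn]; omega

theorem ht_lt_sz (t : BT) : ht t + 1 ≤ sz t := by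
  induction t with
  | pt => simp
  | jn a b iha ihb =>
    simp only [sz_jn, ht_jn]
    omega

theorem sz_two (t : BT) (h : 1 ≤ ht t) : 2 ≤ sz t := by
  have := ht_lt_sz t
  omega

theorem ht_le_dm (t : BT) : ht t ≤ dm t := by
  induction t with
  | pt => simp
  | jn a b iha ihb =>
    simp only [dm_jn, ht_jn]
    omega

theorem dm_le (t : BT) : dm t ≤ 2 * ht t := by
  induction t with
  | pt => simp
  | jn a b iha ihb =>
    simp only [dm_jn, ht_jn]
    omega

theorem ht_eq_zero (t : BT) (h : ht t = 0) : t = pt := by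
  cases t with
  | pt => rfl
  | jn a b => simp at h

/-- the cost and the Wiener index -/
theorem cost_wi (n : ℤ) (t : BT) :
    6 * cost n t + 6 * ((wi t : ℤ) + (n - sz t) * sig t) =
      3 * n * sz t * (sz t - 1) - (sz t - 1) * sz t * (2 * sz t - 1) := by
  induction t with
  | pt => simp
  | jn a b iha ihb =>
    simp only [sz_jn, cost_jn, wi_jn, sig_jn]
    push_cast
    linear_combination iha + ihb

end BT

end Pool.Agent.Lib.MP_b072d9_co
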