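import Pool.Agent.Lib.MP_b072d9_co.GIso

/-!
# MP_b072d9_co, piece T1: optimal rooted trees have level children
-/

set_option autoImplicit false

namespace Pool.Agent.Lib.MP_b072d9_co
namespace BT

theorem TOpt.kid {n : ℤ} {A C : BT} (h : TOpt n (jn A C)) : TOpt n C := by
  intro t' hs hh
  have h1 := h (jn A t') (by simp [hs]) (by simp [hh])
  simp only [cost_jn, hs] at h1
  linarith

theorem TOpt.iso {n : ℤ} {t t' : BT} (h : TOpt n t) (hi : Iso t t') : TOpt n t' := by
  intro s hs hh
  have h1 := h s (hs.trans hi.toU.sz_eq) (hh.trans hi.ht_eq)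
  rw [hi.cost_eq n]
  exact h1

/-- move down: gain `sz Cj * (n - 2 * sz Ci - sz Cj)` -/
theorem cost_down (n : ℤ) (R Ci Cj : BT) :
    cost n (jn (jn R Ci) Cj) - cost n (jn R (jn Ci Cj)) =
      sz Cj * (n - 2 * sz Ci - sz Cj) := by
  simp only [cost_jn, sz_jn]
  push_cast
  ring

/-- one direction of `kid_root_level` -/
theorem kid_root_level_aux {n : ℤ} {A C : BT} (h : TOpt n (jn A C)) (X Y : BT)
    (hX : X ∈ kids C) (hY : Y ∈ kids C) : ¬ ht Y < ht X := by
  intro hlt
  obtain ⟨S, hS, hperm⟩ := pull C Y hY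
  have hXS : X ∈ kids S := by
    have h1 : X ∈ Y :: kids S := hperm.mem_iff.mp hX
    rcases List.mem_cons.mp h1 with h2 | h2
    · rw [h2] at hlt
      omega
    · exact h2
  obtain ⟨R, hR, -⟩ := pull S X hXS
  -- the tree `jn A (jn (jn R X) Y)`
  have hiso : Iso (jn A C) (jn A (jn (jn R X) Y)) :=
    (Iso.refl A).jn_jn (hS.trans (hR.jn_jn (Iso.refl Y)))
  have hopt : TOpt n (jn A (jn (jn R X) Y)) := h.iso hiso
  have hY1 : (1 : ℤ) ≤ sz Y := by exact_mod_cast sz_pos Y
  have hR1 : (1 : ℤ) ≤ sz R := by exact_mod_cast sz_pos R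
  -- down
  have hd := hopt (jn A (jn R (jn X Y))) (by simp only [sz_jn]; ring)
    (by simp only [ht_jn]; omega)
  have hd' := cost_down n R X Y
  have hd2 : cost n (jn (jn R X) Y) ≤ cost n (jn R (jn X Y)) := by
    have e1 : cost n (jn A (jn (jn R X) Y)) = cost n A + cost n (jn (jn R X) Y) +
        ((sz A : ℤ) - 1) * sz (jn (jn R X) Y) * (n - sz A - sz (jn (jn R X) Y)) := rfl
    have e2 : cost n (jn A (jn R (jn X Y))) = cost n A + cost n (jn R (jn X Y)) +
        ((sz A : ℤ) - 1) * sz (jn R (jn X Y)) * (n - sz A - sz (jn R (jn X Y))) := rfl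
    have e3 : sz (jn R (jn X Y)) = sz (jn (jn R X) Y) := by simp only [sz_jn]; ring
    rw [e1, e2, e3] at hd
    linarith
  have hd3 : (sz Y : ℤ) * (n - 2 * sz X - sz Y) ≤ 0 := by linarith
  have hd4 : n - 2 * sz X - sz Y ≤ 0 := by
    by_contra hc
    have hc' : 0 < n - 2 * sz X - sz Y := not_le.mp hc
    have : 0 < (sz Y : ℤ) * (n - 2 * sz X - sz Y) := mul_pos (by linarith) hc'
    linarith
  -- up
  have hu := hopt (jn (jn A (jn R X)) Y) (by simp only [sz_jn]; ring)
    (by simp only [ht_jn]; omega)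
  have hu' := cost_down n A (jn R X) Y
  have hu3 : 0 ≤ (sz Y : ℤ) * (n - 2 * sz (jn R X) - sz Y) := by linarith
  have hu4 : 0 ≤ n - 2 * sz (jn R X) - sz Y := by
    by_contra hc
    have hc' : n - 2 * sz (jn R X) - sz Y < 0 := not_le.mp hc
    have : (sz Y : ℤ) * (n - 2 * sz (jn R X) - sz Y) < 0 :=
      mul_neg_of_pos_of_neg (by linarith) hc'
    linarith
  simp only [sz_jn] at hu4
  push_cast at hu4
  linarith

/-- the children of a child of the root have equal heights -/
theorem kid_root_level {n : ℤ} {A C : BT} (h : TOpt n (jn A C)) :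
    ∀ X ∈ kids C, ∀ Y ∈ kids C, ht X = ht Y := by
  intro X hX Y hY
  have h1 := kid_root_level_aux h X Y hX hY
  have h2 := kid_root_level_aux h Y X hY hX
  omega

/-- children of optimal rooted trees are level -/
theorem kid_lev {n : ℤ} {t : BT} (h : TOpt n t) : ∀ C ∈ kids t, Lev C := by
  have key : ∀ m : ℕ, ∀ t : BT, sz t ≤ m → TOpt n t → ∀ C ∈ kids t, Lev C := by
    intro m
    induction m with
    | zero =>
      intro t ht
      have := sz_pos t
      omega
    | succ m ih =>
      intro t ht hopt C hC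
      obtain ⟨R, hR, -⟩ := pull t C hC
      have h1 : TOpt n (jn R C) := hopt.iso hR
      have hs : sz (jn R C) = sz t := hR.toU.sz_eq
      have hR1 := sz_pos R
      simp only [sz_jn] at hs
      exact lev_of_kids C (ih C (by omega) h1.kid) (kid_root_level h1)
  exact key (sz t) t le_rfl h

end BT
end Pool.Agent.Lib.MP_b072d9_co
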