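import Pool.Agent.Lib.MP_b072d9_co.NDefs
import Pool.Agent.Lib.MP_b072d9_co.TReal

/-!
# MP_b072d9_co : piece T4, from the numerical statement to trees
-/

set_option autoImplicit false

namespace Pool.Agent.Lib.MP_b072d9_co

/-- the structure of piece T3 gives the one of the numerical part -/
theorem BT.IsLH.toLH {n : ℤ} {H : ℕ} {L : ℕ → ℤ} (hL : BT.IsLH n H L) :
    Pool.Agent.Lib.MP_b072d9_co.IsLH n H L where
  zero := hL.zero
  le := fun h a b hh => hL.le h a b hh.1 hh.2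
  ex := fun u hu => by
    obtain ⟨h, a, b, h1, h2, h3, h4⟩ := hL.ex u hu
    exact ⟨h, a, b, ⟨h1, h2⟩, h3, h4⟩

/-- **T4.** -/
theorem no_heavy_of (hN : NumericMain) : BT.NoHeavy := by
  intro n r p X R hp hX hR hX2 hR2 hs hh hopt
  have hxs := BT.ht_lt_sz X
  have hrs := BT.ht_lt_sz R
  have hr2 : 2 ≤ r := by
    rcases Nat.lt_or_ge 1 r with h | h
    · exact h
    · exfalso
      have h0 : BT.ht X = 0 := by omega
      have h1 := BT.ht_eq_zero X h0
      subst h1
      simp only [BT.sz_pt] at hs hh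
      omega
  obtain ⟨E, hE⟩ : ∃ E, BT.sz X = BT.ht X + 1 + E := ⟨BT.sz X - (BT.ht X + 1), by omega⟩
  obtain ⟨F, hF⟩ : ∃ F, BT.sz R = BT.ht R + 1 + F := ⟨BT.sz R - (BT.ht R + 1), by omega⟩
  obtain ⟨L, hL⟩ := BT.exists_IsLH (n : ℤ) r (by omega)
  obtain ⟨L1, hL1⟩ := BT.exists_IsLH (n : ℤ) (r - 1) (by omega)
  have k1 := BT.lower_L hL1 X hX (by omega) (by omega) E hE
  have k2 := BT.lower_L hL R hR (by omega) (by omega) F hF
  have key : ∀ u v : ℕ, u + v = E + F → L1 E + L F ≤ L u + L v := by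
    intro u v huv
    obtain ⟨Z, z1, z2, z3⟩ := BT.real_L (by omega) hL u
    obtain ⟨W, w1, w2, w3⟩ := BT.real_L (by omega) hL v
    have := hopt Z W z1 w1 (by omega)
    linarith
  have hm := BT.IsLH_mono hL1 hL (by omega) E
  have hEE : L1 E = L E := by
    have := key E F rfl
    linarith
  obtain ⟨h, a, b, g1, g2, g3, g4⟩ := hL1.ex E (by omega)
  have ma := BT.IsLH_mono hL1 hL (by omega) a
  have mb := BT.IsLH_mono hL1 hL (by omega) b
  have hle := hL.le h a b g1 (by omega)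
  rw [g3] at hle
  have hn : ((n : ℤ)) = ((n - 1 : ℕ) : ℤ) + 1 := by omega
  have hLL := hL.toLH
  have g5 : L (a + b + h) = L a + L b + cst (n : ℤ) h a b := by
    rw [g3]
    linarith
  rw [hn] at hLL g5
  refine hN (n - 1) r p L hp hLL h a b F g1 (by omega) g5 (by omega) (by omega) ?_
  intro u v huv
  rw [g3] at huv ⊢
  rw [← hEE]
  exact key u v huv

end Pool.Agent.Lib.MP_b072d9_co
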